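import Pool.Agent.Helper47.Perc.ArmDefs

/-!
Self-duality: the left-right crossing probability of the box `[0,n+1] × [0,n]` is at least `1/2`.
-/

namespace H47Perc
open Finset

lemma mem_box {a b c d : ℤ} {z : ℤ × ℤ} :
    z ∈ box a b c d ↔ a ≤ z.1 ∧ z.1 ≤ b ∧ c ≤ z.2 ∧ z.2 ≤ d := by
  unfold box
  rw [Finset.mem_Icc, Prod.le_def, Prod.le_def]
  tauto

/-- left-right crossing -/
def LR (a b c d : ℤ) (ω : Finset (Sym2 (ℤ × ℤ))) : Prop :=
  ∃ y y' : ℤ, c ≤ y ∧ y ≤ d ∧ c ≤ y' ∧ y' ≤ d ∧ Joined ω (a, y) (b, y')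

/-- bottom-top crossing -/
def BT (a b c d : ℤ) (ω : Finset (Sym2 (ℤ × ℤ))) : Prop :=
  ∃ x x' : ℤ, a ≤ x ∧ x ≤ b ∧ a ≤ x' ∧ x' ≤ b ∧ Joined ω (x, c) (x', d)

/-- horizontal edge -/
def hE (i j : ℤ) : Sym2 (ℤ × ℤ) := s((i, j), (i + 1, j))

/-- vertical edge -/
def vE (i j : ℤ) : Sym2 (ℤ × ℤ) := s((i, j), (i, j + 1))

lemma mem_edgesIn {S : Finset (ℤ × ℤ)} {u v : ℤ × ℤ} :
    s(u, v) ∈ edgesIn S ↔ u ∈ S ∧ v ∈ S ∧ lattice.Adj u v := by
  classical
  unfold edgesIn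
  rw [mem_filter, mk_mem_sym2_iff, SimpleGraph.mem_edgeSet, and_assoc]

lemma hE_mem {S : Finset (ℤ × ℤ)} {i j : ℤ} :
    hE i j ∈ edgesIn S ↔ (i, j) ∈ S ∧ (i + 1, j) ∈ S := by
  unfold hE
  rw [mem_edgesIn]
  constructor
  · rintro ⟨h1, h2, _⟩; exact ⟨h1, h2⟩
  · rintro ⟨h1, h2⟩
    refine ⟨h1, h2, Or.inr ⟨rfl, ?_⟩⟩
    simp

lemma vE_mem {S : Finset (ℤ × ℤ)} {i j : ℤ} :
    vE i j ∈ edgesIn S ↔ (i, j) ∈ S ∧ (i, j + 1) ∈ S := by
  unfold vE
  rw [mem_edgesIn]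
  constructor
  · rintro ⟨h1, h2, _⟩; exact ⟨h1, h2⟩
  · rintro ⟨h1, h2⟩
    refine ⟨h1, h2, Or.inl ⟨rfl, ?_⟩⟩
    simp

lemma edgesIn_cases {S : Finset (ℤ × ℤ)} {e : Sym2 (ℤ × ℤ)} (he : e ∈ edgesIn S) :
    (∃ i j, e = hE i j) ∨ (∃ i j, e = vE i j) := by
  induction e using Sym2.ind with
  | _ u v =>
    rw [mem_edgesIn] at he
    obtain ⟨_, _, h⟩ := he
    obtain ⟨a, b⟩ := u
    obtain ⟨c, d⟩ := v
    rcases h with ⟨h1, h2⟩ | ⟨h1, h2⟩
    · right
      simp only at h1 h2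
      subst h1
      rcases (abs_eq (by norm_num)).1 h2 with h | h
      · refine ⟨a, d, ?_⟩
        have : b = d + 1 := by omega
        rw [this, vE, Sym2.eq_swap]
      · refine ⟨a, b, ?_⟩
        have : d = b + 1 := by omega
        rw [this, vE]
    · left
      simp only at h1 h2
      subst h1
      rcases (abs_eq (by norm_num)).1 h2 with h | h
      · refine ⟨c, b, ?_⟩
        have : a = c + 1 := by omega
        rw [this, hE, Sym2.eq_swap]
      · refine ⟨a, b, ?_⟩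
        have : c = a + 1 := by omega
        rw [this, hE]

/-! ### the counting lemma -/

lemma tel2 (a : ℕ → ZMod 2) (m : ℕ) : ∑ i ∈ range m, (a i + a (i+1)) = a 0 + a m := by
  induction m with
  | zero => simp [CharTwo.add_self_eq_zero]
  | succ m ih =>
    rw [sum_range_succ, ih]
    have : a m + a m = 0 := CharTwo.add_self_eq_zero _
    linear_combination this

lemma abel2 (u g : ℕ → ZMod 2) (n : ℕ) :
    ∑ j ∈ range (n+1), u j * (g j + g (j+1))
      = u 0 * g 0 + ∑ j ∈ range n, (u (j+1) + u j) * g (j+1) + u n * g (n+1) := by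
  have h1 : ∑ j ∈ range (n+1), u j * (g j + g (j+1))
      = ∑ j ∈ range (n+1), u j * g j + ∑ j ∈ range (n+1), u j * g (j+1) := by
    rw [← sum_add_distrib]
    exact sum_congr rfl (fun j _ => by ring)
  rw [h1, sum_range_succ' (fun j => u j * g j), sum_range_succ (fun j => u j * g (j+1))]
  have h2 : ∑ j ∈ range n, (u (j+1) + u j) * g (j+1)
      = ∑ j ∈ range n, u (j+1) * g (j+1) + ∑ j ∈ range n, u j * g (j+1) := by
    rw [← sum_add_distrib]
    exact sum_congr rfl (fun j _ => by ring)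
  rw [h2]
  ring

theorem dual_count (n : ℕ) (f g : ℕ → ℕ → ZMod 2)
    (hf0 : ∀ j ≤ n, f 0 j = 1) (hf1 : ∀ j ≤ n, f (n+1) j = 0)
    (hg0 : ∀ j ≤ n, g 0 j = 1) (hg1 : ∀ j ≤ n, g (n+1) j = 0)
    (H : ∀ i ≤ n, ∀ j ≤ n, (f i j + f (i+1) j) * (g j i + g (j+1) i) = 0)
    (V : ∀ i < n, ∀ j < n,
      (f (i+1) j + f (i+1) (j+1)) * (g (j+1) i + g (j+1) (i+1)) = 0) : False := by
  have h1 : ∀ i ∈ range (n+1), (f i 0 + f (i+1) 0)
      + (∑ j ∈ range n, (f i j + f i (j+1)) * g (j+1) i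
        + ∑ j ∈ range n, (f (i+1) j + f (i+1) (j+1)) * g (j+1) i) = 0 := by
    intro i hi
    rw [mem_range] at hi
    have a1 := abel2 (fun j => f i j + f (i+1) j) (fun j => g j i) n
    have a2 : ∑ j ∈ range (n+1), (f i j + f (i+1) j) * (g j i + g (j+1) i) = 0 :=
      sum_eq_zero (fun j hj => H i (by omega) j (by rw [mem_range] at hj; omega))
    rw [a2, hg0 i (by omega), hg1 i (by omega)] at a1
    rw [← sum_add_distrib]
    have a3 : ∑ j ∈ range n, ((f i j + f i (j+1)) * g (j+1) i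
        + (f (i+1) j + f (i+1) (j+1)) * g (j+1) i)
        = ∑ j ∈ range n, (f i (j+1) + f (i+1) (j+1) + (f i j + f (i+1) j)) * g (j+1) i :=
      sum_congr rfl (fun j _ => by ring)
    rw [a3]
    linear_combination -a1
  have h2 := sum_eq_zero h1
  rw [sum_add_distrib, tel2 (fun i => f i 0), hf0 0 (by omega), hf1 0 (by omega),
    sum_add_distrib] at h2
  rw [sum_range_succ' (fun i => ∑ j ∈ range n, (f i j + f i (j+1)) * g (j+1) i),
    sum_range_succ (fun i => ∑ j ∈ range n, (f (i+1) j + f (i+1) (j+1)) * g (j+1) i)] at h2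
  have h3 : ∑ j ∈ range n, (f 0 j + f 0 (j+1)) * g (j+1) 0 = 0 := by
    apply sum_eq_zero
    intro j hj
    rw [mem_range] at hj
    rw [hf0 j (by omega), hf0 (j+1) (by omega)]
    have : (1:ZMod 2) + 1 = 0 := by decide
    rw [this, zero_mul]
  have h4 : ∑ j ∈ range n, (f (n+1) j + f (n+1) (j+1)) * g (j+1) n = 0 := by
    apply sum_eq_zero
    intro j hj
    rw [mem_range] at hj
    rw [hf1 j (by omega), hf1 (j+1) (by omega)]
    ring
  have h5 : ∑ i ∈ range n, ∑ j ∈ range n, (f (i+1) j + f (i+1) (j+1)) * g (j+1) (i+1)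
      + ∑ i ∈ range n, ∑ j ∈ range n, (f (i+1) j + f (i+1) (j+1)) * g (j+1) i = 0 := by
    rw [← sum_add_distrib]
    apply sum_eq_zero
    intro i hi
    rw [← sum_add_distrib]
    apply sum_eq_zero
    intro j hj
    rw [mem_range] at hi hj
    linear_combination V i hi j hj
  rw [h3, h4] at h2
  have h6 : (1:ZMod 2) = 0 := by linear_combination h2 - h5
  exact absurd h6 (by decide)

/-! ### the dual configuration -/

/-- auxiliary endpoint map -/
def dF (u v : ℤ × ℤ) : ℤ × ℤ :=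
  ((u.2 + v.2 + u.1 - v.1 + 1) / 2, (u.1 + v.1 - u.2 + v.2 - 1) / 2)

/-- the dual edge, reflected back to the lattice -/
def dT : Sym2 (ℤ × ℤ) → Sym2 (ℤ × ℤ) :=
  Sym2.lift ⟨fun u v => s(dF u v, dF v u), fun _ _ => Sym2.eq_swap⟩

lemma dT_hE (i j : ℤ) : dT (hE i j) = hE j i := by
  unfold dT hE dF
  simp only [Sym2.lift_mk]
  congr 2 <;> omega

lemma dT_vE (i j : ℤ) : dT (vE i j) = vE (j+1) (i-1) := by
  unfold dT vE dF
  simp only [Sym2.lift_mk]
  rw [Sym2.eq_swap]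
  congr 2 <;> omega

lemma dT_dT {S : Finset (ℤ × ℤ)} {e : Sym2 (ℤ × ℤ)} (he : e ∈ edgesIn S) : dT (dT e) = e := by
  rcases edgesIn_cases he with ⟨i, j, rfl⟩ | ⟨i, j, rfl⟩
  · rw [dT_hE, dT_hE]
  · rw [dT_vE, dT_vE]
    congr 1 <;> ring

open Classical in
/-- the partner of an edge of `S` -/
noncomputable def dU (S : Finset (ℤ × ℤ)) (e : Sym2 (ℤ × ℤ)) : Sym2 (ℤ × ℤ) :=
  if dT e ∈ edgesIn S then dT e else e

lemma dU_mem {S : Finset (ℤ × ℤ)} {e : Sym2 (ℤ × ℤ)} (he : e ∈ edgesIn S) :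
    dU S e ∈ edgesIn S := by
  unfold dU
  split_ifs with h
  · exact h
  · exact he

lemma dU_dU {S : Finset (ℤ × ℤ)} {e : Sym2 (ℤ × ℤ)} (he : e ∈ edgesIn S) :
    dU S (dU S e) = e := by
  unfold dU
  by_cases h : dT e ∈ edgesIn S
  · rw [if_pos h, if_pos (by rw [dT_dT he]; exact he), dT_dT he]
  · rw [if_neg h, if_neg h]

open Classical in
/-- the dual configuration -/
noncomputable def dstar (S : Finset (ℤ × ℤ)) (ω : Finset (Sym2 (ℤ × ℤ))) :
    Finset (Sym2 (ℤ × ℤ)) :=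
  (edgesIn S).filter (fun e => dU S e ∉ ω)

lemma mem_dstar {S : Finset (ℤ × ℤ)} {ω : Finset (Sym2 (ℤ × ℤ))} {e : Sym2 (ℤ × ℤ)} :
    e ∈ dstar S ω ↔ e ∈ edgesIn S ∧ dU S e ∉ ω := by
  unfold dstar
  rw [mem_filter]

lemma dstar_dstar {S : Finset (ℤ × ℤ)} {ω : Finset (Sym2 (ℤ × ℤ))} (h : ω ⊆ edgesIn S) :
    dstar S (dstar S ω) = ω := by
  ext e
  rw [mem_dstar, mem_dstar]
  constructor
  · rintro ⟨h1, h2⟩
    by_contra h3
    exact h2 ⟨dU_mem h1, by rwa [dU_dU h1]⟩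
  · intro h1
    exact ⟨h h1, fun h2 => h2.2 (by rwa [dU_dU (h h1)])⟩

/-! ### the deterministic statement -/

lemma joined_refl (ω : Finset (Sym2 (ℤ × ℤ))) (u : ℤ × ℤ) : Joined ω u u :=
  SimpleGraph.Reachable.refl _

lemma joined_symm {ω : Finset (Sym2 (ℤ × ℤ))} {u v : ℤ × ℤ} (h : Joined ω u v) :
    Joined ω v u := SimpleGraph.Reachable.symm h

lemma joined_trans {ω : Finset (Sym2 (ℤ × ℤ))} {u v w : ℤ × ℤ} (h : Joined ω u v)
    (h' : Joined ω v w) : Joined ω u w := SimpleGraph.Reachable.trans h h'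

lemma joined_edge {ω : Finset (Sym2 (ℤ × ℤ))} {u v : ℤ × ℤ} (h : s(u, v) ∈ ω) :
    Joined ω u v := by
  by_cases huv : u = v
  · rw [huv]; exact joined_refl _ _
  · apply SimpleGraph.Adj.reachable
    rw [SimpleGraph.fromEdgeSet_adj]
    exact ⟨by exact_mod_cast h, huv⟩

/-- joined to the left side -/
def leftJ (n : ℤ) (ω : Finset (Sym2 (ℤ × ℤ))) (z : ℤ × ℤ) : Prop :=
  ∃ y : ℤ, 0 ≤ y ∧ y ≤ n ∧ Joined ω (0, y) z

lemma leftJ_iff {n : ℤ} {ω : Finset (Sym2 (ℤ × ℤ))} {u v : ℤ × ℤ} (h : s(u, v) ∈ ω) :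
    leftJ n ω u ↔ leftJ n ω v := by
  constructor
  · rintro ⟨y, h0, h1, h2⟩
    exact ⟨y, h0, h1, joined_trans h2 (joined_edge h)⟩
  · rintro ⟨y, h0, h1, h2⟩
    exact ⟨y, h0, h1, joined_trans h2 (joined_symm (joined_edge h))⟩

theorem LR_or_dual (n : ℕ) (ω : Finset (Sym2 (ℤ × ℤ))) :
    LR 0 (n+1) 0 n ω ∨ LR 0 (n+1) 0 n (dstar (box 0 (n+1) 0 n) ω) := by
  classical
  by_contra hcon
  rw [not_or] at hcon
  obtain ⟨c1, c2⟩ := hcon
  set S := box 0 ((n:ℤ)+1) 0 n with hS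
  set ω' := dstar S ω with hω'
  let ind : Finset (Sym2 (ℤ × ℤ)) → ℕ → ℕ → ZMod 2 := fun η i j =>
    if leftJ n η ((i:ℤ), (j:ℤ)) then 1 else 0
  have ind_eq : ∀ η : Finset (Sym2 (ℤ × ℤ)), ∀ i j i' j' : ℕ,
      s(((i:ℤ), (j:ℤ)), ((i':ℤ), (j':ℤ))) ∈ η → ind η i j + ind η i' j' = 0 := by
    intro η i j i' j' h
    have h1 := leftJ_iff (n := n) h
    have h2 : ind η i j = ind η i' j' := by
      simp only [ind]
      by_cases h3 : leftJ n η ((i:ℤ), (j:ℤ))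
      · rw [if_pos h3, if_pos (h1.1 h3)]
      · rw [if_neg h3, if_neg (fun h4 => h3 (h1.2 h4))]
    rw [h2]
    exact CharTwo.add_self_eq_zero _
  have ind0 : ∀ η : Finset (Sym2 (ℤ × ℤ)), ∀ j ≤ n, ind η 0 j = 1 := by
    intro η j hj
    simp only [ind]
    rw [if_pos]
    exact ⟨j, by omega, by exact_mod_cast hj, joined_refl _ _⟩
  have ind1 : ∀ η : Finset (Sym2 (ℤ × ℤ)), ¬ LR 0 (n+1) 0 n η → ∀ j ≤ n, ind η (n+1) j = 0 := by
    intro η hη j hj
    simp only [ind]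
    rw [if_neg]
    rintro ⟨y, h0, h1, h2⟩
    apply hη
    refine ⟨y, j, h0, h1, by omega, by exact_mod_cast hj, ?_⟩
    push_cast at h2
    exact h2
  apply dual_count n (ind ω) (ind ω') (ind0 ω) (ind1 ω c1) (ind0 ω') (ind1 ω' c2)
  · intro i hi j hj
    have m1 : hE (i:ℤ) (j:ℤ) ∈ edgesIn S := by
      rw [hE_mem, hS, mem_box, mem_box]
      simp only
      omega
    have m2 : hE (j:ℤ) (i:ℤ) ∈ edgesIn S := by
      rw [hE_mem, hS, mem_box, mem_box]
      simp only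
      omega
    by_cases h : hE (i:ℤ) (j:ℤ) ∈ ω
    · have := ind_eq ω i j (i+1) j (by push_cast; exact h)
      rw [this, zero_mul]
    · have h1 : hE (j:ℤ) (i:ℤ) ∈ ω' := by
        rw [hω', mem_dstar]
        refine ⟨m2, ?_⟩
        unfold dU
        rw [dT_hE, if_pos m1]
        exact h
      have := ind_eq ω' j i (j+1) i (by push_cast; exact h1)
      rw [this, mul_zero]
  · intro i hi j hj
    have m1 : vE ((i:ℤ)+1) (j:ℤ) ∈ edgesIn S := by
      rw [vE_mem, hS, mem_box, mem_box]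
      simp only
      omega
    have m2 : vE ((j:ℤ)+1) (i:ℤ) ∈ edgesIn S := by
      rw [vE_mem, hS, mem_box, mem_box]
      simp only
      omega
    by_cases h : vE ((i:ℤ)+1) (j:ℤ) ∈ ω
    · have := ind_eq ω (i+1) j (i+1) (j+1) (by push_cast; exact h)
      rw [this, zero_mul]
    · have h1 : vE ((j:ℤ)+1) (i:ℤ) ∈ ω' := by
        rw [hω', mem_dstar]
        refine ⟨m2, ?_⟩
        unfold dU
        have e1 : ((j:ℤ)+1) - 1 = j := by ring
        rw [dT_vE, e1, if_pos m1]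
        exact h
      have := ind_eq ω' (j+1) i (j+1) (i+1) (by push_cast; exact h1)
      rw [this, mul_zero]

/-! ### the probability -/

open Classical in
theorem perc_half_eq (S : Finset (ℤ × ℤ)) (A : Finset (Sym2 (ℤ × ℤ)) → Prop) :
    perc half S A = (#((edgesIn S).powerset.filter A) : ℝ) / 2 ^ #(edgesIn S) := by
  unfold perc half
  have : ∀ ω ∈ (edgesIn S).powerset.filter A,
      (∏ _e ∈ ω, (1/2:ℝ)) * ∏ _e ∈ edgesIn S \ ω, (1 - 1/2 : ℝ) = (1/2) ^ #(edgesIn S) := by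
    intro ω hω
    rw [mem_filter, mem_powerset] at hω
    rw [prod_const, prod_const]
    have : (1 - 1/2 : ℝ) = 1/2 := by norm_num
    rw [this, ← pow_add, card_sdiff_of_subset hω.1]
    congr 1
    have := card_le_card hω.1
    omega
  rw [sum_congr rfl this, sum_const, nsmul_eq_mul, one_div, inv_pow, div_eq_mul_inv]

theorem crossing_half (n : ℕ) :
    1/2 ≤ perc half (box 0 (n+1) 0 n) (LR 0 (n+1) 0 n) := by
  classical
  rw [perc_half_eq]
  set S := box 0 ((n:ℤ)+1) 0 n with hS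
  have h1 : #((edgesIn S).powerset.filter (fun ω => ¬ LR 0 ((n:ℤ)+1) 0 n ω))
      ≤ #((edgesIn S).powerset.filter (LR 0 ((n:ℤ)+1) 0 n)) := by
    apply card_le_card_of_injOn (dstar S)
    · intro ω hω
      rw [coe_filter, Set.mem_ofPred_eq] at hω
      rw [coe_filter, Set.mem_ofPred_eq]
      refine ⟨?_, ?_⟩
      · rw [mem_powerset]
        intro e he
        rw [mem_dstar] at he
        exact he.1
      · exact (LR_or_dual n ω).resolve_left hω.2
    · intro ω hω η hη h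
      rw [coe_filter, Set.mem_ofPred_eq, mem_powerset] at hω hη
      rw [← dstar_dstar hω.1, h, dstar_dstar hη.1]
  have h2 : #((edgesIn S).powerset.filter (LR 0 ((n:ℤ)+1) 0 n))
      + #((edgesIn S).powerset.filter (fun ω => ¬ LR 0 ((n:ℤ)+1) 0 n ω)) = 2 ^ #(edgesIn S) := by
    rw [card_filter_add_card_filter_not, card_powerset]
  have h3 : (2:ℝ) ^ #(edgesIn S) ≤ 2 * (#((edgesIn S).powerset.filter (LR 0 ((n:ℤ)+1) 0 n)) : ℝ) := by
    have : 2 ^ #(edgesIn S) ≤ 2 * #((edgesIn S).powerset.filter (LR 0 ((n:ℤ)+1) 0 n)) := by omega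
    exact_mod_cast this
  rw [div_le_div_iff₀ (by norm_num) (by positivity)]
  linarith

end H47Perc
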