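import Pool.Agent.Helper47.Perc.Duality2
import Pool.Agent.Helper26.Perc.Planar

/-!
From crossings of `3n × 2n` boxes to crossings of `kn × n` boxes.
-/

namespace H47Perc
open Finset
open Pool.Agent.Helper69.RSW (P P_mono P_map P_restrict P_congr Dep Up harris P_nonneg)

/-- `Joined` inside a set of edges of `S`: a lattice walk in `S` -/
lemma joined_walk_in {S : Finset (ℤ × ℤ)} {ω : Finset (Sym2 (ℤ × ℤ))} (hω : ω ⊆ edgesIn S)
    {u v : ℤ × ℤ} (hu : u ∈ S) (h : Joined ω u v) :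
    ∃ p : lattice.Walk u v, (∀ e ∈ p.edges, e ∈ ω) ∧ ∀ w ∈ p.support, w ∈ S := by
  classical
  obtain ⟨p, hp⟩ := joined_walk (fun e he => by
    have := hω he
    unfold edgesIn at this
    exact (mem_filter.1 this).2) h
  exact ⟨p, hp, support_subset p (fun e he => hω (hp e he)) hu⟩

/-- crossings of a box and of a subbox of full height meet -/
theorem crossing_meet {a b a' b' c d x x' y y' : ℤ} (hcd : c < d) (h1 : a ≤ a') (h2 : b' ≤ b)
    {ω ω' : Finset (Sym2 (ℤ × ℤ))} (hω : ω ⊆ edgesIn (box a b c d))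
    (hω' : ω' ⊆ edgesIn (box a' b' c d)) (hx' : a' ≤ x' ∧ x' ≤ b') (hy : c ≤ y ∧ y ≤ d)
    (hj : Joined ω (a, y) (b, y')) (hj' : Joined ω' (x, c) (x', d)) :
    ∃ z, Joined ω (a, y) z ∧ Joined ω' (x, c) z := by
  classical
  obtain ⟨q, hq1, hq2⟩ := joined_walk_in hω (by rw [mem_box]; simp only; omega) hj
  obtain ⟨p, hp1, hp2⟩ := joined_walk_in hω' (by rw [mem_box]; simp only; omega)
    (joined_symm hj')
  obtain ⟨w, hw1, hw2⟩ := crossing_walks p q (by simpa using hcd)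
    (fun w hw => by have := hq2 w hw; rw [mem_box] at this; exact this.2.2)
    (fun w hw => by
      have := hp2 w hw; rw [mem_box] at this; simp only; omega)
    (fun w hw => by
      have := hp2 w hw; rw [mem_box] at this; simp only; omega)
  refine ⟨w, ?_, ?_⟩
  · exact walk_joined (q.takeUntil w hw2) (fun e he => hq1 e (q.edges_takeUntil_subset_edges hw2 he))
  · refine joined_trans hj' ?_
    exact walk_joined (p.takeUntil w hw1) (fun e he => hp1 e (p.edges_takeUntil_subset_edges hw1 he))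

lemma perc_restrict {S T : Finset (ℤ × ℤ)} (h : T ⊆ S) (A : Finset (Sym2 (ℤ × ℤ)) → Prop) :
    perc half S (fun ω => A (ω ∩ edgesIn T)) = perc half T A := by
  rw [Pool.Agent.Helper69.RSW.perc_half_eq, Pool.Agent.Helper69.RSW.perc_half_eq]
  have hdep : Dep (edgesIn T) (fun ω => A (ω ∩ edgesIn T)) := by
    intro S
    simp only [inter_assoc, inter_self]
  rw [P_restrict (edgesIn_mono h) hdep]
  apply P_congr
  intro S hS
  rw [inter_eq_left.2 hS]

lemma perc_harris (S : Finset (ℤ × ℤ)) {A B : Finset (Sym2 (ℤ × ℤ)) → Prop} (hA : Up A)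
    (hB : Up B) : perc half S A * perc half S B ≤ perc half S (fun ω => A ω ∧ B ω) := by
  rw [Pool.Agent.Helper69.RSW.perc_half_eq, Pool.Agent.Helper69.RSW.perc_half_eq,
    Pool.Agent.Helper69.RSW.perc_half_eq]
  exact harris _ hA hB

lemma perc_half_mono {S : Finset (ℤ × ℤ)} {A B : Finset (Sym2 (ℤ × ℤ)) → Prop}
    (h : ∀ ω ⊆ edgesIn S, A ω → B ω) : perc half S A ≤ perc half S B := by
  rw [Pool.Agent.Helper69.RSW.perc_half_eq, Pool.Agent.Helper69.RSW.perc_half_eq]
  exact P_mono h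

lemma perc_half_nonneg (S : Finset (ℤ × ℤ)) (A : Finset (Sym2 (ℤ × ℤ)) → Prop) :
    0 ≤ perc half S A := by
  rw [Pool.Agent.Helper69.RSW.perc_half_eq]
  exact P_nonneg _ _

/-- an event that happens for the fully open configuration has positive probability -/
lemma perc_half_pos (S : Finset (ℤ × ℤ)) (A : Finset (Sym2 (ℤ × ℤ)) → Prop)
    (h : A (edgesIn S)) : (1/2) ^ #(edgesIn S) ≤ perc half S A := by
  classical
  rw [perc_half_eq, one_div, inv_pow, div_eq_mul_inv]
  have : 1 ≤ #((edgesIn S).powerset.filter A) := by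
    rw [Nat.one_le_iff_ne_zero, card_ne_zero]
    exact ⟨edgesIn S, by rw [mem_filter, mem_powerset]; exact ⟨subset_refl _, h⟩⟩
  have h1 : (1:ℝ) ≤ #((edgesIn S).powerset.filter A) := by exact_mod_cast this
  have h2 : (0:ℝ) ≤ (2 ^ #(edgesIn S))⁻¹ := by positivity
  nlinarith

lemma up_LR (a b c d : ℤ) : Up (LR a b c d) := by
  rintro S T h ⟨y, y', h1, h2, h3, h4, h5⟩
  exact ⟨y, y', h1, h2, h3, h4, joined_mono h h5⟩

lemma up_BT (a b c d : ℤ) : Up (BT a b c d) := by
  rintro S T h ⟨y, y', h1, h2, h3, h4, h5⟩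
  exact ⟨y, y', h1, h2, h3, h4, joined_mono h h5⟩

lemma up_inter {A : Finset (Sym2 (ℤ × ℤ)) → Prop} (hA : Up A) (G : Finset (Sym2 (ℤ × ℤ))) :
    Up (fun ω => A (ω ∩ G)) := fun _ _ h h1 => hA _ _ (inter_subset_inter_right h) h1

lemma box_mono {a b c d a' b' c' d' : ℤ} (h1 : a ≤ a') (h2 : b' ≤ b) (h3 : c ≤ c')
    (h4 : d' ≤ d) : box a' b' c' d' ⊆ box a b c d := by
  intro z hz
  rw [mem_box] at hz ⊢
  omega

/-- taller boxes are easier to cross -/
lemma pLR_height (m : ℤ) {n n' : ℤ} (h : n ≤ n') : pLR m n ≤ pLR m n' := by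
  unfold pLR
  rw [← perc_restrict (box_mono (le_refl 0) (le_refl m) (le_refl 0) h)]
  apply perc_half_mono
  rintro ω hω ⟨y, y', h1, h2, h3, h4, h5⟩
  exact ⟨y, y', h1, by omega, h3, by omega, joined_mono inter_subset_left h5⟩

lemma pLR_nonneg (m n : ℤ) : 0 ≤ pLR m n := perc_half_nonneg _ _

lemma pLR_pos {m n : ℤ} (hm : 0 ≤ m) (hn : 0 ≤ n) : 0 < pLR m n := by
  refine lt_of_lt_of_le (by positivity : (0:ℝ) < (1/2) ^ #(edgesIn (box 0 m 0 n)))
    (perc_half_pos _ _ ?_)
  refine ⟨0, 0, le_refl _, hn, le_refl _, hn, ?_⟩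
  obtain ⟨k, rfl⟩ := Int.eq_ofNat_of_zero_le hm
  have : ∀ j : ℕ, j ≤ k → Joined (edgesIn (box 0 (k:ℤ) 0 n)) (0, 0) ((j:ℤ), 0) := by
    intro j
    induction j with
    | zero => intro _; exact joined_refl _ _
    | succ j ih =>
      intro hj
      refine joined_trans (ih (by omega)) ?_
      have : hE (j:ℤ) 0 ∈ edgesIn (box 0 (k:ℤ) 0 n) := by
        rw [hE_mem, mem_box, mem_box]
        simp only
        omega
      have h2 := joined_edge (u := ((j:ℤ), 0)) (v := ((j:ℤ) + 1, 0)) this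
      push_cast
      exact h2
  exact this k le_rfl

/-- gluing two horizontal crossings by a vertical crossing of the overlap -/
theorem pLR_glue {m m' n : ℤ} (hn : 0 < n) (hm : n ≤ m) (hm' : n ≤ m') :
    pLR m n * pLR m' n * pLR n n ≤ pLR (m + m' - n) n := by
  set S := box 0 (m + m' - n) 0 n with hS
  set T1 := box 0 m 0 n with hT1
  set T2 := box (m - n) (m + m' - n) 0 n with hT2
  set T3 := box (m - n) m 0 n with hT3
  have s1 : T1 ⊆ S := box_mono (by omega) (by omega) (by omega) (by omega)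
  have s2 : T2 ⊆ S := box_mono (by omega) (by omega) (by omega) (by omega)
  have s3 : T3 ⊆ S := box_mono (by omega) (by omega) (by omega) (by omega)
  have e1 : perc half S (fun ω => LR 0 m 0 n (ω ∩ edgesIn T1)) = pLR m n := by
    rw [perc_restrict s1, hT1, perc_LR]; congr 1 <;> ring
  have e2 : perc half S (fun ω => LR (m - n) (m + m' - n) 0 n (ω ∩ edgesIn T2)) = pLR m' n := by
    rw [perc_restrict s2, hT2, perc_LR]; congr 1 <;> ring
  have e3 : perc half S (fun ω => BT (m - n) m 0 n (ω ∩ edgesIn T3)) = pLR n n := by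
    rw [perc_restrict s3, hT3, perc_BT]; congr 1 <;> ring
  have u1 : Up (fun ω => LR 0 m 0 n (ω ∩ edgesIn T1)) := up_inter (up_LR _ _ _ _) _
  have u2 : Up (fun ω => LR (m - n) (m + m' - n) 0 n (ω ∩ edgesIn T2)) :=
    up_inter (up_LR _ _ _ _) _
  have u3 : Up (fun ω => BT (m - n) m 0 n (ω ∩ edgesIn T3)) := up_inter (up_BT _ _ _ _) _
  have h12 := perc_harris S u1 u2
  have h123 := perc_harris S (u1.and u2) u3
  rw [e1, e2] at h12
  rw [e3] at h123
  calc pLR m n * pLR m' n * pLR n n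
      ≤ perc half S (fun ω => LR 0 m 0 n (ω ∩ edgesIn T1) ∧
          LR (m - n) (m + m' - n) 0 n (ω ∩ edgesIn T2)) * pLR n n :=
        mul_le_mul_of_nonneg_right h12 (pLR_nonneg _ _)
    _ ≤ _ := h123
    _ ≤ pLR (m + m' - n) n := by
        apply perc_half_mono
        rintro ω hω ⟨⟨⟨y, y', a1, a2, a3, a4, a5⟩, ⟨z, z', b1, b2, b3, b4, b5⟩⟩,
          ⟨x, x', c1, c2, c3, c4, c5⟩⟩
        obtain ⟨w, w1, w2⟩ := crossing_meet (a := 0) (b := m) (a' := m - n) (b' := m) hn (by omega)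
          (by omega) inter_subset_right inter_subset_right ⟨c3, c4⟩ ⟨a1, a2⟩ a5 c5
        obtain ⟨v, v1, v2⟩ := crossing_meet (a := m - n) (b := m + m' - n) (a' := m - n) (b' := m)
          hn (by omega) (by omega) inter_subset_right inter_subset_right ⟨c3, c4⟩ ⟨b1, b2⟩ b5 c5
        refine ⟨y, z', a1, a2, b3, b4, ?_⟩
        have i1 := joined_mono (inter_subset_left (s₁ := ω) (s₂ := edgesIn T1)) w1
        have i2 := joined_mono (inter_subset_left (s₁ := ω) (s₂ := edgesIn T3)) w2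
        have i3 := joined_mono (inter_subset_left (s₁ := ω) (s₂ := edgesIn T3)) v2
        have i4 := joined_mono (inter_subset_left (s₁ := ω) (s₂ := edgesIn T2)) v1
        have i5 := joined_mono (inter_subset_left (s₁ := ω) (s₂ := edgesIn T2)) b5
        exact joined_trans i1 (joined_trans (joined_symm i2) (joined_trans i3
          (joined_trans (joined_symm i4) i5)))

theorem aspect_even {c : ℝ} (hc : 0 < c) (h : ∀ n : ℕ, 1 ≤ n → c ≤ pLR (3*n) (2*n)) (k : ℕ) :
    ∃ c' > 0, ∀ n : ℕ, 1 ≤ n → c' ≤ pLR ((k+2:ℕ)*(2*n)) (2*n) := by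
  have sq : ∀ n : ℕ, 1/2 ≤ pLR (2*n) (2*n) := fun n =>
    half_le_pLR (by omega) (by omega) (by omega)
  have two : ∀ n : ℕ, 1 ≤ n → c * c * (1/2) ≤ pLR (2*(2*n)) (2*n) := by
    intro n hn
    have h1 := pLR_glue (m := 3*n) (m' := 3*n) (n := 2*n) (by omega) (by omega) (by omega)
    have e : (3:ℤ)*n + 3*n - 2*n = 2*(2*n) := by ring
    rw [e] at h1
    refine le_trans ?_ h1
    have h2 := h n hn
    have h3 := sq n
    apply mul_le_mul _ h3 (by norm_num) (mul_nonneg (pLR_nonneg _ _) (pLR_nonneg _ _))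
    exact mul_le_mul h2 h2 hc.le (pLR_nonneg _ _)
  induction k with
  | zero =>
    refine ⟨c * c * (1/2), by positivity, fun n hn => ?_⟩
    have := two n hn
    push_cast
    simpa using this
  | succ k ih =>
    obtain ⟨c', hc', h'⟩ := ih
    refine ⟨c' * (c * c * (1/2)) * (1/2), by positivity, fun n hn => ?_⟩
    have h1 := pLR_glue (m := (k+2:ℕ)*(2*n)) (m' := 2*(2*n)) (n := 2*n) (by omega)
      (by push_cast; nlinarith) (by omega)
    have e : ((k+2:ℕ):ℤ)*(2*n) + 2*(2*n) - 2*n = ((k+1+2:ℕ):ℤ)*(2*n) := by push_cast; ring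
    rw [e] at h1
    refine le_trans ?_ h1
    apply mul_le_mul _ (sq n) (by norm_num) (mul_nonneg (pLR_nonneg _ _) (pLR_nonneg _ _))
    exact mul_le_mul (h' n hn) (two n hn) (by positivity) (pLR_nonneg _ _)

theorem aspect {c : ℝ} (hc : 0 < c) (h : ∀ n : ℕ, 1 ≤ n → c ≤ pLR (3*n) (2*n)) (k : ℕ) :
    ∃ c' > 0, ∀ n : ℕ, 1 ≤ n → c' ≤ pLR (k*n) n := by
  obtain ⟨c1, hc1, h1⟩ := aspect_even hc h (2*k)
  refine ⟨min c1 (pLR k 1), lt_min hc1 (pLR_pos (by omega) (by omega)), fun n hn => ?_⟩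
  rcases Nat.lt_or_ge n 2 with hn2 | hn2
  · have : n = 1 := by omega
    subst this
    refine (min_le_right _ _).trans ?_
    simp
  · obtain ⟨r, hr⟩ : ∃ r, n = 2*r ∨ n = 2*r+1 := ⟨n/2, by omega⟩
    have hr1 : 1 ≤ r := by omega
    refine (min_le_left _ _).trans ((h1 r hr1).trans ?_)
    have e1 : pLR ((2*k+2:ℕ)*(2*r)) (2*r) ≤ pLR (k*n) (2*r) := by
      apply pLR_anti (by positivity)
      push_cast
      rcases hr with rfl | rfl
      · push_cast; nlinarith [Int.natCast_nonneg k, Int.natCast_nonneg r]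
      · push_cast
        have : (1:ℤ) ≤ r := by exact_mod_cast hr1
        nlinarith [Int.natCast_nonneg k, mul_nonneg (Int.natCast_nonneg k) (sub_nonneg.2 this)]
    refine e1.trans (pLR_height _ ?_)
    omega

/-- RSW from the `3n × 2n` case -/
theorem rsw_of_three_two {c : ℝ} (hc : 0 < c) (h : ∀ n : ℕ, 1 ≤ n → c ≤ pLR (3*n) (2*n))
    (k : ℕ) : ∃ c' > 0, ∀ n : ℕ, 1 ≤ n → ∀ a b : ℤ,
      c' ≤ perc half (box a (a+k*n) b (b+n)) (LR a (a+k*n) b (b+n)) ∧
      c' ≤ perc half (box a (a+n) b (b+k*n)) (BT a (a+n) b (b+k*n)) := by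
  obtain ⟨c', hc', h'⟩ := aspect hc h k
  refine ⟨c', hc', fun n hn a b => ⟨?_, ?_⟩⟩
  · rw [perc_LR]
    have := h' n hn
    convert this using 2 <;> ring
  · rw [perc_BT]
    have := h' n hn
    convert this using 2 <;> ring

end H47Perc
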