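import Mathlib

/-!
Bond percolation on finite parts of the square lattice: the definitions used in the statements.
-/

namespace H47Perc

/-- The square lattice: vertices `ℤ × ℤ`, nearest neighbours are joined. -/
def lattice : SimpleGraph (ℤ × ℤ) where
  Adj u v := (u.1 = v.1 ∧ |u.2 - v.2| = 1) ∨ (u.2 = v.2 ∧ |u.1 - v.1| = 1)
  symm := ⟨by
    rintro u v (⟨h1, h2⟩ | ⟨h1, h2⟩)
    · left; exact ⟨h1.symm, by rw [abs_sub_comm]; exact h2⟩
    · right; exact ⟨h1.symm, by rw [abs_sub_comm]; exact h2⟩⟩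
  loopless := ⟨by rintro u (⟨_, h2⟩ | ⟨_, h2⟩) <;> simp at h2⟩

open Classical in
/-- The edges of the square lattice with both endpoints in the finite set `S`. -/
noncomputable def edgesIn (S : Finset (ℤ × ℤ)) : Finset (Sym2 (ℤ × ℤ)) :=
  S.sym2.filter (fun e => e ∈ lattice.edgeSet)

/-- `u` and `v` are joined by a path of edges of the configuration `ω` (the set of open edges). -/
def Joined (ω : Finset (Sym2 (ℤ × ℤ))) (u v : ℤ × ℤ) : Prop :=
  (SimpleGraph.fromEdgeSet (ω : Set (Sym2 (ℤ × ℤ)))).Reachable u v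

open Classical in
/-- The probability of the event `A` for bond percolation in `S`: the edges `e` of the lattice
with both endpoints in `S` are open independently, `e` with probability `p e`; the configuration
`ω` is the set of open edges. -/
noncomputable def perc (p : Sym2 (ℤ × ℤ) → ℝ) (S : Finset (ℤ × ℤ))
    (A : Finset (Sym2 (ℤ × ℤ)) → Prop) : ℝ :=
  ∑ ω ∈ (edgesIn S).powerset.filter A, (∏ e ∈ ω, p e) * ∏ e ∈ edgesIn S \ ω, (1 - p e)

/-- critical bond percolation on the square lattice: every edge is open with probability `1/2` -/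
noncomputable def half : Sym2 (ℤ × ℤ) → ℝ := fun _ => 1 / 2

open Classical in
/-- horizontal edges are open with probability `h`, vertical edges with probability `1 - h` -/
noncomputable def aniso (h : ℝ) : Sym2 (ℤ × ℤ) → ℝ :=
  fun e => if ∃ x y : ℤ, e = s((x, y), (x + 1, y)) then h else 1 - h

/-- Young diagrams: finite down-closed subsets of the quadrant containing the corner `0`. -/
def IsYoung (S : Finset (ℤ × ℤ)) : Prop :=
  (0, 0) ∈ S ∧ (∀ z ∈ S, 0 ≤ z.1 ∧ 0 ≤ z.2) ∧
    ∀ z ∈ S, ∀ w : ℤ × ℤ, 0 ≤ w.1 → 0 ≤ w.2 → w.1 ≤ z.1 → w.2 ≤ z.2 → w ∈ S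

end H47Perc
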