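import Pool.Agent.Helper47.Perc.Top
import Pool.Agent.Helper47.Perc.Defs

/-!
Amplitudes of the exploration path on the sides of a Young diagram (by helper69).
-/

set_option autoImplicit false

namespace H47Perc

/-! ### arithmetic in `Fin 4` -/

lemma f4_13 (c : Fin 4) : c + 1 + 3 = c := by revert c; decide
lemma f4_31 (c : Fin 4) : c + 3 + 1 = c := by revert c; decide
lemma f4_21 (c : Fin 4) : c + 2 + 1 = c + 3 := by revert c; decide
lemma f4_11 (c : Fin 4) : c + 1 + 1 = c + 2 := by revert c; decide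
lemma f4_12 (c : Fin 4) : c + 1 + 2 = c + 3 := by revert c; decide
lemma f4_22 (c : Fin 4) : c + 2 + 2 = c := by revert c; decide
lemma f4_23 (c : Fin 4) : c + 2 + 3 = c + 1 := by revert c; decide
lemma f4_2113 (c : Fin 4) : c + 2 + 1 = c + 1 + 2 := by revert c; decide
lemma f4_3113 (c : Fin 4) : c + 3 + 1 = c + 1 + 3 := by revert c; decide
lemma f4_n2 (c : Fin 4) : c + 2 ≠ c := by revert c; decide
lemma f4_n12 (c : Fin 4) : c + 1 ≠ c + 2 := by revert c; decide
lemma f4_n32 (c : Fin 4) : c + 3 ≠ c + 2 := by revert c; decide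
lemma f4_ne (c : Fin 4) : c + 1 ≠ c := by revert c; decide
lemma f4_cases (c e : Fin 4) : e = c ∨ e = c + 1 ∨ e = c + 2 ∨ e = c + 3 := by
  revert c e; decide

lemma kk_add_one (α β : ℂ) (c : Fin 4) : kk α β (c + 1) = kk β α c := by
  fin_cases c <;> rfl

lemma kk_add_three (α β : ℂ) (c : Fin 4) : kk α β (c + 3) = kk α β (c + 1) := by
  fin_cases c <;> rfl

lemma kk_ne_zero {α β : ℂ} (hα : α ≠ 0) (hβ : β ≠ 0) (c : Fin 4) : kk α β c ≠ 0 := by
  fin_cases c
  · exact hα
  · exact hβ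
  · exact hα
  · exact hβ

lemma dir_ne_zero (c : Fin 4) : dir c ≠ 0 := by
  fin_cases c <;> simp [dir]

lemma Conf.ph_open (C : Conf) (α β : ℂ) {z : ℤ × ℤ} {c : Fin 4} (h : C.o z c) :
    C.ph α β (z, c) = (kk α β (c + 1))⁻¹ := by
  unfold Conf.ph; exact if_pos h

lemma Conf.ph_closed (C : Conf) (α β : ℂ) {z : ℤ × ℤ} {c : Fin 4} (h : ¬ C.o z c) :
    C.ph α β (z, c) = kk α β c := by
  unfold Conf.ph; exact if_neg h

lemma Conf.ph_ne_zero (C : Conf) {α β : ℂ} (hα : α ≠ 0) (hβ : β ≠ 0) (d : Dart) :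
    C.ph α β d ≠ 0 := by
  obtain ⟨z, c⟩ := d
  by_cases h : C.o z c
  · rw [C.ph_open α β h]; exact inv_ne_zero (kk_ne_zero hα hβ _)
  · rw [C.ph_closed α β h]; exact kk_ne_zero hα hβ _

lemma Conf.nxt_ne (C : Conf) (d : Dart) : C.nxt d ≠ d := by
  obtain ⟨z, c⟩ := d
  by_cases h : C.o z c
  · rw [C.nxt_open h]
    intro h'
    have := congrArg Prod.fst h'
    simp only [add_eq_left] at this
    exact dir_ne_zero c this
  · rw [C.nxt_closed h]
    intro h'
    exact f4_ne c (congrArg Prod.snd h')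

lemma Conf.nxt_inj (C : Conf) {d d' : Dart} (h : C.nxt d = C.nxt d') : d = d' :=
  C.perm.injective h

lemma Conf.nxt_prv (C : Conf) (d : Dart) : C.nxt (C.prv d) = d := C.perm.apply_symm_apply d

lemma Conf.Conn.symm {C : Conf} {z w : ℤ × ℤ} (h : C.Conn z w) : C.Conn w z := by
  induction h with
  | refl => exact Relation.ReflTransGen.refl
  | tail _ h2 ih => exact Relation.ReflTransGen.head h2.symm ih

lemma Conf.conn_comm {C : Conf} {z w : ℤ × ℤ} : C.Conn z w ↔ C.Conn w z :=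
  ⟨Conf.Conn.symm, Conf.Conn.symm⟩

/-! ### rotation -/

/-- the configuration rotated clockwise by a quarter turn -/
def Conf.cw (C : Conf) : Conf where
  o z c := C.o (-z.2, z.1) (c + 1)
  symm z c := by
    have h := C.symm (-z.2, z.1) (c + 1)
    have e1 : ((-(z + dir c).2, (z + dir c).1) : ℤ × ℤ) = (-z.2, z.1) + dir (c + 1) := by
      fin_cases c <;> simp [dir] <;> ring
    rw [e1, f4_2113]
    exact h

lemma Conf.cw_o (C : Conf) (z : ℤ × ℤ) (c : Fin 4) : C.cw.o z c ↔ C.o (-z.2, z.1) (c + 1) :=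
  Iff.rfl

lemma rot_dir (c : Fin 4) : ((-(dir c).2, (dir c).1) : ℤ × ℤ) = dir (c + 1) := by
  fin_cases c <;> simp [dir]

lemma Conf.cw_amp (C : Conf) (α β : ℂ) (t : Dart) (Λ : Dart → ℂ) (hΛ : C.IsAmp α β t Λ)
    (t' : Dart) (ht : t = ((-t'.1.2, t'.1.1), t'.2 + 1)) :
    C.cw.IsAmp β α t' (fun d => Λ ((-d.1.2, d.1.1), d.2 + 1)) := by
  rintro ⟨z, c⟩ hd
  have hne : (((-z.2, z.1), c + 1) : Dart) ≠ t := by
    rw [ht]
    intro h'
    apply hd
    obtain ⟨⟨x', y'⟩, c'⟩ := t'
    obtain ⟨x, y⟩ := z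
    simp only [Prod.mk.injEq, neg_inj, add_left_inj] at h' ⊢
    exact ⟨⟨h'.1.2, h'.1.1⟩, h'.2⟩
  have h := hΛ _ hne
  by_cases ho : C.cw.o z c
  · have ho' : C.o (-z.2, z.1) (c + 1) := ho
    rw [C.nxt_open ho', C.ph_open α β ho'] at h
    rw [C.cw.nxt_open ho, C.cw.ph_open β α ho]
    simp only
    have e1 : ((-(z + dir c).2, (z + dir c).1) : ℤ × ℤ) = (-z.2, z.1) + dir (c + 1) := by
      rw [← rot_dir]
      ext
      · simp
        ring
      · simp
    rw [e1, f4_3113, h, kk_add_one α β (c + 1)]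
  · have ho' : ¬ C.o (-z.2, z.1) (c + 1) := ho
    rw [C.nxt_closed ho', C.ph_closed α β ho'] at h
    rw [C.cw.nxt_closed ho, C.cw.ph_closed β α ho]
    simp only
    rw [h, kk_add_one α β c]

lemma Conf.cw_conn (C : Conf) {z w : ℤ × ℤ} :
    C.cw.Conn z w ↔ C.Conn (-z.2, z.1) (-w.2, w.1) := by
  constructor
  · intro h
    induction h with
    | refl => exact Relation.ReflTransGen.refl
    | tail _ h2 ih =>
      refine ih.tail ?_
      obtain ⟨c, h3, rfl⟩ := h2
      refine ⟨c + 1, h3, ?_⟩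
      rw [← rot_dir]
      ext
      · simp
        ring
      · simp
  · intro h
    have key : ∀ u v, C.Conn u v → C.cw.Conn (u.2, -u.1) (v.2, -v.1) := by
      intro u v huv
      induction huv with
      | refl => exact Relation.ReflTransGen.refl
      | @tail b e _ h2 ih =>
        refine ih.tail ?_
        obtain ⟨c, h3, rfl⟩ := h2
        refine ⟨c + 3, ?_, ?_⟩
        · show C.o (-(-b.1), b.2) (c + 3 + 1)
          rw [f4_31, neg_neg]
          exact h3
        · fin_cases c <;> simp [dir] <;> ring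
    have := key _ _ h
    simpa using this

/-- the left version of `Conf.top` -/
theorem Conf.left (C : Conf) (α β : ℂ) (hα : α ≠ 0) (hβ : β ≠ 0) (hθ : (α * β) ^ 2 ≠ 1) (M B : ℤ)
    (hB : ∀ z c, C.o z c → -B ≤ z.2 ∧ z.2 ≤ B ∧ z.1 ≤ B) (hN : ∀ y, ¬ C.o (M, y) 3) (g : ℤ)
    (Λ : Dart → ℂ) (hΛ : C.IsAmp α β ((M, g), 3) Λ) (y : ℤ) :
    (C.Conn (M, g) (M, y) →
      Λ ((M, y), 3) = (if y < g then β⁻¹ else β * α ^ 2) * Λ ((M, g), 0)) ∧
    (¬ C.Conn (M, g) (M, y) → Λ ((M, y), 3) = 0) := by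
  have h := C.cw.top β α hβ hα (by rwa [mul_comm]) (-M) B
    (fun z c hz => by
      obtain ⟨h1, h2, h3⟩ := hB _ _ hz
      simp only at h1 h2 h3
      exact ⟨h1, h2, by linarith⟩)
    (fun x hx => by
      have h1 : C.o (-(-M), x) (2 + 1) := hx
      rw [neg_neg] at h1
      exact hN x h1) g _
    (C.cw_amp α β ((M, g), 3) Λ hΛ ((g, -M), 2) (by simp)) y
  rw [Conf.cw_conn] at h
  simp only [neg_neg] at h
  exact h

/-- the bottom version of `Conf.top` -/
theorem Conf.bottom (C : Conf) (α β : ℂ) (hα : α ≠ 0) (hβ : β ≠ 0) (hθ : (α * β) ^ 2 ≠ 1)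
    (M B : ℤ)
    (hB : ∀ z c, C.o z c → -B ≤ z.1 ∧ z.1 ≤ B ∧ z.2 ≤ B) (hN : ∀ x, ¬ C.o (x, M) 0) (g : ℤ)
    (Λ : Dart → ℂ) (hΛ : C.IsAmp α β ((g, M), 0) Λ) (x : ℤ) :
    (C.Conn (g, M) (x, M) →
      Λ ((x, M), 0) = (if g < x then α⁻¹ else α * β ^ 2) * Λ ((g, M), 1)) ∧
    (¬ C.Conn (g, M) (x, M) → Λ ((x, M), 0) = 0) := by
  have h := C.cw.left β α hβ hα (by rwa [mul_comm]) M B
    (fun z c hz => by
      obtain ⟨h1, h2, h3⟩ := hB _ _ hz
      simp only at h1 h2 h3
      exact ⟨by linarith, by linarith, h3⟩)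
    (fun y hy => hN (-y) hy) (-g) _
    (C.cw_amp α β ((g, M), 0) Λ hΛ ((M, -g), 3) (by simp)) (-x)
  rw [Conf.cw_conn] at h
  simp only [neg_neg, neg_lt_neg_iff] at h
  exact h

/-- the right version of `Conf.top` -/
theorem Conf.right (C : Conf) (α β : ℂ) (hα : α ≠ 0) (hβ : β ≠ 0) (hθ : (α * β) ^ 2 ≠ 1)
    (M B : ℤ)
    (hB : ∀ z c, C.o z c → -B ≤ z.2 ∧ z.2 ≤ B ∧ -B ≤ z.1) (hN : ∀ y, ¬ C.o (M, y) 1) (g : ℤ)
    (Λ : Dart → ℂ) (hΛ : C.IsAmp α β ((M, g), 1) Λ) (y : ℤ) :
    (C.Conn (M, g) (M, y) →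
      Λ ((M, y), 1) = (if g < y then β⁻¹ else β * α ^ 2) * Λ ((M, g), 2)) ∧
    (¬ C.Conn (M, g) (M, y) → Λ ((M, y), 1) = 0) := by
  have h := C.cw.bottom β α hβ hα (by rwa [mul_comm]) (-M) B
    (fun z c hz => by
      obtain ⟨h1, h2, h3⟩ := hB _ _ hz
      simp only at h1 h2 h3
      exact ⟨h1, h2, by linarith⟩)
    (fun x hx => by
      have h1 : C.o (-(-M), x) (0 + 1) := hx
      rw [neg_neg] at h1
      exact hN x h1) g _
    (C.cw_amp α β ((M, g), 1) Λ hΛ ((g, -M), 0) (by simp)) y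
  rw [Conf.cw_conn] at h
  simp only [neg_neg] at h
  exact h

/-! ### moving the cut -/

lemma Conf.amp_forward (C : Conf) (α β : ℂ) (t : Dart) (Λ : Dart → ℂ) (hΛ : C.IsAmp α β t Λ) :
    C.IsAmp α β (C.nxt t) (Function.update Λ (C.nxt t) (C.ph α β t * Λ t)) := by
  intro d hd
  rw [Function.update_of_ne hd]
  by_cases h : d = t
  · rw [h, Function.update_self]
  · rw [Function.update_of_ne (fun h' => h (C.nxt_inj h'))]
    exact hΛ d h

lemma Conf.amp_backward (C : Conf) (α β : ℂ) (hα : α ≠ 0) (hβ : β ≠ 0) (t : Dart) (Λ : Dart → ℂ)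
    (hΛ : C.IsAmp α β t Λ) :
    C.IsAmp α β (C.prv t) (Function.update Λ t ((C.ph α β t)⁻¹ * Λ (C.nxt t))) := by
  intro d hd
  by_cases h : d = t
  · rw [h, Function.update_self, Function.update_of_ne (C.nxt_ne t), ← mul_assoc,
      mul_inv_cancel₀ (C.ph_ne_zero hα hβ t), one_mul]
  · have h2 : C.nxt d ≠ t := by
      intro h3
      apply hd
      rw [← h3]
      exact (C.perm.symm_apply_apply d).symm
    rw [Function.update_of_ne h2, Function.update_of_ne h]
    exact hΛ d h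

/-! ### attaching a pendant edge -/

/-- open the edge from `z` in direction `c` -/
def Conf.ext (C : Conf) (z : ℤ × ℤ) (c : Fin 4) : Conf where
  o w e := C.o w e ∨ (w = z ∧ e = c) ∨ (w = z + dir c ∧ e = c + 2)
  symm w e := by
    have h := C.symm w e
    have key : ((w + dir e = z ∧ e + 2 = c) ∨ (w + dir e = z + dir c ∧ e + 2 = c + 2)) ↔
        ((w = z ∧ e = c) ∨ (w = z + dir c ∧ e = c + 2)) := by
      constructor
      · rintro (⟨h1, h2⟩ | ⟨h1, h2⟩)
        · right
          subst h2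
          rw [← h1, dir_add_two, f4_22]
          exact ⟨by simp, rfl⟩
        · left
          have h3 : e = c := add_right_cancel h2
          subst h3
          exact ⟨add_right_cancel h1, rfl⟩
      · rintro (⟨h1, h2⟩ | ⟨h1, h2⟩)
        · right
          rw [h1, h2]
          exact ⟨rfl, rfl⟩
        · left
          rw [h1, h2, dir_add_two, f4_22]
          exact ⟨by simp, rfl⟩
    rw [h, key]

lemma add_dir_ne (z : ℤ × ℤ) (c : Fin 4) : z + dir c ≠ z := by
  intro h
  rw [add_eq_left] at h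
  exact dir_ne_zero c h

/-- the amplitude after attaching a pendant edge -/
noncomputable def extAmp (α β : ℂ) (z : ℤ × ℤ) (c : Fin 4) (Λ : Dart → ℂ) (d : Dart) : ℂ :=
  if d.1 = z + dir c then
    (if d.2 = c then Λ (z, c) else if d.2 = c + 1 then Λ (z, c + 1)
      else if d.2 = c + 2 then kk α β (c + 1) * Λ (z, c + 1) else (kk α β (c + 1))⁻¹ * Λ (z, c))
  else Λ d

lemma extAmp_off (α β : ℂ) (z : ℤ × ℤ) (c : Fin 4) (Λ : Dart → ℂ) {d : Dart}
    (h : d.1 ≠ z + dir c) : extAmp α β z c Λ d = Λ d := by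
  unfold extAmp; rw [if_neg h]

lemma extAmp_0 (α β : ℂ) (z : ℤ × ℤ) (c : Fin 4) (Λ : Dart → ℂ) :
    extAmp α β z c Λ (z + dir c, c) = Λ (z, c) := by
  simp [extAmp]

lemma extAmp_1 (α β : ℂ) (z : ℤ × ℤ) (c : Fin 4) (Λ : Dart → ℂ) :
    extAmp α β z c Λ (z + dir c, c + 1) = Λ (z, c + 1) := by
  simp [extAmp]

lemma extAmp_2 (α β : ℂ) (z : ℤ × ℤ) (c : Fin 4) (Λ : Dart → ℂ) :
    extAmp α β z c Λ (z + dir c, c + 2) = kk α β (c + 1) * Λ (z, c + 1) := by
  have h1 : c + 2 ≠ c := by revert c; decide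
  have h2 : c + 2 ≠ c + 1 := by revert c; decide
  simp [extAmp, h1, h2]

lemma extAmp_3 (α β : ℂ) (z : ℤ × ℤ) (c : Fin 4) (Λ : Dart → ℂ) :
    extAmp α β z c Λ (z + dir c, c + 3) = (kk α β (c + 1))⁻¹ * Λ (z, c) := by
  have h1 : c + 3 ≠ c := by revert c; decide
  have h2 : c + 3 ≠ c + 1 := by revert c; decide
  have h3 : c + 3 ≠ c + 2 := by revert c; decide
  simp [extAmp, h1, h2, h3]

/-- attaching a pendant edge (the cut moves along if it is at that edge) -/
lemma Conf.ext_amp (C : Conf) {α β : ℂ} (hα : α ≠ 0) (hβ : β ≠ 0) (z : ℤ × ℤ) (c : Fin 4)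
    (hz : ∀ e, ¬ C.o (z + dir c) e) (t : Dart) (ht : t.1 ≠ z + dir c) (Λ : Dart → ℂ)
    (hΛ : C.IsAmp α β t Λ) (t' : Dart) (ht' : (t = (z, c) ∧ t' = (z + dir c, c)) ∨
      (t ≠ (z, c) ∧ t' = t)) :
    (C.ext z c).IsAmp α β t' (extAmp α β z c Λ) := by
  have hk := kk_ne_zero hα hβ
  have hzc : ¬ C.o z c := by
    intro h
    exact hz _ ((C.symm z c).2 h)
  rintro ⟨w, e⟩ hd
  by_cases hw : w = z + dir c
  · -- darts of the new vertex
    subst hw
    rcases f4_cases c e with he | he | he | he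
    · subst he
      have hcl : ¬ (C.ext z e).o (z + dir e) e := by
        rintro (h | h | h)
        · exact hz _ h
        · exact add_dir_ne z e h.1
        · exact f4_n2 e h.2.symm
      rw [Conf.nxt_closed _ hcl, Conf.ph_closed _ _ _ hcl, extAmp_1, extAmp_0]
      have htz : (z, e) ≠ t := by
        intro h
        apply hd
        rcases ht' with h1 | h1
        · exact h1.2.symm
        · exact absurd h.symm h1.1
      have := hΛ _ htz
      rw [C.nxt_closed hzc, C.ph_closed _ _ hzc] at this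
      exact this
    · subst he
      have hcl : ¬ (C.ext z c).o (z + dir c) (c + 1) := by
        rintro (h | h | h)
        · exact hz _ h
        · exact add_dir_ne z c h.1
        · exact f4_n12 c h.2
      rw [Conf.nxt_closed _ hcl, Conf.ph_closed _ _ _ hcl, f4_11, extAmp_2, extAmp_1]
    · subst he
      have hop : (C.ext z c).o (z + dir c) (c + 2) := Or.inr (Or.inr ⟨rfl, rfl⟩)
      rw [Conf.nxt_open _ hop, Conf.ph_open _ _ _ hop, dir_add_two, f4_23, extAmp_2]
      have e1 : z + dir c + -dir c = z := by simp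
      rw [e1, extAmp_off _ _ _ _ _ (fun h => add_dir_ne z c h.symm), f4_21, kk_add_three,
        ← mul_assoc, inv_mul_cancel₀ (hk _), one_mul]
    · subst he
      have hcl : ¬ (C.ext z c).o (z + dir c) (c + 3) := by
        rintro (h | h | h)
        · exact hz _ h
        · exact add_dir_ne z c h.1
        · exact f4_n32 c h.2
      rw [Conf.nxt_closed _ hcl, Conf.ph_closed _ _ _ hcl, f4_31, extAmp_0, extAmp_3, kk_add_three,
        ← mul_assoc, mul_inv_cancel₀ (hk _), one_mul]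
  · rw [extAmp_off (d := (w, e)) _ _ _ _ _ hw]
    by_cases hwe : w = z ∧ e = c
    · -- the dart pointing to the new vertex
      obtain ⟨rfl, rfl⟩ := hwe
      have hop : (C.ext w e).o w e := Or.inr (Or.inl ⟨rfl, rfl⟩)
      rw [Conf.nxt_open _ hop, Conf.ph_open _ _ _ hop, extAmp_3]
    · have hdt : ((w, e) : Dart) ≠ t := by
        intro h
        rcases ht' with h1 | h1
        · rw [h1.1] at h
          exact hwe ⟨congrArg Prod.fst h, congrArg Prod.snd h⟩
        · exact hd (h.trans h1.2.symm)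
      have h := hΛ _ hdt
      by_cases ho : C.o w e
      · have hop : (C.ext z c).o w e := Or.inl ho
        rw [Conf.nxt_open _ hop, Conf.ph_open _ _ _ hop]
        rw [C.nxt_open ho, C.ph_open _ _ ho] at h
        rw [extAmp_off _ _ _ _ _ (fun h' => hz (e + 2) (h' ▸ (C.symm w e).2 ho))]
        exact h
      · have hcl : ¬ (C.ext z c).o w e := by
          rintro (h | h | h)
          · exact ho h
          · exact hwe h
          · exact hw h.1
        rw [Conf.nxt_closed _ hcl, Conf.ph_closed _ _ _ hcl]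
        rw [C.nxt_closed ho, C.ph_closed _ _ ho] at h
        rw [extAmp_off _ _ _ _ _ hw]
        exact h

lemma Conf.ext_conn_of (C : Conf) (z : ℤ × ℤ) (c : Fin 4) {u v : ℤ × ℤ} (h : C.Conn u v) :
    (C.ext z c).Conn u v := by
  induction h with
  | refl => exact Relation.ReflTransGen.refl
  | tail _ h2 ih =>
    obtain ⟨e, h3, rfl⟩ := h2
    exact ih.tail ⟨e, Or.inl h3, rfl⟩

/-- connections after attaching a pendant edge -/
lemma Conf.ext_conn (C : Conf) (z : ℤ × ℤ) (c : Fin 4) (hz : ∀ e, ¬ C.o (z + dir c) e)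
    {u : ℤ × ℤ} (hu : u ≠ z + dir c) (v : ℤ × ℤ) :
    (C.ext z c).Conn u v ↔ (v ≠ z + dir c ∧ C.Conn u v) ∨ (v = z + dir c ∧ C.Conn u z) := by
  constructor
  · intro h
    induction h with
    | refl => exact Or.inl ⟨hu, Relation.ReflTransGen.refl⟩
    | @tail a b _ h2 ih =>
      obtain ⟨e, h3, rfl⟩ := h2
      rcases h3 with h3 | h3 | h3
      · -- an old edge
        rcases ih with ih | ih
        · left
          refine ⟨fun h' => hz (e + 2) (h' ▸ (C.symm a e).2 h3), ih.2.tail ⟨e, h3, rfl⟩⟩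
        · exact absurd h3 (ih.1 ▸ hz e)
      · obtain ⟨rfl, rfl⟩ := h3
        right
        refine ⟨rfl, ?_⟩
        rcases ih with ih | ih
        · exact ih.2
        · exact ih.2
      · obtain ⟨rfl, rfl⟩ := h3
        left
        have e1 : z + dir c + dir (c + 2) = z := by rw [dir_add_two]; simp
        rw [e1]
        refine ⟨fun h => add_dir_ne z c h.symm, ?_⟩
        rcases ih with ih | ih
        · exact absurd rfl ih.1
        · exact ih.2
  · rintro (⟨_, h⟩ | ⟨rfl, h⟩)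
    · exact C.ext_conn_of z c h
    · exact (C.ext_conn_of z c h).tail ⟨c, Or.inr (Or.inl ⟨rfl, rfl⟩), rfl⟩

/-! ### attaching a ray -/

lemma smul_dir_inj {c : Fin 4} {i j : ℤ} {z : ℤ × ℤ} (h : z + i • dir c = z + j • dir c) :
    i = j := by
  have h1 := add_left_cancel h
  have h2 := congrArg Prod.fst h1
  have h3 := congrArg Prod.snd h1
  fin_cases c <;> simp [dir] at h2 h3 <;> assumption

/-- attaching a straight ray of length `n` at `z` in direction `c`; the open edges of `C` have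
their endpoints in `X`, which contains no vertex of the ray except possibly `z`. -/
theorem Conf.ray (C : Conf) {α β : ℂ} (hα : α ≠ 0) (hβ : β ≠ 0) (X : Set (ℤ × ℤ))
    (hX : ∀ w e, C.o w e → w ∈ X) (z : ℤ × ℤ) (c : Fin 4) (t : Dart) (Λ : Dart → ℂ)
    (hΛ : C.IsAmp α β t Λ) (n : ℕ)
    (hr : ∀ i : ℕ, 1 ≤ i → i ≤ n → z + (i : ℤ) • dir c ∉ X)
    (ht : ∀ i : ℕ, 1 ≤ i → i ≤ n → t.1 ≠ z + (i : ℤ) • dir c) (t' : Dart)
    (ht' : (t = (z, c) ∧ t' = (z + (n : ℤ) • dir c, c)) ∨ (t ≠ (z, c) ∧ t' = t)) :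
    ∃ (C' : Conf) (Λ' : Dart → ℂ), C'.IsAmp α β t' Λ' ∧
      (∀ w e, C'.o w e → w ∈ X ∨ ∃ i : ℕ, i ≤ n ∧ w = z + (i : ℤ) • dir c) ∧
      (∀ u v, (∀ i : ℕ, 1 ≤ i → i ≤ n → u ≠ z + (i : ℤ) • dir c) →
        (∀ i : ℕ, 1 ≤ i → i ≤ n → v ≠ z + (i : ℤ) • dir c) → (C'.Conn u v ↔ C.Conn u v)) ∧
      (∀ u, (∀ i : ℕ, 1 ≤ i → i ≤ n → u ≠ z + (i : ℤ) • dir c) →
        (C'.Conn u (z + (n : ℤ) • dir c) ↔ C.Conn u z)) ∧
      Λ' (z + (n : ℤ) • dir c, c) = Λ (z, c) ∧
      Λ' (z + (n : ℤ) • dir c, c + 1) = Λ (z, c + 1) ∧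
      (∀ d : Dart, (∀ i : ℕ, 1 ≤ i → i ≤ n → d.1 ≠ z + (i : ℤ) • dir c) → Λ' d = Λ d) ∧
      (1 ≤ n → ∀ e, e ≠ c + 2 → ¬ C'.o (z + (n : ℤ) • dir c) e) := by
  induction n generalizing t' with
  | zero =>
    have h0 : z + ((0 : ℕ) : ℤ) • dir c = z := by simp
    rw [h0] at ht' ⊢
    have htt : t' = t := by
      rcases ht' with h | h
      · rw [h.1, h.2]
      · exact h.2
    rw [htt]
    exact ⟨C, Λ, hΛ, fun w e h => Or.inl (hX w e h), fun u v _ _ => Iff.rfl, fun u _ => Iff.rfl,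
      rfl, rfl, fun d _ => rfl, fun h => absurd h (by norm_num)⟩
  | succ n ih =>
    -- the cut after `n` steps
    obtain ⟨t1, ht1⟩ : ∃ t1 : Dart, (t = (z, c) ∧ t1 = (z + (n : ℤ) • dir c, c)) ∨
        (t ≠ (z, c) ∧ t1 = t) := by
      by_cases h : t = (z, c)
      · exact ⟨_, Or.inl ⟨h, rfl⟩⟩
      · exact ⟨t, Or.inr ⟨h, rfl⟩⟩
    obtain ⟨C1, Λ1, hamp, hsup, hconn, htip, ha0, ha1, hoff, _⟩ :=
      ih (fun i h1 h2 => hr i h1 (Nat.le_succ_of_le h2))
        (fun i h1 h2 => ht i h1 (Nat.le_succ_of_le h2)) t1 ht1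
    set zn : ℤ × ℤ := z + (n : ℤ) • dir c with hzn
    have hnew : zn + dir c = z + ((n + 1 : ℕ) : ℤ) • dir c := by
      rw [hzn]; push_cast; rw [add_smul, one_smul, add_assoc]
    have hnot : ∀ i : ℕ, i ≤ n → z + ((n + 1 : ℕ) : ℤ) • dir c ≠ z + (i : ℤ) • dir c := by
      intro i hi h
      have := smul_dir_inj h
      norm_cast at this
      omega
    have hiso : ∀ e, ¬ C1.o (zn + dir c) e := by
      intro e he
      rcases hsup _ _ he with h | ⟨i, hi, h⟩
      · rw [hnew] at h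
        exact hr (n + 1) (by omega) le_rfl h
      · rw [hnew] at h
        exact hnot i hi h
    have ht1z : t1.1 ≠ zn + dir c := by
      rw [hnew]
      rcases ht1 with h | h
      · rw [h.2]
        exact fun h' => hnot n le_rfl h'.symm
      · rw [h.2]
        exact ht (n + 1) (by omega) le_rfl
    have hcut : (t1 = (zn, c) ∧ t' = (zn + dir c, c)) ∨ (t1 ≠ (zn, c) ∧ t' = t1) := by
      rw [hnew]
      rcases ht1 with h | h
      · left
        refine ⟨h.2, ?_⟩
        rcases ht' with h' | h'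
        · exact h'.2
        · exact absurd h.1 h'.1
      · right
        constructor
        · rw [h.2]
          rcases Nat.eq_zero_or_pos n with h0 | h0
          · have : zn = z := by rw [hzn, h0]; simp
            rw [this]
            exact h.1
          · intro h'
            exact ht n h0 (Nat.le_succ n) (congrArg Prod.fst h')
        · rcases ht' with h' | h'
          · exact absurd h'.1 h.1
          · rw [h'.2, h.2]
    have hamp2 := C1.ext_amp hα hβ zn c hiso t1 ht1z Λ1 hamp t' hcut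
    have hconn2 := fun (u : ℤ × ℤ) (hu : u ≠ zn + dir c) (v : ℤ × ℤ) =>
      C1.ext_conn zn c hiso hu v
    refine ⟨C1.ext zn c, extAmp α β zn c Λ1, hamp2, ?_, ?_, ?_, ?_, ?_, ?_, ?_⟩
    · intro w e h
      rcases h with h | ⟨h, _⟩ | ⟨h, _⟩
      · rcases hsup _ _ h with h | ⟨i, hi, h⟩
        · exact Or.inl h
        · exact Or.inr ⟨i, by omega, h⟩
      · exact Or.inr ⟨n, by omega, h⟩
      · exact Or.inr ⟨n + 1, le_rfl, by rw [h, hnew]⟩
    · intro u v hu hv
      have hu1 : u ≠ zn + dir c := by rw [hnew]; exact hu (n + 1) (by omega) le_rfl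
      have hv1 : v ≠ zn + dir c := by rw [hnew]; exact hv (n + 1) (by omega) le_rfl
      rw [hconn2 u hu1 v, ← hconn u v (fun i h1 h2 => hu i h1 (by omega))
        (fun i h1 h2 => hv i h1 (by omega))]
      constructor
      · rintro (h | h)
        · exact h.2
        · exact absurd h.1 hv1
      · intro h
        exact Or.inl ⟨hv1, h⟩
    · intro u hu
      have hu1 : u ≠ zn + dir c := by rw [hnew]; exact hu (n + 1) (by omega) le_rfl
      rw [← hnew, hconn2 u hu1, ← htip u (fun i h1 h2 => hu i h1 (by omega))]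
      constructor
      · rintro (h | h)
        · exact absurd rfl h.1
        · exact h.2
      · intro h
        exact Or.inr ⟨rfl, h⟩
    · rw [← hnew, extAmp_0, ha0]
    · rw [← hnew, extAmp_1, ha1]
    · intro d hd
      rw [extAmp_off _ _ _ _ _ (by rw [hnew]; exact hd (n + 1) (by omega) le_rfl)]
      exact hoff d (fun i h1 h2 => hd i h1 (by omega))
    · intro _ e he h
      rw [← hnew] at h
      rcases h with h | h | h
      · exact hiso e h
      · exact add_dir_ne _ _ h.1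
      · exact he h.2

/-! ### the five side theorems -/

lemma exists_bound (S : Finset (ℤ × ℤ)) : ∃ N : ℕ, ∀ z ∈ S, z.1 ≤ N ∧ z.2 ≤ N := by
  refine ⟨S.sup (fun z => z.1.toNat + z.2.toNat), fun z hz => ?_⟩
  have h := Finset.le_sup (f := fun z : ℤ × ℤ => z.1.toNat + z.2.toNat) hz
  have h1 := Int.self_le_toNat z.1
  have h2 := Int.self_le_toNat z.2
  constructor <;> omega

lemma smul_dir_two (z : ℤ × ℤ) (i : ℤ) : z + i • dir 2 = (z.1, z.2 + i) := by
  ext <;> simp [dir]

lemma smul_dir_one (z : ℤ × ℤ) (i : ℤ) : z + i • dir 1 = (z.1 + i, z.2) := by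
  ext <;> simp [dir]

lemma smul_dir_zero (z : ℤ × ℤ) (i : ℤ) : z + i • dir 0 = (z.1, z.2 - i) := by
  ext <;> simp [dir, sub_eq_add_neg]

lemma smul_dir_three (z : ℤ × ℤ) (i : ℤ) : z + i • dir 3 = (z.1 - i, z.2) := by
  ext <;> simp [dir, sub_eq_add_neg]

variable (C : Conf) (α β : ℂ) (hα : α ≠ 0) (hβ : β ≠ 0) (hθ : (α * β) ^ 2 ≠ 1)
  (S : Finset (ℤ × ℤ)) (hS : IsYoung S) (hC : ∀ z c, C.o z c → z ∈ S ∧ z + dir c ∈ S)
  (Λ : Dart → ℂ) (hΛ : C.IsAmp α β ((0, 0), 3) Λ) (h0 : Λ ((0, 0), 0) = 1)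

include hα hβ hθ hS hC hΛ h0

theorem exit_left (z : ℤ × ℤ) (hz : z ∈ S) (hz1 : z.1 = 0) :
    (C.Conn (0, 0) z → Λ (z, 3) = α ^ 2 * β) ∧ (¬ C.Conn (0, 0) z → Λ (z, 3) = 0) := by
  obtain ⟨N, hN⟩ := exists_bound S
  have hneg : ∀ w : ℤ × ℤ, w ∈ S → 0 ≤ w.1 ∧ 0 ≤ w.2 := hS.2.1
  obtain ⟨x, y⟩ := z
  simp only at hz1
  subst hz1
  have hy : ¬ y < 0 := not_lt.2 (hneg _ hz).2
  have h := C.left α β hα hβ hθ 0 N
    (fun w c hw => by
      have h1 := (hC w c hw).1
      have h2 := hneg w h1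
      have h3 := hN w h1
      exact ⟨by omega, h3.2, h3.1⟩)
    (fun y hy => by
      have h1 := hneg _ (hC _ _ hy).2
      simp [dir] at h1) 0 Λ hΛ y
  rw [if_neg hy, h0, mul_one, mul_comm β] at h
  exact h

theorem exit_end : Λ ((0, 0), 3) = α ^ 2 * β :=
  (exit_left C α β hα hβ hθ S hS hC Λ hΛ h0 (0, 0) hS.1 rfl).1 Relation.ReflTransGen.refl

theorem exit_bottom (z : ℤ × ℤ) (hz : z ∈ S) (hz2 : z.2 = 0) :
    (C.Conn (0, 0) z → Λ (z, 0) = 1) ∧ (¬ C.Conn (0, 0) z → Λ (z, 0) = 0) := by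
  obtain ⟨N, hN⟩ := exists_bound S
  have hneg : ∀ w : ℤ × ℤ, w ∈ S → 0 ≤ w.1 ∧ 0 ≤ w.2 := hS.2.1
  obtain ⟨x, y⟩ := z
  simp only at hz2
  subst hz2
  have hx : 0 ≤ x := (hneg _ hz).1
  rcases hx.eq_or_lt with hx | hx
  · subst hx
    exact ⟨fun _ => h0, fun h => absurd Relation.ReflTransGen.refl h⟩
  · -- move the cut to `((0,0),0)`
    have hcl : ¬ C.o (0, 0) 3 := by
      intro h
      have h1 := hneg _ (hC _ _ h).2
      simp [dir] at h1
    have hbot : ∀ x, ¬ C.o (x, 0) 0 := by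
      intro x h
      have h1 := hneg _ (hC _ _ h).2
      simp [dir] at h1
    have hnx : C.nxt ((0, 0), 3) = ((0, 0), 0) := by rw [C.nxt_closed hcl]; rfl
    have hamp := C.amp_forward α β ((0, 0), 3) Λ hΛ
    rw [hnx] at hamp
    have h := C.bottom α β hα hβ hθ 0 N
      (fun w c hw => by
        have h1 := (hC w c hw).1
        have h2 := hneg w h1
        have h3 := hN w h1
        exact ⟨by omega, h3.1, h3.2⟩)
      hbot 0 _ hamp x
    have n1 : (((x, 0), 0) : Dart) ≠ ((0, 0), 0) := by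
      intro h'
      have := congrArg (fun d : Dart => d.1.1) h'
      simp only at this
      omega
    have n2 : (((0, 0), 1) : Dart) ≠ ((0, 0), 0) := by
      intro h'
      exact absurd (congrArg Prod.snd h') (by decide)
    have e1 := hΛ ((0, 0), 0) (by
      intro h'
      exact absurd (congrArg Prod.snd h') (by decide))
    rw [C.nxt_closed (hbot 0), C.ph_closed _ _ (hbot 0), h0, mul_one] at e1
    have e2 : Λ ((0, 0), 1) = α := e1
    rw [if_pos hx, Function.update_of_ne n1, Function.update_of_ne n2, e2,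
      inv_mul_cancel₀ hα] at h
    exact h

theorem exit_top (z : ℤ × ℤ) (hz : z ∈ S) (hz1 : z + (0, 1) ∉ S) :
    (C.Conn (0, 0) z → Λ (z, 2) = α * β) ∧ (¬ C.Conn (0, 0) z → Λ (z, 2) = 0) := by
  obtain ⟨N, hN⟩ := exists_bound S
  have hneg : ∀ w : ℤ × ℤ, w ∈ S → 0 ≤ w.1 ∧ 0 ≤ w.2 := hS.2.1
  have hcl : ¬ C.o (0, 0) 3 := by
    intro h
    have h1 := hneg _ (hC _ _ h).2
    simp [dir] at h1
  have hup : ∀ i : ℕ, 1 ≤ i → (z.1, z.2 + (i : ℤ)) ∉ S := by
    intro i hi h
    apply hz1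
    apply hS.2.2 _ h
    · simpa using (hneg z hz).1
    · have := (hneg z hz).2
      simp only [Prod.snd_add]
      omega
    · simp
    · simp only [Prod.snd_add]
      omega
  -- step 1: the edge from the origin to `(-1,0)`
  obtain ⟨C1, Λ1, hamp1, hsup1, hconn1, htip1, ha1, hb1, hoff1, hcl1⟩ :=
    C.ray hα hβ (S : Set (ℤ × ℤ)) (fun w e h => (hC w e h).1) (0, 0) 3 ((0, 0), 3) Λ hΛ 1
      (fun i h1 h2 => by
        rw [smul_dir_three]
        intro h
        have := hneg _ h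
        simp only at this
        omega)
      (fun i h1 h2 => by
        rw [smul_dir_three]
        intro h
        have := congrArg Prod.fst h
        simp only at this
        omega) ((-1, 0), 3) (Or.inl ⟨rfl, by rw [smul_dir_three]; simp⟩)
  have tip1 : ((0, 0) : ℤ × ℤ) + ((1 : ℕ) : ℤ) • dir 3 = (-1, 0) := by
    rw [smul_dir_three]; simp
  rw [tip1] at ha1 hb1 hcl1
  have hb1' : Λ1 ((-1, 0), 0) = 1 := by
    have : Λ1 ((-1, 0), 0) = Λ ((0, 0), 0) := hb1
    rw [this, h0]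
  have hc13 : ¬ C1.o (-1, 0) 3 := hcl1 le_rfl 3 (by decide)
  have hc12 : ¬ C1.o (-1, 0) 2 := hcl1 le_rfl 2 (by decide)
  -- step 2: move the cut backwards
  have hamp2 := C1.amp_backward α β hα hβ ((-1, 0), 3) Λ1 hamp1
  have hprv : C1.prv ((-1, 0), 3) = ((-1, 0), 2) := by
    rw [C1.prv_closed (show ¬ C1.o (-1, 0) (3 + 3) from hc12)]; rfl
  rw [hprv] at hamp2
  set Λ2 := Function.update Λ1 ((-1, 0), 3) ((C1.ph α β ((-1, 0), 3))⁻¹ *
    Λ1 (C1.nxt ((-1, 0), 3))) with hΛ2
  have h23 : Λ2 ((-1, 0), 3) = β⁻¹ := by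
    rw [hΛ2, Function.update_self, C1.ph_closed _ _ hc13, C1.nxt_closed hc13]
    have : Λ1 ((-1, 0), 3 + 1) = 1 := hb1'
    rw [this, mul_one]
    rfl
  -- step 3: the vertical part of the cut ray
  obtain ⟨C3, Λ3, hamp3, hsup3, hconn3, htip3, _, hb3, hoff3, _⟩ :=
    C1.ray hα hβ {w | w ∈ S ∨ w = (-1, 0)} (fun w e h => by
        rcases hsup1 w e h with h | ⟨i, hi, h⟩
        · exact Or.inl h
        · rw [smul_dir_three] at h
          interval_cases i
          · left; rw [h]; exact hS.1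
          · right; rw [h]; simp) (-1, 0) 2 ((-1, 0), 2) Λ2 hamp2 N
      (fun i h1 h2 => by
        rw [smul_dir_two]
        rintro (h | h)
        · have := hneg _ h
          simp only at this
          omega
        · have := congrArg Prod.snd h
          simp only at this
          omega)
      (fun i h1 h2 => by
        rw [smul_dir_two]
        intro h
        have := congrArg Prod.snd h
        simp only at this
        omega) ((-1, N), 2) (Or.inl ⟨rfl, by rw [smul_dir_two]; simp⟩)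
  have tip3 : ((-1, 0) : ℤ × ℤ) + (N : ℤ) • dir 2 = (-1, (N : ℤ)) := by
    rw [smul_dir_two]; simp
  rw [tip3] at hb3
  have hb3' : Λ3 ((-1, N), 3) = β⁻¹ := by
    rw [← h23]; exact hb3
  -- step 4: the ray at `z`
  have hzN : z.2 ≤ N := (hN z hz).2
  obtain ⟨m, hm⟩ : ∃ m : ℕ, (m : ℤ) = N - z.2 := ⟨((N : ℤ) - z.2).toNat, by omega⟩
  have hz0 := hneg z hz
  obtain ⟨C4, Λ4, hamp4, hsup4, hconn4, htip4, ha4, _, hoff4, _⟩ :=
    C3.ray hα hβ {w | w ∈ S ∨ w.1 = -1 ∧ 0 ≤ w.2 ∧ w.2 ≤ N} (fun w e h => by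
        rcases hsup3 w e h with h | ⟨i, hi, h⟩
        · rcases h with h | h
          · exact Or.inl h
          · right; rw [h]; simp
        · rw [smul_dir_two] at h
          right
          rw [h]
          refine ⟨rfl, ?_, ?_⟩
          · simp only
            omega
          · simp only
            omega) z 2 ((-1, N), 2) Λ3 hamp3 m
      (fun i h1 h2 => by
        rw [smul_dir_two]
        rintro (h | h)
        · exact hup i h1 h
        · simp only at h
          omega)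
      (fun i h1 h2 => by
        rw [smul_dir_two]
        intro h
        have := congrArg Prod.fst h
        simp only at this
        omega) ((-1, N), 2) (Or.inr ⟨fun h => by
          have := congrArg (fun d : Dart => d.1.1) h
          simp only at this
          omega, rfl⟩)
  have tip4 : z + (m : ℤ) • dir 2 = (z.1, (N : ℤ)) := by
    rw [smul_dir_two, hm]; simp
  rw [tip4] at ha4
  -- step 5: the top theorem
  have hb4 : ∀ w e, C4.o w e → -1 ≤ w.1 ∧ w.1 ≤ N ∧ 0 ≤ w.2 ∧ w.2 ≤ N := by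
    intro w e h
    rcases hsup4 w e h with h | ⟨i, hi, h⟩
    · rcases h with h | h
      · have h1 := hneg w h
        have h2 := hN w h
        omega
      · omega
    · rw [smul_dir_two] at h
      rw [h]
      have h2 := hN z hz
      simp only
      omega
  have htop := C4.top α β hα hβ hθ N (N + 1)
    (fun w e h => by
      have := hb4 w e h
      omega)
    (fun x h => by
      have h1 := hb4 _ _ ((C4.symm _ _).2 h)
      simp [dir] at h1) (-1) Λ4 hamp4 z.1
  have off4 : ∀ i : ℕ, 1 ≤ i → i ≤ m → ((-1, (N : ℤ)) : ℤ × ℤ) ≠ z + (i : ℤ) • dir 2 := by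
    intro i h1 h2 h
    rw [smul_dir_two] at h
    have := congrArg Prod.fst h
    simp only at this
    omega
  have off3 : ∀ i : ℕ, 1 ≤ i → i ≤ N → z ≠ ((-1, 0) : ℤ × ℤ) + (i : ℤ) • dir 2 := by
    intro i h1 h2 h
    rw [smul_dir_two] at h
    have := congrArg Prod.fst h
    simp only at this
    omega
  have off1 : ∀ i : ℕ, 1 ≤ i → i ≤ 1 → z ≠ ((0, 0) : ℤ × ℤ) + (i : ℤ) • dir 3 := by
    intro i h1 h2 h
    rw [smul_dir_three] at h
    have := congrArg Prod.fst h
    simp only at this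
    omega
  have conn : C4.Conn (-1, (N : ℤ)) (z.1, (N : ℤ)) ↔ C.Conn (0, 0) z := by
    have e4 := htip4 (-1, (N : ℤ)) off4
    rw [tip4] at e4
    have e3 := htip3 z off3
    rw [tip3] at e3
    have e1 := htip1 z off1
    rw [tip1] at e1
    rw [e4, Conf.conn_comm, e3, e1, Conf.conn_comm]
  have val : Λ4 ((z.1, N), 2) = Λ (z, 2) := by
    have n1 : ((z, 2) : Dart) ≠ ((-1, 0), 3) := by
      intro h
      have h' := congrArg Prod.snd h
      exact absurd (show (2 : Fin 4) = 3 from h') (by decide)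
    rw [ha4, hoff3 (z, 2) off3, hΛ2, Function.update_of_ne n1, hoff1 (z, 2) off1]
  have val3 : Λ4 ((-1, N), 3) = β⁻¹ := by
    rw [hoff4 ((-1, N), 3) off4, hb3']
  rw [conn, val, val3, if_neg (by omega)] at htop
  have e : α * β ^ 2 * β⁻¹ = α * β := by field_simp
  rw [e] at htop
  exact htop

theorem exit_right (z : ℤ × ℤ) (hz : z ∈ S) (hz1 : z + (1, 0) ∉ S) :
    (C.Conn (0, 0) z → Λ (z, 1) = α) ∧ (¬ C.Conn (0, 0) z → Λ (z, 1) = 0) := by
  obtain ⟨N, hN⟩ := exists_bound S
  have hneg : ∀ w : ℤ × ℤ, w ∈ S → 0 ≤ w.1 ∧ 0 ≤ w.2 := hS.2.1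
  have hcl : ¬ C.o (0, 0) 3 := by
    intro h
    have h1 := hneg _ (hC _ _ h).2
    simp [dir] at h1
  have hbot : ¬ C.o (0, 0) 0 := by
    intro h
    have h1 := hneg _ (hC _ _ h).2
    simp [dir] at h1
  have hup : ∀ i : ℕ, 1 ≤ i → (z.1 + (i : ℤ), z.2) ∉ S := by
    intro i hi h
    apply hz1
    apply hS.2.2 _ h
    · have := (hneg z hz).1
      simp only [Prod.fst_add]
      omega
    · simpa using (hneg z hz).2
    · simp only [Prod.fst_add]
      omega
    · simp
  -- step 0: move the cut forward to `((0,0),0)`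
  have hnx : C.nxt ((0, 0), 3) = ((0, 0), 0) := by rw [C.nxt_closed hcl]; rfl
  have hamp0 := C.amp_forward α β ((0, 0), 3) Λ hΛ
  rw [hnx] at hamp0
  set Λ0 := Function.update Λ ((0, 0), 0) (C.ph α β ((0, 0), 3) * Λ ((0, 0), 3)) with hΛ0
  have h01 : Λ0 ((0, 0), 1) = α := by
    rw [hΛ0, Function.update_of_ne (by
      intro h'
      exact absurd (congrArg Prod.snd h') (by decide))]
    have e1 := hΛ ((0, 0), 0) (by
      intro h'
      exact absurd (congrArg Prod.snd h') (by decide))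
    rw [C.nxt_closed hbot, C.ph_closed _ _ hbot, h0, mul_one] at e1
    exact e1
  -- step 1: the edge from the origin to `(0,-1)`
  obtain ⟨C1, Λ1, hamp1, hsup1, hconn1, htip1, ha1, hb1, hoff1, hcl1⟩ :=
    C.ray hα hβ (S : Set (ℤ × ℤ)) (fun w e h => (hC w e h).1) (0, 0) 0 ((0, 0), 0) Λ0 hamp0 1
      (fun i h1 h2 => by
        rw [smul_dir_zero]
        intro h
        have := hneg _ h
        simp only at this
        omega)
      (fun i h1 h2 => by
        rw [smul_dir_zero]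
        intro h
        have := congrArg Prod.snd h
        simp only at this
        omega) ((0, -1), 0) (Or.inl ⟨rfl, by rw [smul_dir_zero]; simp⟩)
  have tip1 : ((0, 0) : ℤ × ℤ) + ((1 : ℕ) : ℤ) • dir 0 = (0, -1) := by
    rw [smul_dir_zero]; simp
  rw [tip1] at ha1 hb1 hcl1
  have hb1' : Λ1 ((0, -1), 1) = α := by
    have : Λ1 ((0, -1), 1) = Λ0 ((0, 0), 1) := hb1
    rw [this, h01]
  have hc10 : ¬ C1.o (0, -1) 0 := hcl1 le_rfl 0 (by decide)
  have hc11 : ¬ C1.o (0, -1) 1 := hcl1 le_rfl 1 (by decide)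
  have h12 : Λ1 ((0, -1), 2) = α * β := by
    have e1 := hamp1 ((0, -1), 1) (by
      intro h'
      exact absurd (congrArg Prod.snd h') (by decide))
    rw [C1.nxt_closed hc11, C1.ph_closed _ _ hc11, hb1'] at e1
    have e2 : Λ1 ((0, -1), 2) = β * α := e1
    rw [e2, mul_comm]
  -- step 2: move the cut forward
  have hamp2 := C1.amp_forward α β ((0, -1), 0) Λ1 hamp1
  have hnx1 : C1.nxt ((0, -1), 0) = ((0, -1), 1) := by rw [C1.nxt_closed hc10]; rfl
  rw [hnx1] at hamp2
  set Λ2 := Function.update Λ1 ((0, -1), 1) (C1.ph α β ((0, -1), 0) * Λ1 ((0, -1), 0)) with hΛ2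
  have h22 : Λ2 ((0, -1), 2) = α * β := by
    rw [hΛ2, Function.update_of_ne (by
      intro h'
      exact absurd (congrArg Prod.snd h') (by decide)), h12]
  -- step 3: the horizontal part of the cut ray
  obtain ⟨C3, Λ3, hamp3, hsup3, hconn3, htip3, _, hb3, hoff3, _⟩ :=
    C1.ray hα hβ {w | w ∈ S ∨ w = (0, -1)} (fun w e h => by
        rcases hsup1 w e h with h | ⟨i, hi, h⟩
        · exact Or.inl h
        · rw [smul_dir_zero] at h
          interval_cases i
          · left; rw [h]; exact hS.1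
          · right; rw [h]; simp) (0, -1) 1 ((0, -1), 1) Λ2 hamp2 N
      (fun i h1 h2 => by
        rw [smul_dir_one]
        rintro (h | h)
        · have := hneg _ h
          simp only at this
          omega
        · have := congrArg Prod.fst h
          simp only at this
          omega)
      (fun i h1 h2 => by
        rw [smul_dir_one]
        intro h
        have := congrArg Prod.fst h
        simp only at this
        omega) ((N, -1), 1) (Or.inl ⟨rfl, by rw [smul_dir_one]; simp⟩)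
  have tip3 : ((0, -1) : ℤ × ℤ) + (N : ℤ) • dir 1 = ((N : ℤ), -1) := by
    rw [smul_dir_one]; simp
  rw [tip3] at hb3
  have hb3' : Λ3 ((N, -1), 2) = α * β := by
    rw [← h22]; exact hb3
  -- step 4: the ray at `z`
  have hzN : z.1 ≤ N := (hN z hz).1
  obtain ⟨m, hm⟩ : ∃ m : ℕ, (m : ℤ) = N - z.1 := ⟨((N : ℤ) - z.1).toNat, by omega⟩
  have hz0 := hneg z hz
  obtain ⟨C4, Λ4, hamp4, hsup4, hconn4, htip4, ha4, _, hoff4, _⟩ :=
    C3.ray hα hβ {w | w ∈ S ∨ w.2 = -1 ∧ 0 ≤ w.1 ∧ w.1 ≤ N} (fun w e h => by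
        rcases hsup3 w e h with h | ⟨i, hi, h⟩
        · rcases h with h | h
          · exact Or.inl h
          · right; rw [h]; simp
        · rw [smul_dir_one] at h
          right
          rw [h]
          refine ⟨rfl, ?_, ?_⟩
          · simp only
            omega
          · simp only
            omega) z 1 ((N, -1), 1) Λ3 hamp3 m
      (fun i h1 h2 => by
        rw [smul_dir_one]
        rintro (h | h)
        · exact hup i h1 h
        · simp only at h
          omega)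
      (fun i h1 h2 => by
        rw [smul_dir_one]
        intro h
        have := congrArg Prod.snd h
        simp only at this
        omega) ((N, -1), 1) (Or.inr ⟨fun h => by
          have := congrArg (fun d : Dart => d.1.2) h
          simp only at this
          omega, rfl⟩)
  have tip4 : z + (m : ℤ) • dir 1 = ((N : ℤ), z.2) := by
    rw [smul_dir_one, hm]; simp
  rw [tip4] at ha4
  -- step 5: the right theorem
  have hb4 : ∀ w e, C4.o w e → -1 ≤ w.2 ∧ w.2 ≤ N ∧ 0 ≤ w.1 ∧ w.1 ≤ N := by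
    intro w e h
    rcases hsup4 w e h with h | ⟨i, hi, h⟩
    · rcases h with h | h
      · have h1 := hneg w h
        have h2 := hN w h
        omega
      · omega
    · rw [smul_dir_one] at h
      rw [h]
      have h2 := hN z hz
      simp only
      omega
  have htop := C4.right α β hα hβ hθ N (N + 1)
    (fun w e h => by
      have := hb4 w e h
      omega)
    (fun x h => by
      have h1 := hb4 _ _ ((C4.symm _ _).2 h)
      simp [dir] at h1) (-1) Λ4 hamp4 z.2
  have off4 : ∀ i : ℕ, 1 ≤ i → i ≤ m → (((N : ℤ), -1) : ℤ × ℤ) ≠ z + (i : ℤ) • dir 1 := by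
    intro i h1 h2 h
    rw [smul_dir_one] at h
    have := congrArg Prod.snd h
    simp only at this
    omega
  have off3 : ∀ i : ℕ, 1 ≤ i → i ≤ N → z ≠ ((0, -1) : ℤ × ℤ) + (i : ℤ) • dir 1 := by
    intro i h1 h2 h
    rw [smul_dir_one] at h
    have := congrArg Prod.snd h
    simp only at this
    omega
  have off1 : ∀ i : ℕ, 1 ≤ i → i ≤ 1 → z ≠ ((0, 0) : ℤ × ℤ) + (i : ℤ) • dir 0 := by
    intro i h1 h2 h
    rw [smul_dir_zero] at h
    have := congrArg Prod.snd h
    simp only at this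
    omega
  have conn : C4.Conn ((N : ℤ), -1) ((N : ℤ), z.2) ↔ C.Conn (0, 0) z := by
    have e4 := htip4 ((N : ℤ), -1) off4
    rw [tip4] at e4
    have e3 := htip3 z off3
    rw [tip3] at e3
    have e1 := htip1 z off1
    rw [tip1] at e1
    rw [e4, Conf.conn_comm, e3, e1, Conf.conn_comm]
  have val : Λ4 ((N, z.2), 1) = Λ (z, 1) := by
    have n1 : ((z, 1) : Dart) ≠ ((0, -1), 1) := by
      intro h
      have := congrArg (fun d : Dart => d.1.2) h
      simp only at this
      omega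
    have n2 : ((z, 1) : Dart) ≠ ((0, 0), 0) := by
      intro h
      have h' := congrArg Prod.snd h
      exact absurd (show (1 : Fin 4) = 0 from h') (by decide)
    rw [ha4, hoff3 (z, 1) off3, hΛ2, Function.update_of_ne n1, hoff1 (z, 1) off1, hΛ0,
      Function.update_of_ne n2]
  have val3 : Λ4 ((N, -1), 2) = α * β := by
    rw [hoff4 ((N, -1), 2) off4, hb3']
  rw [conn, val, val3, if_pos (by omega)] at htop
  have e : β⁻¹ * (α * β) = α := by field_simp
  rw [e] at htop
  exact htop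

end H47Perc
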