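import Pool.Agent.Helper47.Perc.Splice
import Pool.Agent.Helper47.Perc.Sides
import Pool.Agent.Helper47.Perc.Duality

/-!
The sum rule: summation of the contour identity over all darts of a Young diagram.
-/

namespace H47Perc
open Finset Equiv

/-- the configuration given by a set of open edges -/
def confOf (ω : Finset (Sym2 (ℤ × ℤ))) : Conf where
  o z c := s(z, z + dir c) ∈ ω
  symm z c := by
    rw [dir_add_two, add_neg_cancel_right, Sym2.eq_swap]

lemma confOf_o (ω : Finset (Sym2 (ℤ × ℤ))) (z : ℤ × ℤ) (c : Fin 4) :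
    (confOf ω).o z c ↔ s(z, z + dir c) ∈ ω := Iff.rfl

lemma adj_dir (z : ℤ × ℤ) (c : Fin 4) : lattice.Adj z (z + dir c) := by
  obtain ⟨x, y⟩ := z
  fin_cases c
  · left; simp
  · right; simp
  · left; simp
  · right; simp

lemma dir_of_adj {u v : ℤ × ℤ} (h : lattice.Adj u v) : ∃ c, v = u + dir c := by
  obtain ⟨x, y⟩ := u
  obtain ⟨x', y'⟩ := v
  rcases h with ⟨h1, h2⟩ | ⟨h1, h2⟩
  · simp only at h1 h2
    subst h1
    rcases (abs_eq (by norm_num)).1 h2 with h | h
    · refine ⟨0, ?_⟩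
      simp; omega
    · refine ⟨2, ?_⟩
      simp; omega
  · simp only at h1 h2
    subst h1
    rcases (abs_eq (by norm_num)).1 h2 with h | h
    · refine ⟨3, ?_⟩
      simp; omega
    · refine ⟨1, ?_⟩
      simp; omega

/-- connection of darts configuration and open graph -/
theorem conn_iff_joined (S : Finset (ℤ × ℤ)) (ω : Finset (Sym2 (ℤ × ℤ)))
    (hω : ω ⊆ edgesIn S) (u v : ℤ × ℤ) : (confOf ω).Conn u v ↔ Joined ω u v := by
  constructor
  · intro h
    induction h with
    | refl => exact joined_refl _ _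
    | tail _ h2 ih =>
      obtain ⟨c, hc, rfl⟩ := h2
      exact joined_trans ih (joined_edge hc)
  · rintro ⟨p⟩
    induction p with
    | nil => exact Relation.ReflTransGen.refl
    | @cons a b c hab p ih =>
      rw [SimpleGraph.fromEdgeSet_adj] at hab
      have hab1 : s(a, b) ∈ ω := by exact_mod_cast hab.1
      obtain ⟨d, rfl⟩ := dir_of_adj (mem_edgesIn.1 (hω hab1)).2.2
      exact Relation.ReflTransGen.head ⟨d, hab1, rfl⟩ ih

lemma confOf_mem {S : Finset (ℤ × ℤ)} {ω : Finset (Sym2 (ℤ × ℤ))} (hω : ω ⊆ edgesIn S)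
    (z : ℤ × ℤ) (c : Fin 4) (h : (confOf ω).o z c) : z ∈ S ∧ z + dir c ∈ S := by
  have := mem_edgesIn.1 (hω h)
  exact ⟨this.1, this.2.1⟩

lemma dir_inj : Function.Injective dir := by
  intro a b h
  fin_cases a <;> fin_cases b <;> simp_all [dir]

lemma edge_eq {z z' : ℤ × ℤ} {c c' : Fin 4} (h : s(z', z' + dir c') = s(z, z + dir c)) :
    (z', c') = (z, c) ∨ (z', c') = (z + dir c, c + 2) := by
  rw [Sym2.eq_iff] at h
  rcases h with ⟨h1, h2⟩ | ⟨h1, h2⟩
  · left
    subst h1
    rw [dir_inj (add_left_cancel h2)]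
  · right
    subst h1
    have h3 : dir c' = dir (c + 2) := by
      rw [dir_add_two]
      have : z + (dir c + dir c') = z + 0 := by rw [← add_assoc, h2, add_zero]
      exact (neg_eq_of_add_eq_zero_right (add_left_cancel this)).symm
    rw [dir_inj h3]

/-! ### the exploration of a configuration in `S` -/

/-- the darts over `S` -/
def DS (S : Finset (ℤ × ℤ)) : Finset Dart := S ×ˢ (univ : Finset (Fin 4))

lemma mem_DS {S : Finset (ℤ × ℤ)} {d : Dart} : d ∈ DS S ↔ d.1 ∈ S := by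
  unfold DS; simp

lemma nxt_mem_DS {C : Conf} {S : Finset (ℤ × ℤ)} (hC : ∀ z c, C.o z c → z ∈ S ∧ z + dir c ∈ S)
    (d : Dart) : d ∈ DS S ↔ C.perm d ∈ DS S := by
  obtain ⟨z, c⟩ := d
  rw [mem_DS, mem_DS, Conf.perm_apply]
  by_cases h : C.o z c
  · rw [C.nxt_open h]
    exact ⟨fun _ => (hC z c h).2, fun _ => (hC z c h).1⟩
  · rw [C.nxt_closed h]

lemma periodic_of_finite {D : Type*} (p : Perm D) (F : Finset D) (hF : ∀ d ∈ F, p d ∈ F) (x : D)
    (hx : x ∈ F) : ∃ n, 0 < n ∧ (p ^ n) x = x := by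
  have hmem : ∀ n : ℕ, (p ^ n) x ∈ F := by
    intro n
    induction n with
    | zero => simpa using hx
    | succ n ih => rw [pow_succ', Perm.mul_apply]; exact hF _ ih
  obtain ⟨i, j, hij, h⟩ := Finite.exists_ne_map_eq_of_infinite
    (fun n : ℕ => (⟨(p ^ n) x, hmem n⟩ : F))
  have h' : (p ^ i) x = (p ^ j) x := congrArg Subtype.val h
  have key : ∀ i j : ℕ, i < j → (p ^ i) x = (p ^ j) x → ∃ n, 0 < n ∧ (p ^ n) x = x := by
    intro i j hlt he
    refine ⟨j - i, by omega, ?_⟩
    have : (p ^ i) ((p ^ (j - i)) x) = (p ^ i) x := by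
      rw [← Perm.mul_apply, ← pow_add, show i + (j - i) = j by omega, he]
    exact (p ^ i).injective this
  rcases lt_or_gt_of_ne hij with hlt | hlt
  · exact key i j hlt h'
  · exact key j i hlt h'.symm

lemma conf_periodic {C : Conf} {S : Finset (ℤ × ℤ)}
    (hC : ∀ z c, C.o z c → z ∈ S ∧ z + dir c ∈ S) (x : Dart) :
    ∃ n, 0 < n ∧ (C.perm ^ n) x = x := by
  classical
  apply periodic_of_finite C.perm (DS (insert x.1 S)) _ x (by rw [mem_DS]; simp)
  intro d hd
  rw [← nxt_mem_DS (S := insert x.1 S)]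
  · exact hd
  · intro z c h
    exact ⟨mem_insert_of_mem (hC z c h).1, mem_insert_of_mem (hC z c h).2⟩

section amp
variable (α β : ℂ)

/-- the starting dart -/
def s0 : Dart := ((0, 0), 0)
/-- the final dart -/
def t0 : Dart := ((0, 0), 3)

/-- the path amplitude of a configuration -/
noncomputable def amp (C : Conf) (d : Dart) : ℂ := pamp C.perm (C.ph α β) s0 d

variable {α β}
variable {S : Finset (ℤ × ℤ)} (hS : IsYoung S) {C : Conf}
  (hC : ∀ z c, C.o z c → z ∈ S ∧ z + dir c ∈ S)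
include hS hC

lemma symm_s0 : C.perm.symm s0 = t0 := by
  rw [Conf.perm_symm_apply]
  unfold s0 t0
  have h : ¬ C.o (0, 0) (0 + 3) := by
    intro h
    have := (hS.2.1 _ (hC _ _ h).2).1
    simp [dir] at this
  rw [C.prv_closed h]
  rfl

lemma amp_isAmp : C.IsAmp α β t0 (amp α β C) := by
  intro d hd
  rw [← symm_s0 hS hC] at hd
  exact pamp_step hd

omit hS hC in
lemma amp_s0 : amp α β C s0 = 1 := pamp_self _ _ _

/-- the sum over all darts of one configuration -/
lemma dart_sum (hα : α ≠ 0) (hβ : β ≠ 0) (hθ : (α * β) ^ 2 ≠ 1) :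
    ∑ d ∈ (DS S).erase t0, (C.ph α β d - 1) * amp α β C d = α ^ 2 * β - 1 := by
  have h1 : ∑ d ∈ DS S, amp α β C (C.perm d) = ∑ d ∈ DS S, amp α β C d :=
    sum_equiv C.perm (fun d => nxt_mem_DS hC d) (fun _ _ => rfl)
  have ht : t0 ∈ DS S := by rw [mem_DS]; exact hS.1
  have h2 : C.perm t0 = s0 := by
    rw [← symm_s0 hS hC]; exact C.perm.apply_symm_apply s0
  rw [← add_sum_erase _ _ ht, ← add_sum_erase _ _ ht, h2, amp_s0] at h1
  have h3 : amp α β C t0 = α ^ 2 * β :=
    exit_end C α β hα hβ hθ S hS hC (amp α β C) (amp_isAmp hS hC) amp_s0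
  rw [h3] at h1
  have h4 : ∑ d ∈ (DS S).erase t0, amp α β C (C.perm d) =
      ∑ d ∈ (DS S).erase t0, C.ph α β d * amp α β C d := by
    apply sum_congr rfl
    intro d hd
    exact amp_isAmp hS hC d (ne_of_mem_erase hd)
  rw [h4] at h1
  simp only [sub_mul, one_mul, sum_sub_distrib]
  linear_combination h1

end amp

lemma kk_ne_zero' {α β : ℂ} (hα : α ≠ 0) (hβ : β ≠ 0) (c : Fin 4) : kk α β c ≠ 0 := by
  fin_cases c
  · exact hα
  · exact hβ
  · exact hα
  · exact hβ

lemma kk_add_two (α β : ℂ) (c : Fin 4) : kk α β (c + 2) = kk α β c := by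
  fin_cases c <;> rfl

lemma kk_mul (α β : ℂ) (c : Fin 4) : kk α β c * kk α β (c + 1) = α * β := by
  fin_cases c
  · rfl
  · exact mul_comm _ _
  · rfl
  · exact mul_comm _ _

/-- opening an edge: the splice identity for configurations -/
lemma amp_splice {α β w : ℂ} (hα : α ≠ 0) (hβ : β ≠ 0) (hθ : (α * β) ^ 2 ≠ 1)
    (hw : w ^ 2 = w - 1) (hαβ : α * β = w ^ 2) {S : Finset (ℤ × ℤ)} (hS : IsYoung S)
    {ω : Finset (Sym2 (ℤ × ℤ))} (hω : ω ⊆ edgesIn S) {z : ℤ × ℤ} {c : Fin 4} (hz : z ∈ S)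
    (hz' : z + dir c ∈ S) (hcl : s(z, z + dir c) ∉ ω) :
    amp α β (confOf (insert s(z, z + dir c) ω)) (z, c) +
      amp α β (confOf (insert s(z, z + dir c) ω)) (z + dir c, c + 2) =
    w * (amp α β (confOf ω) (z, c) + amp α β (confOf ω) (z + dir c, c + 2)) := by
  classical
  set ω' := insert s(z, z + dir c) ω with hω'
  have he : s(z, z + dir c) ∈ edgesIn S := by
    rw [mem_edgesIn]; exact ⟨hz, hz', adj_dir z c⟩
  have hω1 : ω' ⊆ edgesIn S := insert_subset he hω
  have hC := confOf_mem hω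
  have hC' := confOf_mem hω1
  have hs := symm_s0 hS hC
  have hs' := symm_s0 hS hC'
  have c1 : c + 2 + 1 = c + 3 := by rw [add_assoc]; rfl
  have c2 : c + 2 + 3 = c + 1 := by rw [add_assoc]; rfl
  have hrev : z + dir c + dir (c + 2) = z := by rw [dir_add_two]; abel
  have oA : ¬ (confOf ω).o z c := hcl
  have oA' : ¬ (confOf ω).o (z + dir c) (c + 2) := by
    rw [(confOf ω).symm]; exact hcl
  have oB : (confOf ω').o z c := mem_insert_self _ _
  have oB' : (confOf ω').o (z + dir c) (c + 2) := by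
    rw [(confOf ω').symm]; exact mem_insert_self _ _
  have oo : ∀ d : Dart, d ≠ (z, c) → d ≠ (z + dir c, c + 2) →
      ((confOf ω').o d.1 d.2 ↔ (confOf ω).o d.1 d.2) := by
    rintro ⟨z', c'⟩ h1 h2
    rw [confOf_o, confOf_o, hω', mem_insert]
    constructor
    · rintro (h | h)
      · rcases edge_eq h with h | h
        · exact absurd h h1
        · exact absurd h h2
      · exact h
    · exact Or.inr
  have hperm : (confOf ω').perm = (confOf ω).perm * swap (z, c) (z + dir c, c + 2) := by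
    ext1 d
    rw [Perm.mul_apply]
    by_cases h1 : d = (z, c)
    · subst h1
      rw [swap_apply_left, Conf.perm_apply, Conf.perm_apply, (confOf ω').nxt_open oB,
        (confOf ω).nxt_closed oA', c1]
    · by_cases h2 : d = (z + dir c, c + 2)
      · subst h2
        rw [swap_apply_right, Conf.perm_apply, Conf.perm_apply, (confOf ω').nxt_open oB',
          (confOf ω).nxt_closed oA, c2, hrev]
      · rw [swap_apply_of_ne_of_ne h1 h2, Conf.perm_apply, Conf.perm_apply]
        unfold Conf.nxt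
        simp only [oo d h1 h2]
  have phne : ∀ (C : Conf) d, C.ph α β d ≠ 0 := by
    intro C d
    unfold Conf.ph
    split_ifs
    · exact inv_ne_zero (kk_ne_zero' hα hβ _)
    · exact kk_ne_zero' hα hβ _
  have hAt : ((z, c) : Dart) ≠ t0 := by
    intro h
    unfold t0 at h
    rw [Prod.mk.injEq] at h
    rw [h.1, h.2] at hz'
    have := (hS.2.1 _ hz').1
    simp [dir] at this
  have hA't : ((z + dir c, c + 2) : Dart) ≠ t0 := by
    intro h
    unfold t0 at h
    rw [Prod.mk.injEq] at h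
    have h3 : z = (0, 0) + dir (3 : Fin 4) := by
      rw [← h.1, ← h.2, hrev]
    have := (hS.2.1 _ hz).1
    rw [h3] at this
    simp [dir] at this
  unfold amp
  refine splice (confOf ω).perm s0 (z, c) (z + dir c, c + 2) ((confOf ω).ph α β)
    ((confOf ω').ph α β) (kk α β c) ((kk α β (c + 1))⁻¹) w ?_ (phne _) (phne _) ?_ ?_ ?_ ?_ ?_ hw ?_
    (by rw [hs]; exact hAt) (by rw [hs]; exact hA't) (conf_periodic hC) _ hperm ?_
  · intro h
    rw [Prod.mk.injEq] at h
    have := h.2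
    revert this
    fin_cases c <;> decide
  · intro d h1 h2
    unfold Conf.ph
    simp only [oo d h1 h2]
  · unfold Conf.ph
    exact if_neg oA
  · unfold Conf.ph
    rw [if_neg oA', kk_add_two]
  · unfold Conf.ph
    exact if_pos oB
  · unfold Conf.ph
    rw [if_pos oB']
    simp only
    rw [show c + 2 + 1 = c + 1 + 2 by rw [add_right_comm], kk_add_two]
  · rw [← hαβ, ← kk_mul α β c]
    have := kk_ne_zero' hα hβ (c + 1)
    field_simp
  · rw [hs]
    have e1 : amp α β (confOf ω) t0 = α ^ 2 * β :=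
      exit_end _ α β hα hβ hθ S hS hC _ (amp_isAmp hS hC) amp_s0
    have e2 : amp α β (confOf ω') t0 = α ^ 2 * β :=
      exit_end _ α β hα hβ hθ S hS hC' _ (amp_isAmp hS hC') amp_s0
    unfold amp at e1 e2
    rw [e1, e2]

/-! ### averaging -/

/-- the weight of a configuration -/
noncomputable def wt (p : Sym2 (ℤ × ℤ) → ℝ) (S : Finset (ℤ × ℤ))
    (ω : Finset (Sym2 (ℤ × ℤ))) : ℂ :=
  (∏ e ∈ ω, (p e : ℂ)) * ∏ e ∈ edgesIn S \ ω, (1 - (p e : ℂ))

open Classical in
lemma perc_eq_sum (p : Sym2 (ℤ × ℤ) → ℝ) (S : Finset (ℤ × ℤ))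
    (A : Finset (Sym2 (ℤ × ℤ)) → Prop) :
    (perc p S A : ℂ) = ∑ ω ∈ (edgesIn S).powerset, wt p S ω * (if A ω then 1 else 0) := by
  unfold perc wt
  rw [Complex.ofReal_sum, sum_filter]
  apply sum_congr rfl
  intro ω _
  split_ifs
  · push_cast
    ring
  · ring

lemma wt_total (p : Sym2 (ℤ × ℤ) → ℝ) (S : Finset (ℤ × ℤ)) :
    ∑ ω ∈ (edgesIn S).powerset, wt p S ω = 1 := by
  unfold wt
  rw [← prod_add]
  simp

/-- splitting off one edge -/
lemma sum_wt_insert (p : Sym2 (ℤ × ℤ) → ℝ) (S : Finset (ℤ × ℤ)) {e : Sym2 (ℤ × ℤ)}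
    (he : e ∈ edgesIn S) (g : Finset (Sym2 (ℤ × ℤ)) → ℂ) :
    ∑ ω ∈ (edgesIn S).powerset, wt p S ω * g ω =
    ∑ ω ∈ ((edgesIn S).erase e).powerset,
      ((∏ e ∈ ω, (p e : ℂ)) * ∏ e ∈ (edgesIn S).erase e \ ω, (1 - (p e : ℂ))) *
        ((1 - (p e : ℂ)) * g ω + p e * g (insert e ω)) := by
  classical
  conv_lhs => rw [← insert_erase he, sum_powerset_insert (notMem_erase e _)]
  rw [← sum_add_distrib]
  apply sum_congr rfl
  intro ω hω
  rw [mem_powerset] at hω
  have h1 : e ∉ ω := fun h => notMem_erase e _ (hω h)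
  have h2 : edgesIn S \ ω = insert e ((edgesIn S).erase e \ ω) := by
    ext f
    rw [mem_sdiff, mem_insert, mem_sdiff, mem_erase]
    constructor
    · rintro ⟨h3, h4⟩
      by_cases h5 : f = e
      · exact Or.inl h5
      · exact Or.inr ⟨⟨h5, h3⟩, h4⟩
    · rintro (rfl | ⟨⟨h3, h4⟩, h5⟩)
      · exact ⟨he, h1⟩
      · exact ⟨h4, h5⟩
  have h3 : edgesIn S \ insert e ω = (edgesIn S).erase e \ ω := by
    ext f
    rw [mem_sdiff, mem_sdiff, mem_erase, mem_insert]
    tauto
  have h4 : e ∉ (edgesIn S).erase e \ ω := by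
    rw [mem_sdiff, mem_erase]
    tauto
  unfold wt
  rw [h2, prod_insert h4, h3, prod_insert h1]
  ring

/-- the contribution of one dart -/
noncomputable def contr (p : Sym2 (ℤ × ℤ) → ℝ) (S : Finset (ℤ × ℤ)) (α β : ℂ) (d : Dart) : ℂ :=
  ∑ ω ∈ (edgesIn S).powerset, wt p S ω *
    (((confOf ω).ph α β d - 1) * amp α β (confOf ω) d)

/-- interior edges do not contribute -/
lemma contr_interior {α β w : ℂ} (hα : α ≠ 0) (hβ : β ≠ 0) (hθ : (α * β) ^ 2 ≠ 1)
    (hw : w ^ 2 = w - 1) (hαβ : α * β = w ^ 2) {S : Finset (ℤ × ℤ)} (hS : IsYoung S)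
    (p : Sym2 (ℤ × ℤ) → ℝ) {z : ℤ × ℤ} {c : Fin 4} (hz : z ∈ S) (hz' : z + dir c ∈ S)
    (hp : (1 - (p s(z, z + dir c) : ℂ)) * (kk α β c - 1) +
      p s(z, z + dir c) * (((kk α β (c + 1))⁻¹ - 1) * w) = 0) :
    contr p S α β (z, c) + contr p S α β (z + dir c, c + 2) = 0 := by
  classical
  have he : s(z, z + dir c) ∈ edgesIn S := by
    rw [mem_edgesIn]; exact ⟨hz, hz', adj_dir z c⟩
  unfold contr
  rw [← sum_add_distrib]
  simp only [← mul_add]
  rw [sum_wt_insert p S he (fun ω => ((confOf ω).ph α β (z, c) - 1) * amp α β (confOf ω) (z, c) +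
    ((confOf ω).ph α β (z + dir c, c + 2) - 1) * amp α β (confOf ω) (z + dir c, c + 2))]
  apply sum_eq_zero
  intro ω hω
  rw [mem_powerset] at hω
  have hcl : s(z, z + dir c) ∉ ω := fun h => notMem_erase _ _ (hω h)
  have hω' : ω ⊆ edgesIn S := hω.trans (erase_subset _ _)
  have hsp := amp_splice hα hβ hθ hw hαβ hS hω' hz hz' hcl
  have oA' : ¬ (confOf ω).o (z + dir c) (c + 2) := by
    rw [(confOf ω).symm]; exact hcl
  have oB' : (confOf (insert s(z, z + dir c) ω)).o (z + dir c) (c + 2) := by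
    rw [(confOf (insert s(z, z + dir c) ω)).symm]; exact mem_insert_self _ _
  have p1 : (confOf ω).ph α β (z, c) = kk α β c := by
    unfold Conf.ph; exact if_neg hcl
  have p2 : (confOf ω).ph α β (z + dir c, c + 2) = kk α β c := by
    unfold Conf.ph; rw [if_neg oA', kk_add_two]
  have p3 : (confOf (insert s(z, z + dir c) ω)).ph α β (z, c) = (kk α β (c + 1))⁻¹ := by
    unfold Conf.ph; exact if_pos (mem_insert_self _ _)
  have p4 : (confOf (insert s(z, z + dir c) ω)).ph α β (z + dir c, c + 2) =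
      (kk α β (c + 1))⁻¹ := by
    unfold Conf.ph
    rw [if_pos oB']
    simp only
    rw [show c + 2 + 1 = c + 1 + 2 by rw [add_right_comm], kk_add_two]
  simp only [p1, p2, p3, p4]
  have : (1 - (p s(z, z + dir c) : ℂ)) * ((kk α β c - 1) * amp α β (confOf ω) (z, c) +
      (kk α β c - 1) * amp α β (confOf ω) (z + dir c, c + 2)) +
      p s(z, z + dir c) * (((kk α β (c + 1))⁻¹ - 1) *
        amp α β (confOf (insert s(z, z + dir c) ω)) (z, c) +
      ((kk α β (c + 1))⁻¹ - 1) *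
        amp α β (confOf (insert s(z, z + dir c) ω)) (z + dir c, c + 2)) = 0 := by
    linear_combination (amp α β (confOf ω) (z, c) + amp α β (confOf ω) (z + dir c, c + 2)) * hp +
      p s(z, z + dir c) * ((kk α β (c + 1))⁻¹ - 1) * hsp
  rw [this, mul_zero]

/-- exits contribute the connection probability -/
lemma contr_exit {α β : ℂ} (p : Sym2 (ℤ × ℤ) → ℝ) {S : Finset (ℤ × ℤ)} {z : ℤ × ℤ} {c : Fin 4}
    (hz : z + dir c ∉ S) (k : ℂ)
    (hk : ∀ ω ⊆ edgesIn S, ((confOf ω).Conn (0, 0) z → amp α β (confOf ω) (z, c) = k) ∧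
      (¬ (confOf ω).Conn (0, 0) z → amp α β (confOf ω) (z, c) = 0)) :
    contr p S α β (z, c) = (kk α β c - 1) * k * (perc p S (fun ω => Joined ω (0, 0) z) : ℝ) := by
  classical
  rw [perc_eq_sum, mul_sum]
  unfold contr
  apply sum_congr rfl
  intro ω hω
  rw [mem_powerset] at hω
  have hcl : ¬ (confOf ω).o z c := fun h => hz (confOf_mem hω z c h).2
  have p1 : (confOf ω).ph α β (z, c) = kk α β c := by
    unfold Conf.ph; exact if_neg hcl
  rw [p1]
  by_cases hj : Joined ω (0, 0) z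
  · rw [if_pos hj, (hk ω hω).1 ((conn_iff_joined S ω hω _ _).2 hj)]
    ring
  · rw [if_neg hj, (hk ω hω).2 (fun h => hj ((conn_iff_joined S ω hω _ _).1 h))]
    ring

/-- the contour identity: the exits of a Young diagram -/
theorem contour {α β w : ℂ} (hα : α ≠ 0) (hβ : β ≠ 0) (hθ : (α * β) ^ 2 ≠ 1)
    (hw : w ^ 2 = w - 1) (hαβ : α * β = w ^ 2) {S : Finset (ℤ × ℤ)} (hS : IsYoung S)
    (p : Sym2 (ℤ × ℤ) → ℝ)
    (hp : ∀ z c, (1 - (p s(z, z + dir c) : ℂ)) * (kk α β c - 1) +
      p s(z, z + dir c) * (((kk α β (c + 1))⁻¹ - 1) * w) = 0) :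
    ∑ d ∈ ((DS S).erase t0).filter (fun d => d.1 + dir d.2 ∉ S), contr p S α β d =
      α ^ 2 * β - 1 := by
  classical
  -- all darts
  have h1 : ∑ d ∈ (DS S).erase t0, contr p S α β d = α ^ 2 * β - 1 := by
    unfold contr
    rw [sum_comm]
    simp only [← mul_sum]
    calc ∑ ω ∈ (edgesIn S).powerset, wt p S ω *
          ∑ d ∈ (DS S).erase t0, ((confOf ω).ph α β d - 1) * amp α β (confOf ω) d
        = ∑ ω ∈ (edgesIn S).powerset, wt p S ω * (α ^ 2 * β - 1) := by
          apply sum_congr rfl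
          intro ω hω
          rw [mem_powerset] at hω
          rw [dart_sum hS (confOf_mem hω) hα hβ hθ]
      _ = α ^ 2 * β - 1 := by rw [← sum_mul, wt_total, one_mul]
  rw [← sum_filter_add_sum_filter_not _ (fun d : Dart => d.1 + dir d.2 ∉ S)] at h1
  have h2 : ∑ d ∈ ((DS S).erase t0).filter (fun d => ¬ d.1 + dir d.2 ∉ S),
      contr p S α β d = 0 := by
    apply sum_involution (fun (d : Dart) _ => ((d.1 + dir d.2, d.2 + 2) : Dart))
    · rintro ⟨z, c⟩ hd
      rw [mem_filter, mem_erase, mem_DS, not_not] at hd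
      exact contr_interior hα hβ hθ hw hαβ hS p hd.1.2 hd.2 (hp z c)
    · rintro ⟨z, c⟩ hd _ h
      rw [Prod.mk.injEq] at h
      have h5 : c + 2 = c := h.2
      clear h hd
      revert h5
      fin_cases c <;> decide
    · rintro ⟨z, c⟩ hd
      rw [mem_filter, mem_erase, mem_DS, not_not] at hd ⊢
      simp only at hd ⊢
      have hrev : z + dir c + dir (c + 2) = z := by rw [dir_add_two]; abel
      refine ⟨⟨?_, hd.2⟩, by rw [hrev]; exact hd.1.2⟩
      intro h
      unfold t0 at h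
      rw [Prod.mk.injEq] at h
      have h3 : z = (0, 0) + dir (3 : Fin 4) := by
        rw [← h.1, ← h.2, hrev]
      have := (hS.2.1 _ hd.1.2).1
      rw [h3] at this
      simp [dir] at this
    · rintro ⟨z, c⟩ hd
      have hrev : z + dir c + dir (c + 2) = z := by rw [dir_add_two]; abel
      simp only [hrev, Prod.mk.injEq, true_and]
      fin_cases c <;> rfl
  rw [h2, add_zero] at h1
  exact h1

/-! ### the sum rule -/

/-- the sixth root of unity -/
noncomputable def ζ : ℂ := ⟨1 / 2, √3 / 2⟩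

lemma ζ_sq : ζ ^ 2 = ζ - 1 := by
  have h3 : √3 * √3 = 3 := Real.mul_self_sqrt (by norm_num)
  apply Complex.ext
  · simp only [ζ, pow_two, Complex.mul_re, Complex.sub_re, Complex.one_re]
    linear_combination (-1/4) * h3
  · simp only [ζ, pow_two, Complex.mul_im, Complex.sub_im, Complex.one_im]
    ring

lemma ζ_im : ζ.im ≠ 0 := by
  simp only [ζ]
  positivity

/-- `1` and `ζ` are independent over the reals -/
lemma lin_eq_zero {a b : ℝ} (h0 : (a : ℂ) + b * ζ = 0) : a = 0 ∧ b = 0 := by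
  have h1 := congrArg Complex.im h0
  have h2 := congrArg Complex.re h0
  simp only [Complex.add_im, Complex.ofReal_im, Complex.mul_im, Complex.ofReal_re, zero_mul,
    add_zero, zero_add, Complex.zero_im, Complex.add_re, Complex.mul_re, sub_zero,
    Complex.zero_re] at h1 h2
  rcases mul_eq_zero.1 h1 with h3 | h3
  · rw [h3, zero_mul, add_zero] at h2
    exact ⟨h2, h3⟩
  · exact absurd h3 ζ_im

lemma lin_ne_zero {h v : ℝ} (hv : h + v = 1) : (h : ℂ) + v * ζ ≠ 0 := by
  intro h0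
  obtain ⟨h1, h2⟩ := lin_eq_zero h0
  rw [h1, h2] at hv
  norm_num at hv

lemma lin_ne_zero' {h v : ℝ} (hv : h + v = 1) : (h : ℂ) + v * (1 - ζ) ≠ 0 := by
  intro h0
  have h1 : ((h + v : ℝ) : ℂ) + ((-v : ℝ) : ℂ) * ζ = 0 := by
    push_cast
    linear_combination h0
  obtain ⟨h2, _⟩ := lin_eq_zero h1
  rw [hv] at h2
  norm_num at h2

lemma aniso_edge (h : ℝ) (z : ℤ × ℤ) (c : Fin 4) :
    aniso h s(z, z + dir c) = if c = 1 ∨ c = 3 then h else 1 - h := by
  obtain ⟨x, y⟩ := z
  unfold aniso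
  have key : (∃ a b : ℤ, s(((x, y) : ℤ × ℤ), (x, y) + dir c) = s((a, b), (a + 1, b))) ↔
      (c = 1 ∨ c = 3) := by
    constructor
    · rintro ⟨a, b, hab⟩
      rw [Sym2.eq_iff] at hab
      fin_cases c
      · exfalso
        simp at hab
        omega
      · left; rfl
      · exfalso
        simp at hab
        omega
      · right; rfl
    · rintro (rfl | rfl)
      · exact ⟨x, y, by simp⟩
      · refine ⟨x - 1, y, ?_⟩
        rw [Sym2.eq_swap]
        simp
        ring
  simp only [key]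

/-- the phases of the model with `p_horizontal = h`, `p_vertical = v` -/
lemma phases {h v : ℝ} (hv : h + v = 1) : ∃ α β : ℂ, α ≠ 0 ∧ β ≠ 0 ∧ α * β = ζ ^ 2 ∧
    α * (h + v * (1 - ζ)) = ζ * (v + h * (1 - ζ)) ∧
    (1 - (v : ℂ)) * (α - 1) + v * ((β⁻¹ - 1) * ζ) = 0 ∧
    (1 - (h : ℂ)) * (β - 1) + h * ((α⁻¹ - 1) * ζ) = 0 := by
  have hv' : v + h = 1 := by linarith
  have hvc : (h : ℂ) + v = 1 := by exact_mod_cast hv
  have hζ := ζ_sq
  have n1 := lin_ne_zero hv
  have n2 := lin_ne_zero hv'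
  have n3 := lin_ne_zero' hv
  have n4 := lin_ne_zero' hv'
  have f1 : (h : ℂ) + v * ζ = ζ * (v + h * (1 - ζ)) := by linear_combination h * hζ
  have f2 : (v : ℂ) + h * ζ = ζ * (h + v * (1 - ζ)) := by linear_combination v * hζ
  have hζ0 : ζ ≠ 0 := by
    intro h0
    rw [h0] at hζ
    norm_num at hζ
  refine ⟨((h : ℂ) + v * ζ) / (h + v * (1 - ζ)), ((v : ℂ) + h * ζ) / (v + h * (1 - ζ)),
    div_ne_zero n1 n3, div_ne_zero n2 n4, ?_, ?_, ?_, ?_⟩
  · rw [f1, f2]
    field_simp
  · rw [div_mul_cancel₀ _ n3, f1]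
  · rw [inv_div, f2]
    field_simp
    linear_combination (-(v * (2 * ζ - 1))) * hvc + v ^ 2 * hζ
  · rw [inv_div, f1]
    field_simp
    linear_combination (-(h * (2 * ζ - 1))) * hvc + h ^ 2 * hζ

/-- the sum over all exits, side by side -/
lemma exits_split {S : Finset (ℤ × ℤ)} (hS : IsYoung S) (g : Dart → ℂ) :
    ∑ d ∈ ((DS S).erase t0).filter (fun d => d.1 + dir d.2 ∉ S), g d =
      ∑ z ∈ S.filter (fun z => z.2 = 0), g (z, 0) +
      ∑ z ∈ S.filter (fun z => z + (1, 0) ∉ S), g (z, 1) +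
      ∑ z ∈ S.filter (fun z => z + (0, 1) ∉ S), g (z, 2) +
      ∑ z ∈ S.filter (fun z => z.1 = 0), g (z, 3) - g t0 := by
  classical
  have ht : t0 ∈ (DS S).filter (fun d => d.1 + dir d.2 ∉ S) := by
    rw [mem_filter, mem_DS]
    refine ⟨hS.1, fun h => ?_⟩
    have := (hS.2.1 _ h).1
    simp [t0, dir] at this
  have h0 : ((DS S).erase t0).filter (fun d => d.1 + dir d.2 ∉ S) =
      ((DS S).filter (fun d => d.1 + dir d.2 ∉ S)).erase t0 := by
    rw [filter_erase]
  have e0 : S.filter (fun z => z.2 = 0) = S.filter (fun z => z + dir 0 ∉ S) := by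
    apply filter_congr
    intro z hz
    have hz' := hS.2.1 z hz
    constructor
    · intro h h1
      have := (hS.2.1 _ h1).2
      simp [h] at this
    · intro h
      by_contra hcon
      apply h
      apply hS.2.2 z hz <;> simp <;> omega
  have e3 : S.filter (fun z => z.1 = 0) = S.filter (fun z => z + dir 3 ∉ S) := by
    apply filter_congr
    intro z hz
    have hz' := hS.2.1 z hz
    constructor
    · intro h h1
      have := (hS.2.1 _ h1).1
      simp [h] at this
    · intro h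
      by_contra hcon
      apply h
      apply hS.2.2 z hz <;> simp <;> omega
  have h1 : ∑ d ∈ (DS S).filter (fun d => d.1 + dir d.2 ∉ S), g d =
      ∑ z ∈ S.filter (fun z => z.2 = 0), g (z, 0) +
      ∑ z ∈ S.filter (fun z => z + (1, 0) ∉ S), g (z, 1) +
      ∑ z ∈ S.filter (fun z => z + (0, 1) ∉ S), g (z, 2) +
      ∑ z ∈ S.filter (fun z => z.1 = 0), g (z, 3) := by
    rw [e0, e3]
    unfold DS
    rw [sum_filter, sum_product_right, Fin.sum_univ_four]
    simp only [sum_filter]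
    rfl
  rw [h0, ← h1, ← add_sum_erase _ _ ht]
  ring

lemma perc_self (p : Sym2 (ℤ × ℤ) → ℝ) (S : Finset (ℤ × ℤ)) :
    (perc p S (fun ω => Joined ω (0, 0) (0, 0)) : ℂ) = 1 := by
  classical
  rw [perc_eq_sum]
  refine Eq.trans ?_ (wt_total p S)
  apply sum_congr rfl
  intro ω _
  rw [if_pos (joined_refl _ _), mul_one]

open Classical in
/-- **The sum rule** for critical bond percolation in a Young diagram `S` -/
theorem sum_rule (h : ℝ) (S : Finset (ℤ × ℤ)) (hS : IsYoung S) :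
    h * (∑ z ∈ S.filter (fun z => z + (1, 0) ∉ S), perc (aniso h) S (fun ω => Joined ω (0, 0) z)) +
      (1 - h) *
        (∑ z ∈ S.filter (fun z => z + (0, 1) ∉ S), perc (aniso h) S (fun ω => Joined ω (0, 0) z))
      = 1 ∧
    (1 - h) * (∑ z ∈ S.filter (fun z => z.2 = 0), perc (aniso h) S (fun ω => Joined ω (0, 0) z)) + h
      = (1 - h) *
        (∑ z ∈ S.filter (fun z => z + (0, 1) ∉ S), perc (aniso h) S (fun ω => Joined ω (0, 0) z)) +
        h * (∑ z ∈ S.filter (fun z => z.1 = 0), perc (aniso h) S (fun ω => Joined ω (0, 0) z)) := by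
  obtain ⟨v, hv⟩ : ∃ v, v = 1 - h := ⟨_, rfl⟩
  rw [← hv]
  have hhv : h + v = 1 := by rw [hv]; ring
  obtain ⟨α, β, hα, hβ, hαβ, hD, p1, p2⟩ := phases hhv
  have hζ := ζ_sq
  have hθ : (α * β) ^ 2 ≠ 1 := by
    rw [hαβ]
    intro h1
    have h2 : ((-1 : ℝ) : ℂ) + ((-1 : ℝ) : ℂ) * ζ = 0 := by
      push_cast
      linear_combination h1 - (ζ ^ 2 + ζ) * hζ
    have := (lin_eq_zero h2).1
    norm_num at this
  have hp : ∀ z c, (1 - (aniso h s(z, z + dir c) : ℂ)) * (kk α β c - 1) +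
      aniso h s(z, z + dir c) * (((kk α β (c + 1))⁻¹ - 1) * ζ) = 0 := by
    intro z c
    rw [aniso_edge, ← hv]
    fin_cases c
    · have : ¬ ((0 : Fin 4) = 1 ∨ (0 : Fin 4) = 3) := by decide
      simp only [Fin.zero_eta, if_neg this]
      exact p1
    · simp only [Fin.mk_one, true_or, if_true]
      exact p2
    · have : ¬ ((2 : Fin 4) = 1 ∨ (2 : Fin 4) = 3) := by decide
      simp only [Fin.reduceFinMk, if_neg this]
      exact p1
    · simp only [Fin.reduceFinMk, or_true, if_true]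
      exact p2
  have hsum := contour hα hβ hθ hζ hαβ hS (aniso h) hp
  rw [exits_split hS] at hsum
  -- the four sides
  have c0 : ∀ z ∈ S.filter (fun z => z.2 = 0), contr (aniso h) S α β (z, 0) =
      (α - 1) * (perc (aniso h) S (fun ω => Joined ω (0, 0) z) : ℝ) := by
    intro z hz
    rw [mem_filter] at hz
    have := contr_exit (α := α) (β := β) (aniso h) (S := S) (z := z) (c := 0) (by
      intro h1
      have := (hS.2.1 _ h1).2
      simp [hz.2] at this) 1 (fun ω hω => exit_bottom _ α β hα hβ hθ S hS (confOf_mem hω) _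
        (amp_isAmp hS (confOf_mem hω)) amp_s0 z hz.1 hz.2)
    rw [this, mul_one]
    rfl
  have c1 : ∀ z ∈ S.filter (fun z => z + (1, 0) ∉ S), contr (aniso h) S α β (z, 1) =
      (β - 1) * α * (perc (aniso h) S (fun ω => Joined ω (0, 0) z) : ℝ) := by
    intro z hz
    rw [mem_filter] at hz
    exact contr_exit (α := α) (β := β) (aniso h) (S := S) (z := z) (c := 1) hz.2 α
      (fun ω hω => exit_right _ α β hα hβ hθ S hS (confOf_mem hω) _
        (amp_isAmp hS (confOf_mem hω)) amp_s0 z hz.1 hz.2)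
  have c2 : ∀ z ∈ S.filter (fun z => z + (0, 1) ∉ S), contr (aniso h) S α β (z, 2) =
      (α - 1) * (α * β) * (perc (aniso h) S (fun ω => Joined ω (0, 0) z) : ℝ) := by
    intro z hz
    rw [mem_filter] at hz
    exact contr_exit (α := α) (β := β) (aniso h) (S := S) (z := z) (c := 2) hz.2 (α * β)
      (fun ω hω => exit_top _ α β hα hβ hθ S hS (confOf_mem hω) _
        (amp_isAmp hS (confOf_mem hω)) amp_s0 z hz.1 hz.2)
  have c3' : ∀ z ∈ S, z.1 = 0 → contr (aniso h) S α β (z, 3) =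
      (β - 1) * (α ^ 2 * β) * (perc (aniso h) S (fun ω => Joined ω (0, 0) z) : ℝ) := by
    intro z hz hz1
    exact contr_exit (α := α) (β := β) (aniso h) (S := S) (z := z) (c := 3) (by
      intro h1
      have := (hS.2.1 _ h1).1
      simp [hz1] at this) (α ^ 2 * β)
      (fun ω hω => exit_left _ α β hα hβ hθ S hS (confOf_mem hω) _
        (amp_isAmp hS (confOf_mem hω)) amp_s0 z hz hz1)
  have c3 : ∀ z ∈ S.filter (fun z => z.1 = 0), contr (aniso h) S α β (z, 3) =
      (β - 1) * (α ^ 2 * β) * (perc (aniso h) S (fun ω => Joined ω (0, 0) z) : ℝ) := by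
    intro z hz
    rw [mem_filter] at hz
    exact c3' z hz.1 hz.2
  have ct : contr (aniso h) S α β t0 = (β - 1) * (α ^ 2 * β) := by
    have := c3' (0, 0) hS.1 rfl
    rw [perc_self, mul_one] at this
    exact this
  rw [sum_congr rfl c0, sum_congr rfl c1, sum_congr rfl c2, sum_congr rfl c3, ct, ← mul_sum,
    ← mul_sum, ← mul_sum, ← mul_sum, ← Complex.ofReal_sum, ← Complex.ofReal_sum,
    ← Complex.ofReal_sum, ← Complex.ofReal_sum] at hsum
  generalize (∑ z ∈ S.filter (fun z => z.2 = 0),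
    perc (aniso h) S (fun ω => Joined ω (0, 0) z)) = B at *
  generalize (∑ z ∈ S.filter (fun z => z + (1, 0) ∉ S),
    perc (aniso h) S (fun ω => Joined ω (0, 0) z)) = R at *
  generalize (∑ z ∈ S.filter (fun z => z + (0, 1) ∉ S),
    perc (aniso h) S (fun ω => Joined ω (0, 0) z)) = T at *
  generalize (∑ z ∈ S.filter (fun z => z.1 = 0),
    perc (aniso h) S (fun ω => Joined ω (0, 0) z)) = L at *
  have hvc : (h : ℂ) + v = 1 := by exact_mod_cast hhv
  have k1 : (α - 1) * (h + v * (1 - ζ)) = v * (2 * ζ - 1) := by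
    linear_combination hD - h * hζ
  have k2 : (β - 1) * α * (h + v * (1 - ζ)) = ζ * h * (2 * ζ - 1) := by
    linear_combination (h + v * (1 - ζ)) * hαβ - hD - ζ * v * hζ
  have k3 : (α ^ 2 * β - 1) * (h + v * (1 - ζ)) = ζ * (2 * ζ - 1) := by
    linear_combination ζ ^ 2 * hD + α * (h + v * (1 - ζ)) * hαβ +
      ((ζ + 1) * (v + h * (1 - ζ)) - 2) * hζ - (2 - ζ) * hvc
  have hne : (2 * ζ - 1 : ℂ) ≠ 0 := by
    intro h0
    have h1 : ((-1 : ℝ) : ℂ) + ((2 : ℝ) : ℂ) * ζ = 0 := by push_cast; linear_combination h0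
    have := (lin_eq_zero h1).1
    norm_num at this
  have key : (v : ℂ) * B + ζ * h * R + α * β * v * T + α * β * ζ * h * (L - 1) = ζ := by
    apply mul_left_cancel₀ hne
    linear_combination (h + v * (1 - ζ)) * hsum - (B + α * β * T) * k1 -
      (R + α * β * (L - 1)) * k2 + k3
  have key2 : ((v * B - v * T - h * (L - 1) : ℝ) : ℂ) + ((h * R + v * T - 1 : ℝ) : ℂ) * ζ = 0 := by
    push_cast
    linear_combination key - (v * T + ζ * h * (L - 1)) * hαβ - (v * T + (ζ + 1) * h * (L - 1)) * hζ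
  obtain ⟨r1, r2⟩ := lin_eq_zero key2
  exact ⟨by linarith, by linarith⟩

/-- the isotropic case -/
lemma aniso_half : aniso (1 / 2) = half := by
  funext e
  unfold aniso half
  split_ifs <;> norm_num

end H47Perc
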