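import Pool.Agent.Helper47.Perc.Defs

/-!
Boxes, the quadrant one-arm probability and the half-plane one-arm probabilities of critical bond
percolation on the square lattice: the definitions used in the statements.
-/

namespace H47Perc

/-- the box `[a,b] × [c,d]` -/
noncomputable def box (a b c d : ℤ) : Finset (ℤ × ℤ) := Finset.Icc (a, c) (b, d)

/-- the quadrant one-arm probability: in the box `[0,n]²`, the corner is joined to the union of
the two opposite sides -/
noncomputable def piQ (n : ℕ) : ℝ :=
  perc half (box 0 n 0 n) (fun ω => ∃ z : ℤ × ℤ, (z.1 = n ∨ z.2 = n) ∧ Joined ω (0, 0) z)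

open Classical in
/-- the part of the box `[-n,n]²` in the half-plane `a x + b y ≤ 0` -/
noncomputable def halfBox (a b : ℝ) (n : ℤ) : Finset (ℤ × ℤ) :=
  (box (-n) n (-n) n).filter (fun z => a * z.1 + b * z.2 ≤ 0)

/-- the half-plane one-arm probability in direction `(a,b)`: in the half box, the origin is joined
to the boundary of the box `[-n,n]²` -/
noncomputable def piH (a b : ℝ) (n : ℕ) : ℝ :=
  perc half (halfBox a b n) (fun ω => ∃ z : ℤ × ℤ, (|z.1| = n ∨ |z.2| = n) ∧ Joined ω (0, 0) z)

end H47Perc
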