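import Pool.Agent.Helper47.Perc.Aspect

/-!
One-arm events in finite subsets of the square lattice, the quadrant and half-plane one-arm
probabilities.
-/

namespace H47Perc
open Finset
open Pool.Agent.Helper69.RSW (P P_mono P_map P_restrict P_congr Dep Up harris P_nonneg P_indep
  P_or_le P_le_one)

/-- the ball of radius `k` around `u` for the maximum norm -/
noncomputable def ball (u : ℤ × ℤ) (k : ℤ) : Finset (ℤ × ℤ) :=
  box (u.1 - k) (u.1 + k) (u.2 - k) (u.2 + k)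

/-- `z` is at distance `k` from `u` -/
def AtDist (u : ℤ × ℤ) (k : ℤ) (z : ℤ × ℤ) : Prop := |z.1 - u.1| = k ∨ |z.2 - u.2| = k

/-- `u` is joined, inside the part of `S` in the ball of radius `k` around `u`, to a point at
distance `k` -/
def Arm (S : Finset (ℤ × ℤ)) (u : ℤ × ℤ) (k : ℤ) (ω : Finset (Sym2 (ℤ × ℤ))) : Prop :=
  ∃ z : ℤ × ℤ, AtDist u k z ∧ Joined (ω ∩ edgesIn (S ∩ ball u k)) u z

/-- probability of the arm event -/
noncomputable def armP (S : Finset (ℤ × ℤ)) (u : ℤ × ℤ) (k : ℤ) : ℝ :=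
  perc half S (Arm S u k)

/-! ### walks -/

/-- a nontrivial connection starts in the vertex set -/
lemma mem_of_joined_ne {S : Finset (ℤ × ℤ)} {ω : Finset (Sym2 (ℤ × ℤ))} (hω : ω ⊆ edgesIn S)
    {u v : ℤ × ℤ} (h : Joined ω u v) (huv : u ≠ v) : u ∈ S := by
  obtain ⟨p⟩ := h
  cases p with
  | nil => exact absurd rfl huv
  | @cons _ b _ hab p =>
    rw [SimpleGraph.fromEdgeSet_adj] at hab
    have hab1 : s(u, b) ∈ ω := by exact_mod_cast hab.1
    exact (mem_edgesIn.1 (hω hab1)).1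

lemma mem_of_joined {S : Finset (ℤ × ℤ)} {ω : Finset (Sym2 (ℤ × ℤ))} (hω : ω ⊆ edgesIn S)
    {u v : ℤ × ℤ} (h : Joined ω u v) (hu : u ∈ S) : v ∈ S := by
  by_cases huv : u = v
  · exact huv ▸ hu
  · exact mem_of_joined_ne hω (joined_symm h) (Ne.symm huv)

lemma mem_ball {u : ℤ × ℤ} {k : ℤ} {z : ℤ × ℤ} :
    z ∈ ball u k ↔ |z.1 - u.1| ≤ k ∧ |z.2 - u.2| ≤ k := by
  unfold ball
  rw [mem_box, abs_le, abs_le]
  omega

lemma adj_dist {u v : ℤ × ℤ} (h : lattice.Adj u v) : |u.1 - v.1| ≤ 1 ∧ |u.2 - v.2| ≤ 1 := by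
  rcases h with ⟨h1, h2⟩ | ⟨h1, h2⟩
  · rw [h1, h2]; simp
  · rw [h1, h2]; simp

/-- localization: a connection to a point at distance at least `k` contains an arm -/
lemma arm_of_joined {S : Finset (ℤ × ℤ)} {ω : Finset (Sym2 (ℤ × ℤ))} {u v : ℤ × ℤ} {k : ℤ}
    (hk : 0 ≤ k) (h : Joined (ω ∩ edgesIn S) u v) (hv : k ≤ |v.1 - u.1| ∨ k ≤ |v.2 - u.2|) :
    Arm S u k ω := by
  rcases hk.eq_or_lt with rfl | hk
  · exact ⟨u, Or.inl (by simp), joined_refl _ _⟩
  have huv : u ≠ v := by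
    rintro rfl
    simp at hv
    omega
  have hu : u ∈ S := mem_of_joined_ne inter_subset_right h huv
  have hu' : u ∈ S ∩ ball u (k - 1) := by
    rw [mem_inter, mem_ball]
    refine ⟨hu, ?_⟩
    simp
    omega
  have hv' : v ∉ S ∩ ball u (k - 1) := by
    rw [mem_inter, mem_ball]
    rintro ⟨_, h1, h2⟩
    omega
  obtain ⟨w, w', w1, w2, w3, w4, w5, w6⟩ := joined_exit inter_subset_right h hu' hv'
  rw [mem_inter, mem_ball] at w1 w2
  have h4 := adj_dist w4
  rw [abs_le, abs_le] at h4 w1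
  have hd : |w'.1 - u.1| ≤ k ∧ |w'.2 - u.2| ≤ k := by
    rw [abs_le, abs_le]
    omega
  refine ⟨w', ?_, ?_⟩
  · by_contra hcon
    unfold AtDist at hcon
    apply w2
    refine ⟨w3, ?_, ?_⟩ <;> omega
  · have hm : S ∩ ball u (k - 1) ⊆ S ∩ ball u k := by
      intro z hz
      rw [mem_inter, mem_ball] at hz ⊢
      refine ⟨hz.1, ?_, ?_⟩ <;> omega
    refine joined_trans (joined_mono ?_ w6) (joined_edge ?_)
    · intro e he
      rw [mem_inter, mem_inter] at he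
      rw [mem_inter]
      exact ⟨he.1.1, edgesIn_mono hm he.2⟩
    · rw [mem_inter] at w5 ⊢
      refine ⟨w5.1, ?_⟩
      rw [mem_edgesIn] at w5 ⊢
      refine ⟨?_, ?_, w4⟩
      · rw [mem_inter, mem_ball, abs_le, abs_le]
        refine ⟨w1.1, ?_⟩
        omega
      · rw [mem_inter, mem_ball]
        exact ⟨w3, hd⟩

lemma arm_up (S : Finset (ℤ × ℤ)) (u : ℤ × ℤ) (k : ℤ) : Up (Arm S u k) := by
  rintro ω ω' h ⟨z, h1, h2⟩
  exact ⟨z, h1, joined_mono (inter_subset_inter_right h) h2⟩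

lemma arm_dep (S : Finset (ℤ × ℤ)) (u : ℤ × ℤ) (k : ℤ) :
    Dep (edgesIn (S ∩ ball u k)) (Arm S u k) := by
  intro ω
  unfold Arm
  simp only [inter_assoc, inter_self]

lemma arm_mono {S S' : Finset (ℤ × ℤ)} {u : ℤ × ℤ} {k : ℤ} (h : S ∩ ball u k ⊆ S')
    {ω : Finset (Sym2 (ℤ × ℤ))} (ha : Arm S u k ω) : Arm S' u k ω := by
  obtain ⟨z, h1, h2⟩ := ha
  refine ⟨z, h1, joined_mono (inter_subset_inter_left (edgesIn_mono ?_)) h2⟩
  exact subset_inter h inter_subset_right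

/-- the probability of an arm event can be computed in any larger domain -/
lemma perc_arm {S T : Finset (ℤ × ℤ)} (u : ℤ × ℤ) (k : ℤ) (h : S ∩ ball u k ⊆ T) :
    perc half T (Arm S u k) = armP S u k := by
  unfold armP
  rw [Pool.Agent.Helper69.RSW.perc_half_eq, Pool.Agent.Helper69.RSW.perc_half_eq,
    P_restrict (edgesIn_mono h) (arm_dep S u k),
    P_restrict (edgesIn_mono inter_subset_left) (arm_dep S u k)]

lemma armP_mono {S S' : Finset (ℤ × ℤ)} {u : ℤ × ℤ} {k : ℤ} (h : S ∩ ball u k ⊆ S') :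
    armP S u k ≤ armP S' u k := by
  rw [← perc_arm (T := S') u k h]
  exact perc_half_mono (fun ω _ ha => arm_mono h ha)

lemma arm_anti {S : Finset (ℤ × ℤ)} {u : ℤ × ℤ} {k k' : ℤ} (hk : 0 ≤ k) (h : k ≤ k')
    {ω : Finset (Sym2 (ℤ × ℤ))} (ha : Arm S u k' ω) : Arm S u k ω := by
  obtain ⟨z, h1, h2⟩ := ha
  refine arm_of_joined hk (joined_mono (inter_subset_inter_left (edgesIn_mono inter_subset_left))
    h2) ?_
  rcases h1 with h1 | h1
  · left; omega
  · right; omega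

lemma armP_anti {S : Finset (ℤ × ℤ)} {u : ℤ × ℤ} {k k' : ℤ} (hk : 0 ≤ k) (h : k ≤ k') :
    armP S u k' ≤ armP S u k :=
  perc_half_mono (fun _ _ ha => arm_anti hk h ha)

lemma armP_nonneg (S : Finset (ℤ × ℤ)) (u : ℤ × ℤ) (k : ℤ) : 0 ≤ armP S u k :=
  perc_half_nonneg _ _

lemma perc_half_le_one (S : Finset (ℤ × ℤ)) (A : Finset (Sym2 (ℤ × ℤ)) → Prop) :
    perc half S A ≤ 1 := by
  rw [Pool.Agent.Helper69.RSW.perc_half_eq]
  exact P_le_one _ _

lemma armP_le_one (S : Finset (ℤ × ℤ)) (u : ℤ × ℤ) (k : ℤ) : armP S u k ≤ 1 :=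
  perc_half_le_one _ _

lemma edgesIn_disjoint {S T : Finset (ℤ × ℤ)} (h : Disjoint S T) :
    Disjoint (edgesIn S) (edgesIn T) := by
  rw [disjoint_left] at h ⊢
  intro e h1 h2
  induction e using Sym2.ind with
  | _ u v =>
    rw [mem_edgesIn] at h1 h2
    exact h h1.1 h2.1

/-- two distant points: the connection probability is at most the product of two arm
probabilities -/
lemma perc_joined_le {S : Finset (ℤ × ℤ)} {u v : ℤ × ℤ} {k : ℤ} (hk : 0 ≤ k)
    (h : 2 * k < |v.1 - u.1| ∨ 2 * k < |v.2 - u.2|) :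
    perc half S (fun ω => Joined ω u v) ≤ armP S u k * armP S v k := by
  have hd : Disjoint (S ∩ ball u k) (S ∩ ball v k) := by
    rw [disjoint_left]
    intro z h1 h2
    rw [mem_inter, mem_ball] at h1 h2
    have e1 := abs_le.1 h1.2.1
    have e2 := abs_le.1 h1.2.2
    have e3 := abs_le.1 h2.2.1
    have e4 := abs_le.1 h2.2.2
    rcases h with h | h
    · rcases abs_cases (v.1 - u.1) with h' | h' <;> omega
    · rcases abs_cases (v.2 - u.2) with h' | h' <;> omega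
  calc perc half S (fun ω => Joined ω u v)
      ≤ perc half S (fun ω => Arm S u k ω ∧ Arm S v k ω) := by
        apply perc_half_mono
        intro ω hω hj
        have hj' : Joined (ω ∩ edgesIn S) u v := by rwa [inter_eq_left.2 hω]
        refine ⟨arm_of_joined hk hj' ?_, arm_of_joined hk (joined_symm hj') ?_⟩
        · omega
        · rw [abs_sub_comm u.1, abs_sub_comm u.2]; omega
    _ = armP S u k * armP S v k := by
        unfold armP
        rw [Pool.Agent.Helper69.RSW.perc_half_eq, Pool.Agent.Helper69.RSW.perc_half_eq,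
          Pool.Agent.Helper69.RSW.perc_half_eq]
        exact P_indep (edgesIn_mono inter_subset_left) (edgesIn_mono inter_subset_left)
          (edgesIn_disjoint hd) (arm_dep S u k) (arm_dep S v k)

/-! ### isometries -/

/-- isometries of the lattice that preserve the maximum norm -/
def IsSym (f : ℤ × ℤ ≃ ℤ × ℤ) : Prop :=
  IsIso f ∧ ∀ u z : ℤ × ℤ,
    (|(f z).1 - (f u).1| = |z.1 - u.1| ∧ |(f z).2 - (f u).2| = |z.2 - u.2|) ∨
    (|(f z).1 - (f u).1| = |z.2 - u.2| ∧ |(f z).2 - (f u).2| = |z.1 - u.1|)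

lemma IsSym.atDist {f : ℤ × ℤ ≃ ℤ × ℤ} (hf : IsSym f) {u z : ℤ × ℤ} {k : ℤ} :
    AtDist (f u) k (f z) ↔ AtDist u k z := by
  unfold AtDist
  rcases hf.2 u z with ⟨h1, h2⟩ | ⟨h1, h2⟩
  · rw [h1, h2]
  · rw [h1, h2, or_comm]

lemma IsSym.map_ball {f : ℤ × ℤ ≃ ℤ × ℤ} (hf : IsSym f) (u : ℤ × ℤ) (k : ℤ) :
    (ball u k).map f.toEmbedding = ball (f u) k := by
  ext z
  rw [mem_map_equiv, mem_ball, mem_ball]
  have h := hf.2 u (f.symm z)
  rw [f.apply_symm_apply] at h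
  rcases h with ⟨h1, h2⟩ | ⟨h1, h2⟩
  · rw [h1, h2]
  · rw [h1, h2, and_comm]

lemma arm_map {f : ℤ × ℤ ≃ ℤ × ℤ} (hf : IsSym f) {S : Finset (ℤ × ℤ)} {u : ℤ × ℤ} {k : ℤ}
    {ω : Finset (Sym2 (ℤ × ℤ))} :
    Arm (S.map f.toEmbedding) (f u) k (ω.map (emb f)) ↔ Arm S u k ω := by
  classical
  unfold Arm
  have e : ω.map (emb f) ∩ edgesIn (S.map f.toEmbedding ∩ ball (f u) k)
      = (ω ∩ edgesIn (S ∩ ball u k)).map (emb f) := by
    rw [← hf.map_ball, ← map_inter, edgesIn_map hf.1, ← map_inter]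
  rw [e]
  constructor
  · rintro ⟨z, h1, h2⟩
    refine ⟨f.symm z, ?_, ?_⟩
    · rw [← hf.atDist, f.apply_symm_apply]; exact h1
    · rw [← joined_map (f := f), f.apply_symm_apply]; exact h2
  · rintro ⟨z, h1, h2⟩
    exact ⟨f z, hf.atDist.2 h1, joined_map.2 h2⟩

lemma armP_map {f : ℤ × ℤ ≃ ℤ × ℤ} (hf : IsSym f) (S : Finset (ℤ × ℤ)) (u : ℤ × ℤ) (k : ℤ) :
    armP (S.map f.toEmbedding) (f u) k = armP S u k := by
  unfold armP
  rw [perc_half_map hf.1]
  congr 1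
  funext ω
  exact propext (arm_map hf)

lemma transl_sym (t : ℤ × ℤ) : IsSym (transl t) := by
  refine ⟨transl_iso t, fun u z => Or.inl ?_⟩
  simp [transl]

lemma transp_sym : IsSym transp := by
  refine ⟨transp_iso, fun u z => Or.inr ?_⟩
  simp [transp]

/-- reflection in the vertical axis -/
def reflX : ℤ × ℤ ≃ ℤ × ℤ := (Equiv.neg ℤ).prodCongr (Equiv.refl ℤ)

lemma reflX_sym : IsSym reflX := by
  constructor
  · rintro ⟨a, b⟩ ⟨c, d⟩
    unfold lattice reflX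
    simp only [Equiv.prodCongr_apply, Equiv.neg_apply, Equiv.coe_refl, Prod.map_apply, id_eq,
      neg_inj, neg_sub_neg]
    rw [abs_sub_comm c a]
  · rintro ⟨a, b⟩ ⟨c, d⟩
    left
    simp only [reflX, Equiv.prodCongr_apply, Equiv.neg_apply, Equiv.coe_refl, Prod.map_apply,
      id_eq, neg_sub_neg, and_true]
    exact abs_sub_comm _ _

/-! ### the two arm probabilities -/

lemma piQ_eq {n : ℕ} (S : Finset (ℤ × ℤ)) (hS : S ∩ ball (0, 0) n = box 0 n 0 n) :
    piQ n = armP S (0, 0) n := by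
  rw [← perc_arm (T := box 0 n 0 n) (0, 0) n (by rw [hS])]
  unfold piQ
  apply le_antisymm
  · apply perc_half_mono
    rintro ω hω ⟨z, h1, h2⟩
    refine ⟨z, ?_, ?_⟩
    · rcases h1 with h1 | h1
      · left; rw [h1]; simp
      · right; rw [h1]; simp
    · rwa [hS, inter_eq_left.2 hω]
  · apply perc_half_mono
    rintro ω hω ⟨z, h1, h2⟩
    rw [hS, inter_eq_left.2 hω] at h2
    refine ⟨z, ?_, h2⟩
    have hz := mem_of_joined hω h2 (by rw [mem_box]; simp)
    rw [mem_box] at hz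
    unfold AtDist at h1
    simp only [sub_zero] at h1
    rw [abs_of_nonneg hz.1, abs_of_nonneg hz.2.2.1] at h1
    exact h1

lemma mem_halfBox {a b : ℝ} {n : ℤ} {z : ℤ × ℤ} :
    z ∈ halfBox a b n ↔ z ∈ ball (0, 0) n ∧ a * z.1 + b * z.2 ≤ 0 := by
  unfold halfBox ball
  rw [mem_filter]
  simp

lemma piH_eq {a b : ℝ} {n : ℕ} (S : Finset (ℤ × ℤ))
    (hS : S ∩ ball (0, 0) n = halfBox a b n) : piH a b n = armP S (0, 0) n := by
  rw [← perc_arm (T := halfBox a b n) (0, 0) n (by rw [hS])]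
  unfold piH Arm AtDist
  apply le_antisymm
  · apply perc_half_mono
    rintro ω hω ⟨z, h1, h2⟩
    refine ⟨z, by simpa using h1, ?_⟩
    rwa [hS, inter_eq_left.2 hω]
  · apply perc_half_mono
    rintro ω hω ⟨z, h1, h2⟩
    rw [hS, inter_eq_left.2 hω] at h2
    exact ⟨z, by simpa using h1, h2⟩

lemma piQ_anti {n n' : ℕ} (h : n ≤ n') : piQ n' ≤ piQ n := by
  rw [piQ_eq (n := n') (box 0 n' 0 n'), piQ_eq (n := n) (box 0 n' 0 n')]
  · exact armP_anti (by omega) (by omega)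
  · ext z; rw [mem_inter, mem_ball, mem_box, mem_box, abs_le, abs_le]; simp only; omega
  · ext z; rw [mem_inter, mem_ball, mem_box, abs_le, abs_le]; simp only; omega

lemma halfBox_inter (a b : ℝ) {n n' : ℤ} (h : n ≤ n') :
    halfBox a b n' ∩ ball (0, 0) n = halfBox a b n := by
  ext z
  rw [mem_inter, mem_halfBox, mem_halfBox]
  constructor
  · rintro ⟨⟨h1, h2⟩, h3⟩
    exact ⟨h3, h2⟩
  · rintro ⟨h1, h2⟩
    refine ⟨⟨?_, h2⟩, h1⟩
    rw [mem_ball] at h1 ⊢
    omega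

lemma piH_anti (a b : ℝ) {n n' : ℕ} (h : n ≤ n') : piH a b n' ≤ piH a b n := by
  rw [piH_eq (n := n') (halfBox a b n') (halfBox_inter a b le_rfl),
    piH_eq (n := n) (halfBox a b n') (halfBox_inter a b (by omega))]
  exact armP_anti (by omega) (by omega)

lemma piQ_nonneg (n : ℕ) : 0 ≤ piQ n := perc_half_nonneg _ _
lemma piQ_le_one (n : ℕ) : piQ n ≤ 1 := perc_half_le_one _ _
lemma piH_nonneg (a b : ℝ) (n : ℕ) : 0 ≤ piH a b n := perc_half_nonneg _ _
lemma piH_le_one (a b : ℝ) (n : ℕ) : piH a b n ≤ 1 := perc_half_le_one _ _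

end H47Perc
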