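import Mathlib

/-!
The product `∏_{k<n} (3k+1)/(3k+2)` is of order `n^(-1/3)`.
-/

namespace H47Perc
open Finset

/-- the exact probability -/
noncomputable def gam (n : ℕ) : ℝ := ∏ k ∈ range n, ((3 * k + 1 : ℝ) / (3 * k + 2))

lemma gam_pos (n : ℕ) : 0 < gam n := by
  unfold gam
  apply prod_pos
  intro k _
  positivity

lemma gam_succ (n : ℕ) : gam (n + 1) = gam n * ((3 * n + 1 : ℝ) / (3 * n + 2)) := by
  unfold gam
  rw [prod_range_succ]

lemma gam_lower (n : ℕ) (hn : 1 ≤ n) : 1 / 8 ≤ n * gam n ^ 3 := by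
  induction n, hn using Nat.le_induction with
  | base =>
    unfold gam
    norm_num
  | succ n hn ih =>
    refine ih.trans ?_
    rw [gam_succ, mul_pow, div_pow]
    have h1 : (0:ℝ) < gam n ^ 3 := pow_pos (gam_pos n) 3
    have h2 : (0:ℝ) < (3 * n + 2) ^ 3 := by positivity
    have h3 : (n : ℝ) ≤ (n + 1) * ((3 * n + 1) ^ 3 / (3 * n + 2) ^ 3) := by
      rw [← mul_div_assoc, le_div_iff₀ h2]
      have : (0:ℝ) ≤ n := by positivity
      nlinarith
    push_cast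
    calc (n : ℝ) * gam n ^ 3 ≤ ((n + 1) * ((3 * n + 1) ^ 3 / (3 * n + 2) ^ 3)) * gam n ^ 3 :=
          mul_le_mul_of_nonneg_right h3 h1.le
      _ = _ := by ring

lemma gam_upper (n : ℕ) : (7 * n + 1) * gam n ^ 3 ≤ 1 := by
  induction n with
  | zero => simp [gam]
  | succ n ih =>
    refine le_trans ?_ ih
    rw [gam_succ, mul_pow, div_pow]
    have h1 : (0:ℝ) < gam n ^ 3 := pow_pos (gam_pos n) 3
    have h2 : (0:ℝ) < (3 * n + 2) ^ 3 := by positivity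
    have h3 : (7 * (n + 1) + 1 : ℝ) * ((3 * n + 1) ^ 3 / (3 * n + 2) ^ 3) ≤ 7 * n + 1 := by
      rw [← mul_div_assoc, div_le_iff₀ h2]
      have : (0:ℝ) ≤ n := by positivity
      nlinarith [mul_nonneg this this]
    push_cast
    calc (7 * ((n : ℝ) + 1) + 1) * (gam n ^ 3 * ((3 * n + 1) ^ 3 / (3 * n + 2) ^ 3))
        = ((7 * (n + 1) + 1 : ℝ) * ((3 * n + 1) ^ 3 / (3 * n + 2) ^ 3)) * gam n ^ 3 := by ring
      _ ≤ (7 * n + 1) * gam n ^ 3 := mul_le_mul_of_nonneg_right h3 h1.le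

/-- `½ n^(-1/3) ≤ ∏ (3k+1)/(3k+2) ≤ n^(-1/3)` -/
theorem gam_bounds (n : ℕ) (hn : 1 ≤ n) :
    (1 / 2) * (n : ℝ) ^ (-(1 / 3) : ℝ) ≤ gam n ∧ gam n ≤ (n : ℝ) ^ (-(1 / 3) : ℝ) := by
  have hn' : (0:ℝ) < n := by exact_mod_cast hn
  have hr : (0:ℝ) < (n : ℝ) ^ (-(1 / 3) : ℝ) := Real.rpow_pos_of_pos hn' _
  have hcube : ((n : ℝ) ^ (-(1 / 3) : ℝ)) ^ 3 = 1 / n := by
    rw [← Real.rpow_natCast, ← Real.rpow_mul hn'.le]
    norm_num
    rw [Real.rpow_neg_one]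
  have h1 := gam_lower n hn
  have h2 := gam_upper n
  have h3 := gam_pos n
  constructor
  · apply le_of_pow_le_pow_left₀ (n := 3) (by norm_num) h3.le
    rw [mul_pow, hcube]
    rw [div_le_iff₀' (by norm_num)] at h1
    have : 1 / (8 * (n:ℝ)) ≤ gam n ^ 3 := by
      rw [div_le_iff₀ (by positivity)]
      linarith
    calc (1 / 2 : ℝ) ^ 3 * (1 / n) = 1 / (8 * n) := by
          field_simp
          norm_num
      _ ≤ _ := this
  · apply le_of_pow_le_pow_left₀ (n := 3) (by norm_num) hr.le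
    rw [hcube, le_div_iff₀ hn']
    have h4 : (0:ℝ) ≤ gam n ^ 3 := by positivity
    nlinarith

end H47Perc
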