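import Pool.Agent.Helper47.Perc.NC

namespace H47Perc

open Equiv

lemma sc_one {Q : Perm ℤ} {x y : ℤ} (h : Q x = y) : Q.SameCycle x y := ⟨1, by simpa using h⟩

lemma sc_of_step {P Q : Perm ℤ} {f : ℤ → ℤ} (hs : ∀ x, Q.SameCycle (f x) (f (P x))) {x y : ℤ}
    (h : P.SameCycle x y) : Q.SameCycle (f x) (f y) := by
  obtain ⟨i, rfl⟩ := h
  induction i using Int.induction_on with
  | zero => exact Perm.SameCycle.refl _ _
  | succ n ih =>
    refine ih.trans ?_
    have := hs ((P ^ (n : ℤ)) x)
    rwa [← Perm.mul_apply, ← zpow_one_add, add_comm] at this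
  | pred n ih =>
    refine ih.trans ?_
    have := hs ((P ^ (-(n : ℤ) - 1)) x)
    rw [← Perm.mul_apply, ← zpow_one_add] at this
    have e : (1 : ℤ) + (-(n:ℤ) - 1) = -n := by ring
    rw [e] at this
    exact this.symm

/-- a point of a finite invariant set is periodic -/
lemma exists_period {P : Perm ℤ} {a b : ℤ} (h : ∀ x, a ≤ x → x ≤ b → a ≤ P x ∧ P x ≤ b)
    {x : ℤ} (h1 : a ≤ x) (h2 : x ≤ b) : ∃ n : ℕ, 0 < n ∧ (P ^ n) x = x := by
  have hm : ∀ n : ℕ, (P ^ n) x ∈ Set.Icc a b := by
    intro n
    induction n with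
    | zero => simpa using ⟨h1, h2⟩
    | succ n ih =>
      rw [pow_succ', Perm.mul_apply]
      exact h _ ih.1 ih.2
  obtain ⟨i, j, hij, he⟩ := Finite.exists_ne_map_eq_of_infinite
    (fun n : ℕ => (⟨(P ^ n) x, hm n⟩ : Set.Icc a b))
  have he' : (P ^ i) x = (P ^ j) x := by simpa using he
  rcases lt_or_gt_of_ne hij with hlt | hlt
  · refine ⟨j - i, by omega, ?_⟩
    have : (P ^ i) ((P ^ (j - i)) x) = (P ^ i) x := by
      rw [← Perm.mul_apply, ← pow_add, he']
      congr 2
      omega
    exact (P ^ i).injective this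
  · refine ⟨i - j, by omega, ?_⟩
    have : (P ^ j) ((P ^ (i - j)) x) = (P ^ j) x := by
      rw [← Perm.mul_apply, ← pow_add, ← he']
      congr 2
      omega
    exact (P ^ j).injective this

/-- walking along a finite cycle that is not cut -/
lemma sc_walk {P Q : Perm ℤ} {a b w : ℤ} (h : ∀ x, a ≤ x → x ≤ b → a ≤ P x ∧ P x ≤ b)
    (h1 : a ≤ w) (h2 : w ≤ b) (hQ : ∀ x, a ≤ x → x ≤ b → x ≠ w → Q x = P x) :
    Q.SameCycle (P w) w := by
  obtain ⟨n, hn, hp⟩ := exists_period h h1 h2
  have hm : ∀ n : ℕ, a ≤ (P ^ n) w ∧ (P ^ n) w ≤ b := by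
    intro n
    induction n with
    | zero => simpa using ⟨h1, h2⟩
    | succ n ih =>
      rw [pow_succ', Perm.mul_apply]
      exact h _ ih.1 ih.2
  have key : ∀ k : ℕ, Q.SameCycle (P w) ((P ^ (k+1)) w) ∨ Q.SameCycle (P w) w := by
    intro k
    induction k with
    | zero => left; exact Perm.SameCycle.refl _ _
    | succ k ih =>
      rcases ih with ih | ih
      · by_cases hw : (P ^ (k+1)) w = w
        · right
          rwa [hw] at ih
        · left
          refine ih.trans ?_
          rw [pow_succ' P (k+1), Perm.mul_apply, ← hQ _ (hm (k+1)).1 (hm (k+1)).2 hw]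
          exact sc_one rfl
      · right; exact ih
  have := key (n-1)
  rw [show n - 1 + 1 = n by omega, hp] at this
  tauto

lemma op_merge_ud {P : Perm ℤ} (h : NC P) (u d : ℤ) (hd : d = P u + 1) :
    (op P (P u) d).SameCycle u d := by
  by_cases hud : u = d
  · subst hud; exact Perm.SameCycle.refl _ _
  have hn := op_ne P u d
  rcases lt_or_ge (P u) u with h4 | h4
  · -- the cycle of d is inside (P u, u)
    have h5 : (op P (P u) d).SameCycle (P d) d := by
      refine sc_walk (a := P u + 1) (b := u - 1) ?_ (by omega) (by omega) ?_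
      · intro x hx1 hx2
        have := (h u x).2 h4 (by omega) (by omega)
        omega
      · intro x hx1 hx2 hx3
        exact hn x (by omega) hx3
    exact Perm.SameCycle.trans (sc_one (op_u P u d)) h5
  · have h5 : (op P (P u) d).SameCycle (P u) u := by
      refine sc_walk (a := u) (b := P u) ?_ (by omega) (by omega) ?_
      · intro x hx1 hx2
        exact (h u x).1 h4 hx1 hx2
      · intro x hx1 hx2 hx3
        exact hn x hx3 (by omega)
    exact Perm.SameCycle.symm (Perm.SameCycle.trans (sc_one (op_d P u d)) h5)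

/-- joining adjacent columns merges their classes -/
lemma sc_merge {P : Perm ℤ} (h : NC P) (c d : ℤ) (hd : d = c + 1) {x y : ℤ}
    (hxy : P.SameCycle x y) : (op P c d).SameCycle x y := by
  obtain ⟨u, rfl⟩ := P.surjective c
  have hud := op_merge_ud h u d hd
  refine sc_of_step (f := fun z => z) ?_ hxy
  intro x
  by_cases hxu : x = u
  · subst hxu
    exact hud.trans (sc_one (op_d P x d))
  by_cases hxd : x = d
  · subst hxd
    exact hud.symm.trans (sc_one (op_u P u x))
  exact sc_one (op_ne P u d x hxu hxd)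

lemma sc_merge' {P : Perm ℤ} (c d : ℤ) :
    (op P c d).SameCycle c d := by
  obtain ⟨u, rfl⟩ := P.surjective c
  exact (sc_one (op_d P u d)).symm

/-- isolating a column does not disconnect the others -/
lemma sc_isolate {P : Perm ℤ} (c : ℤ) {x y : ℤ} (hx : x ≠ c) (hy : y ≠ c)
    (hxy : P.SameCycle x y) : (op P c c).SameCycle x y := by
  obtain ⟨u, rfl⟩ := P.surjective c
  by_cases huc : u = P u
  · have h2 : op P (P u) (P u) = P := by
      have := op_self P u
      conv_lhs => rw [← huc]
      rwa [← huc] at this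
    rwa [h2]
  have hne : P (P u) ≠ P u := fun hh => huc (P.injective hh).symm
  have := sc_of_step (P := P) (Q := op P (P u) (P u)) (f := fun z => if z = P u then P (P u) else z)
    ?_ hxy
  · simpa [hx, hy] using this
  intro z
  by_cases hzc : z = P u
  · subst hzc
    rw [if_pos rfl, if_neg hne]
  by_cases hzu : z = u
  · subst hzu
    rw [if_neg hzc, if_pos rfl]
    exact sc_one (op_u P z (P z))
  have h3 : P z ≠ P u := fun hh => hzu (P.injective hh)
  rw [if_neg hzc, if_neg h3]
  exact sc_one (op_ne P u (P u) z hzu hzc)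

/-- permutations that fix everything outside of a window -/
def Sup (B : ℤ) (P : Perm ℤ) : Prop := ∀ x, (x < -B ∨ B < x) → P x = x

lemma Sup.op {B : ℤ} {P : Perm ℤ} (h : Sup B P) {c d : ℤ} (hc : -B ≤ c ∧ c ≤ B)
    (hd : -B ≤ d ∧ d ≤ B) : Sup B (op P c d) := by
  obtain ⟨u, rfl⟩ := P.surjective c
  intro x hx
  have hu : x ≠ u := by
    rintro rfl
    have := h x hx
    omega
  rw [op_ne P u d x hu (by omega)]
  exact h x hx

end H47Perc
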