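import Pool.Agent.Helper47.Perc.Arms
import Pool.Agent.Helper47.Perc.Asym

/-!
Bond percolation on the diagonal cylinder: definitions (not used in the final statements).
Everything is lifted to `ℤ × ℤ`, the period is `(n, -n)`, the cylinder is the part
`-M ≤ x + y ≤ 0` of the plane.
-/

namespace H47Perc
open Finset Filter Topology
open Pool.Agent.Helper69.RSW (P)

/-- fundamental set of edges: `s(v, v+(1,0))` and `s(v, v+(0,1))` for the vertices `v = (x,y)` with
`0 ≤ x < n` and `-M ≤ x + y ≤ -1` -/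
noncomputable def fund (n M : ℕ) : Finset (Sym2 (ℤ × ℤ)) :=
  ((Ico (0 : ℤ) n) ×ˢ (Ico (-(M : ℤ)) 0)).image
      (fun p => s((p.1, p.2 - p.1), (p.1 + 1, p.2 - p.1))) ∪
    ((Ico (0 : ℤ) n) ×ˢ (Ico (-(M : ℤ)) 0)).image
      (fun p => s((p.1, p.2 - p.1), (p.1, p.2 - p.1 + 1)))

/-- translation by `k` periods -/
def psh (n : ℕ) (k : ℤ) (z : ℤ × ℤ) : ℤ × ℤ := (z.1 + k * n, z.2 - k * n)

/-- the periodic configuration -/
def lift (n : ℕ) (ω : Finset (Sym2 (ℤ × ℤ))) : Set (Sym2 (ℤ × ℤ)) :=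
  {e | ∃ k : ℤ, e.map (psh n k) ∈ ω}

/-- connection in the periodic configuration -/
def JoinedP (n : ℕ) (ω : Finset (Sym2 (ℤ × ℤ))) (u v : ℤ × ℤ) : Prop :=
  (SimpleGraph.fromEdgeSet (lift n ω)).Reachable u v

/-- the boundary vertex `0` is joined to its translate: its cluster winds around the cylinder -/
def Exposed (n : ℕ) (ω : Finset (Sym2 (ℤ × ℤ))) : Prop := JoinedP n ω (0, 0) (n, -n)

/-- probability that the boundary vertex `0` is exposed on the cylinder of height `M` -/
noncomputable def pExp (n M : ℕ) : ℝ := P (fund n M) (Exposed n)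

/-- statement (B): the exact formula for the half-infinite cylinder -/
def ExactFormula : Prop := ∀ n : ℕ, 1 ≤ n → Tendsto (pExp n) atTop (𝓝 (gam n))

/-- statement (C): comparison with the half-plane one-arm probability -/
def CylCompare : Prop := ∃ c C : ℝ, 0 < c ∧ 0 < C ∧ ∀ n M : ℕ, 1 ≤ n → 8 * n ≤ M →
  c * piH 1 1 n ≤ pExp n M ∧ pExp n M ≤ C * piH 1 1 n

end H47Perc
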