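import Pool.Agent.Helper47.Perc.GenDefs

/-!
Exploration paths of bond configurations on the square lattice.

A dart `(z, c)` is a corner of the vertex `z`; it is the piece of the medial path that keeps the
vertex `z` on its left and heads towards the edge of `z` in direction `c`
(`0` = south, `1` = east, `2` = north, `3` = west). At a closed edge the path goes on around `z`
(a left turn), at an open edge it crosses to the neighbour (a right turn).
-/

namespace H47Perc

@[simp] lemma dir_zero : dir 0 = (0, -1) := rfl
@[simp] lemma dir_one : dir 1 = (1, 0) := rfl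
@[simp] lemma dir_two : dir 2 = (0, 1) := rfl
@[simp] lemma dir_three : dir 3 = (-1, 0) := rfl

lemma dir_add_two (c : Fin 4) : dir (c + 2) = - dir c := by
  fin_cases c <;> rfl

/-- a configuration: `o z c` says that the edge from `z` in direction `c` is open -/
structure Conf where
  o : ℤ × ℤ → Fin 4 → Prop
  symm : ∀ z c, o (z + dir c) (c + 2) ↔ o z c

open Classical in
/-- the next dart of the exploration -/
noncomputable def Conf.nxt (C : Conf) (d : Dart) : Dart :=
  if C.o d.1 d.2 then (d.1 + dir d.2, d.2 + 3) else (d.1, d.2 + 1)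

open Classical in
/-- the previous dart of the exploration -/
noncomputable def Conf.prv (C : Conf) (d : Dart) : Dart :=
  if C.o d.1 (d.2 + 3) then (d.1 + dir (d.2 + 3), d.2 + 1) else (d.1, d.2 + 3)

lemma Conf.nxt_open (C : Conf) {z : ℤ × ℤ} {c : Fin 4} (h : C.o z c) :
    C.nxt (z, c) = (z + dir c, c + 3) := by
  unfold Conf.nxt; exact if_pos h

lemma Conf.nxt_closed (C : Conf) {z : ℤ × ℤ} {c : Fin 4} (h : ¬ C.o z c) :
    C.nxt (z, c) = (z, c + 1) := by
  unfold Conf.nxt; exact if_neg h

lemma Conf.prv_open (C : Conf) {z : ℤ × ℤ} {c : Fin 4} (h : C.o z (c + 3)) :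
    C.prv (z, c) = (z + dir (c + 3), c + 1) := by
  unfold Conf.prv; exact if_pos h

lemma Conf.prv_closed (C : Conf) {z : ℤ × ℤ} {c : Fin 4} (h : ¬ C.o z (c + 3)) :
    C.prv (z, c) = (z, c + 3) := by
  unfold Conf.prv; exact if_neg h

/-- the exploration permutation -/
noncomputable def Conf.perm (C : Conf) : Equiv.Perm Dart where
  toFun := C.nxt
  invFun := C.prv
  left_inv := by
    rintro ⟨z, c⟩
    by_cases h : C.o z c
    · have h3 : c + 3 + 3 = c + 2 := by rw [add_assoc]; rfl
      have h4 : c + 3 + 1 = c := by rw [add_assoc]; exact add_zero c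
      have h5 : C.o (z + dir c) (c + 3 + 3) := by
        rw [h3]; exact (C.symm z c).2 h
      rw [C.nxt_open h, C.prv_open h5, h3, dir_add_two, h4]
      simp
    · have h4 : c + 1 + 3 = c := by rw [add_assoc]; exact add_zero c
      have h5 : ¬ C.o z (c + 1 + 3) := by rwa [h4]
      rw [C.nxt_closed h, C.prv_closed h5, h4]
  right_inv := by
    rintro ⟨z, c⟩
    by_cases h : C.o z (c + 3)
    · have h3 : c + 3 + 2 = c + 1 := by rw [add_assoc]; rfl
      have h4 : c + 1 + 3 = c := by rw [add_assoc]; exact add_zero c
      have h5 : C.o (z + dir (c + 3)) (c + 1) := by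
        have := (C.symm z (c+3)).2 h
        rwa [h3] at this
      have h6 : dir (c + 1) = - dir (c + 3) := by
        rw [← dir_add_two, h3]
      rw [C.prv_open h, C.nxt_open h5, h6, h4]
      simp
    · have h4 : c + 3 + 1 = c := by rw [add_assoc]; exact add_zero c
      rw [C.prv_closed h, C.nxt_closed h, h4]

@[simp] lemma Conf.perm_apply (C : Conf) (d : Dart) : C.perm d = C.nxt d := rfl
@[simp] lemma Conf.perm_symm_apply (C : Conf) (d : Dart) : C.perm.symm d = C.prv d := rfl

/-- the phase of a left turn at an edge in direction `c` (vertical edges `α`, horizontal `β`) -/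
def kk (α β : ℂ) : Fin 4 → ℂ := ![α, β, α, β]

open Classical in
/-- the phase picked up when leaving a dart: left turn at a closed edge, right turn at an open
edge -/
noncomputable def Conf.ph (C : Conf) (α β : ℂ) (d : Dart) : ℂ :=
  if C.o d.1 d.2 then (kk α β (d.2 + 1))⁻¹ else kk α β d.2

/-- `Λ` is an amplitude for the exploration cut at the dart `t` -/
def Conf.IsAmp (C : Conf) (α β : ℂ) (t : Dart) (Λ : Dart → ℂ) : Prop :=
  ∀ d, d ≠ t → Λ (C.nxt d) = C.ph α β d * Λ d

/-- one step along an open edge -/
def Conf.Step (C : Conf) (z w : ℤ × ℤ) : Prop := ∃ c, C.o z c ∧ w = z + dir c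

/-- connected by open edges -/
def Conf.Conn (C : Conf) : ℤ × ℤ → ℤ × ℤ → Prop := Relation.ReflTransGen C.Step

end H47Perc
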