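import Pool.Agent.Helper47.Perc.Duality
import Pool.Agent.Helper69.RSW.Bridge

/-!
Consequences of self-duality: crossing probabilities of all boxes that are not longer than
`height + 1` are at least `1/2`; translations and the transposition of the lattice.
-/

namespace H47Perc
open Finset
open Pool.Agent.Helper69.RSW (P P_mono P_map P_restrict P_congr Dep)

lemma joined_mono {ω ω' : Finset (Sym2 (ℤ × ℤ))} (h : ω ⊆ ω') {u v : ℤ × ℤ}
    (hj : Joined ω u v) : Joined ω' u v := by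
  apply SimpleGraph.Reachable.mono _ hj
  apply SimpleGraph.fromEdgeSet_mono
  exact_mod_cast h

lemma edgesIn_mono {S T : Finset (ℤ × ℤ)} (h : S ⊆ T) : edgesIn S ⊆ edgesIn T := by
  intro e he
  induction e using Sym2.ind with
  | _ u v =>
    rw [mem_edgesIn] at he ⊢
    exact ⟨h he.1, h he.2.1, he.2.2⟩

/-! ### truncation -/

/-- A path from the set `T` to its complement leaves `T` through an edge; the part before stays
in `T`. -/
lemma joined_exit {S T : Finset (ℤ × ℤ)} {ω : Finset (Sym2 (ℤ × ℤ))} (hω : ω ⊆ edgesIn S)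
    {u v : ℤ × ℤ} (h : Joined ω u v) (hu : u ∈ T) (hv : v ∉ T) :
    ∃ w w' : ℤ × ℤ, w ∈ T ∧ w' ∉ T ∧ w' ∈ S ∧ lattice.Adj w w' ∧ s(w, w') ∈ ω ∧
      Joined (ω ∩ edgesIn T) u w := by
  obtain ⟨p⟩ := h
  induction p with
  | nil => exact absurd hu hv
  | @cons a b c hab p ih =>
    rw [SimpleGraph.fromEdgeSet_adj] at hab
    have hab1 : s(a, b) ∈ ω := by exact_mod_cast hab.1
    have hab2 := mem_edgesIn.1 (hω hab1)
    by_cases hb : b ∈ T
    · obtain ⟨w, w', h1, h2, h3, h4, h5, h6⟩ := ih hb hv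
      refine ⟨w, w', h1, h2, h3, h4, h5, joined_trans (joined_edge ?_) h6⟩
      rw [mem_inter, mem_edgesIn]
      exact ⟨hab1, hu, hb, hab2.2.2⟩
    · exact ⟨a, b, hu, hb, hab2.2.1, hab2.2.2, hab1, joined_refl _ _⟩

/-- a crossing of a longer box contains a crossing of a shorter one -/
lemma LR_shorten {a b b' c d : ℤ} (hab : a ≤ b) (hb : b ≤ b') {ω : Finset (Sym2 (ℤ × ℤ))}
    (hω : ω ⊆ edgesIn (box a b' c d)) (h : LR a b' c d ω) :
    LR a b c d (ω ∩ edgesIn (box a b c d)) := by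
  obtain ⟨y, y', h1, h2, h3, h4, h5⟩ := h
  rcases hb.eq_or_lt with rfl | hb
  · refine ⟨y, y', h1, h2, h3, h4, ?_⟩
    rwa [inter_eq_left.2 hω]
  · have hu : ((a, y) : ℤ × ℤ) ∈ box a b c d := by
      rw [mem_box]; simp only; omega
    have hv : ((b', y') : ℤ × ℤ) ∉ box a b c d := by
      rw [mem_box]; simp only; omega
    obtain ⟨w, w', w1, w2, w3, w4, w5, w6⟩ := joined_exit hω h5 hu hv
    obtain ⟨x1, y1⟩ := w
    obtain ⟨x2, y2⟩ := w'
    rw [mem_box] at w1 w2 w3
    simp only at w1 w2 w3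
    have hx : x1 = b := by
      rcases w4 with ⟨e1, e2⟩ | ⟨e1, e2⟩
      · simp only at e1 e2
        omega
      · simp only at e1 e2
        rcases (abs_eq (by norm_num)).1 e2 with e3 | e3 <;> omega
    subst hx
    exact ⟨y, y1, h1, h2, w1.2.2.1, w1.2.2.2, w6⟩

/-! ### lattice isometries -/

/-- lattice automorphisms -/
def IsIso (f : ℤ × ℤ ≃ ℤ × ℤ) : Prop := ∀ u v, lattice.Adj (f u) (f v) ↔ lattice.Adj u v

/-- action on edges -/
def emb (f : ℤ × ℤ ≃ ℤ × ℤ) : Sym2 (ℤ × ℤ) ↪ Sym2 (ℤ × ℤ) :=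
  f.toEmbedding.sym2Map

lemma emb_mk (f : ℤ × ℤ ≃ ℤ × ℤ) (u v : ℤ × ℤ) : emb f s(u, v) = s(f u, f v) := rfl

lemma edgesIn_map {f : ℤ × ℤ ≃ ℤ × ℤ} (hf : IsIso f) (S : Finset (ℤ × ℤ)) :
    edgesIn (S.map f.toEmbedding) = (edgesIn S).map (emb f) := by
  ext e
  induction e using Sym2.ind with
  | _ u v =>
    rw [mem_edgesIn]
    constructor
    · rintro ⟨h1, h2, h3⟩
      rw [mem_map_equiv] at h1 h2
      rw [mem_map]
      refine ⟨s(f.symm u, f.symm v), ?_, ?_⟩
      · rw [mem_edgesIn]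
        refine ⟨h1, h2, ?_⟩
        rw [← hf]
        simpa using h3
      · rw [emb_mk]; simp
    · intro hm
      rw [mem_map] at hm
      obtain ⟨e, he, h⟩ := hm
      induction e using Sym2.ind with
      | _ u' v' =>
        rw [mem_edgesIn] at he
        rw [emb_mk, Sym2.eq_iff] at h
        rcases h with ⟨rfl, rfl⟩ | ⟨rfl, rfl⟩
        · refine ⟨?_, ?_, (hf _ _).2 he.2.2⟩
          · rw [mem_map_equiv]; simpa using he.1
          · rw [mem_map_equiv]; simpa using he.2.1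
        · refine ⟨?_, ?_, (hf _ _).2 he.2.2.symm⟩
          · rw [mem_map_equiv]; simpa using he.2.1
          · rw [mem_map_equiv]; simpa using he.1

lemma joined_map_of {f : ℤ × ℤ ≃ ℤ × ℤ} {ω : Finset (Sym2 (ℤ × ℤ))} {u v : ℤ × ℤ}
    (h : Joined ω u v) : Joined (ω.map (emb f)) (f u) (f v) := by
  obtain ⟨p⟩ := h
  induction p with
  | nil => exact joined_refl _ _
  | @cons a b c hab p ih =>
    rw [SimpleGraph.fromEdgeSet_adj] at hab
    have hab1 : s(a, b) ∈ ω := by exact_mod_cast hab.1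
    refine joined_trans (joined_edge ?_) ih
    rw [mem_map]
    exact ⟨s(a, b), hab1, rfl⟩

lemma emb_symm_map (f : ℤ × ℤ ≃ ℤ × ℤ) (ω : Finset (Sym2 (ℤ × ℤ))) :
    (ω.map (emb f)).map (emb f.symm) = ω := by
  rw [map_map]
  have : (emb f).trans (emb f.symm) = Function.Embedding.refl _ := by
    ext e
    induction e using Sym2.ind with
    | _ u v =>
      rw [Function.Embedding.trans_apply, emb_mk, emb_mk]
      simp
  rw [this, map_refl]

lemma joined_map {f : ℤ × ℤ ≃ ℤ × ℤ} {ω : Finset (Sym2 (ℤ × ℤ))} {u v : ℤ × ℤ} :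
    Joined (ω.map (emb f)) (f u) (f v) ↔ Joined ω u v := by
  constructor
  · intro h
    have := joined_map_of (f := f.symm) h
    rw [emb_symm_map] at this
    simpa using this
  · exact joined_map_of

theorem perc_half_map {f : ℤ × ℤ ≃ ℤ × ℤ} (hf : IsIso f) (S : Finset (ℤ × ℤ))
    (A : Finset (Sym2 (ℤ × ℤ)) → Prop) :
    perc half (S.map f.toEmbedding) A = perc half S (fun ω => A (ω.map (emb f))) := by
  rw [Pool.Agent.Helper69.RSW.perc_half_eq, Pool.Agent.Helper69.RSW.perc_half_eq,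
    edgesIn_map hf, P_map]

/-- transposition -/
def transp : ℤ × ℤ ≃ ℤ × ℤ := Equiv.prodComm ℤ ℤ

/-- translation -/
def transl (t : ℤ × ℤ) : ℤ × ℤ ≃ ℤ × ℤ := Equiv.addRight t

lemma transp_iso : IsIso transp := by
  rintro ⟨a, b⟩ ⟨c, d⟩
  unfold lattice transp
  simp only [Equiv.prodComm_apply, Prod.swap_prod_mk]
  tauto

lemma transl_iso (t : ℤ × ℤ) : IsIso (transl t) := by
  rintro ⟨a, b⟩ ⟨c, d⟩
  obtain ⟨x, y⟩ := t
  unfold lattice transl
  simp only [Equiv.coe_addRight, Prod.mk_add_mk, add_left_inj, add_sub_add_right_eq_sub]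

lemma box_transp (a b c d : ℤ) :
    (box a b c d).map transp.toEmbedding = box c d a b := by
  ext ⟨x, y⟩
  rw [mem_map_equiv, mem_box, mem_box]
  simp only [transp, Equiv.prodComm_symm, Equiv.prodComm_apply, Prod.swap_prod_mk]
  tauto

lemma box_transl (a b c d x y : ℤ) :
    (box a b c d).map (transl (x, y)).toEmbedding = box (a+x) (b+x) (c+y) (d+y) := by
  ext ⟨u, v⟩
  rw [mem_map_equiv, mem_box, mem_box]
  simp only [transl, Equiv.addRight_symm, Equiv.coe_addRight, Prod.neg_mk, Prod.mk_add_mk]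
  omega

lemma LR_transp {a b c d : ℤ} {ω : Finset (Sym2 (ℤ × ℤ))} :
    LR c d a b (ω.map (emb transp)) ↔ BT a b c d ω := by
  unfold LR BT
  constructor
  · rintro ⟨y, y', h1, h2, h3, h4, h5⟩
    exact ⟨y, y', h1, h2, h3, h4, (joined_map (f := transp) (u := (y, c)) (v := (y', d))).1 h5⟩
  · rintro ⟨y, y', h1, h2, h3, h4, h5⟩
    exact ⟨y, y', h1, h2, h3, h4, (joined_map (f := transp) (u := (y, c)) (v := (y', d))).2 h5⟩

lemma LR_transl {a b c d x y : ℤ} {ω : Finset (Sym2 (ℤ × ℤ))} :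
    LR (a+x) (b+x) (c+y) (d+y) (ω.map (emb (transl (x, y)))) ↔ LR a b c d ω := by
  unfold LR
  constructor
  · rintro ⟨z, z', h1, h2, h3, h4, h5⟩
    refine ⟨z - y, z' - y, by omega, by omega, by omega, by omega, ?_⟩
    rw [← joined_map (f := transl (x, y))]
    simpa [transl] using h5
  · rintro ⟨z, z', h1, h2, h3, h4, h5⟩
    refine ⟨z + y, z' + y, by omega, by omega, by omega, by omega, ?_⟩
    rw [← joined_map (f := transl (x, y))] at h5
    simpa [transl] using h5

/-- crossing probability of a box -/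
noncomputable def pLR (m n : ℤ) : ℝ := perc half (box 0 m 0 n) (LR 0 m 0 n)

lemma perc_LR_transl (a b c d x y : ℤ) :
    perc half (box (a+x) (b+x) (c+y) (d+y)) (LR (a+x) (b+x) (c+y) (d+y))
      = perc half (box a b c d) (LR a b c d) := by
  rw [← box_transl, perc_half_map (transl_iso _)]
  congr 1
  funext ω
  exact propext LR_transl

lemma perc_LR (a b c d : ℤ) :
    perc half (box a b c d) (LR a b c d) = pLR (b - a) (d - c) := by
  have := perc_LR_transl 0 (b-a) 0 (d-c) a c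
  rw [pLR, ← this]
  congr 2 <;> ring

lemma perc_BT (a b c d : ℤ) :
    perc half (box a b c d) (BT a b c d) = pLR (d - c) (b - a) := by
  rw [← perc_LR c d a b, ← box_transp a b c d, perc_half_map transp_iso]
  congr 1
  funext ω
  exact propext LR_transp.symm

lemma pLR_anti {m m' : ℤ} (hm : 0 ≤ m) (h : m ≤ m') (n : ℤ) : pLR m' n ≤ pLR m n := by
  unfold pLR
  have h1 : perc half (box 0 m 0 n) (LR 0 m 0 n)
      = perc half (box 0 m' 0 n) (fun ω => LR 0 m 0 n (ω ∩ edgesIn (box 0 m 0 n))) := by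
    rw [Pool.Agent.Helper69.RSW.perc_half_eq, Pool.Agent.Helper69.RSW.perc_half_eq]
    have hsub : edgesIn (box 0 m 0 n) ⊆ edgesIn (box 0 m' 0 n) := by
      apply edgesIn_mono
      intro z hz
      rw [mem_box] at hz ⊢
      omega
    have hdep : Dep (edgesIn (box 0 m 0 n))
        (fun ω => LR 0 m 0 n (ω ∩ edgesIn (box 0 m 0 n))) := by
      intro S
      simp only [inter_assoc, inter_self]
    rw [P_restrict hsub hdep]
    apply P_congr
    intro S hS
    rw [inter_eq_left.2 hS]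
  rw [h1, Pool.Agent.Helper69.RSW.perc_half_eq, Pool.Agent.Helper69.RSW.perc_half_eq]
  exact P_mono (fun ω hω h2 => LR_shorten hm h hω h2)

/-- **Self-duality bound**: boxes of width at most height `+ 1` are crossed with probability at
least `1/2`. -/
theorem half_le_pLR {m : ℤ} {n : ℤ} (hm : 0 ≤ m) (hn : 0 ≤ n) (h : m ≤ n + 1) :
    1/2 ≤ pLR m n := by
  obtain ⟨k, rfl⟩ := Int.eq_ofNat_of_zero_le hn
  exact (crossing_half k).trans (pLR_anti hm h _)

end H47Perc
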