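import Pool.Agent.Helper47.Perc.Upper

/-!
The product of the quadrant and the half-plane one-arm probabilities is of order `1/n`, in all
directions.
-/

namespace H47Perc
open Finset

lemma piH_transp (a b : ℝ) (n : ℕ) : piH b a n = piH a b n := by
  rw [piH_eq (n := n) (halfBox b a n) (halfBox_inter b a le_rfl),
    piH_eq (n := n) (halfBox a b n) (halfBox_inter a b le_rfl),
    ← armP_map transp_sym (halfBox a b n) (0, 0) n]
  congr 1
  ext z
  rw [mem_map_equiv, mem_halfBox, mem_halfBox, mem_ball, mem_ball]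
  obtain ⟨x, y⟩ := z
  simp only [transp, Equiv.prodComm_symm, Equiv.prodComm_apply, Prod.swap_prod_mk]
  rw [add_comm (b * (x:ℝ))]
  tauto

lemma piH_reflX (a b : ℝ) (n : ℕ) : piH (-a) b n = piH a b n := by
  rw [piH_eq (n := n) (halfBox (-a) b n) (halfBox_inter (-a) b le_rfl),
    piH_eq (n := n) (halfBox a b n) (halfBox_inter a b le_rfl),
    ← armP_map reflX_sym (halfBox a b n) (0, 0) n]
  congr 1
  ext z
  rw [mem_map_equiv, mem_halfBox, mem_halfBox, mem_ball, mem_ball]
  obtain ⟨x, y⟩ := z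
  simp only [reflX, Equiv.prodCongr_symm, Equiv.prodCongr_apply, Prod.map_apply,
    Equiv.refl_symm, Equiv.coe_refl, id_eq, Equiv.neg_symm, Equiv.neg_apply, Int.cast_neg,
    sub_zero, abs_neg, neg_mul, mul_neg]

lemma piH_reflY (a b : ℝ) (n : ℕ) : piH a (-b) n = piH a b n := by
  rw [← piH_transp, piH_reflX, piH_transp]

lemma piH_abs (a b : ℝ) (n : ℕ) : piH |a| |b| n = piH a b n := by
  rcases abs_choice a with ha | ha <;> rcases abs_choice b with hb | hb <;> rw [ha, hb]
  · exact piH_reflY a b n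
  · exact piH_reflX a b n
  · rw [piH_reflX, piH_reflY]

/-- every direction is equivalent to one in the first octant -/
lemma octant (a b : ℝ) (h : a ≠ 0 ∨ b ≠ 0) : ∃ a' b' : ℝ, a' ≤ b' ∧ 0 ≤ a' ∧ 0 < b' ∧
    ∀ n, piH a b n = piH a' b' n := by
  rcases le_total |a| |b| with h1 | h1
  · refine ⟨|a|, |b|, h1, abs_nonneg a, ?_, fun n => (piH_abs a b n).symm⟩
    rcases h with h | h
    · exact lt_of_lt_of_le (abs_pos.2 h) h1
    · exact abs_pos.2 h
  · refine ⟨|b|, |a|, h1, abs_nonneg b, ?_, fun n => ?_⟩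
    · rcases h with h | h
      · exact abs_pos.2 h
      · exact lt_of_lt_of_le (abs_pos.2 h) h1
    · rw [piH_transp |a| |b|, piH_abs]

theorem arm_product (hR : SumRule) (hC : CrossBound) : ∃ c C : ℝ, 0 < c ∧ 0 < C ∧
    ∀ a b : ℝ, (a ≠ 0 ∨ b ≠ 0) → ∀ n : ℕ, 1 ≤ n →
      c ≤ n * piQ n * piH a b n ∧ n * piQ n * piH a b n ≤ C := by
  obtain ⟨c, hc, hRSW⟩ := hC 16
  have hc1 : c ≤ 1 := (hRSW 1 le_rfl).trans (perc_half_le_one _ _)
  refine ⟨1 / 44, 12 / c ^ 3, by norm_num, by positivity, fun a b h n hn => ?_⟩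
  obtain ⟨a', b', h1, h2, h3, h4⟩ := octant a b h
  rw [h4 n]
  exact ⟨lower h1 h2 h3 hR hn, upper h1 h2 h3 hR hc hc1 (by exact_mod_cast hRSW) hn⟩

/-- isotropy of the half-plane one-arm probability -/
theorem isotropy (hR : SumRule) (hC : CrossBound) : ∃ K : ℝ, ∀ a b a' b' : ℝ,
    (a ≠ 0 ∨ b ≠ 0) → (a' ≠ 0 ∨ b' ≠ 0) → ∀ n : ℕ, piH a b n ≤ K * piH a' b' n := by
  obtain ⟨c, C, hc, hC, h⟩ := arm_product hR hC
  refine ⟨max 1 (C / c), fun a b a' b' h1 h2 n => ?_⟩
  rcases Nat.eq_zero_or_pos n with rfl | hn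
  · have e : ∀ a b : ℝ, piH a b 0 = 1 := by
      intro a b
      unfold piH
      rw [Pool.Agent.Helper69.RSW.perc_half_eq, 
        ← Pool.Agent.Helper69.RSW.P_true (edgesIn (halfBox a b (0 : ℕ)))]
      apply Pool.Agent.Helper69.RSW.P_congr
      intro ω _
      simp only [iff_true]
      exact ⟨(0, 0), Or.inl (by simp), joined_refl _ _⟩
    rw [e, e]
    simp
  · have e1 := (h a b h1 n hn).2
    have e2 := (h a' b' h2 n hn).1
    have hq : 0 < n * piQ n := by
      have : 0 ≤ (n:ℝ) * piQ n := mul_nonneg (by positivity) (piQ_nonneg n)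
      rcases this.eq_or_lt with h0 | h0
      · rw [← h0, zero_mul] at e2
        linarith
      · exact h0
    have e3 : n * piQ n * piH a b n ≤ n * piQ n * (C / c * piH a' b' n) := by
      calc n * piQ n * piH a b n ≤ C := e1
        _ = C / c * c := by field_simp
        _ ≤ C / c * (n * piQ n * piH a' b' n) := by
            apply mul_le_mul_of_nonneg_left e2 (by positivity)
        _ = _ := by ring
    have e4 := le_of_mul_le_mul_left e3 hq
    exact e4.trans (mul_le_mul_of_nonneg_right (le_max_right _ _) (piH_nonneg _ _ _))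

end H47Perc
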