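import Pool.Agent.Helper47.Perc.CylDefs
import Pool.Agent.Helper47.Perc.Isotropy

/-!
Assembly: the exponents `1/3` and `2/3`.
-/

namespace H47Perc
open Finset Filter Topology

theorem exponents_diag (hB : ExactFormula) (hC : CylCompare) : ∃ c C : ℝ, 0 < c ∧ 0 < C ∧
    ∀ n : ℕ, 1 ≤ n → c * (n : ℝ) ^ (-(1 / 3) : ℝ) ≤ piH 1 1 n ∧
      piH 1 1 n ≤ C * (n : ℝ) ^ (-(1 / 3) : ℝ) := by
  obtain ⟨c, C, hc, hC, h⟩ := hC
  refine ⟨1 / (2 * C), 1 / c, by positivity, by positivity, fun n hn => ?_⟩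
  have h1 : c * piH 1 1 n ≤ gam n :=
    ge_of_tendsto (hB n hn) (eventually_atTop.2 ⟨8 * n, fun M hM => (h n M hn hM).1⟩)
  have h2 : gam n ≤ C * piH 1 1 n :=
    le_of_tendsto (hB n hn) (eventually_atTop.2 ⟨8 * n, fun M hM => (h n M hn hM).2⟩)
  have h3 := gam_bounds n hn
  constructor
  · rw [div_mul_eq_mul_div, div_le_iff₀ (by positivity)]
    linarith
  · rw [div_mul_eq_mul_div, le_div_iff₀ hc]
    linarith

/-- from the exponent `1/3` in one direction to all directions and to the quadrant -/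
theorem exponents_of_dir (hR : SumRule) (hX : CrossBound) {a0 b0 : ℝ} (hab0 : a0 ≠ 0 ∨ b0 ≠ 0)
    (h : ∃ c C : ℝ, 0 < c ∧ 0 < C ∧ ∀ n : ℕ, 1 ≤ n →
      c * (n : ℝ) ^ (-(1 / 3) : ℝ) ≤ piH a0 b0 n ∧
        piH a0 b0 n ≤ C * (n : ℝ) ^ (-(1 / 3) : ℝ)) :
    ∃ c C : ℝ, 0 < c ∧ ∀ n : ℕ, 1 ≤ n →
      (∀ a b : ℝ, (a ≠ 0 ∨ b ≠ 0) → c * (n : ℝ) ^ (-(1 / 3) : ℝ) ≤ piH a b n ∧
        piH a b n ≤ C * (n : ℝ) ^ (-(1 / 3) : ℝ)) ∧
      c * (n : ℝ) ^ (-(2 / 3) : ℝ) ≤ piQ n ∧ piQ n ≤ C * (n : ℝ) ^ (-(2 / 3) : ℝ) := by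
  obtain ⟨c1, C1, hc1, hC1, h1⟩ := h
  obtain ⟨c2, C2, hc2, hC2, h2⟩ := arm_product hR hX
  obtain ⟨K, hK⟩ := isotropy hR hX
  have hK0 : 0 < K := by
    have := hK a0 b0 a0 b0 hab0 hab0 1
    have h3 := (h1 1 le_rfl).1
    simp only [Nat.cast_one, Real.one_rpow, mul_one] at h3
    by_contra hcon
    push Not at hcon
    nlinarith
  set c := min (c1 / K) (c2 / C1) with hc
  set C := max (K * C1) (C2 / c1) with hCdef
  have hcpos : 0 < c := lt_min (by positivity) (by positivity)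
  refine ⟨c, C, hcpos, fun n hn => ?_⟩
  have hn' : (0:ℝ) < n := by exact_mod_cast hn
  have hr : (0:ℝ) < (n : ℝ) ^ (-(1 / 3) : ℝ) := Real.rpow_pos_of_pos hn' _
  have hr2 : (0:ℝ) < (n : ℝ) ^ (-(2 / 3) : ℝ) := Real.rpow_pos_of_pos hn' _
  have hrr : (n : ℝ) * (n : ℝ) ^ (-(2 / 3) : ℝ) * (n : ℝ) ^ (-(1 / 3) : ℝ) = 1 := by
    rw [mul_assoc, ← Real.rpow_add hn', show (-(2 / 3) + -(1 / 3) : ℝ) = -1 by norm_num,
      Real.rpow_neg_one, mul_inv_cancel₀ hn'.ne']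
  obtain ⟨e1, e2⟩ := h1 n hn
  obtain ⟨g1, g2⟩ := h2 a0 b0 hab0 n hn
  have q0 := piQ_nonneg n
  have k1 : c ≤ c1 / K := min_le_left _ _
  have k2 : c ≤ c2 / C1 := min_le_right _ _
  have k3 : K * C1 ≤ C := le_max_left _ _
  have k4 : C2 / c1 ≤ C := le_max_right _ _
  generalize (n : ℝ) ^ (-(1 / 3) : ℝ) = X at *
  generalize (n : ℝ) ^ (-(2 / 3) : ℝ) = Y at *
  refine ⟨fun a b hab => ?_, ?_, ?_⟩
  · have f1 := hK a b a0 b0 hab hab0 n
    have f2 := hK a0 b0 a b hab0 hab n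
    constructor
    · calc c * X ≤ c1 / K * X := mul_le_mul_of_nonneg_right k1 hr.le
        _ ≤ piH a b n := by
            rw [div_mul_eq_mul_div, div_le_iff₀ hK0]
            linarith
    · calc piH a b n ≤ K * (C1 * X) := f1.trans (mul_le_mul_of_nonneg_left e2 hK0.le)
        _ = K * C1 * X := by ring
        _ ≤ _ := mul_le_mul_of_nonneg_right k3 hr.le
  · calc c * Y ≤ c2 / C1 * Y := mul_le_mul_of_nonneg_right k2 hr2.le
      _ ≤ piQ n := by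
          rw [div_mul_eq_mul_div, div_le_iff₀ hC1]
          have g3 : c2 ≤ n * piQ n * (C1 * X) :=
            g1.trans (mul_le_mul_of_nonneg_left e2 (mul_nonneg hn'.le q0))
          calc c2 * Y ≤ (n * piQ n * (C1 * X)) * Y := mul_le_mul_of_nonneg_right g3 hr2.le
            _ = piQ n * C1 * (n * Y * X) := by ring
            _ = piQ n * C1 := by rw [hrr, mul_one]
  · calc piQ n ≤ C2 / c1 * Y := by
          rw [div_mul_eq_mul_div, le_div_iff₀ hc1]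
          have g3 : n * piQ n * (c1 * X) ≤ C2 :=
            (mul_le_mul_of_nonneg_left e1 (mul_nonneg hn'.le q0)).trans g2
          calc piQ n * c1 = piQ n * c1 * (n * Y * X) := by rw [hrr, mul_one]
            _ = (n * piQ n * (c1 * X)) * Y := by ring
            _ ≤ C2 * Y := mul_le_mul_of_nonneg_right g3 hr2.le
      _ ≤ _ := mul_le_mul_of_nonneg_right k4 hr2.le

/-- the one-arm exponents of the half-plane (all directions) and of the quadrant, from the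
cylinder -/
theorem exponents_all (hR : SumRule) (hX : CrossBound) (hB : ExactFormula) (hC : CylCompare) :
    ∃ c C : ℝ, 0 < c ∧ ∀ n : ℕ, 1 ≤ n →
      (∀ a b : ℝ, (a ≠ 0 ∨ b ≠ 0) → c * (n : ℝ) ^ (-(1 / 3) : ℝ) ≤ piH a b n ∧
        piH a b n ≤ C * (n : ℝ) ^ (-(1 / 3) : ℝ)) ∧
      c * (n : ℝ) ^ (-(2 / 3) : ℝ) ≤ piQ n ∧ piQ n ≤ C * (n : ℝ) ^ (-(2 / 3) : ℝ) :=
  exponents_of_dir hR hX (Or.inl one_ne_zero) (exponents_diag hB hC)

end H47Perc
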