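import Mathlib

/-!
Planarity by counting, part 1: the cycles of a permutation after multiplication by a
transposition, and the number of classes of an equivalence relation.
-/

namespace H47Perc
open Equiv Equiv.Perm Finset

section Join
variable {X : Type*}

/-- the equivalence relation obtained by joining the classes of `a` and `b` -/
def jn (r : Setoid X) (a b : X) : Setoid X where
  r d d' := r d d' ∨ (r d a ∧ r b d') ∨ (r d b ∧ r a d')
  iseqv := {
    refl := fun d => Or.inl (r.refl' d)
    symm := by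
      rintro d d' (h | ⟨h1, h2⟩ | ⟨h1, h2⟩)
      · exact Or.inl (r.symm' h)
      · exact Or.inr (Or.inr ⟨r.symm' h2, r.symm' h1⟩)
      · exact Or.inr (Or.inl ⟨r.symm' h2, r.symm' h1⟩)
    trans := by
      rintro d d' d'' (h | ⟨h1, h2⟩ | ⟨h1, h2⟩) (h' | ⟨h3, h4⟩ | ⟨h3, h4⟩)
      · exact Or.inl (r.trans' h h')
      · exact Or.inr (Or.inl ⟨r.trans' h h3, h4⟩)
      · exact Or.inr (Or.inr ⟨r.trans' h h3, h4⟩)
      · exact Or.inr (Or.inl ⟨h1, r.trans' h2 h'⟩)
      · exact Or.inl (r.trans' h1 (r.trans' (r.symm' (r.trans' h2 h3)) h4))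
      · exact Or.inl (r.trans' h1 h4)
      · exact Or.inr (Or.inr ⟨h1, r.trans' h2 h'⟩)
      · exact Or.inl (r.trans' h1 h4)
      · exact Or.inl (r.trans' h1 (r.trans' (r.symm' (r.trans' h2 h3)) h4)) }

lemma jn_iff {r : Setoid X} {a b d d' : X} :
    jn r a b d d' ↔ r d d' ∨ (r d a ∧ r b d') ∨ (r d b ∧ r a d') := Iff.rfl

lemma le_jn (r : Setoid X) (a b : X) {d d' : X} (h : r d d') : jn r a b d d' := Or.inl h

lemma jn_join (r : Setoid X) (a b : X) : jn r a b a b :=
  Or.inr (Or.inl ⟨r.refl' a, r.refl' b⟩)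

lemma jn_of_rel {r : Setoid X} {a b : X} (h : r a b) : jn r a b = r := by
  ext d d'
  rw [jn_iff]
  constructor
  · rintro (h0 | ⟨h1, h2⟩ | ⟨h1, h2⟩)
    · exact h0
    · exact r.trans' h1 (r.trans' h h2)
    · exact r.trans' h1 (r.trans' (r.symm' h) h2)
  · exact Or.inl

lemma jn_le {r r' : Setoid X} {a b : X} (h : ∀ d d', r d d' → r' d d') (hab : r' a b)
    {d d' : X} (h' : jn r a b d d') : r' d d' := by
  rcases h' with h0 | ⟨h1, h2⟩ | ⟨h1, h2⟩
  · exact h _ _ h0
  · exact r'.trans' (h _ _ h1) (r'.trans' hab (h _ _ h2))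
  · exact r'.trans' (h _ _ h1) (r'.trans' (r'.symm' hab) (h _ _ h2))

theorem card_jn [Finite X] (r : Setoid X) {a b : X} (h : ¬ r a b) :
    Nat.card (Quotient r) = Nat.card (Quotient (jn r a b)) + 1 := by
  classical
  let q0 : Quotient r := Quotient.mk r b
  let F : {q : Quotient r // q ≠ q0} → Quotient (jn r a b) :=
    fun q => Quotient.map' (s₁ := r) (s₂ := jn r a b) id (fun _ _ h => Or.inl h) q.1
  have hF : Function.Bijective F := by
    constructor
    · rintro ⟨q, hq⟩ ⟨q', hq'⟩ hqq
      induction q using Quotient.inductionOn with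
      | _ d =>
        induction q' using Quotient.inductionOn with
        | _ d' =>
          have h1 : jn r a b d d' := Quotient.exact hqq
          rw [Subtype.mk.injEq]
          have hd : ¬ r d b := fun hh => hq (Quotient.sound hh)
          have hd' : ¬ r d' b := fun hh => hq' (Quotient.sound hh)
          rcases h1 with h0 | ⟨h2, h3⟩ | ⟨h2, h3⟩
          · exact Quotient.sound h0
          · exact absurd (r.symm' h3) hd'
          · exact absurd h2 hd
    · intro q
      induction q using Quotient.inductionOn with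
      | _ d =>
        by_cases hd : r d b
        · refine ⟨⟨Quotient.mk r a, fun hh => h (Quotient.exact hh)⟩, ?_⟩
          exact Quotient.sound (s := jn r a b) (Or.inr (Or.inl ⟨r.refl' a, r.symm' hd⟩))
        · exact ⟨⟨Quotient.mk r d, fun hh => hd (Quotient.exact hh)⟩, rfl⟩
  have e1 := Nat.card_congr (Equiv.ofBijective F hF)
  have e2 := Nat.card_congr (Equiv.optionSubtypeNe q0)
  rw [← e2, ← e1]
  exact Finite.card_option

end Join

section Cycles
variable {X : Type*}

/-- the cycle relation -/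
abbrev cy (σ : Perm X) : Setoid X := SameCycle.setoid σ

lemma cy_iff {σ : Perm X} {d d' : X} : cy σ d d' ↔ σ.SameCycle d d' := Iff.rfl

lemma cy_apply (σ : Perm X) (d : X) : cy σ d (σ d) := by
  rw [cy_iff, sameCycle_apply_right]

lemma cy_le {σ : Perm X} {r : Setoid X} (h : ∀ d, r d (σ d)) {d d' : X} (hd : cy σ d d') :
    r d d' := by
  obtain ⟨i, rfl⟩ := hd
  induction i using Int.induction_on with
  | zero => exact r.refl' d
  | succ i ih =>
    rw [add_comm, zpow_add, zpow_one, Perm.mul_apply]
    exact r.trans' ih (h _)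
  | pred i ih =>
    have h1 := h ((σ ^ (-(i:ℤ) - 1)) d)
    have h2 : σ ((σ ^ (-(i:ℤ) - 1)) d) = (σ ^ (-(i:ℤ))) d := by
      rw [← Perm.mul_apply, ← zpow_one_add]
      congr 2
      ring
    rw [h2] at h1
    exact r.trans' ih (r.symm' h1)

variable [Finite X] [DecidableEq X]

lemma cy_merge_aux {σ : Perm X} {a b : X} (h : ¬ cy σ a b) : cy (σ * swap a b) a b := by
  -- first return of `σ a` to `a`
  have hex : ∃ n : ℕ, (σ ^ n) (σ a) = a := by
    have := (cy_apply σ a)
    exact (this.symm).exists_nat_pow_eq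
  classical
  let n := Nat.find hex
  have hn : (σ ^ n) (σ a) = a := Nat.find_spec hex
  have hmin : ∀ j < n, (σ ^ j) (σ a) ≠ a := fun j hj => Nat.find_min hex hj
  have hb : ∀ j, (σ ^ j) (σ a) ≠ b := by
    intro j hj
    apply h
    rw [cy_iff, ← hj, sameCycle_pow_right, sameCycle_apply_right]
  have hpow : ∀ j ≤ n, ((σ * swap a b) ^ j) (σ a) = (σ ^ j) (σ a) := by
    intro j
    induction j with
    | zero => intro _; rfl
    | succ j ih =>
      intro hj
      rw [pow_succ', Perm.mul_apply, ih (by omega), pow_succ' σ, Perm.mul_apply, Perm.mul_apply,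
        swap_apply_of_ne_of_ne (hmin j (by omega)) (hb j)]
  have h1 : (σ * swap a b) b = σ a := by
    rw [Perm.mul_apply, swap_apply_right]
  have h2 : ((σ * swap a b) ^ (n+1)) b = a := by
    rw [pow_succ, Perm.mul_apply, h1, hpow n le_rfl, hn]
  have h3 : (σ * swap a b).SameCycle b a := ⟨(n+1 : ℕ), by rw [zpow_natCast]; exact h2⟩
  exact h3.symm

/-- joining two cycles -/
theorem cy_merge {σ : Perm X} {a b : X} (h : ¬ cy σ a b) :
    cy (σ * swap a b) = jn (cy σ) a b := by
  have hab := cy_merge_aux h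
  ext d d'
  constructor
  · intro hd
    refine cy_le (r := jn (cy σ) a b) (fun e => ?_) hd
    rw [Perm.mul_apply]
    by_cases ha : e = a
    · subst ha
      rw [swap_apply_left]
      exact Or.inr (Or.inl ⟨Setoid.refl' _ _, cy_apply σ b⟩)
    · by_cases hb : e = b
      · subst hb
        rw [swap_apply_right]
        exact Or.inr (Or.inr ⟨Setoid.refl' _ _, cy_apply σ a⟩)
      · rw [swap_apply_of_ne_of_ne ha hb]
        exact Or.inl (cy_apply σ e)
  · intro hd
    refine jn_le (r' := cy (σ * swap a b)) (fun d d' hdd => ?_) hab hd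
    refine cy_le (r := cy (σ * swap a b)) (fun e => ?_) hdd
    by_cases ha : e = a
    · subst ha
      have h1 := cy_apply (σ * swap e b) b
      rw [Perm.mul_apply, swap_apply_right] at h1
      exact Setoid.trans' _ hab h1
    · by_cases hb : e = b
      · subst hb
        have h1 := cy_apply (σ * swap a e) a
        rw [Perm.mul_apply, swap_apply_left] at h1
        exact Setoid.trans' _ (Setoid.symm' _ hab) h1
      · have h1 := cy_apply (σ * swap a b) e
        rwa [Perm.mul_apply, swap_apply_of_ne_of_ne ha hb] at h1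

/-- splitting a cycle -/
theorem cy_split {σ : Perm X} {a b : X} (h : cy σ a b) (hab : a ≠ b) :
    ¬ cy (σ * swap a b) a b := by
  classical
  intro hcon
  -- first visit to `a` starting from `b`
  have hex : ∃ n : ℕ, 0 < n ∧ (σ ^ n) b = a := by
    obtain ⟨i, _, _, hi⟩ := (Setoid.symm' _ h : σ.SameCycle b a).exists_pow_eq''
    exact ⟨i, by omega, hi⟩
  let n := Nat.find hex
  have hn : 0 < n ∧ (σ ^ n) b = a := Nat.find_spec hex
  have hmin : ∀ j < n, ¬ (0 < j ∧ (σ ^ j) b = a) := fun j hj => Nat.find_min hex hj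
  have hb : ∀ j, 0 < j → j ≤ n → (σ ^ j) b ≠ b := by
    intro j hj0 hjn hj
    rcases hjn.eq_or_lt with rfl | hlt
    · exact hab (hn.2.symm.trans hj)
    · apply hmin (n - j) (by omega)
      refine ⟨by omega, ?_⟩
      have : (σ ^ n) b = (σ ^ (n - j)) ((σ ^ j) b) := by
        rw [← Perm.mul_apply, ← pow_add]
        congr 2
        omega
      rw [hj] at this
      rw [← this]
      exact hn.2
  have hZ : ∀ k : ℕ, ∃ j, 0 < j ∧ j ≤ n ∧ ((σ * swap a b) ^ k) a = (σ ^ j) b := by
    intro k
    induction k with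
    | zero => exact ⟨n, hn.1, le_rfl, hn.2.symm⟩
    | succ k ih =>
      obtain ⟨j, hj0, hjn, hj⟩ := ih
      rw [pow_succ', Perm.mul_apply, hj, Perm.mul_apply]
      rcases hjn.eq_or_lt with rfl | hlt
      · refine ⟨1, by omega, by omega, ?_⟩
        rw [hn.2, swap_apply_left, pow_one]
      · refine ⟨j + 1, by omega, by omega, ?_⟩
        rw [swap_apply_of_ne_of_ne (fun h => hmin j hlt ⟨hj0, h⟩) (hb j hj0 hjn), pow_succ',
          Perm.mul_apply]
  obtain ⟨k, hk⟩ := (hcon : (σ * swap a b).SameCycle a b).exists_nat_pow_eq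
  obtain ⟨j, hj0, hjn, hj⟩ := hZ k
  exact hb j hj0 hjn (hj.symm.trans hk)

/-- splitting a cycle: the old relation is the join of the new one -/
theorem cy_split' {σ : Perm X} {a b : X} (h : cy σ a b) (hab : a ≠ b) :
    cy σ = jn (cy (σ * swap a b)) a b := by
  have h1 := cy_merge (cy_split h hab)
  rwa [mul_assoc, swap_mul_self, mul_one] at h1

/-- number of cycles -/
noncomputable def ncy (σ : Perm X) : ℕ := Nat.card (Quotient (cy σ))

/-- number of classes -/
noncomputable def ncl (r : Setoid X) : ℕ := Nat.card (Quotient r)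

lemma ncy_merge {σ : Perm X} {a b : X} (h : ¬ cy σ a b) : ncy σ = ncy (σ * swap a b) + 1 := by
  unfold ncy
  rw [cy_merge h]
  exact card_jn _ h

lemma ncy_split {σ : Perm X} {a b : X} (h : cy σ a b) (hab : a ≠ b) :
    ncy (σ * swap a b) = ncy σ + 1 := by
  have h1 := ncy_merge (cy_split h hab)
  rwa [mul_assoc, swap_mul_self, mul_one] at h1

end Cycles

section Hol
variable {X A : Type*} [Fintype X] [DecidableEq X] [AddCommGroup A]

open Classical in
/-- total weight of the cycle of `d` -/
noncomputable def hol (σ : Perm X) (w : X → A) (d : X) : A :=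
  ∑ e ∈ univ.filter (fun e => cy σ d e), w e

lemma hol_congr_cycle {σ τ : Perm X} {w : X → A} {d d' : X}
    (h : ∀ e, cy σ d e ↔ cy τ d' e) : hol σ w d = hol τ w d' := by
  classical
  unfold hol
  apply sum_congr _ (fun _ _ => rfl)
  ext e
  rw [mem_filter, mem_filter, h e]

lemma hol_same {σ : Perm X} {w : X → A} {d d' : X} (h : cy σ d d') :
    hol σ w d = hol σ w d' := by
  apply hol_congr_cycle
  intro e
  exact ⟨fun h1 => Setoid.trans' _ (Setoid.symm' _ h) h1, fun h1 => Setoid.trans' _ h h1⟩

lemma hol_congr_weight {σ : Perm X} {w w' : X → A} {d : X}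
    (h : ∀ e, cy σ d e → w e = w' e) : hol σ w d = hol σ w' d := by
  classical
  unfold hol
  apply sum_congr rfl
  intro e he
  rw [mem_filter] at he
  exact h e he.2

/-- merged cycles -/
lemma hol_merge {σ : Perm X} {w : X → A} {a b : X} (h : ¬ cy σ a b) :
    hol (σ * swap a b) w a = hol σ w a + hol σ w b := by
  classical
  unfold hol
  rw [← sum_union]
  · apply sum_congr _ (fun _ _ => rfl)
    ext e
    rw [mem_filter, mem_union, mem_filter, mem_filter, cy_merge h, jn_iff]
    constructor
    · rintro ⟨h0, h1 | ⟨h1, h2⟩ | ⟨h1, h2⟩⟩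
      · exact Or.inl ⟨h0, h1⟩
      · exact Or.inr ⟨h0, h2⟩
      · exact absurd h1 h
    · rintro (⟨h0, h1⟩ | ⟨h0, h1⟩)
      · exact ⟨h0, Or.inl h1⟩
      · exact ⟨h0, Or.inr (Or.inl ⟨Setoid.refl' _ _, h1⟩)⟩
  · rw [disjoint_left]
    intro e h1 h2
    rw [mem_filter] at h1 h2
    exact h (Setoid.trans' _ h1.2 (Setoid.symm' _ h2.2))

/-- cycles that are not touched -/
lemma hol_untouched {σ : Perm X} {w : X → A} {a b d : X} (ha : ¬ cy σ d a) (hb : ¬ cy σ d b) :
    (∀ e, cy (σ * swap a b) d e ↔ cy σ d e) ∧ hol (σ * swap a b) w d = hol σ w d := by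
  have key : ∀ e, cy (σ * swap a b) d e ↔ cy σ d e := by
    intro e
    by_cases hab : cy σ a b
    · by_cases hne : a = b
      · rw [hne, swap_self]; rfl
      · rw [cy_split' hab hne, jn_iff]
        have h1 : ∀ f, cy (σ * swap a b) d f → cy σ d f := by
          intro f hf
          rw [cy_split' hab hne]
          exact Or.inl hf
        constructor
        · exact Or.inl
        · rintro (h0 | ⟨h2, h3⟩ | ⟨h2, h3⟩)
          · exact h0
          · exact absurd (h1 _ h2) ha
          · exact absurd (h1 _ h2) hb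
    · rw [cy_merge hab, jn_iff]
      constructor
      · rintro (h0 | ⟨h2, h3⟩ | ⟨h2, h3⟩)
        · exact h0
        · exact absurd h2 ha
        · exact absurd h2 hb
      · exact Or.inl
  exact ⟨key, hol_congr_cycle key⟩

open Classical in
/-- change of the weights at two points -/
lemma hol_update {σ : Perm X} {w w' : X → A} {a b : X} {θ : A} (hab : a ≠ b)
    (hw : ∀ e, e ≠ a → e ≠ b → w' e = w e) (hs : w' a + w' b = w a + w b - θ) :
    (cy σ a b → hol σ w' a = hol σ w a - θ) ∧
    (¬ cy σ a b → hol σ w' a + hol σ w' b = hol σ w a + hol σ w b - θ) := by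
  constructor
  · intro h
    unfold hol
    have ha : a ∈ univ.filter (fun e => cy σ a e) := by
      rw [mem_filter]; exact ⟨mem_univ _, Setoid.refl' _ _⟩
    have hb : b ∈ (univ.filter (fun e => cy σ a e)).erase a := by
      rw [mem_erase, mem_filter]; exact ⟨hab.symm, mem_univ _, h⟩
    rw [← add_sum_erase _ _ ha, ← add_sum_erase _ w ha, ← add_sum_erase _ _ hb,
      ← add_sum_erase _ w hb]
    have : ∑ x ∈ ((univ.filter (fun e => cy σ a e)).erase a).erase b, w' x
        = ∑ x ∈ ((univ.filter (fun e => cy σ a e)).erase a).erase b, w x := by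
      apply sum_congr rfl
      intro x hx
      rw [mem_erase, mem_erase] at hx
      exact hw x hx.2.1 hx.1
    rw [this, ← add_assoc, ← add_assoc, hs]
    abel
  · intro h
    unfold hol
    have ha : a ∈ univ.filter (fun e => cy σ a e) := by
      rw [mem_filter]; exact ⟨mem_univ _, Setoid.refl' _ _⟩
    have hb : b ∈ univ.filter (fun e => cy σ b e) := by
      rw [mem_filter]; exact ⟨mem_univ _, Setoid.refl' _ _⟩
    rw [← add_sum_erase _ _ ha, ← add_sum_erase _ w ha, ← add_sum_erase _ _ hb,
      ← add_sum_erase _ w hb]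
    have h1 : ∑ x ∈ (univ.filter (fun e => cy σ a e)).erase a, w' x
        = ∑ x ∈ (univ.filter (fun e => cy σ a e)).erase a, w x := by
      apply sum_congr rfl
      intro x hx
      rw [mem_erase, mem_filter] at hx
      exact hw x hx.1 (fun hh => h (hh ▸ hx.2.2))
    have h2 : ∑ x ∈ (univ.filter (fun e => cy σ b e)).erase b, w' x
        = ∑ x ∈ (univ.filter (fun e => cy σ b e)).erase b, w x := by
      apply sum_congr rfl
      intro x hx
      rw [mem_erase, mem_filter] at hx
      exact hw x (fun hh => h (Setoid.symm' _ (hh ▸ hx.2.2))) hx.1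
    rw [h1, h2]
    have e1 : ∀ P Q : A, w' a + P + (w' b + Q) = (w' a + w' b) + (P + Q) := by intros; abel
    have e2 : ∀ P Q : A, w a + P + (w b + Q) = (w a + w b) + (P + Q) := by intros; abel
    rw [e1, e2, hs]
    abel

lemma sum_hol (σ : Perm X) (w : X → A) (f : Quotient (cy σ) → A)
    (hf : ∀ d, f (Quotient.mk _ d) = hol σ w d) [Fintype (Quotient (cy σ))] :
    ∑ d, w d = ∑ q, f q := by
  classical
  rw [← sum_fiberwise (s := univ) (g := fun d => (Quotient.mk (cy σ) d)) (f := w)]
  apply sum_congr rfl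
  intro q _
  induction q using Quotient.inductionOn with
  | _ d =>
    rw [hf d]
    unfold hol
    apply sum_congr _ (fun _ _ => rfl)
    ext e
    rw [mem_filter, mem_filter]
    constructor
    · rintro ⟨h0, h1⟩
      exact ⟨h0, Setoid.symm' _ (Quotient.exact h1)⟩
    · rintro ⟨h0, h1⟩
      exact ⟨h0, Quotient.sound (Setoid.symm' _ h1)⟩

end Hol

end H47Perc
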