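import Pool.Agent.Helper47.Perc.Gen9

/-!
Row-convex sets: `S = {(x, y) : a ≤ y ≤ b, l y ≤ x ≤ r y}` with overlapping consecutive rows is
simply connected, and the contour rule for an exit of the bottom row.
-/

namespace H47Perc
open Finset Equiv

/-! ### the next exit in coordinates -/

section coords
variable {S : Finset (ℤ × ℤ)} (x y : ℤ)

lemma nx0 : (((x + 1, y) ∉ S) ∧ nx S ((x, y), 0) = ((x, y), 1) ∧ tn S ((x, y), 0) = 1) ∨
    (((x + 1, y) ∈ S ∧ (x + 1, y - 1) ∉ S) ∧ nx S ((x, y), 0) = ((x + 1, y), 0) ∧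
      tn S ((x, y), 0) = 0) ∨
    (((x + 1, y) ∈ S ∧ (x + 1, y - 1) ∈ S) ∧ nx S ((x, y), 0) = ((x + 1, y - 1), 3) ∧
      tn S ((x, y), 0) = -1) := by
  have e1 : ((x, y) : ℤ × ℤ) + dir (0 + 1) = (x + 1, y) := by simp
  have e2 : ((x, y) : ℤ × ℤ) + dir (0 + 1) + dir 0 = (x + 1, y - 1) := by simp; ring
  rcases nx_cases S (x, y) 0 with ⟨h1, h2, h3⟩ | ⟨h1, h2, h3, h4⟩ | ⟨h1, h2, h3, h4⟩
  · left; rw [e1] at h1; exact ⟨h1, h2, h3⟩
  · right; left; rw [e1] at h1 h3; rw [e2] at h2; exact ⟨⟨h1, h2⟩, h3, h4⟩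
  · right; right; rw [e1] at h1; rw [e2] at h2 h3; exact ⟨⟨h1, h2⟩, h3, h4⟩

lemma nx1 : (((x, y + 1) ∉ S) ∧ nx S ((x, y), 1) = ((x, y), 2) ∧ tn S ((x, y), 1) = 1) ∨
    (((x, y + 1) ∈ S ∧ (x + 1, y + 1) ∉ S) ∧ nx S ((x, y), 1) = ((x, y + 1), 1) ∧
      tn S ((x, y), 1) = 0) ∨
    (((x, y + 1) ∈ S ∧ (x + 1, y + 1) ∈ S) ∧ nx S ((x, y), 1) = ((x + 1, y + 1), 0) ∧
      tn S ((x, y), 1) = -1) := by
  have e1 : ((x, y) : ℤ × ℤ) + dir (1 + 1) = (x, y + 1) := by
    rw [show (1 + 1 : Fin 4) = 2 from rfl]; simp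
  have e2 : ((x, y) : ℤ × ℤ) + dir (1 + 1) + dir 1 = (x + 1, y + 1) := by rw [e1]; simp
  rcases nx_cases S (x, y) 1 with ⟨h1, h2, h3⟩ | ⟨h1, h2, h3, h4⟩ | ⟨h1, h2, h3, h4⟩
  · left; rw [e1] at h1; exact ⟨h1, h2, h3⟩
  · right; left; rw [e1] at h1 h3; rw [e2] at h2; exact ⟨⟨h1, h2⟩, h3, h4⟩
  · right; right; rw [e1] at h1; rw [e2] at h2 h3; exact ⟨⟨h1, h2⟩, h3, h4⟩

lemma nx2 : (((x - 1, y) ∉ S) ∧ nx S ((x, y), 2) = ((x, y), 3) ∧ tn S ((x, y), 2) = 1) ∨
    (((x - 1, y) ∈ S ∧ (x - 1, y + 1) ∉ S) ∧ nx S ((x, y), 2) = ((x - 1, y), 2) ∧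
      tn S ((x, y), 2) = 0) ∨
    (((x - 1, y) ∈ S ∧ (x - 1, y + 1) ∈ S) ∧ nx S ((x, y), 2) = ((x - 1, y + 1), 1) ∧
      tn S ((x, y), 2) = -1) := by
  have e1 : ((x, y) : ℤ × ℤ) + dir (2 + 1) = (x - 1, y) := by
    rw [show (2 + 1 : Fin 4) = 3 from rfl]; simp; ring
  have e2 : ((x, y) : ℤ × ℤ) + dir (2 + 1) + dir 2 = (x - 1, y + 1) := by rw [e1]; simp
  rcases nx_cases S (x, y) 2 with ⟨h1, h2, h3⟩ | ⟨h1, h2, h3, h4⟩ | ⟨h1, h2, h3, h4⟩
  · left; rw [e1] at h1; exact ⟨h1, h2, h3⟩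
  · right; left; rw [e1] at h1 h3; rw [e2] at h2; exact ⟨⟨h1, h2⟩, h3, h4⟩
  · right; right; rw [e1] at h1; rw [e2] at h2 h3; exact ⟨⟨h1, h2⟩, h3, h4⟩

lemma nx3 : (((x, y - 1) ∉ S) ∧ nx S ((x, y), 3) = ((x, y), 0) ∧ tn S ((x, y), 3) = 1) ∨
    (((x, y - 1) ∈ S ∧ (x - 1, y - 1) ∉ S) ∧ nx S ((x, y), 3) = ((x, y - 1), 3) ∧
      tn S ((x, y), 3) = 0) ∨
    (((x, y - 1) ∈ S ∧ (x - 1, y - 1) ∈ S) ∧ nx S ((x, y), 3) = ((x - 1, y - 1), 2) ∧
      tn S ((x, y), 3) = -1) := by
  have e1 : ((x, y) : ℤ × ℤ) + dir (3 + 1) = (x, y - 1) := by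
    rw [show (3 + 1 : Fin 4) = 0 from rfl]; simp; ring
  have e2 : ((x, y) : ℤ × ℤ) + dir (3 + 1) + dir 3 = (x - 1, y - 1) := by rw [e1]; simp; ring
  rcases nx_cases S (x, y) 3 with ⟨h1, h2, h3⟩ | ⟨h1, h2, h3, h4⟩ | ⟨h1, h2, h3, h4⟩
  · left; rw [e1] at h1; exact ⟨h1, h2, h3⟩
  · right; left; rw [e1] at h1 h3; rw [e2] at h2; exact ⟨⟨h1, h2⟩, h3, h4⟩
  · right; right; rw [e1] at h1; rw [e2] at h2 h3; exact ⟨⟨h1, h2⟩, h3, h4⟩

lemma ex0 : IsExit S ((x, y), 0) ↔ (x, y) ∈ S ∧ (x, y - 1) ∉ S := by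
  have : ((x, y) : ℤ × ℤ) + dir 0 = (x, y - 1) := by simp; ring
  unfold IsExit
  simp only
  rw [this]

lemma ex1 : IsExit S ((x, y), 1) ↔ (x, y) ∈ S ∧ (x + 1, y) ∉ S := by
  have : ((x, y) : ℤ × ℤ) + dir 1 = (x + 1, y) := by simp
  unfold IsExit
  simp only
  rw [this]

lemma ex2 : IsExit S ((x, y), 2) ↔ (x, y) ∈ S ∧ (x, y + 1) ∉ S := by
  have : ((x, y) : ℤ × ℤ) + dir 2 = (x, y + 1) := by simp
  unfold IsExit
  simp only
  rw [this]

lemma ex3 : IsExit S ((x, y), 3) ↔ (x, y) ∈ S ∧ (x - 1, y) ∉ S := by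
  have : ((x, y) : ℤ × ℤ) + dir 3 = (x - 1, y) := by simp; ring
  unfold IsExit
  simp only
  rw [this]

end coords

/-- exits on the same boundary cycle -/
def Bd (S : Finset (ℤ × ℤ)) (d d' : Dart) : Prop := (confOf (edgesIn S)).perm.SameCycle d d'

lemma Bd.refl (S : Finset (ℤ × ℤ)) (d : Dart) : Bd S d d := Perm.SameCycle.refl _ _
lemma Bd.symm {S : Finset (ℤ × ℤ)} {d d' : Dart} (h : Bd S d d') : Bd S d' d :=
  Perm.SameCycle.symm h
lemma Bd.trans {S : Finset (ℤ × ℤ)} {d d' d'' : Dart} (h : Bd S d d') (h' : Bd S d' d'') :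
    Bd S d d'' := Perm.SameCycle.trans h h'

lemma Bd.nx {S : Finset (ℤ × ℤ)} {d : Dart} (hd : IsExit S d) : Bd S d (nx S d) := by
  obtain ⟨a, _, h, _⟩ := nx_perm hd
  exact ⟨(a : ℤ), by rw [zpow_natCast]; exact h⟩

variable {S : Finset (ℤ × ℤ)}

/-- consecutive exits in direction 0 -/
lemma Bd.row0 {x y : ℤ} (n : ℕ) (h : ∀ u, x ≤ u → u ≤ x + n → IsExit S ((u, y), 0)) :
    Bd S ((x, y), 0) ((x + n, y), 0) := by
  induction n with
  | zero => simpa using Bd.refl S ((x, y), 0)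
  | succ n ih =>
    refine (ih (fun u h1 h2 => h u h1 (by push_cast; linarith))).trans ?_
    have h1 := h (x + n) (by linarith) (by push_cast; linarith)
    have h2 := h (x + n + 1) (by linarith) (by push_cast; linarith)
    have h3 := Bd.nx h1
    rw [ex0] at h2
    rcases nx0 (S := S) (x + n) y with ⟨h4, _⟩ | ⟨h4, h5, _⟩ | ⟨h4, _⟩
    · exact absurd h2.1 h4
    · rw [h5] at h3
      push_cast
      rw [← add_assoc]
      exact h3
    · exact absurd h4.2 h2.2

/-- consecutive exits in direction 2 -/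
lemma Bd.row2 {x y : ℤ} (n : ℕ) (h : ∀ u, x - n ≤ u → u ≤ x → IsExit S ((u, y), 2)) :
    Bd S ((x, y), 2) ((x - n, y), 2) := by
  induction n with
  | zero => simpa using Bd.refl S ((x, y), 2)
  | succ n ih =>
    refine (ih (fun u h1 h2 => h u (by push_cast; linarith) h2)).trans ?_
    have h1 := h (x - n) (by push_cast; linarith) (by linarith)
    have h2 := h (x - n - 1) (by push_cast; linarith) (by linarith)
    have h3 := Bd.nx h1
    rw [ex2] at h2
    rcases nx2 (S := S) (x - n) y with ⟨h4, _⟩ | ⟨h4, h5, _⟩ | ⟨h4, _⟩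
    · exact absurd h2.1 h4
    · rw [h5] at h3
      push_cast
      rw [← sub_sub]
      exact h3
    · exact absurd h4.2 h2.2

lemma Bd.seg0 {x x' y : ℤ} (hx : x ≤ x') (h : ∀ u, x ≤ u → u ≤ x' → IsExit S ((u, y), 0)) :
    Bd S ((x, y), 0) ((x', y), 0) := by
  have := Bd.row0 (S := S) (x := x) (y := y) (x' - x).toNat (fun u h1 h2 => h u h1 (by omega))
  rwa [show x + ((x' - x).toNat : ℤ) = x' by omega] at this

lemma Bd.seg2 {x x' y : ℤ} (hx : x ≤ x') (h : ∀ u, x ≤ u → u ≤ x' → IsExit S ((u, y), 2)) :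
    Bd S ((x', y), 2) ((x, y), 2) := by
  have := Bd.row2 (S := S) (x := x') (y := y) (x' - x).toNat (fun u h1 h2 => h u (by omega) h2)
  rwa [show x' - ((x' - x).toNat : ℤ) = x by omega] at this

namespace RowConvex
variable {a b : ℤ} {l r : ℤ → ℤ} (H : RowConvex a b l r S)
include H

/-- the right side of two consecutive rows -/
lemma bd_right {y : ℤ} (hy : a ≤ y) (hy' : y + 1 ≤ b) :
    Bd S ((r y, y), 1) ((r (y + 1), y + 1), 1) := by
  have m := H.mem
  have q1 := H.o1 y hy hy'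
  have q2 := H.o2 y hy hy'
  have q3 := H.lr y hy (by omega)
  have q4 := H.lr (y + 1) (by omega) hy'
  have e1 : IsExit S ((r y, y), 1) := by rw [ex1, m, m]; omega
  rcases nx1 (S := S) (r y) y with ⟨h4, h5, _⟩ | ⟨h4, h5, _⟩ | ⟨h4, h5, _⟩
  · rw [m] at h4
    have h6 := Bd.nx e1
    rw [h5] at h6
    have h7 : Bd S ((r y, y), 2) ((r (y + 1) + 1, y), 2) := by
      apply Bd.seg2 (by omega)
      intro u hu hu'
      rw [ex2, m, m]
      omega
    have e2 : IsExit S ((r (y + 1) + 1, y), 2) := by rw [ex2, m, m]; omega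
    have h8 := Bd.nx e2
    rcases nx2 (S := S) (r (y + 1) + 1) y with ⟨h9, h10, _⟩ | ⟨h9, h10, _⟩ | ⟨h9, h10, _⟩
    · rw [m] at h9; omega
    · rw [m, m] at h9; omega
    · rw [h10, add_sub_cancel_right] at h8
      exact h6.trans (h7.trans h8)
  · rw [m, m] at h4
    have h6 := Bd.nx e1
    rw [h5] at h6
    rw [show r y = r (y + 1) by omega] at h6 ⊢
    exact h6
  · rw [m, m] at h4
    have h6 := Bd.nx e1
    rw [h5] at h6
    have h7 : Bd S ((r y + 1, y + 1), 0) ((r (y + 1), y + 1), 0) := by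
      apply Bd.seg0 (by omega)
      intro u hu hu'
      rw [ex0, m, m, add_sub_cancel_right]
      omega
    have e2 : IsExit S ((r (y + 1), y + 1), 0) := by
      rw [ex0, m, m, add_sub_cancel_right]; omega
    have h8 := Bd.nx e2
    rcases nx0 (S := S) (r (y + 1)) (y + 1) with ⟨h9, h10, _⟩ | ⟨h9, h10, _⟩ | ⟨h9, h10, _⟩
    · rw [h10] at h8
      exact h6.trans (h7.trans h8)
    · rw [m, m] at h9; omega
    · rw [m, m] at h9; omega

/-- the left side of two consecutive rows -/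
lemma bd_left {y : ℤ} (hy : a ≤ y) (hy' : y + 1 ≤ b) :
    Bd S ((l (y + 1), y + 1), 3) ((l y, y), 3) := by
  have m := H.mem
  have q1 := H.o1 y hy hy'
  have q2 := H.o2 y hy hy'
  have q3 := H.lr y hy (by omega)
  have q4 := H.lr (y + 1) (by omega) hy'
  have e1 : IsExit S ((l (y + 1), y + 1), 3) := by rw [ex3, m, m]; omega
  rcases nx3 (S := S) (l (y + 1)) (y + 1) with ⟨h4, h5, _⟩ | ⟨h4, h5, _⟩ | ⟨h4, h5, _⟩
  · rw [m, add_sub_cancel_right] at h4
    have h6 := Bd.nx e1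
    rw [h5] at h6
    have h7 : Bd S ((l (y + 1), y + 1), 0) ((l y - 1, y + 1), 0) := by
      apply Bd.seg0 (by omega)
      intro u hu hu'
      rw [ex0, m, m, add_sub_cancel_right]
      omega
    have e2 : IsExit S ((l y - 1, y + 1), 0) := by
      rw [ex0, m, m, add_sub_cancel_right]; omega
    have h8 := Bd.nx e2
    rcases nx0 (S := S) (l y - 1) (y + 1) with ⟨h9, h10, _⟩ | ⟨h9, h10, _⟩ | ⟨h9, h10, _⟩
    · rw [m] at h9; omega
    · rw [m, m, add_sub_cancel_right, sub_add_cancel] at h9; omega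
    · rw [h10, sub_add_cancel, add_sub_cancel_right] at h8
      exact h6.trans (h7.trans h8)
  · rw [m, m, add_sub_cancel_right] at h4
    have h6 := Bd.nx e1
    rw [h5, add_sub_cancel_right] at h6
    rw [show l (y + 1) = l y by omega] at h6 ⊢
    exact h6
  · rw [m, m, add_sub_cancel_right] at h4
    have h6 := Bd.nx e1
    rw [h5, add_sub_cancel_right] at h6
    have h7 : Bd S ((l (y + 1) - 1, y), 2) ((l y, y), 2) := by
      apply Bd.seg2 (by omega)
      intro u hu hu'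
      rw [ex2, m, m]
      omega
    have e2 : IsExit S ((l y, y), 2) := by rw [ex2, m, m]; omega
    have h8 := Bd.nx e2
    rcases nx2 (S := S) (l y) y with ⟨h9, h10, _⟩ | ⟨h9, h10, _⟩ | ⟨h9, h10, _⟩
    · rw [h10] at h8
      exact h6.trans (h7.trans h8)
    · rw [m, m] at h9; omega
    · rw [m, m] at h9; omega

lemma all_right (n : ℕ) (hn : a + n ≤ b) : Bd S ((r a, a), 1) ((r (a + n), a + n), 1) := by
  induction n with
  | zero => simpa using Bd.refl S ((r a, a), 1)
  | succ n ih =>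
    push_cast at hn ⊢
    rw [← add_assoc]
    exact (ih (by linarith)).trans (H.bd_right (by linarith) (by linarith))

lemma all_left (n : ℕ) (hn : a + n ≤ b) : Bd S ((l (a + n), a + n), 3) ((l a, a), 3) := by
  induction n with
  | zero => simpa using Bd.refl S ((l a, a), 3)
  | succ n ih =>
    push_cast at hn ⊢
    rw [← add_assoc]
    exact (H.bd_left (by linarith) (by linarith)).trans (ih (by linarith))

lemma right' {y : ℤ} (hy : a ≤ y) (hy' : y ≤ b) : Bd S ((r a, a), 1) ((r y, y), 1) := by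
  have := H.all_right (y - a).toNat (by omega)
  rwa [show a + ((y - a).toNat : ℤ) = y by omega] at this

lemma left' {y : ℤ} (hy : a ≤ y) (hy' : y ≤ b) : Bd S ((l y, y), 3) ((l a, a), 3) := by
  have := H.all_left (y - a).toNat (by omega)
  rwa [show a + ((y - a).toNat : ℤ) = y by omega] at this

/-- over the top -/
lemma top' : Bd S ((r b, b), 1) ((l b, b), 3) := by
  have m := H.mem
  have q := H.lr b H.hab le_rfl
  have hab := H.hab
  have e1 : IsExit S ((r b, b), 1) := by rw [ex1, m, m]; omega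
  have h1 := Bd.nx e1
  rcases nx1 (S := S) (r b) b with ⟨h4, h5, _⟩ | ⟨h4, h5, _⟩ | ⟨h4, h5, _⟩
  · rw [h5] at h1
    have h7 : Bd S ((r b, b), 2) ((l b, b), 2) := by
      apply Bd.seg2 (by omega)
      intro u hu hu'
      rw [ex2, m, m]
      omega
    have e2 : IsExit S ((l b, b), 2) := by rw [ex2, m, m]; omega
    have h8 := Bd.nx e2
    rcases nx2 (S := S) (l b) b with ⟨h9, h10, _⟩ | ⟨h9, h10, _⟩ | ⟨h9, h10, _⟩
    · rw [h10] at h8
      exact h1.trans (h7.trans h8)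
    · rw [m, m] at h9; omega
    · rw [m, m] at h9; omega
  · rw [m, m] at h4; omega
  · rw [m, m] at h4; omega

/-- all exits are equivalent -/
lemma bd_all {d : Dart} (hd : IsExit S d) : Bd S d ((l a, a), 3) := by
  obtain ⟨⟨x, y⟩, c⟩ := d
  have m := H.mem
  have hR : ∀ {y}, a ≤ y → y ≤ b → Bd S ((r y, y), 1) ((l a, a), 3) := fun h h' =>
    ((H.right' h h').symm.trans (H.right' H.hab le_rfl)).trans
      (H.top'.trans (H.left' H.hab le_rfl))
  fin_cases c
  · change IsExit S ((x, y), 0) at hd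
    change Bd S ((x, y), 0) _
    rw [ex0, m, m] at hd
    by_cases h : y = a ∨ r (y - 1) < x
    · -- to the right end of the row
      have e : ∀ u, x ≤ u → u ≤ r y → IsExit S ((u, y), 0) := by
        intro u h1 h2
        rw [ex0, m, m]
        omega
      refine (Bd.seg0 (by omega) e).trans ?_
      have h8 := Bd.nx (e (r y) (by omega) le_rfl)
      rcases nx0 (S := S) (r y) y with ⟨h9, h10, _⟩ | ⟨h9, h10, _⟩ | ⟨h9, h10, _⟩
      · rw [h10] at h8
        exact h8.trans (hR (by omega) (by omega))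
      · rw [m, m] at h9; omega
      · rw [m, m] at h9; omega
    · -- to the left end of the row
      have e : ∀ u, l y ≤ u → u ≤ x → IsExit S ((u, y), 0) := by
        intro u h1 h2
        rw [ex0, m, m]
        omega
      refine (Bd.seg0 (by omega) e).symm.trans ?_
      have q0 := H.o1 (y - 1) (by omega) (by omega)
      have q1 := H.o2 (y - 1) (by omega) (by omega)
      have q2 := H.lr y (by omega) (by omega)
      have q3 := H.lr (y - 1) (by omega) (by omega)
      rw [sub_add_cancel] at q0 q1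
      have e3 : IsExit S ((l y, y), 3) := by
        rw [ex3, m, m]; omega
      have h8 := Bd.nx e3
      rcases nx3 (S := S) (l y) y with ⟨h9, h10, _⟩ | ⟨h9, h10, _⟩ | ⟨h9, h10, _⟩
      · rw [h10] at h8
        exact h8.symm.trans (H.left' (by omega) (by omega))
      · rw [m, m] at h9; omega
      · rw [m, m] at h9; omega
  · change IsExit S ((x, y), 1) at hd
    change Bd S ((x, y), 1) _
    rw [ex1, m, m] at hd
    rw [show x = r y by omega]
    exact hR (by omega) (by omega)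
  · change IsExit S ((x, y), 2) at hd
    change Bd S ((x, y), 2) _
    rw [ex2, m, m] at hd
    by_cases h : y = b ∨ x < l (y + 1)
    · -- to the left end
      have e : ∀ u, l y ≤ u → u ≤ x → IsExit S ((u, y), 2) := by
        intro u h1 h2
        rw [ex2, m, m]
        omega
      refine (Bd.seg2 (by omega) e).trans ?_
      have h8 := Bd.nx (e (l y) le_rfl (by omega))
      rcases nx2 (S := S) (l y) y with ⟨h9, h10, _⟩ | ⟨h9, h10, _⟩ | ⟨h9, h10, _⟩
      · rw [h10] at h8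
        exact h8.trans (H.left' (by omega) (by omega))
      · rw [m, m] at h9; omega
      · rw [m, m] at h9; omega
    · have q0 := H.o1 y (by omega) (by omega)
      have q1 := H.o2 y (by omega) (by omega)
      have q2 := H.lr y (by omega) (by omega)
      have q3 := H.lr (y + 1) (by omega) (by omega)
      have e : ∀ u, x ≤ u → u ≤ r y → IsExit S ((u, y), 2) := by
        intro u h1 h2
        rw [ex2, m, m]
        omega
      refine (Bd.seg2 (by omega) e).symm.trans ?_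
      have e3 : IsExit S ((r y, y), 1) := by
        rw [ex1, m, m]; omega
      have h8 := Bd.nx e3
      rcases nx1 (S := S) (r y) y with ⟨h9, h10, _⟩ | ⟨h9, h10, _⟩ | ⟨h9, h10, _⟩
      · rw [h10] at h8
        exact h8.symm.trans (hR (by omega) (by omega))
      · rw [m, m] at h9; omega
      · rw [m, m] at h9; omega
  · change IsExit S ((x, y), 3) at hd
    change Bd S ((x, y), 3) _
    rw [ex3, m, m] at hd
    rw [show x = l y by omega]
    exact H.left' (by omega) (by omega)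

/-! ### connectedness -/

lemma row_joined {x y : ℤ} (n : ℕ) (h : (x, y) ∈ S) (h' : (x + n, y) ∈ S) :
    Joined (edgesIn S) (x, y) (x + n, y) := by
  have m := H.mem
  induction n with
  | zero => simpa using joined_refl (edgesIn S) (x, y)
  | succ n ih =>
    push_cast at h' ⊢
    rw [m] at h h'
    have h1 : (x + n, y) ∈ S := by rw [m]; omega
    refine joined_trans (ih h1) ?_
    have h2 : ((x + n, y) : ℤ × ℤ) + dir 1 = (x + (n + 1), y) := by simp; ring
    rw [← h2]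
    apply joined_edge
    rw [edge_mem_iff, h2, m, m]
    omega

omit H in
lemma col_joined {x y : ℤ} (h : (x, y) ∈ S) (h' : (x, y + 1) ∈ S) :
    Joined (edgesIn S) (x, y) (x, y + 1) := by
  have h2 : ((x, y) : ℤ × ℤ) + dir 2 = (x, y + 1) := by simp
  rw [← h2]
  apply joined_edge
  rw [edge_mem_iff, h2]
  exact ⟨h, h'⟩

lemma to_left {x y : ℤ} (h : (x, y) ∈ S) : Joined (edgesIn S) (l y, y) (x, y) := by
  have m := H.mem
  have h1 := (m _ _).1 h
  have := H.row_joined (x := l y) (y := y) (x - l y).toNat (by rw [m]; omega)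
    (by rw [show l y + ((x - l y).toNat : ℤ) = x by omega]; exact h)
  rwa [show l y + ((x - l y).toNat : ℤ) = x by omega] at this

lemma to_bottom (n : ℕ) (hn : a + n ≤ b) : Joined (edgesIn S) (l a, a) (l (a + n), a + n) := by
  have m := H.mem
  induction n with
  | zero => simpa using joined_refl (edgesIn S) (l a, a)
  | succ n ih =>
    push_cast at hn ⊢
    refine joined_trans (ih (by linarith)) ?_
    rw [← add_assoc]
    have q0 := H.o1 (a + n) (by linarith) (by linarith)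
    have q1 := H.o2 (a + n) (by linarith) (by linarith)
    have q2 := H.lr (a + n) (by linarith) (by linarith)
    have q3 := H.lr (a + n + 1) (by linarith) (by linarith)
    obtain ⟨x, hx, hx'⟩ : ∃ x, (x, a + (n : ℤ)) ∈ S ∧ (x, a + (n : ℤ) + 1) ∈ S := by
      refine ⟨max (l (a + n)) (l (a + n + 1)), ?_, ?_⟩
      · rw [m]; omega
      · rw [m]; omega
    exact joined_trans (H.to_left hx) (joined_trans (col_joined hx hx')
      (joined_symm (H.to_left hx')))

/-- row-convex sets are simply connected -/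
theorem simply : Simply S := by
  have m := H.mem
  have h1 : ∀ u ∈ S, Joined (edgesIn S) (l a, a) u := by
    rintro ⟨x, y⟩ hu
    have h2 := (m _ _).1 hu
    have h3 := H.to_bottom (y - a).toNat (by omega)
    rw [show a + ((y - a).toNat : ℤ) = y by omega] at h3
    exact joined_trans h3 (H.to_left hu)
  exact ⟨fun u hu v hv => joined_trans (joined_symm (h1 u hu)) (h1 v hv),
    fun d d' hd hd' => (H.bd_all hd).trans (H.bd_all hd').symm⟩

end RowConvex

end H47Perc
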