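import Pool.Agent.Helper47.Perc.Gen10

/-!
The contour rule for row-convex sets and a point of the bottom row.
-/

namespace H47Perc
open Finset Equiv

/-- the sum over all exits, direction by direction -/
lemma exits_split' {S : Finset (ℤ × ℤ)} {t : Dart} (ht : IsExit S t) (g : Dart → ℂ) :
    ∑ d ∈ ((DS S).erase t).filter (fun d => d.1 + dir d.2 ∉ S), g d =
      ∑ z ∈ S.filter (fun z => z + (0, -1) ∉ S), g (z, 0) +
      ∑ z ∈ S.filter (fun z => z + (1, 0) ∉ S), g (z, 1) +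
      ∑ z ∈ S.filter (fun z => z + (0, 1) ∉ S), g (z, 2) +
      ∑ z ∈ S.filter (fun z => z + (-1, 0) ∉ S), g (z, 3) - g t := by
  classical
  have ht' : t ∈ (DS S).filter (fun d => d.1 + dir d.2 ∉ S) := by
    rw [mem_filter, mem_DS]
    exact ht
  have h0 : ((DS S).erase t).filter (fun d => d.1 + dir d.2 ∉ S) =
      ((DS S).filter (fun d => d.1 + dir d.2 ∉ S)).erase t := by
    rw [filter_erase]
  have h1 : ∑ d ∈ (DS S).filter (fun d => d.1 + dir d.2 ∉ S), g d =
      ∑ z ∈ S.filter (fun z => z + (0, -1) ∉ S), g (z, 0) +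
      ∑ z ∈ S.filter (fun z => z + (1, 0) ∉ S), g (z, 1) +
      ∑ z ∈ S.filter (fun z => z + (0, 1) ∉ S), g (z, 2) +
      ∑ z ∈ S.filter (fun z => z + (-1, 0) ∉ S), g (z, 3) := by
    unfold DS
    rw [sum_filter, sum_product_right, Fin.sum_univ_four]
    simp only [sum_filter]
    rfl
  rw [h0, ← h1, ← add_sum_erase _ _ ht']
  ring

/-- directions of the exits of a row-convex set, starting at `((x₀, a), 0)` -/
def labB (a : ℤ) (r : ℤ → ℤ) (x₀ : ℤ) (d : Dart) : ℤ :=
  if d.2 = 0 then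
    (if d.1.2 = a then (if x₀ ≤ d.1.1 then 0 else 4) else (if r (d.1.2 - 1) < d.1.1 then 0 else 4))
  else (d.2.val : ℤ)

lemma labB0 (a : ℤ) (r : ℤ → ℤ) (x₀ x y : ℤ) : labB a r x₀ ((x, y), 0) =
    if y = a then (if x₀ ≤ x then 0 else 4) else (if r (y - 1) < x then 0 else 4) := rfl
lemma labB1 (a : ℤ) (r : ℤ → ℤ) (x₀ x y : ℤ) : labB a r x₀ ((x, y), 1) = 1 := rfl
lemma labB2 (a : ℤ) (r : ℤ → ℤ) (x₀ x y : ℤ) : labB a r x₀ ((x, y), 2) = 2 := rfl
lemma labB3 (a : ℤ) (r : ℤ → ℤ) (x₀ x y : ℤ) : labB a r x₀ ((x, y), 3) = 3 := rfl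

variable {S : Finset (ℤ × ℤ)} {a b : ℤ} {l r : ℤ → ℤ}

/-- the labelling follows the boundary -/
lemma labB_rule (H : RowConvex a b l r S) {x₀ : ℤ} (hx : l a ≤ x₀) (hx' : x₀ ≤ r a) (d : Dart)
    (hd : IsExit S d) (hne : nx S d ≠ ((x₀, a), 0)) :
    labB a r x₀ (nx S d) = labB a r x₀ d + tn S d := by
  obtain ⟨⟨x, y⟩, c⟩ := d
  have m := H.mem
  fin_cases c
  · change IsExit S ((x, y), 0) at hd
    change nx S ((x, y), 0) ≠ _ at hne
    change labB a r x₀ (nx S ((x, y), 0)) = labB a r x₀ ((x, y), 0) + tn S ((x, y), 0)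
    rw [ex0, m, m] at hd
    rcases nx0 (S := S) x y with ⟨h4, h5, h6⟩ | ⟨h4, h5, h6⟩ | ⟨h4, h5, h6⟩
    · rw [h5] at hne ⊢
      rw [m] at h4
      rw [h6, labB0, labB1]
      by_cases hy : y = a
      · rw [if_pos hy, if_pos (by subst hy; omega)]; norm_num
      · have q := H.o1 (y - 1) (by omega) (by omega)
        rw [sub_add_cancel] at q
        rw [if_neg hy, if_pos (by omega)]; norm_num
    · rw [h5] at hne ⊢
      rw [m, m] at h4
      rw [h6, labB0, labB0]
      by_cases hy : y = a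
      · rw [if_pos hy, if_pos hy, add_zero]
        by_cases hx0 : x₀ ≤ x
        · rw [if_pos hx0, if_pos (by omega)]
        · rw [if_neg hx0, if_neg]
          intro h7
          apply hne
          rw [hy, show x + 1 = x₀ by omega]
      · rw [if_neg hy, if_neg hy, add_zero]
        have q := H.lr (y - 1) (by omega) (by omega)
        by_cases hx0 : r (y - 1) < x
        · rw [if_pos hx0, if_pos (by omega)]
        · rw [if_neg hx0, if_neg (by omega)]
    · rw [h5] at hne ⊢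
      rw [m, m] at h4
      rw [h6, labB0, labB3, if_neg (by omega), if_neg (by omega)]; norm_num
  · change IsExit S ((x, y), 1) at hd
    change nx S ((x, y), 1) ≠ _ at hne
    change labB a r x₀ (nx S ((x, y), 1)) = labB a r x₀ ((x, y), 1) + tn S ((x, y), 1)
    rw [ex1, m, m] at hd
    rcases nx1 (S := S) x y with ⟨h4, h5, h6⟩ | ⟨h4, h5, h6⟩ | ⟨h4, h5, h6⟩
    · rw [h5, h6, labB1, labB2]; norm_num
    · rw [h5, h6, labB1, labB1]; norm_num
    · rw [m, m] at h4
      rw [h5, h6, labB1, labB0, add_sub_cancel_right, if_neg (by omega), if_pos (by omega)]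
      norm_num
  · change IsExit S ((x, y), 2) at hd
    change nx S ((x, y), 2) ≠ _ at hne
    change labB a r x₀ (nx S ((x, y), 2)) = labB a r x₀ ((x, y), 2) + tn S ((x, y), 2)
    rcases nx2 (S := S) x y with ⟨h4, h5, h6⟩ | ⟨h4, h5, h6⟩ | ⟨h4, h5, h6⟩
    · rw [h5, h6, labB2, labB3]; norm_num
    · rw [h5, h6, labB2, labB2]; norm_num
    · rw [h5, h6, labB2, labB1]; norm_num
  · change IsExit S ((x, y), 3) at hd
    change nx S ((x, y), 3) ≠ _ at hne
    change labB a r x₀ (nx S ((x, y), 3)) = labB a r x₀ ((x, y), 3) + tn S ((x, y), 3)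
    rw [ex3, m, m] at hd
    rcases nx3 (S := S) x y with ⟨h4, h5, h6⟩ | ⟨h4, h5, h6⟩ | ⟨h4, h5, h6⟩
    · rw [h5] at hne ⊢
      rw [m] at h4
      rw [h6, labB3, labB0]
      by_cases hy : y = a
      · rw [if_pos hy, if_neg]; norm_num
        by_contra h7
        apply hne
        rw [hy, show x = x₀ by subst hy; omega]
      · have q1 := H.o1 (y - 1) (by omega) (by omega)
        have q2 := H.o2 (y - 1) (by omega) (by omega)
        have q3 := H.lr (y - 1) (by omega) (by omega)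
        rw [sub_add_cancel] at q1 q2
        rw [if_neg hy, if_neg (by omega)]; norm_num
    · rw [h5, h6, labB3, labB3]; norm_num
    · rw [h5, h6, labB3, labB2]; norm_num

open Classical in
/-- **The contour rule for row-convex sets.** -/
theorem row_rule (h : ℝ) (H : RowConvex a b l r S) {x₀ : ℤ} (hx : l a ≤ x₀) (hx' : x₀ ≤ r a) :
    h * (∑ z ∈ S.filter (fun z => z + (1, 0) ∉ S),
        perc (aniso h) S (fun ω => Joined ω (x₀, a) z)) +
      (1 - h) * (∑ z ∈ S.filter (fun z => z + (0, 1) ∉ S),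
        perc (aniso h) S (fun ω => Joined ω (x₀, a) z)) =
      1 + (1 - h) * (∑ z ∈ S.filter (fun z => z + (0, -1) ∉ S ∧ BefB a l x₀ z),
        perc (aniso h) S (fun ω => Joined ω (x₀, a) z)) ∧
    h * (∑ z ∈ S.filter (fun z => z + (-1, 0) ∉ S),
        perc (aniso h) S (fun ω => Joined ω (x₀, a) z)) +
      (1 - h) * (∑ z ∈ S.filter (fun z => z + (0, 1) ∉ S),
        perc (aniso h) S (fun ω => Joined ω (x₀, a) z)) =
      1 + (1 - h) * (∑ z ∈ S.filter (fun z => z + (0, -1) ∉ S ∧ AftB a r x₀ z),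
        perc (aniso h) S (fun ω => Joined ω (x₀, a) z)) := by
  have m := H.mem
  have hab := H.hab
  have hS := H.simply
  have ht : IsExit S ((x₀, a), 0) := by rw [ex0, m, m]; omega
  have hsum := gen_rule h hS ht (labB_rule H hx hx')
  have hl0 : labB a r x₀ ((x₀, a), 0) = 0 := by rw [labB0, if_pos rfl, if_pos le_rfl]
  have hζ := ζ_sq
  have hζ0 := ζ_ne_zero
  have hζ3 := ζ_cube
  rw [hl0, exits_split' ht] at hsum
  simp only [sub_zero] at hsum
  have z4 : ζ ^ (4 : ℤ) = -ζ := by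
    have : ζ ^ (4 : ℤ) = ζ ^ 4 := by norm_cast
    rw [this]
    linear_combination ζ * hζ3
  have z3 : ζ ^ (3 : ℤ) = -1 := by
    have : ζ ^ (3 : ℤ) = ζ ^ 3 := by norm_cast
    rw [this, hζ3]
  have z2 : ζ ^ (2 : ℤ) = ζ - 1 := by
    have : ζ ^ (2 : ℤ) = ζ ^ 2 := by norm_cast
    rw [this, hζ]
  have an0 : ∀ z : ℤ × ℤ, aniso h s(z, z + dir 0) = 1 - h := by
    intro z
    rw [aniso_edge, if_neg (by decide)]
  have an1 : ∀ z : ℤ × ℤ, aniso h s(z, z + dir 1) = h := by
    intro z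
    rw [aniso_edge, if_pos (by decide)]
  have an2 : ∀ z : ℤ × ℤ, aniso h s(z, z + dir 2) = 1 - h := by
    intro z
    rw [aniso_edge, if_neg (by decide)]
  have an3 : ∀ z : ℤ × ℤ, aniso h s(z, z + dir 3) = h := by
    intro z
    rw [aniso_edge, if_pos (by decide)]
  have l1 : ∀ z : ℤ × ℤ, labB a r x₀ (z, 1) = 1 := fun _ => rfl
  have l2 : ∀ z : ℤ × ℤ, labB a r x₀ (z, 2) = 2 := fun _ => rfl
  have l3 : ∀ z : ℤ × ℤ, labB a r x₀ (z, 3) = 3 := fun _ => rfl
  simp only [an0, an1, an2, an3, l1, l2, l3, hl0, zpow_zero, zpow_one, z2, z3] at hsum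
  -- the bottom exits
  set p : ℤ × ℤ → ℝ := fun z => perc (aniso h) S (fun ω => Joined ω (x₀, a) z) with hp
  change ∑ z ∈ S.filter (fun z => z + (0, -1) ∉ S),
      ((1 - h : ℝ) : ℂ) * ζ ^ labB a r x₀ (z, 0) * ((p z : ℝ) : ℂ) +
    ∑ z ∈ S.filter (fun z => z + (1, 0) ∉ S), (h : ℂ) * ζ * ((p z : ℝ) : ℂ) +
    ∑ z ∈ S.filter (fun z => z + (0, 1) ∉ S), ((1 - h : ℝ) : ℂ) * (ζ - 1) * ((p z : ℝ) : ℂ) +
    ∑ z ∈ S.filter (fun z => z + (-1, 0) ∉ S), (h : ℂ) * (-1) * ((p z : ℝ) : ℂ) -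
    ((1 - h : ℝ) : ℂ) * 1 * ((p (x₀, a) : ℝ) : ℂ) = ζ ^ 2 at hsum
  have hp0 : p (x₀, a) = 1 := by
    rw [hp]
    have : (perc (aniso h) S (fun ω => Joined ω (x₀, a) (x₀, a)) : ℂ) = 1 := by
      rw [perc_eq_sum]
      refine Eq.trans ?_ (wt_total (aniso h) S)
      apply sum_congr rfl
      intro ω _
      rw [if_pos (joined_refl _ _), mul_one]
    exact_mod_cast this
  have hbot : ∑ z ∈ S.filter (fun z => z + (0, -1) ∉ S),
      ((1 - h : ℝ) : ℂ) * ζ ^ labB a r x₀ (z, 0) * ((p z : ℝ) : ℂ) =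
      ((1 - h : ℝ) : ℂ) * ((p (x₀, a) : ℝ) : ℂ) +
      ∑ z ∈ S.filter (fun z => z + (0, -1) ∉ S ∧ AftB a r x₀ z),
        ((1 - h : ℝ) : ℂ) * ((p z : ℝ) : ℂ) +
      ∑ z ∈ S.filter (fun z => z + (0, -1) ∉ S ∧ BefB a l x₀ z),
        ((1 - h : ℝ) : ℂ) * (-ζ) * ((p z : ℝ) : ℂ) := by
    have hmem : ((x₀, a) : ℤ × ℤ) ∈ S.filter (fun z => z + (0, -1) ∉ S) := by
      rw [mem_filter]
      have e : ((x₀, a) : ℤ × ℤ) + (0, -1) = (x₀, a - 1) := by simp; ring
      rw [e, m, m]; omega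
    rw [← add_sum_erase _ _ hmem, hl0, zpow_zero, mul_one, add_assoc]
    congr 1
    rw [← sum_filter_add_sum_filter_not _ (fun z => AftB a r x₀ z)]
    congr 1
    · apply sum_congr
      · ext ⟨x, y⟩
        rw [mem_filter, mem_erase, mem_filter, mem_filter]
        unfold AftB
        constructor
        · rintro ⟨⟨_, h2, h3⟩, h4⟩
          exact ⟨h2, h3, h4⟩
        · rintro ⟨h2, h3, h4⟩
          refine ⟨⟨?_, h2, h3⟩, h4⟩
          intro h5
          rw [Prod.mk.injEq] at h5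
          simp only at h4
          omega
      · rintro ⟨x, y⟩ hz
        rw [mem_filter] at hz
        have h4 := hz.2.2
        unfold AftB at h4
        simp only at h4
        have : labB a r x₀ ((x, y), 0) = 0 := by
          rw [labB0]
          rcases h4 with h4 | h4
          · rw [if_pos h4.1, if_pos h4.2.le]
          · rw [if_neg h4.1, if_pos h4.2]
        rw [this, zpow_zero, mul_one]
    · apply sum_congr
      · ext ⟨x, y⟩
        rw [mem_filter, mem_erase, mem_filter, mem_filter]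
        have e : ((x, y) : ℤ × ℤ) + (0, -1) = (x, y - 1) := by simp; ring
        rw [e]
        unfold AftB BefB
        rw [m, m, ne_eq, Prod.mk.injEq]
        simp only
        constructor
        · rintro ⟨⟨h1, h2, h3⟩, h4⟩
          refine ⟨h2, h3, ?_⟩
          by_cases hy : y = a
          · left; omega
          · right; omega
        · rintro ⟨h2, h3, h4⟩
          by_cases hy : y = a
          · omega
          · have q3 := H.lr (y - 1) (by omega) (by omega)
            omega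
      · rintro ⟨x, y⟩ hz
        rw [mem_filter] at hz
        obtain ⟨hz1, hz2, h4⟩ := hz
        unfold BefB at h4
        simp only at h4
        have : labB a r x₀ ((x, y), 0) = 4 := by
          rw [labB0]
          rcases h4 with h4 | h4
          · rw [if_pos h4.1, if_neg (by omega)]
          · rw [m] at hz1
            have q3 := H.lr (y - 1) (by omega) (by omega)
            rw [if_neg h4.1, if_neg (by omega)]
        rw [this, z4]
  rw [hbot, hp0, ← mul_sum, ← mul_sum, ← mul_sum, ← mul_sum, ← mul_sum, ← Complex.ofReal_sum,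
    ← Complex.ofReal_sum, ← Complex.ofReal_sum, ← Complex.ofReal_sum, ← Complex.ofReal_sum] at hsum
  generalize (∑ z ∈ S.filter (fun z => z + (0, -1) ∉ S ∧ AftB a r x₀ z), p z) = Ba at *
  generalize (∑ z ∈ S.filter (fun z => z + (0, -1) ∉ S ∧ BefB a l x₀ z), p z) = Bb at *
  generalize (∑ z ∈ S.filter (fun z => z + (1, 0) ∉ S), p z) = R at *
  generalize (∑ z ∈ S.filter (fun z => z + (0, 1) ∉ S), p z) = T at *
  generalize (∑ z ∈ S.filter (fun z => z + (-1, 0) ∉ S), p z) = L at *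
  have key : (((1 - h) * Ba - (1 - h) * T - h * L + 1 : ℝ) : ℂ) +
      ((h * R + (1 - h) * T - (1 - h) * Bb - 1 : ℝ) : ℂ) * ζ = 0 := by
    push_cast at hsum ⊢
    linear_combination hsum + hζ
  obtain ⟨r1, r2⟩ := lin_eq_zero key
  exact ⟨by linarith, by linarith⟩

end H47Perc
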