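import Pool.Agent.Helper47.Perc.Gen10

/-!
Planarity of all finite configurations, on the level of darts.
-/

namespace H47Perc
open Finset Equiv Equiv.Perm

/-- same cycle of the exploration permutation -/
def SC (ω : Finset (Sym2 (ℤ × ℤ))) (d d' : Dart) : Prop := (confOf ω).perm.SameCycle d d'

lemma SC.refl (ω : Finset (Sym2 (ℤ × ℤ))) (d : Dart) : SC ω d d := Perm.SameCycle.refl _ _
lemma SC.symm {ω : Finset (Sym2 (ℤ × ℤ))} {d d' : Dart} (h : SC ω d d') : SC ω d' d :=
  Perm.SameCycle.symm h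
lemma SC.trans {ω : Finset (Sym2 (ℤ × ℤ))} {d d' d'' : Dart} (h : SC ω d d') (h' : SC ω d' d'') :
    SC ω d d'' := Perm.SameCycle.trans h h'

/-- lattice configurations -/
def Lat (ω : Finset (Sym2 (ℤ × ℤ))) : Prop := ∀ e ∈ ω, e ∈ lattice.edgeSet

lemma lat_edgesIn (S : Finset (ℤ × ℤ)) : Lat (edgesIn S) := by
  classical
  intro e he
  unfold edgesIn at he
  exact (mem_filter.1 he).2

lemma lat_insert [DecidableEq (Sym2 (ℤ × ℤ))] {ω : Finset (Sym2 (ℤ × ℤ))} (hω : Lat ω)
    (z : ℤ × ℤ) (c : Fin 4) : Lat (insert s(z, z + dir c) ω) := by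
  intro e he
  rw [mem_insert] at he
  rcases he with rfl | he
  · rw [SimpleGraph.mem_edgeSet]
    exact adj_dir z c
  · exact hω e he

/-- the rectangle `[-n, n] ^ 2` -/
noncomputable def Bx (n : ℤ) : Finset (ℤ × ℤ) := Finset.Icc (-n, -n) (n, n)

lemma mem_Bx {n x y : ℤ} : (x, y) ∈ Bx n ↔ -n ≤ y ∧ y ≤ n ∧ -n ≤ x ∧ x ≤ n := by
  unfold Bx
  rw [Finset.mem_Icc, Prod.mk_le_mk, Prod.mk_le_mk]
  tauto

lemma Bx_row {n : ℤ} (hn : 0 ≤ n) : RowConvex (-n) n (fun _ => -n) (fun _ => n) (Bx n) where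
  hab := by omega
  mem x y := mem_Bx
  lr := by intros; omega
  o1 := by intros; omega
  o2 := by intros; omega

lemma Bx_mono {n m : ℤ} (h : n ≤ m) : Bx n ⊆ Bx m := by
  rintro ⟨x, y⟩ hz
  rw [mem_Bx] at hz ⊢
  omega

lemma exists_Bx (F : Finset (ℤ × ℤ)) : ∃ n : ℤ, 0 ≤ n ∧ F ⊆ Bx n := by
  classical
  refine ⟨∑ z ∈ F, (|z.1| + |z.2|), sum_nonneg (fun _ _ => by positivity), ?_⟩
  rintro ⟨x, y⟩ hz
  have h1 : |x| + |y| ≤ ∑ z ∈ F, (|z.1| + |z.2|) :=
    single_le_sum (f := fun z : ℤ × ℤ => |z.1| + |z.2|) (fun _ _ => by positivity) hz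
  have h2 := neg_abs_le x
  have h3 := le_abs_self x
  have h4 := neg_abs_le y
  have h5 := le_abs_self y
  have h6 := abs_nonneg x
  have h7 := abs_nonneg y
  rw [mem_Bx]
  omega

/-- every finite configuration and every finite set of vertices lie in a box -/
lemma exists_box {ω : Finset (Sym2 (ℤ × ℤ))} (hω : Lat ω) (F : Finset (ℤ × ℤ)) :
    ∃ n : ℤ, 0 ≤ n ∧ F ⊆ Bx n ∧ ω ⊆ edgesIn (Bx n) := by
  classical
  induction ω using Finset.induction_on with
  | empty =>
    obtain ⟨n, hn, h⟩ := exists_Bx F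
    exact ⟨n, hn, h, empty_subset _⟩
  | insert e ω he ih =>
    obtain ⟨n, hn, h1, h2⟩ := ih (fun e' he' => hω e' (mem_insert_of_mem he'))
    have h3 := hω e (mem_insert_self _ _)
    induction e using Sym2.ind with
    | _ u v =>
      obtain ⟨m, hm, h4⟩ := exists_Bx {u, v}
      have hu : u ∈ Bx m := h4 (by simp)
      have hv : v ∈ Bx m := h4 (by simp)
      refine ⟨max n m, le_max_of_le_left hn, h1.trans (Bx_mono (le_max_left _ _)), ?_⟩
      apply insert_subset
      · rw [mem_edgesIn]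
        exact ⟨Bx_mono (le_max_right _ _) hu, Bx_mono (le_max_right _ _) hv, h3⟩
      · intro e' he'
        have h5 := h2 he'
        induction e' using Sym2.ind with
        | _ a b =>
          rw [mem_edgesIn] at h5 ⊢
          exact ⟨Bx_mono (le_max_left _ _) h5.1, Bx_mono (le_max_left _ _) h5.2.1, h5.2.2⟩

/-- darts over `B` -/
abbrev inB {B : Finset (ℤ × ℤ)} (d : Dart) (h : d.1 ∈ B) : ↥(DS B) := ⟨d, mem_DS.2 h⟩

lemma sc_iff_cy {B : Finset (ℤ × ℤ)} {ω : Finset (Sym2 (ℤ × ℤ))} (hω : ω ⊆ edgesIn B)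
    {d d' : Dart} (h : d.1 ∈ B) (h' : d'.1 ∈ B) :
    SC ω d d' ↔ cy (pS B ω) (inB d h) (inB d' h') := (cy_pS hω (d := inB d h) (d' := inB d' h')).symm

/-- adding the edge of the dart `d` multiplies by a transposition -/
lemma perm_insert [DecidableEq (Sym2 (ℤ × ℤ))] {ω : Finset (Sym2 (ℤ × ℤ))} {z : ℤ × ℤ}
    {c : Fin 4} (hcl : s(z, z + dir c) ∉ ω) :
    (confOf (insert s(z, z + dir c) ω)).perm =
      (confOf ω).perm * swap (z, c) (z + dir c, c + 2) := by
  set ω' := insert s(z, z + dir c) ω with hω'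
  have c1 : c + 2 + 1 = c + 3 := by rw [add_assoc]; rfl
  have c2 : c + 2 + 3 = c + 1 := by rw [add_assoc]; rfl
  have hrev : z + dir c + dir (c + 2) = z := by rw [dir_add_two]; abel
  have oA : ¬ (confOf ω).o z c := hcl
  have oA' : ¬ (confOf ω).o (z + dir c) (c + 2) := by
    rw [(confOf ω).symm]; exact hcl
  have oB : (confOf ω').o z c := mem_insert_self _ _
  have oB' : (confOf ω').o (z + dir c) (c + 2) := by
    rw [(confOf ω').symm]; exact mem_insert_self _ _
  have oo : ∀ d : Dart, d ≠ (z, c) → d ≠ (z + dir c, c + 2) →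
      ((confOf ω').o d.1 d.2 ↔ (confOf ω).o d.1 d.2) := by
    rintro ⟨z', c'⟩ h1 h2
    rw [confOf_o, confOf_o, hω', mem_insert]
    constructor
    · rintro (h | h)
      · rcases edge_eq h with h | h
        · exact absurd h h1
        · exact absurd h h2
      · exact h
    · exact Or.inr
  ext1 d
  rw [Perm.mul_apply]
  by_cases h1 : d = (z, c)
  · subst h1
    rw [swap_apply_left, Conf.perm_apply, Conf.perm_apply, (confOf ω').nxt_open oB,
      (confOf ω).nxt_closed oA', c1]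
  · by_cases h2 : d = (z + dir c, c + 2)
    · subst h2
      rw [swap_apply_right, Conf.perm_apply, Conf.perm_apply, (confOf ω').nxt_open oB',
        (confOf ω).nxt_closed oA, c2, hrev]
    · rw [swap_apply_of_ne_of_ne h1 h2, Conf.perm_apply, Conf.perm_apply]
      obtain ⟨z', c'⟩ := d
      have h3 := oo (z', c') h1 h2
      simp only at h3
      by_cases h4 : (confOf ω).o z' c'
      · rw [(confOf ω').nxt_open (h3.2 h4), (confOf ω).nxt_open h4]
      · rw [(confOf ω').nxt_closed (fun h => h4 (h3.1 h)), (confOf ω).nxt_closed h4]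

/-- merging two cycles -/
theorem sc_join [DecidableEq (Sym2 (ℤ × ℤ))] {ω : Finset (Sym2 (ℤ × ℤ))} (hω : Lat ω)
    {z : ℤ × ℤ} {c : Fin 4}
    (hcl : s(z, z + dir c) ∉ ω) (h : ¬ SC ω (z, c) (z + dir c, c + 2)) (d d' : Dart) :
    SC (insert s(z, z + dir c) ω) d d' ↔ SC ω d d' ∨
      (SC ω d (z, c) ∧ SC ω (z + dir c, c + 2) d') ∨
      (SC ω d (z + dir c, c + 2) ∧ SC ω (z, c) d') := by
  obtain ⟨n, _, hF, hB⟩ := exists_box (lat_insert hω z c) {d.1, d'.1, z, z + dir c}
  have md : d.1 ∈ Bx n := hF (by simp)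
  have md' : d'.1 ∈ Bx n := hF (by simp)
  have mz : z ∈ Bx n := hF (by simp)
  have mz' : z + dir c ∈ Bx n := hF (by simp)
  have hB' : ω ⊆ edgesIn (Bx n) := (subset_insert _ _).trans hB
  have hne : ((inB (z, c) mz : ↥(DS (Bx n))) : Dart) ≠ (inB (z + dir c, c + 2) mz' : ↥(DS (Bx n))) := by
    intro hh
    have h2 : c = c + 2 := congrArg Prod.snd hh
    have h3 : (2 : Fin 4) = 0 := add_eq_left.1 h2.symm
    exact absurd h3 (by decide)
  have hp : pS (Bx n) (insert s(z, z + dir c) ω) =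
      pS (Bx n) ω * swap (inB (z, c) mz) (inB (z + dir c, c + 2) mz') := by
    ext1 e
    apply Subtype.ext
    have p1 : ((pS (Bx n) (insert s(z, z + dir c) ω) e : ↥(DS (Bx n))) : Dart) =
        (confOf (insert s(z, z + dir c) ω)).perm e.1 := by
      have := pS_pow _ hB e 1
      rwa [pow_one, pow_one] at this
    rw [p1, perm_insert hcl, Perm.mul_apply, Perm.mul_apply]
    have p2 : ∀ f : ↥(DS (Bx n)), ((pS (Bx n) ω f : ↥(DS (Bx n))) : Dart) =
        (confOf ω).perm f.1 := by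
      intro f
      have := pS_pow _ hB' f 1
      rwa [pow_one, pow_one] at this
    rw [p2]
    congr 1
    by_cases h1 : e = inB (z, c) mz
    · rw [h1, swap_apply_left, swap_apply_left]
    · by_cases h2 : e = inB (z + dir c, c + 2) mz'
      · rw [h2, swap_apply_right, swap_apply_right]
      · rw [swap_apply_of_ne_of_ne h1 h2, swap_apply_of_ne_of_ne]
        · exact fun hh => h1 (Subtype.ext hh)
        · exact fun hh => h2 (Subtype.ext hh)
  rw [sc_iff_cy hB md md', sc_iff_cy hB' md md', sc_iff_cy hB' (d := d) (d' := (z, c)) md mz,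
    sc_iff_cy hB' (d := (z + dir c, c + 2)) (d' := d') mz' md',
    sc_iff_cy hB' (d := d) (d' := (z + dir c, c + 2)) md mz',
    sc_iff_cy hB' (d := (z, c)) (d' := d') mz md', hp, cy_merge]
  · exact jn_iff
  · rwa [← sc_iff_cy hB' (d := (z, c)) (d' := (z + dir c, c + 2)) mz mz']

/-- cycles stay in clusters -/
theorem sc_joined {ω : Finset (Sym2 (ℤ × ℤ))} {d d' : Dart} (h : SC ω d d') :
    Joined ω d.1 d'.1 := by
  let r : Setoid Dart := ⟨fun d d' => Joined ω d.1 d'.1,
    ⟨fun _ => joined_refl _ _, joined_symm, joined_trans⟩⟩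
  refine cy_le (r := r) (fun e => ?_) h
  change Joined ω e.1 ((confOf ω).perm e).1
  rw [Conf.perm_apply]
  obtain ⟨z, c⟩ := e
  by_cases ho : (confOf ω).o z c
  · rw [(confOf ω).nxt_open ho]
    exact joined_edge ho
  · rw [(confOf ω).nxt_closed ho]
    exact joined_refl _ _

/-- **planarity**: an edge between two vertices of the same cluster splits a cycle -/
theorem sc_planar {ω : Finset (Sym2 (ℤ × ℤ))} (hω : Lat ω) {z : ℤ × ℤ} {c : Fin 4}
    (hcl : s(z, z + dir c) ∉ ω) (h : Joined ω z (z + dir c)) :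
    SC ω (z, c) (z + dir c, c + 2) := by
  classical
  obtain ⟨n, hn, hF, hB⟩ := exists_box (lat_insert hω z c) {z, z + dir c}
  have mz : z ∈ Bx n := hF (by simp)
  have mz' : z + dir c ∈ Bx n := hF (by simp)
  have hB' : ω ⊆ edgesIn (Bx n) := (subset_insert _ _).trans hB
  have H := Bx_row hn
  have hS := H.simply
  -- an exit of the box
  have hc0 : ((0, -n) : ℤ × ℤ) ∈ Bx n := by rw [mem_Bx]; omega
  have hex : IsExit (Bx n) ((0, -n), 0) := by
    rw [ex0, mem_Bx, mem_Bx]; omega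
  let t : ↥(DS (Bx n)) := ⟨((0, -n), 0), mem_DS.2 hc0⟩
  have G := good_dsys hS (t := t) hex
  have he : s(z, z + dir c) ∈ edgesIn (Bx n) := edge_mem_iff.2 ⟨mz, mz'⟩
  have hx := xD_spec he
  have hmem : insert s(z, z + dir c) ω ⊆ (dsys (Bx n) t).m := hB
  have key := (dsys (Bx n) t).planar G.hg hcl hmem
  have vx := xS_val (s0 := t) he
  have vy := yS_val (s0 := t) he
  have hcases : (xD s(z, z + dir c) = (z, c) ∧ opp (xD s(z, z + dir c)) = (z + dir c, c + 2)) ∨
      (xD s(z, z + dir c) = (z + dir c, c + 2) ∧ opp (xD s(z, z + dir c)) = (z, c)) := by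
    have h1 : ed (xD s(z, z + dir c)) = ed (z, c) := hx.symm
    rcases ed_eq_iff.1 h1 with h2 | h2
    · left; rw [h2]; exact ⟨rfl, rfl⟩
    · right
      rw [h2]
      refine ⟨rfl, ?_⟩
      unfold opp
      simp only
      rw [dir_add_two, add_neg_cancel_right]
      have : c + 2 + 2 = c := by rw [add_assoc]; exact add_zero c
      rw [this]
  have hj : (dsys (Bx n) t).cn ω ((dsys (Bx n) t).x s(z, z + dir c))
      ((dsys (Bx n) t).y s(z, z + dir c)) := by
    change Joined (ω ∩ edgesIn (Bx n)) (xS (Bx n) t s(z, z + dir c)).1.1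
      (yS (Bx n) t s(z, z + dir c)).1.1
    rw [inter_eq_left.2 hB', vx, vy]
    rcases hcases with ⟨h1, h2⟩ | ⟨h1, h2⟩
    · rw [h2, h1]; exact h
    · rw [h2, h1]; exact joined_symm h
  have h3 := key hj
  have h4 : SC ω (xS (Bx n) t s(z, z + dir c)).1 (yS (Bx n) t s(z, z + dir c)).1 :=
    (cy_pS hB').1 h3
  rw [vx, vy] at h4
  rcases hcases with ⟨h1, h2⟩ | ⟨h1, h2⟩
  · rwa [h2, h1] at h4
  · rw [h2, h1] at h4
    exact h4.symm

/-- the darts of an isolated vertex -/
lemma sc_isolated {ω : Finset (Sym2 (ℤ × ℤ))} {v : ℤ × ℤ} (h : ∀ c, s(v, v + dir c) ∉ ω)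
    (c c' : Fin 4) : SC ω (v, c) (v, c') := by
  have st : ∀ c, SC ω (v, c) (v, c + 1) := by
    intro c
    have h1 : (confOf ω).perm (v, c) = (v, c + 1) := (confOf ω).nxt_closed (h c)
    rw [← h1]
    exact (cy_apply (confOf ω).perm (v, c))
  have s1 := st c
  have s2 := st (c + 1)
  have s3 := st (c + 1 + 1)
  rcases fin4_cases c c' with h1 | h1 | h1 | h1
  · rw [h1]; exact SC.refl _ _
  · rw [h1]; exact s1
  · rw [h1]; exact s1.trans s2
  · rw [h1]; exact (s1.trans s2).trans s3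

/-- the cluster of an isolated vertex -/
lemma joined_isolated {ω : Finset (Sym2 (ℤ × ℤ))} (hω : Lat ω) {u v : ℤ × ℤ}
    (h : ∀ c, s(v, v + dir c) ∉ ω) (hj : Joined ω v u) : u = v := by
  obtain ⟨p⟩ := hj
  cases p with
  | nil => rfl
  | cons hab p =>
    rename_i b
    rw [SimpleGraph.fromEdgeSet_adj] at hab
    have h1 : s(v, b) ∈ ω := by exact_mod_cast hab.1
    obtain ⟨c, rfl⟩ := dir_of_adj ((lattice.mem_edgeSet).1 (hω _ h1))
    exact absurd h1 (h c)

end H47Perc
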