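import Pool.Agent.Helper47.Perc.Gen12

/-!
A finite connected set with `*`-connected complement is simply connected.
-/

namespace H47Perc
open Finset Equiv Equiv.Perm

/-- a lattice step outside `S` -/
def OutStep (S : Finset (ℤ × ℤ)) (u v : ℤ × ℤ) : Prop := v ∉ S ∧ ∃ c, v = u + dir c

/-- the configuration `ω` consists of the edges inside `S` and of a tree outside `S`, attached to
`S` at the exit `d` -/
structure Grow (S : Finset (ℤ × ℤ)) (d : Dart) (ω : Finset (Sym2 (ℤ × ℤ)))
    (T : Finset (ℤ × ℤ)) : Prop where
  sub : edgesIn S ⊆ ω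
  lat : Lat ω
  disj : ∀ v ∈ T, v ∉ S
  ver : ∀ u c, s(u, u + dir c) ∈ ω → u ∈ S ∨ u ∈ T
  cross : ∀ u c, s(u, u + dir c) ∈ ω → u ∈ S → u + dir c ∉ S → (u, c) = d
  cyc : ∀ v ∈ T, ∀ c, SC ω (v, c) d
  back : ∀ e : Dart, e.1 ∈ S → SC ω e d → SC (edgesIn S) e d

lemma grow_start (S : Finset (ℤ × ℤ)) (d : Dart) : Grow S d (edgesIn S) ∅ where
  sub := subset_rfl
  lat := lat_edgesIn S
  disj := by intro v hv; exact absurd hv (notMem_empty v)
  ver := fun u c h => Or.inl (edge_mem_iff.1 h).1
  cross := fun u c h _ h2 => absurd (edge_mem_iff.1 h).2 h2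
  cyc := by intro v hv; exact absurd hv (notMem_empty v)
  back := fun _ _ h => h

open Classical in
/-- growing the tree -/
lemma Grow.step {S : Finset (ℤ × ℤ)} {d : Dart} {ω : Finset (Sym2 (ℤ × ℤ))}
    {T : Finset (ℤ × ℤ)} (H : Grow S d ω T) (hd : d.1 ∈ S) {u : ℤ × ℤ} {c : Fin 4} (hu : u ∈ T ∨ (u, c) = d)
    (hS : u + dir c ∉ S) (hT : u + dir c ∉ T) :
    Grow S d (insert s(u, u + dir c) ω) (insert (u + dir c) T) := by
  have hrev : u + dir c + dir (c + 2) = u := by rw [dir_add_two]; abel
  have iso : ∀ c', s(u + dir c, u + dir c + dir c') ∉ ω := by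
    intro c' h
    rcases H.ver _ _ h with h1 | h1
    · exact hS h1
    · exact hT h1
  have hcl : s(u, u + dir c) ∉ ω := by
    intro h
    apply iso (c + 2)
    rw [hrev, Sym2.eq_swap]
    exact h
  have hud : SC ω (u, c) d := by
    rcases hu with hu | hu
    · exact H.cyc u hu c
    · rw [hu]; exact SC.refl _ _
  have hne : ∀ x, Joined ω (u + dir c) x → x = u + dir c := fun x hx =>
    joined_isolated H.lat iso hx
  have huu : u ≠ u + dir c := by
    intro h
    have h1 : dir c = 0 := add_eq_left.1 h.symm
    revert h1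
    fin_cases c <;> simp [Prod.ext_iff]
  have hnsc : ¬ SC ω (u, c) (u + dir c, c + 2) := by
    intro h
    exact huu (hne u (joined_symm (sc_joined h)))
  have key := sc_join H.lat hcl hnsc
  refine ⟨H.sub.trans (subset_insert _ _), lat_insert H.lat u c, ?_, ?_, ?_, ?_, ?_⟩
  · intro v hv
    rw [mem_insert] at hv
    rcases hv with rfl | hv
    · exact hS
    · exact H.disj v hv
  · intro u' c' h
    rw [mem_insert] at h
    rcases h with h | h
    · rcases edge_eq h with h1 | h1
      · rw [Prod.mk.injEq] at h1
        rcases hu with hu | hu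
        · right; rw [h1.1]; exact mem_insert_of_mem hu
        · left
          rw [h1.1]
          rw [← hu] at hd
          exact hd
      · rw [Prod.mk.injEq] at h1
        right; rw [h1.1]; exact mem_insert_self _ _
    · rcases H.ver u' c' h with h1 | h1
      · exact Or.inl h1
      · exact Or.inr (mem_insert_of_mem h1)
  · intro u' c' h h1 h2
    rw [mem_insert] at h
    rcases h with h | h
    · rcases edge_eq h with h3 | h3
      · rw [h3]
        rcases hu with hu | hu
        · rw [Prod.mk.injEq] at h3
          rw [h3.1] at h1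
          exact absurd h1 (H.disj u hu)
        · exact hu
      · rw [Prod.mk.injEq] at h3
        rw [h3.1] at h1
        exact absurd h1 hS
    · exact H.cross u' c' h h1 h2
  · intro v hv c'
    rw [mem_insert] at hv
    rw [key]
    rcases hv with rfl | hv
    · exact Or.inr (Or.inr ⟨sc_isolated iso c' (c + 2), hud⟩)
    · exact Or.inl (H.cyc v hv c')
  · intro e he h
    rw [key] at h
    apply H.back e he
    rcases h with h | ⟨h1, _⟩ | ⟨h1, _⟩
    · exact h
    · exact h1.trans hud
    · have h2 := hne e.1 (joined_symm (sc_joined h1))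
      rw [h2] at he
      exact absurd he hS

/-- the tree reaches all points of the component of the complement -/
lemma Grow.reach {S : Finset (ℤ × ℤ)} {d : Dart} (hd : IsExit S d) {v : ℤ × ℤ}
    (h : Relation.ReflTransGen (OutStep S) (d.1 + dir d.2) v) :
    ∃ ω T, Grow S d ω T ∧ v ∈ T := by
  classical
  induction h with
  | refl =>
    exact ⟨_, _, (grow_start S d).step hd.1 (u := d.1) (c := d.2) (Or.inr rfl) hd.2
      (notMem_empty _), mem_insert_self _ _⟩
  | @tail u v _ h2 ih =>
    obtain ⟨ω, T, H, hu⟩ := ih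
    obtain ⟨hv, c, rfl⟩ := h2
    by_cases hT : u + dir c ∈ T
    · exact ⟨ω, T, H, hT⟩
    · exact ⟨_, _, H.step hd.1 (Or.inl hu) hv hT, mem_insert_self _ _⟩

/-- exits into the same component of the complement lie on one boundary cycle -/
lemma exits_component {S : Finset (ℤ × ℤ)}
    (hconn : ∀ u ∈ S, ∀ v ∈ S, Joined (edgesIn S) u v) {d d' : Dart} (hd : IsExit S d)
    (hd' : IsExit S d')
    (h : Relation.ReflTransGen (OutStep S) (d.1 + dir d.2) (d'.1 + dir d'.2)) :
    SC (edgesIn S) d' d := by
  obtain ⟨ω, T, H, hT⟩ := Grow.reach hd h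
  apply H.back d' hd'.1
  obtain ⟨z, c⟩ := d'
  simp only at hT
  by_cases ho : s(z, z + dir c) ∈ ω
  · rw [H.cross z c ho hd'.1 hd'.2]
    exact SC.refl _ _
  · have h1 := H.cyc _ hT (c + 2)
    have h2 : Joined ω z d.1 := by
      apply SimpleGraph.Reachable.mono _ (hconn z hd'.1 d.1 hd.1)
      apply SimpleGraph.fromEdgeSet_mono
      exact_mod_cast H.sub
    have h3 : Joined ω z (z + dir c) := joined_trans h2 (joined_symm (sc_joined h1))
    exact (sc_planar H.lat ho h3).trans h1

/-- a king's step is a lattice step, or trivial, or diagonal -/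
lemma star_cases {u v : ℤ × ℤ} (h1 : |u.1 - v.1| ≤ 1) (h2 : |u.2 - v.2| ≤ 1) :
    v = u ∨ (∃ c, v = u + dir c) ∨ (∃ c, v = u + dir c + dir (c + 1)) := by
  obtain ⟨x, y⟩ := u
  obtain ⟨x', y'⟩ := v
  simp only at h1 h2
  rw [abs_le] at h1 h2
  have hx : x' = x ∨ x' = x + 1 ∨ x' = x - 1 := by omega
  have hy : y' = y ∨ y' = y + 1 ∨ y' = y - 1 := by omega
  rcases hx with rfl | rfl | rfl
  · rcases hy with rfl | rfl | rfl
    · left; rfl
    · right; left; exact ⟨2, by simp⟩
    · right; left; exact ⟨0, by simp; ring⟩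
  · rcases hy with rfl | rfl | rfl
    · right; left; exact ⟨1, by simp⟩
    · right; right; exact ⟨1, by rw [show (1 + 1 : Fin 4) = 2 from rfl]; simp⟩
    · right; right; exact ⟨0, by simp; ring⟩
  · rcases hy with rfl | rfl | rfl
    · right; left; exact ⟨3, by simp; ring⟩
    · right; right
      exact ⟨2, by rw [show (2 + 1 : Fin 4) = 3 from rfl]; simp; ring⟩
    · right; right
      exact ⟨3, by rw [show (3 + 1 : Fin 4) = 0 from rfl]; simp; constructor <;> ring⟩

/-- **Simple connectivity**: a finite connected set whose complement is connected by king's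
steps. -/
theorem simply_of_starCo {S : Finset (ℤ × ℤ)}
    (hconn : ∀ u ∈ S, ∀ v ∈ S, Joined (edgesIn S) u v) (hco : StarCo S) : Simply S := by
  refine ⟨hconn, fun d d' hd hd' => ?_⟩
  -- all exits into the component of `w` are on the cycle of `d`
  have key : ∀ w, Relation.ReflTransGen (StarStep S) (d.1 + dir d.2) w → w ∉ S ∧
      ∀ e, IsExit S e → Relation.ReflTransGen (OutStep S) w (e.1 + dir e.2) →
        SC (edgesIn S) e d := by
    intro w hw
    induction hw with
    | refl => exact ⟨hd.2, fun e he h => exits_component hconn hd he h⟩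
    | @tail u v _ h2 ih =>
      obtain ⟨hu, hu'⟩ := ih
      obtain ⟨hv, h3, h4⟩ := h2
      refine ⟨hv, ?_⟩
      rcases star_cases h3 h4 with rfl | ⟨c, rfl⟩ | ⟨c, rfl⟩
      · exact hu'
      · intro e he h
        exact hu' e he (Relation.ReflTransGen.head ⟨hv, c, rfl⟩ h)
      · -- diagonal
        have comm : u + dir c + dir (c + 1) = u + dir (c + 1) + dir c := by abel
        by_cases h5 : u + dir c ∈ S
        · -- the corner `u + dir c` lies in `S`
          have c1 : c + 1 + 1 = c + 2 := by rw [add_assoc]; rfl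
          have e1 : IsExit S (u + dir c, c + 1) := ⟨h5, hv⟩
          have e2 : IsExit S (u + dir c, c + 2) := ⟨h5, by
            simp only
            rw [dir_add_two, add_neg_cancel_right]
            exact hu⟩
          have h6 : SC (edgesIn S) (u + dir c, c + 2) d := by
            apply hu' _ e2
            simp only
            rw [dir_add_two, add_neg_cancel_right]
          have h7 : SC (edgesIn S) (u + dir c, c + 1) (u + dir c, c + 2) := by
            have h8 := Bd.nx e1
            rcases nx_cases S (u + dir c) (c + 1) with ⟨_, h9, _⟩ | ⟨h9, _⟩ | ⟨h9, _⟩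
            · rw [h9, c1] at h8
              exact h8
            · rw [c1] at h9
              exact absurd h9 e2.2
            · rw [c1] at h9
              exact absurd h9 e2.2
          intro e he h
          exact (exits_component hconn e1 he h).trans (h7.trans h6)
        · intro e he h
          exact hu' e he (Relation.ReflTransGen.head ⟨h5, c, rfl⟩
            (Relation.ReflTransGen.head ⟨hv, c + 1, rfl⟩ h))
  exact ((key _ (hco _ _ hd.2 hd'.2)).2 d' hd' Relation.ReflTransGen.refl).symm

end H47Perc
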