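import Pool.Agent.Helper47.Perc.Gen13

/-!
The contour rule with the winding of the boundary defined intrinsically.
-/

namespace H47Perc
open Finset Equiv Equiv.Perm

variable {S : Finset (ℤ × ℤ)}

lemma nx_inj {d d' : Dart} (hd : IsExit S d) (hd' : IsExit S d') (h : nx S d = nx S d') :
    d = d' := by
  obtain ⟨a, ha, h1, h2⟩ := nx_perm hd
  obtain ⟨a', ha', h1', h2'⟩ := nx_perm hd'
  rw [← h1, ← h1'] at h
  have key : ∀ {a a' : ℕ} {d d' : Dart}, a ≤ a' →
      ((confOf (edgesIn S)).perm ^ a) d = ((confOf (edgesIn S)).perm ^ a') d' →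
      d = ((confOf (edgesIn S)).perm ^ (a' - a)) d' := by
    intro a a' d d' hle he
    apply ((confOf (edgesIn S)).perm ^ a).injective
    rw [he, ← Perm.mul_apply, ← pow_add]
    congr 2
    omega
  rcases lt_trichotomy a a' with hlt | rfl | hlt
  · have := key hlt.le h
    exact absurd (this ▸ hd) (h2' (a' - a) (by omega) (by omega))
  · exact ((confOf (edgesIn S)).perm ^ a).injective h
  · have := key hlt.le h.symm
    exact absurd (this ▸ hd') (h2 (a - a') (by omega) (by omega))

lemma wind_self (t : Dart) : wind S t t = 0 := by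
  have : sInf {m : ℕ | (nx S)^[m] t = t} = 0 := by
    rw [Nat.sInf_eq_zero]
    left
    rfl
  unfold wind
  rw [this, range_zero, sum_empty]

/-- the winding is a labelling -/
lemma wind_rule (hS : Simply S) {t : Dart} (ht : IsExit S t) (d : Dart) (hd : IsExit S d)
    (hne : nx S d ≠ t) : wind S t (nx S d) = wind S t d + tn S d := by
  obtain ⟨j, hj⟩ := iter_of_walk hS ht hd
  have hex : ({m : ℕ | (nx S)^[m] t = d}).Nonempty := ⟨j, hj⟩
  set m := sInf {m : ℕ | (nx S)^[m] t = d} with hm
  have h1 : (nx S)^[m] t = d := Nat.sInf_mem hex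
  have h2 : ∀ i < m, (nx S)^[i] t ≠ d := fun i hi h => Nat.notMem_of_lt_sInf hi h
  have h3 : sInf {m : ℕ | (nx S)^[m] t = nx S d} = m + 1 := by
    apply le_antisymm
    · apply Nat.sInf_le
      change (nx S)^[m + 1] t = nx S d
      rw [Function.iterate_succ_apply', h1]
    · apply le_csInf ⟨m + 1, by
        change (nx S)^[m + 1] t = nx S d
        rw [Function.iterate_succ_apply', h1]⟩
      intro i hi
      change (nx S)^[i] t = nx S d at hi
      rcases Nat.eq_zero_or_pos i with rfl | hpos
      · exact absurd hi.symm hne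
      · obtain ⟨i', rfl⟩ : ∃ i', i = i' + 1 := ⟨i - 1, by omega⟩
        rw [Function.iterate_succ_apply'] at hi
        have h4 := nx_inj (iter_exit ht i') hd hi
        by_contra hcon
        exact h2 i' (by omega) h4
  unfold wind
  rw [h3, sum_range_succ, ← hm, h1]

open Classical in
/-- **The contour rule.** Critical bond percolation (`p_horizontal = h`, `p_vertical = 1 - h`) in
a finite connected set `S` whose complement is connected by king's steps; `t` is an edge of the
boundary. -/
theorem contour_rule (h : ℝ) (hconn : ∀ u ∈ S, ∀ v ∈ S, Joined (edgesIn S) u v)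
    (hco : StarCo S) {t : Dart} (ht : IsExit S t) :
    ∑ d ∈ ((DS S).erase t).filter (fun d => d.1 + dir d.2 ∉ S),
      (aniso h s(d.1, d.1 + dir d.2) : ℝ) * ζ ^ (wind S t d - 2) *
        (perc (aniso h) S (fun ω => Joined ω t.1 d.1) : ℝ) = 1 := by
  have hS := simply_of_starCo hconn hco
  have h1 := gen_rule h hS ht (N := wind S t) (wind_rule hS ht)
  have hζ0 := ζ_ne_zero
  have hz2 : (ζ ^ 2 : ℂ) ≠ 0 := pow_ne_zero _ hζ0
  apply mul_right_cancel₀ hz2
  rw [one_mul]
  refine Eq.trans ?_ h1
  rw [sum_mul]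
  apply sum_congr rfl
  intro d _
  rw [wind_self, sub_zero, zpow_sub₀ hζ0]
  have e2 : ζ ^ (2 : ℤ) = ζ ^ 2 := by norm_cast
  rw [e2]
  field_simp

lemma ζ_exp : ζ = Complex.exp (Real.pi / 3 * Complex.I) := by
  have h1 : ((Real.pi / 3 : ℝ) : ℂ) = (Real.pi : ℂ) / 3 := by push_cast; rfl
  rw [← h1, Complex.exp_mul_I, ← Complex.ofReal_cos, ← Complex.ofReal_sin, Real.cos_pi_div_three,
    Real.sin_pi_div_three]
  apply Complex.ext
  · simp [ζ]
  · simp [ζ]

end H47Perc
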