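import Pool.Agent.Helper47.Perc.Gen1

/-!
Planarity by counting, part 2: systems of permutations indexed by configurations of edges;
opening the edge `e` multiplies by the transposition of `x e` and `y e`.
-/

namespace H47Perc
open Equiv Equiv.Perm Finset

/-- A system of permutations: `m` is the largest configuration. -/
structure Sys (X ι A : Type*) [Fintype X] [DecidableEq X] [DecidableEq ι] [AddCommGroup A] where
  m : Finset ι
  x : ι → X
  y : ι → X
  σ : Finset ι → Perm X
  cn : Finset ι → Setoid X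
  w : Finset ι → X → A
  θ : A
  ne : ∀ e ∈ m, x e ≠ y e
  hσ : ∀ ω e, e ∉ ω → insert e ω ⊆ m → σ (insert e ω) = σ ω * swap (x e) (y e)
  hcn : ∀ ω e, e ∉ ω → insert e ω ⊆ m → cn (insert e ω) = jn (cn ω) (x e) (y e)
  hle : ∀ ω, ω ⊆ m → ∀ d d', cy (σ ω) d d' → cn ω d d'
  hw : ∀ ω e, e ∉ ω → insert e ω ⊆ m → ∀ d, d ≠ x e → d ≠ y e → w (insert e ω) d = w ω d
  hs : ∀ ω e, e ∉ ω → insert e ω ⊆ m →
    w (insert e ω) (x e) + w (insert e ω) (y e) = w ω (x e) + w ω (y e) - θ

namespace Sys
variable {X ι A : Type*} [Fintype X] [DecidableEq X] [DecidableEq ι] [AddCommGroup A]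
variable (S : Sys X ι A)

/-- genus (up to a constant) -/
noncomputable def gen (ω : Finset ι) : ℤ := #ω + 2 * ncl (S.cn ω) - ncy (S.σ ω)

lemma gen_step {ω : Finset ι} {e : ι} (he : e ∉ ω) (hm : insert e ω ⊆ S.m) :
    S.gen ω ≤ S.gen (insert e ω) ∧
    (S.gen (insert e ω) = S.gen ω → S.cn ω (S.x e) (S.y e) → cy (S.σ ω) (S.x e) (S.y e)) ∧
    ((¬ S.cn ω (S.x e) (S.y e) ∨ cy (S.σ ω) (S.x e) (S.y e)) →
      S.gen (insert e ω) = S.gen ω) := by
  have hω : ω ⊆ S.m := (subset_insert e ω).trans hm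
  have hem : e ∈ S.m := hm (mem_insert_self e ω)
  unfold gen
  rw [card_insert_of_notMem he, S.hσ ω e he hm, S.hcn ω e he hm]
  by_cases h1 : S.cn ω (S.x e) (S.y e)
  · rw [jn_of_rel h1]
    by_cases h2 : cy (S.σ ω) (S.x e) (S.y e)
    · have h3 := ncy_split h2 (S.ne e hem)
      rw [h3]
      push_cast
      refine ⟨by omega, fun _ _ => h2, fun _ => by omega⟩
    · have h3 := ncy_merge h2
      rw [h3]
      push_cast
      refine ⟨by omega, fun h _ => by omega, fun h => ?_⟩
      rcases h with h | h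
      · exact absurd h1 h
      · exact absurd h h2
  · have h2 : ¬ cy (S.σ ω) (S.x e) (S.y e) := fun h => h1 (S.hle ω hω _ _ h)
    have h3 := ncy_merge h2
    have h4 : ncl (S.cn ω) = ncl (jn (S.cn ω) (S.x e) (S.y e)) + 1 := card_jn _ h1
    rw [h3, h4]
    push_cast
    exact ⟨by omega, fun _ h => absurd h h1, fun _ => by omega⟩

lemma gen_mono_aux (ω : Finset ι) (s : Finset ι) : Disjoint s ω → ω ∪ s ⊆ S.m →
    S.gen ω ≤ S.gen (ω ∪ s) := by
  induction s using Finset.induction_on with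
  | empty => intro _ _; rw [union_empty]
  | insert e s he ih =>
    intro hd hm
    rw [disjoint_insert_left] at hd
    rw [union_insert] at hm ⊢
    have h1 := ih hd.2 ((subset_insert _ _).trans hm)
    have h2 : e ∉ ω ∪ s := by rw [mem_union, not_or]; exact ⟨hd.1, he⟩
    exact h1.trans (S.gen_step h2 hm).1

lemma gen_mono {ω ω' : Finset ι} (h : ω ⊆ ω') (hm : ω' ⊆ S.m) : S.gen ω ≤ S.gen ω' := by
  have := S.gen_mono_aux ω (ω' \ ω) sdiff_disjoint (by rwa [union_sdiff_of_subset h])
  rwa [union_sdiff_of_subset h] at this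

/-- planarity -/
theorem planar (hg : S.gen S.m = S.gen ∅) {ω : Finset ι} {e : ι} (he : e ∉ ω)
    (hm : insert e ω ⊆ S.m) (hc : S.cn ω (S.x e) (S.y e)) : cy (S.σ ω) (S.x e) (S.y e) := by
  apply (S.gen_step he hm).2.1 _ hc
  have h1 := S.gen_mono (empty_subset ω) ((subset_insert e ω).trans hm)
  have h2 := (S.gen_step he hm).1
  have h3 := S.gen_mono hm subset_rfl
  omega

lemma cn_mono_aux (ω : Finset ι) (s : Finset ι) : Disjoint s ω → ω ∪ s ⊆ S.m →
    ∀ d d', S.cn ω d d' → S.cn (ω ∪ s) d d' := by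
  induction s using Finset.induction_on with
  | empty => intro _ _ d d'; rw [union_empty]; exact id
  | insert e s he ih =>
    intro hd hm d d' hdd
    rw [disjoint_insert_left] at hd
    rw [union_insert] at hm ⊢
    have h1 := ih hd.2 ((subset_insert _ _).trans hm) d d' hdd
    have h2 : e ∉ ω ∪ s := by rw [mem_union, not_or]; exact ⟨hd.1, he⟩
    rw [S.hcn _ e h2 hm]
    exact Or.inl h1

lemma cn_mono {ω ω' : Finset ι} (h : ω ⊆ ω') (hm : ω' ⊆ S.m) {d d' : X} (hd : S.cn ω d d') :
    S.cn ω' d d' := by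
  have := S.cn_mono_aux ω (ω' \ ω) sdiff_disjoint (by rwa [union_sdiff_of_subset h]) d d' hd
  rwa [union_sdiff_of_subset h] at this

lemma cn_edge {ω : Finset ι} {e : ι} (he : e ∈ ω) (hm : ω ⊆ S.m) : S.cn ω (S.x e) (S.y e) := by
  have h1 : e ∉ ω.erase e := notMem_erase e ω
  have h2 : insert e (ω.erase e) = ω := insert_erase he
  have h3 := S.hcn (ω.erase e) e h1 (by rw [h2]; exact hm)
  rw [h2] at h3
  rw [h3]
  exact jn_join _ _ _

/-- an edge away from the cluster of `s` -/
lemma away {ω : Finset ι} {e : ι} {s : X} (he : e ∉ ω) (hm : insert e ω ⊆ S.m)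
    (h1 : ¬ S.cn ω s (S.x e)) (h2 : ¬ S.cn ω s (S.y e)) :
    (∀ d, S.cn (insert e ω) s d ↔ S.cn ω s d) ∧
    hol (S.σ (insert e ω)) (S.w (insert e ω)) s = hol (S.σ ω) (S.w ω) s := by
  have hω : ω ⊆ S.m := (subset_insert e ω).trans hm
  constructor
  · intro d
    rw [S.hcn ω e he hm, jn_iff]
    constructor
    · rintro (h | ⟨h, _⟩ | ⟨h, _⟩)
      · exact h
      · exact absurd h h1
      · exact absurd h h2
    · exact Or.inl
  · have a1 : ¬ cy (S.σ ω) s (S.x e) := fun h => h1 (S.hle ω hω _ _ h)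
    have a2 : ¬ cy (S.σ ω) s (S.y e) := fun h => h2 (S.hle ω hω _ _ h)
    have a3 := hol_untouched (w := S.w (insert e ω)) a1 a2
    rw [S.hσ ω e he hm, a3.2]
    apply hol_congr_weight
    intro f hf
    exact S.hw ω e he hm f (fun hh => a1 (hh ▸ hf)) (fun hh => a2 (hh ▸ hf))

lemma isolated (d : X) (ω : Finset ι) : ω ⊆ S.m →
    (∀ e ∈ ω, ¬ cy (S.σ ∅) d (S.x e) ∧ ¬ cy (S.σ ∅) d (S.y e)) →
    (∀ f, cy (S.σ ω) d f ↔ cy (S.σ ∅) d f) ∧
      hol (S.σ ω) (S.w ω) d = hol (S.σ ∅) (S.w ∅) d := by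
  induction ω using Finset.induction_on with
  | empty => intro _ _; exact ⟨fun _ => Iff.rfl, rfl⟩
  | insert e ω he ih =>
    intro hm hd
    obtain ⟨i1, i2⟩ := ih ((subset_insert _ _).trans hm)
      (fun e' he' => hd e' (mem_insert_of_mem he'))
    obtain ⟨d1, d2⟩ := hd e (mem_insert_self _ _)
    have a1 : ¬ cy (S.σ ω) d (S.x e) := fun h => d1 ((i1 _).1 h)
    have a2 : ¬ cy (S.σ ω) d (S.y e) := fun h => d2 ((i1 _).1 h)
    have a3 := hol_untouched (w := S.w (insert e ω)) a1 a2
    rw [S.hσ ω e he hm]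
    refine ⟨fun f => (a3.1 f).trans (i1 f), ?_⟩
    rw [a3.2, ← i2]
    apply hol_congr_weight
    intro f hf
    exact S.hw ω e he hm f (fun hh => a1 (hh ▸ hf)) (fun hh => a2 (hh ▸ hf))

/-- the statement about the cycles in the cluster of `s` -/
def HH (ω : Finset ι) (s : X) : Prop :=
  hol (S.σ ω) (S.w ω) s = S.θ ∧
    ∀ d, S.cn ω s d → ¬ cy (S.σ ω) s d → hol (S.σ ω) (S.w ω) d = - S.θ

/-- downward step, both endpoints in one cluster -/
lemma step_split {ω : Finset ι} {e : ι} {s : X} (he : e ∉ ω) (hm : insert e ω ⊆ S.m)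
    (hs : S.cn ω s (S.x e)) (hxy : cy (S.σ ω) (S.x e) (S.y e)) (h : S.HH (insert e ω) s) :
    S.HH ω s := by
  have hω : ω ⊆ S.m := (subset_insert e ω).trans hm
  have hem : e ∈ S.m := hm (mem_insert_self e ω)
  have hne := S.ne e hem
  set x := S.x e with hx
  set y := S.y e with hy
  set σ := S.σ ω with hσd
  set τ := σ * swap x y with hτ
  have eτ : S.σ (insert e ω) = τ := S.hσ ω e he hm
  have n1 : ¬ cy τ x y := cy_split hxy hne
  have n2 : cy σ = jn (cy τ) x y := cy_split' hxy hne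
  have sub : ∀ d d', cy τ d d' → cy σ d d' := fun d d' hd => by rw [n2]; exact Or.inl hd
  obtain ⟨h1, h2⟩ := h
  rw [eτ] at h1 h2
  have hcn : ∀ d, S.cn (insert e ω) s d ↔ S.cn ω s d := by
    intro d
    rw [S.hcn ω e he hm, jn_of_rel (S.hle ω hω _ _ hxy)]
  have hww : ∀ f, f ≠ x → f ≠ y → S.w (insert e ω) f = S.w ω f := S.hw ω e he hm
  have hsum := S.hs ω e he hm
  have cns : S.cn ω s x := hs
  have cnsy : S.cn ω s y := Setoid.trans' _ hs (S.hle ω hω _ _ hxy)
  -- the cycle of `x` in `σ`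
  have holx : hol σ (S.w ω) x = hol τ (S.w (insert e ω)) x + hol τ (S.w (insert e ω)) y + S.θ := by
    have b1 := hol_merge (w := S.w (insert e ω)) n1
    have b2 : τ * swap x y = σ := by rw [hτ, mul_assoc, swap_mul_self, mul_one]
    rw [b2] at b1
    have b3 := (hol_update (σ := σ) hne hww hsum).1 hxy
    rw [← b1, b3]
    abel
  have hol_off : ∀ d, ¬ cy σ d x → hol σ (S.w ω) d = hol τ (S.w (insert e ω)) d := by
    intro d hd
    have hdy : ¬ cy σ d y := fun hh => hd (Setoid.trans' _ hh (Setoid.symm' _ hxy))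
    have b1 := hol_untouched (w := S.w (insert e ω)) hd hdy
    rw [b1.2]
    apply hol_congr_weight
    intro f hf
    exact (hww f (fun hh => hd (hh ▸ hf)) (fun hh => hdy (hh ▸ hf))).symm
  refine ⟨?_, ?_⟩
  · by_cases hsx : cy σ s x
    · rw [hol_same hsx, holx]
      have hsx' := hsx
      rw [n2] at hsx'
      rcases hsx' with c1 | ⟨c1, c2⟩ | ⟨c1, c2⟩
      · -- s with x in τ
        have d1 : ¬ cy τ s y := fun hh => n1 (Setoid.trans' _ (Setoid.symm' _ c1) hh)
        have d2 := h2 y ((hcn y).2 cnsy) d1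
        rw [← hol_same c1, h1, d2]
        abel
      · have d1 : ¬ cy τ s y := fun hh => n1 (Setoid.trans' _ (Setoid.symm' _ c1) hh)
        have d2 := h2 y ((hcn y).2 cnsy) d1
        rw [← hol_same c1, h1, d2]
        abel
      · have d1 : ¬ cy τ s x := fun hh => n1 (Setoid.trans' _ (Setoid.symm' _ hh) c1)
        have d2 := h2 x ((hcn x).2 cns) d1
        rw [← hol_same c1, h1, d2]
        abel
    · rw [hol_off s hsx, h1]
  · intro d hd hsd
    by_cases hdx : cy σ d x
    · have e1 : ¬ cy τ s x := fun hh =>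
        hsd (Setoid.trans' _ (sub _ _ hh) (Setoid.symm' _ hdx))
      have e2 : ¬ cy τ s y := fun hh =>
        hsd (Setoid.trans' _ (sub _ _ hh) (Setoid.symm' _ (Setoid.trans' _ hdx hxy)))
      rw [hol_same hdx, holx, h2 x ((hcn x).2 cns) e1, h2 y ((hcn y).2 cnsy) e2]
      abel
    · rw [hol_off d hdx]
      exact h2 d ((hcn d).2 hd) (fun hh => hsd (sub _ _ hh))

/-- downward step, a leaf -/
lemma step_leaf {ω : Finset ι} {s : X} {τ : Perm X} {w' : X → A} {x y : X} (hω : ω ⊆ S.m)
    (hτ : τ = S.σ ω * swap x y) (hne : x ≠ y) (hsx : S.cn ω s x) (hsy : ¬ S.cn ω s y)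
    (hww : ∀ f, f ≠ x → f ≠ y → w' f = S.w ω f)
    (hsum : w' x + w' y = S.w ω x + S.w ω y - S.θ)
    (hy : hol (S.σ ω) (S.w ω) y = S.θ)
    (h1 : hol τ w' s = S.θ)
    (h2 : ∀ d, S.cn ω s d → ¬ cy τ s d → hol τ w' d = - S.θ) : S.HH ω s := by
  set σ := S.σ ω with hσd
  have nxy : ¬ cy σ x y := fun hh => hsy (Setoid.trans' _ hsx (S.hle ω hω _ _ hh))
  have hcy : cy τ = jn (cy σ) x y := by rw [hτ]; exact cy_merge nxy
  have offy : ∀ d, S.cn ω s d → ¬ cy σ y d := fun d hd hh =>
    hsy (Setoid.trans' _ hd (Setoid.symm' _ (S.hle ω hω _ _ hh)))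
  have key : ∀ d, S.cn ω s d → hol τ w' d = hol σ (S.w ω) d := by
    intro d hd
    have hdy : ¬ cy σ d y := fun hh => offy d hd (Setoid.symm' _ hh)
    by_cases hdx : cy σ d x
    · have c1 : cy τ d x := by rw [hcy]; exact Or.inl hdx
      rw [hol_same c1, hol_same hdx, hτ, hol_merge nxy]
      have c2 := (hol_update (σ := σ) hne hww hsum).2 nxy
      rw [c2, hy]
      abel
    · have b1 := hol_untouched (w := w') hdx hdy
      rw [hτ, b1.2]
      apply hol_congr_weight
      intro f hf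
      exact hww f (fun hh => hdx (hh ▸ hf)) (fun hh => hdy (hh ▸ hf))
  refine ⟨?_, ?_⟩
  · rw [← key s (Setoid.refl' _ s), h1]
  · intro d hd hsd
    rw [← key d hd]
    apply h2 d hd
    intro hh
    rw [hcy] at hh
    rcases hh with c | ⟨_, c⟩ | ⟨c, _⟩
    · exact hsd c
    · exact offy d hd c
    · exact offy s (Setoid.refl' _ s) (Setoid.symm' _ c)

/-- the data of the downward induction -/
structure Good (s : X) : Prop where
  hg : S.gen S.m = S.gen ∅
  hbase : S.HH S.m s
  hconn : ∀ e ∈ S.m, S.cn S.m s (S.x e)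
  h0 : ∀ d, ¬ S.cn ∅ s d → hol (S.σ ∅) (S.w ∅) d = S.θ

variable {S}

theorem Good.down {s : X} (G : S.Good s) : ∀ k : ℕ, ∀ ω, ω ⊆ S.m → #(S.m \ ω) = k →
    (∀ e ∈ ω, S.cn ω s (S.x e)) → S.HH ω s := by
  intro k
  induction k with
  | zero =>
    intro ω hω hk _
    have : ω = S.m := subset_antisymm hω (by
      rw [card_eq_zero, sdiff_eq_empty_iff_subset] at hk; exact hk)
    rw [this]
    exact G.hbase
  | succ k ih =>
    intro ω hω hk hcl
    -- an edge that touches the cluster of `s`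
    obtain ⟨e, hem, heω, hadj⟩ : ∃ e ∈ S.m, e ∉ ω ∧ (S.cn ω s (S.x e) ∨ S.cn ω s (S.y e)) := by
      by_contra hcon
      push Not at hcon
      have claim : ∀ r : Finset ι, Disjoint r ω → ω ∪ r ⊆ S.m →
          ∀ d, S.cn (ω ∪ r) s d ↔ S.cn ω s d := by
        intro r
        induction r using Finset.induction_on with
        | empty => intro _ _ d; rw [union_empty]
        | insert e r her ihr =>
          intro hd hm d
          rw [disjoint_insert_left] at hd
          rw [union_insert] at hm ⊢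
          have i1 := ihr hd.2 ((subset_insert _ _).trans hm)
          have h2 : e ∉ ω ∪ r := by rw [mem_union, not_or]; exact ⟨hd.1, her⟩
          have hem : e ∈ S.m := hm (mem_insert_self _ _)
          have c := hcon e hem hd.1
          rw [(S.away h2 hm (fun h => c.1 ((i1 _).1 h)) (fun h => c.2 ((i1 _).1 h))).1 d, i1 d]
      obtain ⟨e, he⟩ : (S.m \ ω).Nonempty := by
        rw [← card_pos]; omega
      rw [mem_sdiff] at he
      have c := hcon e he.1 he.2
      have := (claim (S.m \ ω) sdiff_disjoint (by rw [union_sdiff_of_subset hω]) (S.x e)).1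
        (by rw [union_sdiff_of_subset hω]; exact G.hconn e he.1)
      exact c.1 this
    have hm : insert e ω ⊆ S.m := insert_subset hem hω
    have hk' : #(S.m \ insert e ω) = k := by
      have h5 : S.m \ insert e ω = (S.m \ ω).erase e := by
        ext f
        rw [mem_sdiff, mem_insert, mem_erase, mem_sdiff]
        tauto
      rw [h5, card_erase_of_mem (mem_sdiff.2 ⟨hem, heω⟩), hk]
      rfl
    have hcl' : ∀ e' ∈ insert e ω, S.cn (insert e ω) s (S.x e') := by
      intro e' he'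
      rw [mem_insert] at he'
      rcases he' with rfl | he'
      · rcases hadj with h | h
        · exact S.cn_mono (subset_insert _ _) hm h
        · exact Setoid.trans' _ (S.cn_mono (subset_insert _ _) hm h)
            (Setoid.symm' _ (S.cn_edge (mem_insert_self _ _) hm))
      · exact S.cn_mono (subset_insert _ _) hm (hcl e' he')
    have hI := ih (insert e ω) hm hk' hcl'
    -- isolated vertices
    have iso : ∀ d, ¬ S.cn ω s d → hol (S.σ ω) (S.w ω) d = S.θ := by
      intro d hd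
      have key := S.isolated d ω hω (fun e' he' => by
        have c1 := hcl e' he'
        have c2 : ∀ f, cy (S.σ ∅) d f → S.cn ω d f := fun f hf =>
          S.cn_mono (empty_subset _) hω (S.hle ∅ (empty_subset _) _ _ hf)
        constructor
        · intro hh
          exact hd (Setoid.trans' _ c1 (Setoid.symm' _ (c2 _ hh)))
        · intro hh
          exact hd (Setoid.trans' _ (Setoid.trans' _ c1 (S.cn_edge he' hω))
            (Setoid.symm' _ (c2 _ hh))))
      rw [key.2]
      exact G.h0 d (fun hh => hd (S.cn_mono (empty_subset _) hω hh))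
    by_cases hxy : S.cn ω (S.x e) (S.y e)
    · have hsx : S.cn ω s (S.x e) := by
        rcases hadj with h | h
        · exact h
        · exact Setoid.trans' _ h (Setoid.symm' _ hxy)
      exact S.step_split heω hm hsx (S.planar G.hg heω hm hxy) hI
    · rcases hadj with h | h
      · have hsy : ¬ S.cn ω s (S.y e) := fun hh => hxy (Setoid.trans' _ (Setoid.symm' _ h) hh)
        refine S.step_leaf (x := S.x e) (y := S.y e) hω (S.hσ ω e heω hm) (S.ne e hem) h hsy
          (S.hw ω e heω hm) (S.hs ω e heω hm) (iso _ hsy) hI.1 (fun d hd hsd => ?_)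
        exact hI.2 d (S.cn_mono (subset_insert _ _) hm hd) hsd
      · have hsx : ¬ S.cn ω s (S.x e) := fun hh => hxy (Setoid.trans' _ (Setoid.symm' _ hh) h)
        refine S.step_leaf (x := S.y e) (y := S.x e) hω
          (by rw [swap_comm]; exact S.hσ ω e heω hm) (S.ne e hem).symm h hsx
          (fun f h1 h2 => S.hw ω e heω hm f h2 h1)
          (by rw [add_comm, S.hs ω e heω hm]; abel) (iso _ hsx) hI.1 (fun d hd hsd => ?_)
        exact hI.2 d (S.cn_mono (subset_insert _ _) hm hd) hsd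

end Sys

end H47Perc
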