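import Pool.Agent.Helper47.Perc.Gen2

/-!
Planarity by counting, part 3: the cycle of the start dart, exits.
-/

namespace H47Perc
open Equiv Equiv.Perm Finset

namespace Sys
variable {X ι A : Type*} [Fintype X] [DecidableEq X] [DecidableEq ι] [AddCommGroup A]
variable {S : Sys X ι A}

/-- the cycle of `s` has weight `θ` in every configuration -/
theorem Good.hol_start {s : X} (G : S.Good s) : ∀ k : ℕ, ∀ ω, ω ⊆ S.m → #ω = k →
    hol (S.σ ω) (S.w ω) s = S.θ := by
  intro k
  induction k using Nat.strong_induction_on with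
  | _ k ih =>
    intro ω hω hk
    by_cases hcl : ∀ e ∈ ω, S.cn ω s (S.x e)
    · exact (G.down _ ω hω rfl hcl).1
    · push Not at hcl
      obtain ⟨e, he, hc⟩ := hcl
      have h1 : e ∉ ω.erase e := notMem_erase e ω
      have h2 : insert e (ω.erase e) = ω := insert_erase he
      have h3 : insert e (ω.erase e) ⊆ S.m := by rw [h2]; exact hω
      have c1 : ¬ S.cn (ω.erase e) s (S.x e) := fun hh =>
        hc (S.cn_mono (erase_subset _ _) hω hh)
      have c2 : ¬ S.cn (ω.erase e) s (S.y e) := fun hh =>
        hc (Setoid.trans' _ (S.cn_mono (erase_subset _ _) hω hh)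
          (Setoid.symm' _ (S.cn_edge he hω)))
      have h4 := (S.away h1 h3 c1 c2).2
      rw [h2] at h4
      rw [h4]
      have h5 := card_erase_lt_of_mem he
      exact ih _ (by omega) (ω.erase e) ((erase_subset _ _).trans hω) rfl

theorem Good.hol_eq {s : X} (G : S.Good s) {ω : Finset ι} (hω : ω ⊆ S.m) :
    hol (S.σ ω) (S.w ω) s = S.θ := G.hol_start _ ω hω rfl

lemma jn_comm (r : Setoid X) (a b c d : X) : jn (jn r a b) c d = jn (jn r c d) a b := by
  have h : ∀ (a b c d : X), ∀ e f, jn (jn r a b) c d e f → jn (jn r c d) a b e f := by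
    intro a b c d e f h
    refine jn_le (r' := jn (jn r c d) a b) (fun p q hpq => ?_) ?_ h
    · refine jn_le (r' := jn (jn r c d) a b) (fun p q hpq => ?_) (jn_join _ _ _) hpq
      exact Or.inl (Or.inl hpq)
    · exact Or.inl (jn_join _ _ _)
  ext e f
  exact ⟨h a b c d e f, h c d a b e f⟩

/-- the system with the extra transposition of `t` and `d` -/
noncomputable def tilde (S : Sys X ι A) (t d : X) (ut ud : A)
    (ht : ∀ e ∈ S.m, t ≠ S.x e ∧ t ≠ S.y e) (hd : ∀ e ∈ S.m, d ≠ S.x e ∧ d ≠ S.y e) :
    Sys X ι A where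
  m := S.m
  x := S.x
  y := S.y
  σ := fun ω => S.σ ω * swap t d
  cn := fun ω => jn (S.cn ω) t d
  w := fun ω => Function.update (Function.update (S.w ω) t ut) d ud
  θ := S.θ
  ne := S.ne
  hσ := by
    intro ω e he hm
    have hem : e ∈ S.m := hm (mem_insert_self e ω)
    have hdis : Disjoint (swap (S.x e) (S.y e)) (swap t d) := by
      intro f
      by_cases h1 : f = S.x e
      · right
        exact swap_apply_of_ne_of_ne (h1 ▸ (ht e hem).1.symm) (h1 ▸ (hd e hem).1.symm)
      · by_cases h2 : f = S.y e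
        · right
          exact swap_apply_of_ne_of_ne (h2 ▸ (ht e hem).2.symm) (h2 ▸ (hd e hem).2.symm)
        · left
          exact swap_apply_of_ne_of_ne h1 h2
    rw [S.hσ ω e he hm, mul_assoc, mul_assoc, hdis.commute.eq]
  hcn := by
    intro ω e he hm
    rw [S.hcn ω e he hm, jn_comm]
  hle := by
    intro ω hm e f hef
    refine cy_le (r := jn (S.cn ω) t d) (fun g => ?_) hef
    rw [Perm.mul_apply]
    by_cases h1 : g = t
    · subst h1
      rw [swap_apply_left]
      exact Or.inr (Or.inl ⟨Setoid.refl' _ _, S.hle ω hm _ _ (cy_apply _ _)⟩)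
    · by_cases h2 : g = d
      · subst h2
        rw [swap_apply_right]
        exact Or.inr (Or.inr ⟨Setoid.refl' _ _, S.hle ω hm _ _ (cy_apply _ _)⟩)
      · rw [swap_apply_of_ne_of_ne h1 h2]
        exact Or.inl (S.hle ω hm _ _ (cy_apply _ _))
  hw := by
    intro ω e he hm f h1 h2
    by_cases hfd : f = d
    · subst hfd; rw [Function.update_self, Function.update_self]
    · rw [Function.update_of_ne hfd, Function.update_of_ne hfd]
      by_cases hft : f = t
      · subst hft; rw [Function.update_self, Function.update_self]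
      · rw [Function.update_of_ne hft, Function.update_of_ne hft]
        exact S.hw ω e he hm f h1 h2
  hs := by
    intro ω e he hm
    have hem : e ∈ S.m := hm (mem_insert_self e ω)
    rw [Function.update_of_ne (hd e hem).1.symm, Function.update_of_ne (ht e hem).1.symm,
      Function.update_of_ne (hd e hem).2.symm, Function.update_of_ne (ht e hem).2.symm,
      Function.update_of_ne (hd e hem).1.symm, Function.update_of_ne (ht e hem).1.symm,
      Function.update_of_ne (hd e hem).2.symm, Function.update_of_ne (ht e hem).2.symm]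
    exact S.hs ω e he hm

section exits
variable {t d : X} {ut ud : A} (ht : ∀ e ∈ S.m, t ≠ S.x e ∧ t ≠ S.y e)
  (hd : ∀ e ∈ S.m, d ≠ S.x e ∧ d ≠ S.y e)

/-- genus of the new system at `m` -/
lemma gen_tilde_m (htd : t ≠ d) (hm : cy (S.σ S.m) t d) :
    (S.tilde t d ut ud ht hd).gen S.m = S.gen S.m - 1 := by
  unfold gen tilde
  simp only
  rw [jn_of_rel (S.hle S.m subset_rfl _ _ hm), ncy_split hm htd]
  push_cast
  ring

lemma gen_tilde_empty (htd : t ≠ d) (h0 : ∀ e f, S.cn ∅ e f → cy (S.σ ∅) e f) :
    (S.tilde t d ut ud ht hd).gen ∅ = S.gen ∅ - 1 := by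
  unfold gen tilde
  simp only
  by_cases h : cy (S.σ ∅) t d
  · rw [jn_of_rel (S.hle ∅ (empty_subset _) _ _ h), ncy_split h htd]
    push_cast
    ring
  · have h1 : ¬ S.cn ∅ t d := fun hh => h (h0 _ _ hh)
    have h2 : ncl (S.cn ∅) = ncl (jn (S.cn ∅) t d) + 1 := card_jn _ h1
    have h3 := ncy_merge h
    rw [h2, h3]
    push_cast
    ring

/-- **Planarity at the exits**: an exit in the cluster of `t` is on the cycle of `t`. -/
theorem exit_cycle (hg : S.gen S.m = S.gen ∅) (h0 : ∀ e f, S.cn ∅ e f → cy (S.σ ∅) e f)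
    (hm : cy (S.σ S.m) t d) (ht : ∀ e ∈ S.m, t ≠ S.x e ∧ t ≠ S.y e)
    (hd : ∀ e ∈ S.m, d ≠ S.x e ∧ d ≠ S.y e) {ω : Finset ι} (hω : ω ⊆ S.m)
    (hc : S.cn ω t d) : cy (S.σ ω) t d := by
  by_cases htd : t = d
  · rw [htd]
  · by_contra hcon
    have h1 := (S.tilde t d 0 0 ht hd).gen_mono (ω := ω) (ω' := S.m) hω subset_rfl
    have h2 := S.gen_tilde_m (ut := 0) (ud := 0) ht hd htd hm
    have h3 : (S.tilde t d 0 0 ht hd).gen ω = S.gen ω + 1 := by
      unfold gen tilde
      simp only
      rw [jn_of_rel hc, ncy_merge hcon]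
      push_cast
      ring
    have h4 := S.gen_mono (empty_subset ω) hω
    omega

open Classical in
lemma hol_update_one {σ : Perm X} {w : X → A} {s t d : X} {ut ud : A} (hsd : cy σ s d)
    (hst : ¬ cy σ s t) :
    hol σ (Function.update (Function.update w t ut) d ud) s = hol σ w s - w d + ud := by
  have hdt : d ≠ t := fun hh => hst (hh ▸ hsd)
  unfold hol
  have hdm : d ∈ univ.filter (fun e => cy σ s e) := by
    rw [mem_filter]; exact ⟨mem_univ _, hsd⟩
  rw [← add_sum_erase _ _ hdm, ← add_sum_erase _ w hdm, Function.update_self]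
  have : ∑ x ∈ (univ.filter (fun e => cy σ s e)).erase d,
      Function.update (Function.update w t ut) d ud x
      = ∑ x ∈ (univ.filter (fun e => cy σ s e)).erase d, w x := by
    apply sum_congr rfl
    intro x hx
    rw [mem_erase, mem_filter] at hx
    rw [Function.update_of_ne hx.1, Function.update_of_ne]
    exact fun hh => hst (hh ▸ hx.2.2)
  rw [this]
  abel

/-- for `σ t = s` and `d` on the cycle of `t`: in `σ * swap t d` the point `d` is on the cycle of
`s` and `t` is not -/
lemma tilde_cycles {σ : Perm X} {s t d : X} (hts : σ t = s) (h : cy σ t d) (htd : t ≠ d) :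
    cy (σ * swap t d) s d ∧ ¬ cy (σ * swap t d) s t := by
  have h1 : cy (σ * swap t d) s d := by
    have := cy_apply (σ * swap t d) d
    rw [Perm.mul_apply, swap_apply_right, hts] at this
    exact Setoid.symm' _ this
  refine ⟨h1, fun hh => ?_⟩
  exact cy_split h htd (Setoid.trans' _ (Setoid.symm' _ hh) h1)

/-- the exits carry fixed weights -/
theorem exit_hol {s : X} (G : S.Good s) (h0 : ∀ e f, S.cn ∅ e f → cy (S.σ ∅) e f)
    (hts : ∀ ω, ω ⊆ S.m → S.σ ω t = s)
    (hm : cy (S.σ S.m) t d) (htd : t ≠ d) (ht : ∀ e ∈ S.m, t ≠ S.x e ∧ t ≠ S.y e)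
    (hd : ∀ e ∈ S.m, d ≠ S.x e ∧ d ≠ S.y e) {ω : Finset ι} (hω : ω ⊆ S.m)
    (hc : cy (S.σ ω) t d) :
    hol (S.σ ω * swap t d) (S.w ω) s - S.w ω d
      = hol (S.σ S.m * swap t d) (S.w S.m) s - S.w S.m d := by
  -- weights of the extra edge
  set τ := S.σ S.m * swap t d with hτ
  let ud : A := S.θ - (hol τ (S.w S.m) s - S.w S.m d)
  let ut : A := - S.θ - (hol τ (S.w S.m) t - S.w S.m t)
  let T := S.tilde t d ut ud ht hd
  have c1 := tilde_cycles (hts S.m subset_rfl) hm htd
  have cst : cy (S.σ S.m) s t := by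
    have := cy_apply (S.σ S.m) t
    rw [hts S.m subset_rfl] at this
    exact Setoid.symm' _ this
  have sub : ∀ e f, cy τ e f → cy (S.σ S.m) e f := by
    intro e f hef
    rw [cy_split' hm htd]
    exact Or.inl hef
  have hsplit := cy_split' hm htd
  have GT : T.Good s := by
    refine ⟨?_, ⟨?_, ?_⟩, ?_, ?_⟩
    · have e1 := S.gen_tilde_m (ut := ut) (ud := ud) ht hd htd hm
      have e2 := S.gen_tilde_empty (ut := ut) (ud := ud) ht hd htd h0
      change (S.tilde t d ut ud ht hd).gen S.m = (S.tilde t d ut ud ht hd).gen ∅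
      rw [e1, e2, G.hg]
    · change hol τ (Function.update (Function.update (S.w S.m) t ut) d ud) s = S.θ
      rw [hol_update_one c1.1 c1.2]
      simp only [ud]
      abel
    · intro f hf hsf
      change hol τ (Function.update (Function.update (S.w S.m) t ut) d ud) f = - S.θ
      change ¬ cy τ s f at hsf
      have hf' : S.cn S.m s f := by
        have : jn (S.cn S.m) t d s f := hf
        rwa [jn_of_rel (S.hle S.m subset_rfl _ _ hm)] at this
      by_cases hft : cy τ t f
      · rw [← hol_same hft, Function.update_comm htd]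
        have c2 : ¬ cy τ t d := fun hh => c1.2 (Setoid.trans' _ c1.1 (Setoid.symm' _ hh))
        rw [hol_update_one (Setoid.refl' _ t) c2]
        simp only [ut]
        abel
      · -- untouched cycle
        have d1 : ¬ cy τ f d := fun hh => hsf (Setoid.trans' _ c1.1 (Setoid.symm' _ hh))
        have d2 : ¬ cy τ f t := fun hh => hft (Setoid.symm' _ hh)
        have e1 : hol τ (Function.update (Function.update (S.w S.m) t ut) d ud) f
            = hol τ (S.w S.m) f := by
          apply hol_congr_weight
          intro g hg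
          rw [Function.update_of_ne, Function.update_of_ne]
          · exact fun hh => d2 (hh ▸ hg)
          · exact fun hh => d1 (hh ▸ hg)
        have d3 : ¬ cy (S.σ S.m) f t := by
          intro hh
          rw [hsplit] at hh
          rcases hh with h | ⟨h, _⟩ | ⟨h, _⟩
          · exact d2 h
          · exact d2 h
          · exact d1 h
        have d4 : ¬ cy (S.σ S.m) f d := fun hh => d3 (Setoid.trans' _ hh (Setoid.symm' _ hm))
        rw [e1, (hol_untouched d3 d4).2]
        apply G.hbase.2 f hf'
        intro hh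
        exact d3 (Setoid.trans' _ (Setoid.symm' _ hh) cst)
    · intro e he
      exact Or.inl (G.hconn e he)
    · intro f hf
      change hol (S.σ ∅ * swap t d) (Function.update (Function.update (S.w ∅) t ut) d ud) f = S.θ
      have hf1 : ¬ jn (S.cn ∅) t d s f := hf
      have hst0 : S.cn ∅ s t := by
        have := cy_apply (S.σ ∅) t
        rw [hts ∅ (empty_subset _)] at this
        exact S.hle ∅ (empty_subset _) _ _ (Setoid.symm' _ this)
      have f1 : ¬ S.cn ∅ s f := fun hh => hf1 (Or.inl hh)
      have f2 : ¬ cy (S.σ ∅) f t := fun hh =>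
        f1 (Setoid.trans' _ hst0 (Setoid.symm' _ (S.hle ∅ (empty_subset _) _ _ hh)))
      have f3 : ¬ cy (S.σ ∅) f d := fun hh =>
        hf1 (Or.inr (Or.inl ⟨hst0, Setoid.symm' _ (S.hle ∅ (empty_subset _) _ _ hh)⟩))
      rw [(hol_untouched f2 f3).2, ← G.h0 f f1]
      apply hol_congr_weight
      intro g hg
      rw [Function.update_of_ne, Function.update_of_ne]
      · exact fun hh => f2 (hh ▸ hg)
      · exact fun hh => f3 (hh ▸ hg)
  have h1 : hol (S.σ ω * swap t d)
      (Function.update (Function.update (S.w ω) t ut) d ud) s = S.θ := GT.hol_eq hω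
  have c3 := tilde_cycles (hts ω hω) hc htd
  rw [hol_update_one c3.1 c3.2] at h1
  have h2 : hol (S.σ ω * swap t d) (S.w ω) s - S.w ω d = S.θ - ud := by
    rw [← h1]; abel
  rw [h2]
  simp only [ud]
  abel

end exits

/-- weights at points that are not on edges do not depend on the configuration -/
lemma w_const {d : X} (hd : ∀ e ∈ S.m, d ≠ S.x e ∧ d ≠ S.y e) (ω : Finset ι) :
    ω ⊆ S.m → S.w ω d = S.w ∅ d := by
  induction ω using Finset.induction_on with
  | empty => intro _; rfl
  | insert e ω he ih =>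
    intro hm
    have hem : e ∈ S.m := hm (mem_insert_self e ω)
    rw [S.hw ω e he hm d (hd e hem).1 (hd e hem).2, ih ((subset_insert _ _).trans hm)]

end Sys

/-! ### first visits -/

section path
variable {X A : Type*} [Fintype X] [DecidableEq X] [AddCommGroup A]

/-- the cycle of `s` in `σ * swap t d` is the segment of the `σ`-cycle from `s` to `d` -/
theorem hol_segment {σ : Perm X} {s t d : X} (w : X → A) (hts : σ t = s) {n : ℕ}
    (hn : (σ ^ n) s = d) (hmin : ∀ j < n, (σ ^ j) s ≠ d) :
    hol (σ * swap t d) w s = ∑ i ∈ range (n+1), w ((σ ^ i) s) := by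
  classical
  -- `t` is not visited before `d`
  have hnt : ∀ j < n, (σ ^ j) s ≠ t := by
    intro j hj hh
    have h1 : (σ ^ (j+1)) s = s := by rw [pow_succ', Perm.mul_apply, hh, hts]
    have h2 : (σ ^ n) s = (σ ^ (n - (j+1))) s := by
      have : (σ ^ n) s = (σ ^ (n - (j+1))) ((σ ^ (j+1)) s) := by
        rw [← Perm.mul_apply, ← pow_add]
        congr 2
        omega
      rw [this, h1]
    exact hmin (n - (j+1)) (by omega) (h2.symm.trans hn)
  set τ := σ * swap t d with hτ
  have hpow : ∀ j ≤ n, (τ ^ j) s = (σ ^ j) s := by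
    intro j
    induction j with
    | zero => intro _; rfl
    | succ j ih =>
      intro hj
      rw [pow_succ', Perm.mul_apply, ih (by omega), hτ, Perm.mul_apply,
        swap_apply_of_ne_of_ne (hnt j (by omega)) (hmin j (by omega)), pow_succ', Perm.mul_apply]
  have hτd : τ d = s := by rw [hτ, Perm.mul_apply, swap_apply_right, hts]
  have hper : (τ ^ (n+1)) s = s := by
    rw [pow_succ', Perm.mul_apply, hpow n le_rfl, hn, hτd]
  -- injectivity
  have hinj : ∀ i ≤ n, ∀ j ≤ n, (σ ^ i) s = (σ ^ j) s → i = j := by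
    have key : ∀ i j, i < j → j ≤ n → (σ ^ i) s ≠ (σ ^ j) s := by
      intro i j hij hj hh
      have h1 : (σ ^ (n - j)) ((σ ^ i) s) = (σ ^ (n-j)) ((σ ^ j) s) := by rw [hh]
      rw [← Perm.mul_apply, ← pow_add, ← Perm.mul_apply, ← pow_add] at h1
      have e1 : n - j + j = n := by omega
      rw [e1, hn] at h1
      exact hmin (n - j + i) (by omega) h1
    intro i hi j hj hh
    rcases lt_trichotomy i j with h | h | h
    · exact absurd hh (key i j h hj)
    · exact h
    · exact absurd hh.symm (key j i h hi)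
  unfold hol
  symm
  apply sum_bij (i := fun i _ => (σ ^ i) s)
  · intro i hi
    rw [mem_range] at hi
    rw [mem_filter]
    refine ⟨mem_univ _, ⟨(i:ℤ), ?_⟩⟩
    rw [zpow_natCast, hpow i (by omega)]
  · intro i hi j hj h
    rw [mem_range] at hi hj
    exact hinj i (by omega) j (by omega) h
  · intro e he
    rw [mem_filter] at he
    obtain ⟨k, hk⟩ := (he.2 : τ.SameCycle s e).exists_nat_pow_eq
    refine ⟨k % (n+1), mem_range.2 (Nat.mod_lt _ (by omega)), ?_⟩
    rw [← hpow _ (by have := Nat.mod_lt k (show n+1 > 0 by omega); omega), ← hk]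
    conv_rhs => rw [← Nat.mod_add_div k (n+1), pow_add, Perm.mul_apply, pow_mul]
    congr 1
    have : ∀ m : ℕ, ((τ ^ (n+1)) ^ m) s = s := by
      intro m
      induction m with
      | zero => rfl
      | succ m ih => rw [pow_succ, Perm.mul_apply, hper, ih]
    exact (this _).symm
  · intro i _
    rfl

end path

end H47Perc
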