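import Pool.Agent.Helper47.Perc.Gen3
import Pool.Agent.Helper47.Perc.Sum

/-!
Planarity by counting, part 4: the system of exploration permutations over a finite set `S`.
-/

namespace H47Perc
open Equiv Equiv.Perm Finset

namespace Sys
variable {X ι A : Type*} [Fintype X] [DecidableEq X] [DecidableEq ι] [AddCommGroup A]
variable {S : Sys X ι A}

lemma sum_w (ω : Finset ι) : ω ⊆ S.m → ∑ d, S.w ω d = ∑ d, S.w ∅ d - (#ω : ℤ) • S.θ := by
  induction ω using Finset.induction_on with
  | empty => intro _; simp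
  | insert e ω he ih =>
    intro hm
    have hem : e ∈ S.m := hm (mem_insert_self e ω)
    have hne := S.ne e hem
    have h1 := ih ((subset_insert _ _).trans hm)
    have hx : S.x e ∈ (univ : Finset X) := mem_univ _
    have hy : S.y e ∈ (univ : Finset X).erase (S.x e) := mem_erase.2 ⟨hne.symm, mem_univ _⟩
    rw [← add_sum_erase _ _ hx, ← add_sum_erase _ _ hy] at h1 ⊢
    have h2 : ∑ d ∈ ((univ : Finset X).erase (S.x e)).erase (S.y e), S.w (insert e ω) d
        = ∑ d ∈ ((univ : Finset X).erase (S.x e)).erase (S.y e), S.w ω d := by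
      apply sum_congr rfl
      intro d hd
      rw [mem_erase, mem_erase] at hd
      exact S.hw ω e he hm d hd.2.1 hd.1
    rw [h2, ← add_assoc, S.hs ω e he hm, card_insert_of_notMem he]
    push_cast
    rw [add_smul, one_smul]
    have h3 : S.w ω (S.x e) + S.w ω (S.y e) - S.θ
        + ∑ d ∈ ((univ : Finset X).erase (S.x e)).erase (S.y e), S.w ω d
        = (S.w ω (S.x e) + (S.w ω (S.y e)
        + ∑ d ∈ ((univ : Finset X).erase (S.x e)).erase (S.y e), S.w ω d)) - S.θ := by abel
    rw [h3, h1]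
    abel

/-- Euler's formula from the weights of the full configuration -/
theorem gen_of_weights {s : X} (hconn : ∀ d d', S.cn S.m d d') (hH : S.HH S.m s)
    (h0 : ∀ d, hol (S.σ ∅) (S.w ∅) d = S.θ) (h00 : ∀ d d', S.cn ∅ d d' → cy (S.σ ∅) d d')
    (hθ : ∀ n : ℤ, n • S.θ = 0 → n = 0) : S.gen S.m = S.gen ∅ := by
  classical
  have : Fintype (Quotient (cy (S.σ S.m))) := Fintype.ofFinite _
  have : Fintype (Quotient (cy (S.σ ∅))) := Fintype.ofFinite _
  -- sums of weights
  have e0 : ∑ d, S.w ∅ d = (ncy (S.σ ∅) : ℤ) • S.θ := by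
    rw [sum_hol (S.σ ∅) (S.w ∅) (fun _ => S.θ) (fun d => (h0 d).symm), sum_const, card_univ,
      ncy, Nat.card_eq_fintype_card, natCast_zsmul]
  have em : ∑ d, S.w S.m d = (2 - (ncy (S.σ S.m) : ℤ)) • S.θ := by
    let q0 : Quotient (cy (S.σ S.m)) := Quotient.mk _ s
    let F : Quotient (cy (S.σ S.m)) → A := fun q => if q = q0 then S.θ else - S.θ
    have hf : ∀ d, F (Quotient.mk _ d) = hol (S.σ S.m) (S.w S.m) d := by
      intro d
      simp only [F]
      split_ifs with h
      · have h1 : cy (S.σ S.m) d s := Quotient.exact h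
        rw [hol_same h1]
        exact hH.1.symm
      · have h1 : ¬ cy (S.σ S.m) s d := fun hh => h (Quotient.sound (Setoid.symm' _ hh))
        exact (hH.2 d (hconn s d) h1).symm
    rw [sum_hol (S.σ S.m) (S.w S.m) F hf, ← add_sum_erase _ _ (mem_univ q0)]
    have h20 : F q0 = S.θ := by simp only [F, if_true]
    have h2 : ∑ q ∈ (univ : Finset (Quotient (cy (S.σ S.m)))).erase q0, F q = ∑ q ∈ (univ : Finset (Quotient (cy (S.σ S.m)))).erase q0,
        (- S.θ) := by
      apply sum_congr rfl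
      intro q hq
      simp only [F]
      rw [if_neg (ne_of_mem_erase hq)]
    have h3 : #((univ : Finset (Quotient (cy (S.σ S.m)))).erase q0) + 1 = ncy (S.σ S.m) := by
      rw [card_erase_add_one (mem_univ _), card_univ, ncy, Nat.card_eq_fintype_card]
    rw [h20, h2, sum_const, ← h3]
    push_cast
    rw [← natCast_zsmul]
    have : (2 - ((#((univ : Finset (Quotient (cy (S.σ S.m)))).erase q0) : ℤ) + 1))
        = 1 - (#((univ : Finset (Quotient (cy (S.σ S.m)))).erase q0) : ℤ) := by ring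
    rw [this, sub_smul, one_smul, smul_neg]
    abel
  have h4 := S.sum_w S.m subset_rfl
  rw [e0, em, ← sub_smul] at h4
  have h5 : (2 - (ncy (S.σ S.m) : ℤ)) - ((ncy (S.σ ∅) : ℤ) - #S.m) = 0 := by
    apply hθ
    rw [sub_smul, h4, sub_self]
  have h6 : ncl (S.cn S.m) = 1 := by
    unfold ncl
    rw [Nat.card_eq_one_iff_unique]
    refine ⟨⟨fun p q => ?_⟩, ⟨Quotient.mk _ s⟩⟩
    induction p using Quotient.inductionOn with
    | _ p =>
      induction q using Quotient.inductionOn with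
      | _ q => exact Quotient.sound (hconn p q)
  have h7 : ncl (S.cn ∅) = ncy (S.σ ∅) := by
    unfold ncl ncy
    have : S.cn ∅ = cy (S.σ ∅) := by
      ext d d'
      exact ⟨h00 d d', S.hle ∅ (empty_subset _) d d'⟩
    rw [this]
  unfold gen
  rw [h6, h7, card_empty]
  push_cast
  linarith

end Sys

/-! ### the exploration over `S` -/

lemma edge_mem_iff {S : Finset (ℤ × ℤ)} {z : ℤ × ℤ} {c : Fin 4} :
    s(z, z + dir c) ∈ edgesIn S ↔ z ∈ S ∧ z + dir c ∈ S := by
  rw [mem_edgesIn]
  exact ⟨fun h => ⟨h.1, h.2.1⟩, fun h => ⟨h.1, h.2, adj_dir z c⟩⟩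

/-- the two darts of an edge -/
lemma edge_darts {z z' : ℤ × ℤ} {c c' : Fin 4} (h : s(z', z' + dir c') = s(z, z + dir c)) :
    (z' = z ∧ c' = c) ∨ (z' = z + dir c ∧ c' = c + 2) := by
  rw [Sym2.eq_iff] at h
  rcases h with ⟨h1, h2⟩ | ⟨h1, h2⟩
  · left
    subst h1
    exact ⟨rfl, dir_inj (add_left_cancel h2)⟩
  · right
    refine ⟨h1, ?_⟩
    apply dir_inj
    rw [dir_add_two, h1] at *
    have : dir c + dir c' = 0 := by
      have h3 : z + dir c + dir c' = z := h2
      rw [add_assoc] at h3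
      exact add_eq_left.1 h3
    exact eq_neg_of_add_eq_zero_right this

/-- the exploration permutation restricted to the darts over `S` -/
noncomputable def pS (S : Finset (ℤ × ℤ)) (ω : Finset (Sym2 (ℤ × ℤ))) : Perm ↥(DS S) :=
  ((confOf (ω ∩ edgesIn S)).perm).subtypePerm (fun d => by
    rw [mem_DS, mem_DS, Conf.perm_apply]
    obtain ⟨z, c⟩ := d
    by_cases h : (confOf (ω ∩ edgesIn S)).o z c
    · rw [Conf.nxt_open _ h]
      have h1 : s(z, z + dir c) ∈ ω ∩ edgesIn S := h
      have h2 := edge_mem_iff.1 (mem_inter.1 h1).2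
      exact ⟨fun _ => h2.1, fun _ => h2.2⟩
    · rw [Conf.nxt_closed _ h])

lemma pS_open {S : Finset (ℤ × ℤ)} {ω : Finset (Sym2 (ℤ × ℤ))} {d : ↥(DS S)}
    (h : s(d.1.1, d.1.1 + dir d.1.2) ∈ ω ∩ edgesIn S) :
    ((pS S ω d : ↥(DS S)) : Dart) = (d.1.1 + dir d.1.2, d.1.2 + 3) := by
  unfold pS
  rw [subtypePerm_apply]
  exact Conf.nxt_open (confOf (ω ∩ edgesIn S)) (z := d.1.1) (c := d.1.2) h

lemma pS_closed {S : Finset (ℤ × ℤ)} {ω : Finset (Sym2 (ℤ × ℤ))} {d : ↥(DS S)}
    (h : s(d.1.1, d.1.1 + dir d.1.2) ∉ ω ∩ edgesIn S) :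
    ((pS S ω d : ↥(DS S)) : Dart) = (d.1.1, d.1.2 + 1) := by
  unfold pS
  rw [subtypePerm_apply]
  exact Conf.nxt_closed (confOf (ω ∩ edgesIn S)) (z := d.1.1) (c := d.1.2) h

/-- closed weights -/
def wc (c : Fin 4) : ℤ × ℤ := if c = 0 ∨ c = 2 then (1, 0) else (0, 1)

open Classical in
/-- weights: left turns at vertical edges count `(1,0)`, at horizontal edges `(0,1)`; right turns
at open vertical edges count `(0,-1)`, at open horizontal edges `(-1,0)` -/
noncomputable def wS (S : Finset (ℤ × ℤ)) (ω : Finset (Sym2 (ℤ × ℤ))) (d : ↥(DS S)) : ℤ × ℤ :=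
  if s(d.1.1, d.1.1 + dir d.1.2) ∈ ω ∩ edgesIn S then - wc (d.1.2 + 1) else wc d.1.2

lemma joined_insert {ω : Finset (Sym2 (ℤ × ℤ))} [DecidableEq (Sym2 (ℤ × ℤ))] {z z' u v : ℤ × ℤ}
    (h : Joined (insert s(z, z') ω) u v) :
    Joined ω u v ∨ (Joined ω u z ∧ Joined ω z' v) ∨ (Joined ω u z' ∧ Joined ω z v) := by
  let r : Setoid (ℤ × ℤ) := ⟨Joined ω, ⟨joined_refl ω, joined_symm, joined_trans⟩⟩
  change jn r z z' u v
  obtain ⟨p⟩ := h
  induction p with
  | nil => exact Setoid.refl' _ _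
  | @cons a b c hab p ih =>
    refine Setoid.trans' _ ?_ ih
    rw [SimpleGraph.fromEdgeSet_adj] at hab
    have h1 : s(a, b) ∈ insert s(z, z') ω := by exact_mod_cast hab.1
    rw [mem_insert] at h1
    rcases h1 with h1 | h1
    · rw [Sym2.eq_iff] at h1
      rcases h1 with ⟨rfl, rfl⟩ | ⟨rfl, rfl⟩
      · exact jn_join _ _ _
      · exact Setoid.symm' _ (jn_join _ _ _)
    · exact Or.inl (joined_edge h1)

/-- clusters as an equivalence relation on darts -/
noncomputable def cnS (S : Finset (ℤ × ℤ)) (ω : Finset (Sym2 (ℤ × ℤ))) : Setoid ↥(DS S) where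
  r d d' := Joined (ω ∩ edgesIn S) d.1.1 d'.1.1
  iseqv := ⟨fun _ => joined_refl _ _, joined_symm, joined_trans⟩

open Classical in
/-- dart of an edge -/
noncomputable def xD (e : Sym2 (ℤ × ℤ)) : Dart :=
  if h : ∃ z c, e = s(z, z + dir c) then (h.choose, h.choose_spec.choose) else ((0, 0), 0)

lemma xD_spec {S : Finset (ℤ × ℤ)} {e : Sym2 (ℤ × ℤ)} (he : e ∈ edgesIn S) :
    e = s((xD e).1, (xD e).1 + dir (xD e).2) := by
  have h : ∃ z c, e = s(z, z + dir c) := by
    induction e using Sym2.ind with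
    | _ u v =>
      rw [mem_edgesIn] at he
      obtain ⟨c, rfl⟩ := dir_of_adj he.2.2
      exact ⟨u, c, rfl⟩
  unfold xD
  rw [dif_pos h]
  exact h.choose_spec.choose_spec

/-- the opposite dart -/
def opp (d : Dart) : Dart := (d.1 + dir d.2, d.2 + 2)

open Classical in
noncomputable def xS (S : Finset (ℤ × ℤ)) (s0 : ↥(DS S)) (e : Sym2 (ℤ × ℤ)) : ↥(DS S) :=
  if h : xD e ∈ DS S then ⟨xD e, h⟩ else s0

open Classical in
noncomputable def yS (S : Finset (ℤ × ℤ)) (s0 : ↥(DS S)) (e : Sym2 (ℤ × ℤ)) : ↥(DS S) :=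
  if h : opp (xD e) ∈ DS S then ⟨opp (xD e), h⟩ else s0

lemma xS_val {S : Finset (ℤ × ℤ)} {s0 : ↥(DS S)} {e : Sym2 (ℤ × ℤ)} (he : e ∈ edgesIn S) :
    ((xS S s0 e : ↥(DS S)) : Dart) = xD e := by
  have h := xD_spec he
  have h1 : xD e ∈ DS S := by
    rw [mem_DS]
    rw [h] at he
    exact (edge_mem_iff.1 he).1
  unfold xS
  rw [dif_pos h1]

lemma yS_val {S : Finset (ℤ × ℤ)} {s0 : ↥(DS S)} {e : Sym2 (ℤ × ℤ)} (he : e ∈ edgesIn S) :
    ((yS S s0 e : ↥(DS S)) : Dart) = opp (xD e) := by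
  have h := xD_spec he
  have h1 : opp (xD e) ∈ DS S := by
    rw [mem_DS]
    rw [h] at he
    exact (edge_mem_iff.1 he).2
  unfold yS
  rw [dif_pos h1]

/-- edge of a dart -/
def ed (d : Dart) : Sym2 (ℤ × ℤ) := s(d.1, d.1 + dir d.2)

lemma ed_opp (d : Dart) : ed (opp d) = ed d := by
  unfold ed opp
  simp only
  rw [dir_add_two, add_neg_cancel_right, Sym2.eq_swap]

lemma ed_eq_iff {d d' : Dart} : ed d' = ed d ↔ d' = d ∨ d' = opp d := by
  constructor
  · intro h
    rcases edge_darts h with ⟨h1, h2⟩ | ⟨h1, h2⟩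
    · left; exact Prod.ext h1 h2
    · right; exact Prod.ext h1 h2
  · rintro (rfl | rfl)
    · rfl
    · exact ed_opp d

lemma opp_ne (d : Dart) : opp d ≠ d := by
  intro h
  have h1 : d.2 + 2 = d.2 := congrArg Prod.snd h
  have h2 : (2 : Fin 4) = 0 := add_eq_left.1 h1
  exact absurd h2 (by decide)

lemma fin4_add (c : Fin 4) : c + 2 + 3 = c + 1 ∧ c + 2 + 1 = c + 3 := by
  revert c; decide

lemma wc_sum (c : Fin 4) :
    -wc (c + 1) + -wc (c + 2 + 1) = wc c + wc (c + 2) - ((2, 2) : ℤ × ℤ) := by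
  revert c; decide

/-- The system of explorations over `S`. -/
noncomputable def dsys (S : Finset (ℤ × ℤ)) (s0 : ↥(DS S)) :
    Sys ↥(DS S) (Sym2 (ℤ × ℤ)) (ℤ × ℤ) where
  m := edgesIn S
  x := xS S s0
  y := yS S s0
  σ := pS S
  cn := cnS S
  w := wS S
  θ := (2, 2)
  ne := by
    intro e he h
    have h1 : ((xS S s0 e : ↥(DS S)) : Dart) = ((yS S s0 e : ↥(DS S)) : Dart) := by rw [h]
    rw [xS_val he, yS_val he] at h1
    exact opp_ne _ h1.symm
  hσ := by
    intro ω e he hm
    have hem : e ∈ edgesIn S := hm (mem_insert_self e ω)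
    have hω : ω ⊆ edgesIn S := (subset_insert e ω).trans hm
    have i1 : ω ∩ edgesIn S = ω := inter_eq_left.2 hω
    have i2 : insert e ω ∩ edgesIn S = insert e ω := inter_eq_left.2 hm
    have hxe : e = ed (xD e) := xD_spec hem
    ext1 d
    apply Subtype.ext
    rw [Perm.mul_apply]
    by_cases h1 : d = xS S s0 e
    · rw [h1, swap_apply_left]
      have a1 : ed (xS S s0 e).1 = e := by rw [xS_val hem]; exact hxe.symm
      have a2 : ed (yS S s0 e).1 = e := by rw [yS_val hem, ed_opp]; exact hxe.symm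
      have b1 : ed (xS S s0 e).1 ∈ insert e ω := by rw [a1]; exact mem_insert_self e ω
      have b2 : ed (yS S s0 e).1 ∉ ω := by rw [a2]; exact he
      rw [pS_open (by rw [i2]; exact b1), pS_closed (by rw [i1]; exact b2), yS_val hem,
        xS_val hem]
      unfold opp
      simp only
      rw [(fin4_add _).2]
    · by_cases h2 : d = yS S s0 e
      · rw [h2, swap_apply_right]
        have a1 : ed (xS S s0 e).1 = e := by rw [xS_val hem]; exact hxe.symm
        have a2 : ed (yS S s0 e).1 = e := by rw [yS_val hem, ed_opp]; exact hxe.symm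
        have b1 : ed (xS S s0 e).1 ∉ ω := by rw [a1]; exact he
        have b2 : ed (yS S s0 e).1 ∈ insert e ω := by rw [a2]; exact mem_insert_self e ω
        rw [pS_open (by rw [i2]; exact b2), pS_closed (by rw [i1]; exact b1), yS_val hem,
          xS_val hem]
        unfold opp
        simp only
        rw [(fin4_add _).1, dir_add_two, add_neg_cancel_right]
      · rw [swap_apply_of_ne_of_ne h1 h2]
        have hne : ed d.1 ≠ e := by
          intro hh
          rw [hxe] at hh
          rcases ed_eq_iff.1 hh with h3 | h3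
          · exact h1 (Subtype.ext (by rw [xS_val hem]; exact h3))
          · exact h2 (Subtype.ext (by rw [yS_val hem]; exact h3))
        have hiff : ed d.1 ∈ insert e ω ↔ ed d.1 ∈ ω := by
          rw [mem_insert]; exact ⟨fun h => h.resolve_left hne, Or.inr⟩
        by_cases h3 : ed d.1 ∈ ω
        · rw [pS_open (by rw [i2]; exact hiff.2 h3), pS_open (by rw [i1]; exact h3)]
        · rw [pS_closed (by rw [i2]; exact fun h => h3 (hiff.1 h)),
            pS_closed (by rw [i1]; exact h3)]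
  hcn := by
    intro ω e he hm
    have hem : e ∈ edgesIn S := hm (mem_insert_self e ω)
    have hω : ω ⊆ edgesIn S := (subset_insert e ω).trans hm
    have i1 : ω ∩ edgesIn S = ω := inter_eq_left.2 hω
    have i2 : insert e ω ∩ edgesIn S = insert e ω := inter_eq_left.2 hm
    have hxe : e = ed (xD e) := xD_spec hem
    ext d d'
    change Joined (insert e ω ∩ edgesIn S) d.1.1 d'.1.1 ↔ _
    rw [i2, jn_iff]
    change _ ↔ Joined (ω ∩ edgesIn S) _ _ ∨
      (Joined (ω ∩ edgesIn S) _ _ ∧ Joined (ω ∩ edgesIn S) _ _) ∨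
      (Joined (ω ∩ edgesIn S) _ _ ∧ Joined (ω ∩ edgesIn S) _ _)
    rw [i1, xS_val hem, yS_val hem]
    constructor
    · intro h
      rw [hxe] at h
      exact joined_insert h
    · intro h
      have m1 : ∀ {u v}, Joined ω u v → Joined (insert e ω) u v := by
        intro u v huv
        apply SimpleGraph.Reachable.mono _ huv
        apply SimpleGraph.fromEdgeSet_mono
        exact_mod_cast subset_insert e ω
      have m2 : Joined (insert e ω) (xD e).1 (opp (xD e)).1 := by
        apply joined_edge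
        have : s((xD e).1, (opp (xD e)).1) = e := hxe.symm
        rw [this]
        exact mem_insert_self e ω
      rcases h with h | ⟨h1, h2⟩ | ⟨h1, h2⟩
      · exact m1 h
      · exact joined_trans (m1 h1) (joined_trans m2 (m1 h2))
      · exact joined_trans (m1 h1) (joined_trans (joined_symm m2) (m1 h2))
  hle := by
    intro ω hω d d' hd
    refine cy_le (r := cnS S ω) (fun e => ?_) hd
    change Joined (ω ∩ edgesIn S) e.1.1 ((pS S ω e : ↥(DS S)) : Dart).1
    by_cases h : s(e.1.1, e.1.1 + dir e.1.2) ∈ ω ∩ edgesIn S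
    · rw [pS_open h]
      exact joined_edge h
    · rw [pS_closed h]
      exact joined_refl _ _
  hw := by
    intro ω e he hm d h1 h2
    have hem : e ∈ edgesIn S := hm (mem_insert_self e ω)
    have hω : ω ⊆ edgesIn S := (subset_insert e ω).trans hm
    have i1 : ω ∩ edgesIn S = ω := inter_eq_left.2 hω
    have i2 : insert e ω ∩ edgesIn S = insert e ω := inter_eq_left.2 hm
    have hxe : e = ed (xD e) := xD_spec hem
    have hne : ed d.1 ≠ e := by
      intro hh
      rw [hxe] at hh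
      rcases ed_eq_iff.1 hh with h3 | h3
      · exact h1 (Subtype.ext (by rw [xS_val hem]; exact h3))
      · exact h2 (Subtype.ext (by rw [yS_val hem]; exact h3))
    unfold wS
    rw [i1, i2]
    have hiff : s(d.1.1, d.1.1 + dir d.1.2) ∈ insert e ω ↔ s(d.1.1, d.1.1 + dir d.1.2) ∈ ω := by
      rw [mem_insert]; exact ⟨fun h => h.resolve_left hne, Or.inr⟩
    by_cases h3 : s(d.1.1, d.1.1 + dir d.1.2) ∈ ω
    · rw [if_pos (hiff.2 h3), if_pos h3]
    · rw [if_neg (fun h => h3 (hiff.1 h)), if_neg h3]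
  hs := by
    intro ω e he hm
    have hem : e ∈ edgesIn S := hm (mem_insert_self e ω)
    have hω : ω ⊆ edgesIn S := (subset_insert e ω).trans hm
    have i1 : ω ∩ edgesIn S = ω := inter_eq_left.2 hω
    have i2 : insert e ω ∩ edgesIn S = insert e ω := inter_eq_left.2 hm
    have hxe : e = ed (xD e) := xD_spec hem
    have a1 : ed (xS S s0 e).1 = e := by rw [xS_val hem]; exact hxe.symm
    have a2 : ed (yS S s0 e).1 = e := by rw [yS_val hem, ed_opp]; exact hxe.symm
    have b1 : s((xS S s0 e).1.1, (xS S s0 e).1.1 + dir (xS S s0 e).1.2) = e := a1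
    have b2 : s((yS S s0 e).1.1, (yS S s0 e).1.1 + dir (yS S s0 e).1.2) = e := a2
    unfold wS
    rw [i1, i2, b1, b2, if_pos (mem_insert_self e ω), if_pos (mem_insert_self e ω), if_neg he,
      if_neg he, xS_val hem, yS_val hem]
    exact wc_sum _

end H47Perc
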