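import Pool.Agent.Helper47.Perc.Rows
import Pool.Agent.Helper47.Perc.Dart

namespace H47Perc

open Equiv

/-! ### going around the cycles of a noncrossing permutation -/

lemma exists_period' {B : ℤ} {P : Perm ℤ} (hsup : Sup B P) (x : ℤ) :
    ∃ n : ℕ, 0 < n ∧ (P ^ n) x = x := by
  by_cases hx : -B ≤ x ∧ x ≤ B
  · exact exists_period (a := -B) (b := B) (fun y h1 h2 => hsup.inv_mem ⟨h1, h2⟩) hx.1 hx.2
  · exact ⟨1, one_pos, by simpa using hsup x (by omega)⟩

lemma exists_pos_pow {B : ℤ} {P : Perm ℤ} (hsup : Sup B P) {g x : ℤ} (h : P.SameCycle g x) :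
    ∃ n : ℕ, 0 < n ∧ (P ^ n) g = x := by
  obtain ⟨i, hi⟩ := h
  obtain ⟨n, hn, hp⟩ := exists_period' hsup g
  have h1 : ∀ k : ℕ, (P ^ (n * k)) g = g := by
    intro k
    induction k with
    | zero => simp
    | succ k ih =>
      rw [mul_add, mul_one, pow_add, Perm.mul_apply, hp, ih]
  refine ⟨(i + n * (i.natAbs + 1 : ℕ)).toNat, ?_, ?_⟩
  · have : (0:ℤ) < i + n * (i.natAbs + 1 : ℕ) := by
      have h2 : (1:ℤ) ≤ n := by exact_mod_cast hn
      have h3 : -(i.natAbs : ℤ) ≤ i := by omega
      push_cast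
      nlinarith [neg_abs_le i, abs_nonneg i]
    omega
  · have hpos : (0:ℤ) ≤ i + n * (i.natAbs + 1 : ℕ) := by
      have h2 : (1:ℤ) ≤ n := by exact_mod_cast hn
      have h3 : -(i.natAbs : ℤ) ≤ i := by omega
      push_cast
      nlinarith [neg_abs_le i, abs_nonneg i]
    rw [← hi, ← zpow_natCast, Int.toNat_of_nonneg hpos, zpow_add, Perm.mul_apply]
    congr 1
    have := h1 (i.natAbs + 1)
    rw [← zpow_natCast] at this
    push_cast at this ⊢
    exact this

lemma around {θ : ℂ} (hθ : θ ≠ 0) {P : Perm ℤ} (hnc : NC P) {L R : ℤ → ℂ} (hA : Amp θ P L R)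
    (g : ℤ) (O : ℤ → Prop) (hO : ∀ n : ℕ, O ((P ^ n) g)) (ht : ∀ x, O x → x ≠ g → L x = θ * R x)
    (n : ℕ) : R ((P ^ (n + 1)) g) = (if (P ^ (n + 1)) g < g then θ⁻¹ else 1) * L g := by
  have first : R (P g) = (if P g < g then θ⁻¹ else 1) * L g := by
    rw [hA g]
    rcases lt_or_ge (P g) g with h | h
    · rw [kap_lt θ h, if_pos h]
    · rw [kap_le θ h, if_neg (not_lt.2 h)]
  induction n with
  | zero => simpa using first
  | succ n ih =>
    have e : (P ^ (n + 1 + 1)) g = P ((P ^ (n + 1)) g) := by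
      rw [pow_succ' P (n + 1), Perm.mul_apply]
    rw [e]
    set x := (P ^ (n + 1)) g with hx
    by_cases hxg : x = g
    · rw [hxg]
      exact first
    rw [hA x, ht x (hO (n + 1)) hxg, ih]
    rcases lt_or_ge (P x) x with h | h
    · rw [kap_lt θ h]
      have h3 : ¬ (P x < g ∧ g < x) := by
        intro hg
        have : ∀ k : ℕ, P x < (P ^ k) g ∧ (P ^ k) g < x := by
          intro k
          induction k with
          | zero => simpa using hg
          | succ k ihk =>
            rw [pow_succ', Perm.mul_apply]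
            exact (hnc.down h _).1 ihk
        have := (this (n + 1)).2
        omega
      by_cases h4 : x < g
      · rw [if_pos h4, if_pos (by omega)]
        field_simp
      · rw [if_neg h4, if_neg (by omega)]
        field_simp
    · rw [kap_le θ h]
      have h3 : ∀ k : ℕ, k ≤ n + 1 → x ≤ (P ^ (n + 1 - k)) g ∧ (P ^ (n + 1 - k)) g ≤ P x := by
        intro k
        induction k with
        | zero =>
          intro _
          rw [Nat.sub_zero, ← hx]
          exact ⟨le_rfl, h⟩
        | succ k ihk =>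
          intro hk
          rw [hnc.up h]
          have h5 : P ((P ^ (n + 1 - (k + 1))) g) = (P ^ (n + 1 - k)) g := by
            rw [← Perm.mul_apply, ← pow_succ']
            congr 2
            omega
          rw [h5]
          exact ihk (by omega)
      have h4 := h3 (n + 1) le_rfl
      rw [Nat.sub_self] at h4
      simp only [pow_zero, Perm.coe_one, id] at h4
      rw [if_pos (by omega), if_neg (by omega)]
      field_simp

/-! ### the amplitudes on the rows -/

/-- connected inside the rows `≤ y` -/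
def Conf.RLe (C : Conf) (y : ℤ) : ℤ × ℤ → ℤ × ℤ → Prop :=
  Relation.ReflTransGen (fun z w => C.Step z w ∧ z.2 ≤ y ∧ w.2 ≤ y)

lemma Conf.Step.symm {C : Conf} {z w : ℤ × ℤ} (h : C.Step z w) : C.Step w z := by
  obtain ⟨c, hc, rfl⟩ := h
  refine ⟨c + 2, (C.symm z c).2 hc, ?_⟩
  rw [dir_add_two]
  simp

lemma Conf.RLe.symm {C : Conf} {y : ℤ} {z w : ℤ × ℤ} (h : C.RLe y z w) : C.RLe y w z := by
  induction h with
  | refl => exact Relation.ReflTransGen.refl
  | tail _ h2 ih => exact Relation.ReflTransGen.head ⟨h2.1.symm, h2.2.2, h2.2.1⟩ ih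

lemma Conf.RLe.mono {C : Conf} {y y' : ℤ} (hy : y ≤ y') {z w : ℤ × ℤ} (h : C.RLe y z w) :
    C.RLe y' z w := by
  induction h with
  | refl => exact Relation.ReflTransGen.refl
  | tail _ h2 ih => exact ih.tail ⟨h2.1, by omega, by omega⟩

lemma Conf.open20 (C : Conf) (x y : ℤ) : C.o (x, y + 1) 0 ↔ C.o (x, y) 2 := by
  have := C.symm (x, y) 2
  have e : ((x, y) : ℤ × ℤ) + dir 2 = (x, y + 1) := by simp
  rw [e] at this
  exact this

lemma Conf.open31 (C : Conf) (x y : ℤ) : C.o (x + 1, y) 3 ↔ C.o (x, y) 1 := by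
  have := C.symm (x, y) 1
  have e : ((x, y) : ℤ × ℤ) + dir 1 = (x + 1, y) := by simp
  rw [e] at this
  exact this

section rows

variable {C : Conf} {α β : ℂ} {N B : ℤ} {g : ℤ} {Λ : Dart → ℂ}

lemma amp_closed (hΛ : C.IsAmp α β ((g, N), 2) Λ) {z : ℤ × ℤ} {c : Fin 4}
    (hd : (z, c) ≠ ((g, N), (2 : Fin 4))) (ho : ¬ C.o z c) :
    Λ (z, c + 1) = kk α β c * Λ (z, c) := by
  have := hΛ (z, c) hd
  rw [C.nxt_closed ho] at this
  rw [this]
  congr 1
  unfold Conf.ph
  exact if_neg ho

lemma amp_open (hΛ : C.IsAmp α β ((g, N), 2) Λ) {z : ℤ × ℤ} {c : Fin 4}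
    (hd : (z, c) ≠ ((g, N), (2 : Fin 4))) (ho : C.o z c) :
    Λ (z + dir c, c + 3) = (kk α β (c + 1))⁻¹ * Λ (z, c) := by
  have := hΛ (z, c) hd
  rw [C.nxt_open ho] at this
  rw [this]
  congr 1
  unfold Conf.ph
  exact if_pos ho

/-- normalised amplitudes on the four corners -/
noncomputable def m0 (Λ : Dart → ℂ) (y x : ℤ) : ℂ := Λ ((x, y), 0)
noncomputable def m1 (α : ℂ) (Λ : Dart → ℂ) (y x : ℤ) : ℂ := α⁻¹ * Λ ((x, y), 1)
noncomputable def m2 (α β : ℂ) (Λ : Dart → ℂ) (y x : ℤ) : ℂ := (α * β)⁻¹ * Λ ((x, y), 2)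
noncomputable def m3 (β : ℂ) (Λ : Dart → ℂ) (y x : ℤ) : ℂ := β * Λ ((x, y), 3)

lemma ne_of_c {z : ℤ × ℤ} {c : Fin 4} (hc : c ≠ 2) : (z, c) ≠ ((g, N), (2 : Fin 4)) := by
  intro h
  exact hc (congrArg Prod.snd h)

lemma ne_of_y {x y : ℤ} {c : Fin 4} (hy : y ≠ N) : ((x, y), c) ≠ ((g, N), (2 : Fin 4)) := by
  intro h
  exact hy (congrArg (fun d => d.1.2) h)

theorem row_inv (hα : α ≠ 0) (hβ : β ≠ 0) (hB0 : 0 ≤ B)
    (hB : ∀ z c, C.o z c → -B ≤ z.1 ∧ z.1 ≤ B ∧ -B ≤ z.2)
    (hΛ : C.IsAmp α β ((g, N), 2) Λ) (k : ℕ) (hk : -B - 1 + k ≤ N) :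
    ∃ P : Perm ℤ, NC P ∧ Sup B P ∧
      Amp ((α * β) ^ 2) P (m3 β Λ (-B - 1 + k)) (m2 α β Λ (-B - 1 + k)) ∧
      (∀ a b, P.SameCycle a b ↔ C.RLe (-B - 1 + k) (a, -B - 1 + k) (b, -B - 1 + k)) := by
  induction k with
  | zero =>
    simp only [Nat.cast_zero, add_zero]
    have hno : ∀ x c, ¬ C.o (x, -B - 1) c := by
      intro x c h
      have := (hB _ _ h).2.2
      simp only at this
      omega
    refine ⟨1, NC.one, fun x _ => rfl, ?_, ?_⟩
    · intro a
      have h1 := amp_closed hΛ (z := (a, -B - 1)) (c := 3) (ne_of_c (by decide)) (hno _ _)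
      have h2 := amp_closed hΛ (z := (a, -B - 1)) (c := 0) (ne_of_c (by decide)) (hno _ _)
      have h3 := amp_closed hΛ (z := (a, -B - 1)) (c := 1) (ne_of_c (by decide)) (hno _ _)
      have e1 : (3 : Fin 4) + 1 = 0 := rfl
      have e2 : (0 : Fin 4) + 1 = 1 := rfl
      have e3 : (1 : Fin 4) + 1 = 2 := rfl
      rw [e1] at h1
      rw [e2] at h2
      rw [e3] at h3
      have k3 : kk α β 3 = β := rfl
      have k0 : kk α β 0 = α := rfl
      have k1 : kk α β 1 = β := rfl
      rw [k3] at h1
      rw [k0] at h2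
      rw [k1] at h3
      simp only [Perm.coe_one, id]
      rw [kap_le _ le_rfl]
      simp only [m2, m3]
      rw [h3, h2, h1]
      field_simp
    · intro a b
      rw [Perm.sameCycle_one]
      constructor
      · rintro rfl
        exact Relation.ReflTransGen.refl
      · intro h
        rcases Relation.ReflTransGen.cases_head h with h | ⟨w, ⟨⟨c, hc, _⟩, _⟩, _⟩
        · exact congrArg Prod.fst h
        · exact absurd hc (hno _ _)
  | succ k ih =>
    obtain ⟨P, hnc, hsup, hA, hconn⟩ := ih (by push_cast at hk; omega)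
    set y : ℤ := -B - 1 + k with hy
    have hy1 : -B - 1 + ((k + 1 : ℕ) : ℤ) = y + 1 := by push_cast; omega
    rw [hy1]
    have hyN : y ≠ N := by push_cast at hk; omega
    have hθ : (α * β) ^ 2 ≠ 0 := pow_ne_zero _ (mul_ne_zero hα hβ)
    have k0 : kk α β 0 = α := rfl
    have k1 : kk α β 1 = β := rfl
    have k2 : kk α β 2 = α := rfl
    have k3 : kk α β 3 = β := rfl
    -- vertical edges
    obtain ⟨Q, hQnc, hQsup, hQA, hQb, hQf⟩ := vrow hθ hB0 hnc hsup
      (o := fun x => C.o (x, y) 2) (L := m3 β Λ y) (R := m2 α β Λ y)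
      (L' := m0 Λ (y + 1)) (R' := m1 α Λ (y + 1)) hA
      (by
        intro x hx
        have := hB _ _ hx
        exact ⟨this.1, this.2.1⟩)
      (by
        intro x hx
        have h1 := amp_open hΛ (z := (x, y)) (c := 2) (ne_of_y hyN) hx
        have h2 := amp_open hΛ (z := (x, y + 1)) (c := 0) (ne_of_c (by decide))
          ((C.open20 x y).2 hx)
        have e1 : ((x, y) : ℤ × ℤ) + dir 2 = (x, y + 1) := by simp
        have e2 : ((x, y + 1) : ℤ × ℤ) + dir 0 = (x, y) := by simp
        have e3 : (2 : Fin 4) + 3 = 1 := rfl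
        have e4 : (0 : Fin 4) + 3 = 3 := rfl
        have e5 : (2 : Fin 4) + 1 = 3 := rfl
        have e6 : (0 : Fin 4) + 1 = 1 := rfl
        rw [e1, e3, e5, k3] at h1
        rw [e2, e4, e6, k1] at h2
        constructor
        · simp only [m1, m2]
          rw [h1]
          field_simp
        · simp only [m0, m3]
          rw [h2]
          field_simp)
      (by
        intro x hx
        have h1 := amp_closed hΛ (z := (x, y)) (c := 2) (ne_of_y hyN) hx
        have h2 := amp_closed hΛ (z := (x, y + 1)) (c := 0) (ne_of_c (by decide))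
          (fun h => hx ((C.open20 x y).1 h))
        have e5 : (2 : Fin 4) + 1 = 3 := rfl
        have e6 : (0 : Fin 4) + 1 = 1 := rfl
        rw [e5, k2] at h1
        rw [e6, k0] at h2
        constructor
        · simp only [m2, m3]
          rw [h1]
          field_simp
        · simp only [m0, m1]
          rw [h2]
          field_simp)
    -- horizontal edges
    obtain ⟨Q', hQ'nc, hQ'sup, hQ'A, hQ'f, hQ'j, hQ'b⟩ := hrow hθ hB0 hQnc hQsup
      (o := fun x => C.o (x, y + 1) 1) (L := m0 Λ (y + 1)) (R := m1 α Λ (y + 1))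
      (L' := m3 β Λ (y + 1)) (R' := m2 α β Λ (y + 1)) hQA
      (by
        intro x hx
        have h1 := hB _ _ hx
        have h2 := hB _ _ ((C.open31 x (y + 1)).2 hx)
        simp at h1 h2
        omega)
      (by
        intro x hx
        have h1 := amp_open hΛ (z := (x, y + 1)) (c := 1) (ne_of_c (by decide)) hx
        have h2 := amp_open hΛ (z := (x + 1, y + 1)) (c := 3) (ne_of_c (by decide))
          ((C.open31 x (y + 1)).2 hx)
        have e1 : ((x, y + 1) : ℤ × ℤ) + dir 1 = (x + 1, y + 1) := by simp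
        have e2 : ((x + 1, y + 1) : ℤ × ℤ) + dir 3 = (x, y + 1) := by simp
        have e3 : (1 : Fin 4) + 3 = 0 := rfl
        have e4 : (3 : Fin 4) + 3 = 2 := rfl
        have e5 : (1 : Fin 4) + 1 = 2 := rfl
        have e6 : (3 : Fin 4) + 1 = 0 := rfl
        rw [e1, e3, e5, k2] at h1
        rw [e2, e4, e6, k0] at h2
        constructor
        · simp only [m0, m1]
          rw [h1]
        · simp only [m2, m3]
          rw [h2]
          field_simp)
      (by
        intro x hx
        have h1 := amp_closed hΛ (z := (x, y + 1)) (c := 1) (ne_of_c (by decide)) hx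
        have h2 := amp_closed hΛ (z := (x + 1, y + 1)) (c := 3) (ne_of_c (by decide))
          (fun h => hx ((C.open31 x (y + 1)).1 h))
        have e5 : (1 : Fin 4) + 1 = 2 := rfl
        have e6 : (3 : Fin 4) + 1 = 0 := rfl
        rw [e5, k1] at h1
        rw [e6, k3] at h2
        constructor
        · simp only [m1, m2]
          rw [h1]
          field_simp
        · simp only [m0, m3]
          rw [h2])
    refine ⟨Q', hQ'nc, hQ'sup, hQ'A, ?_⟩
    intro a b
    constructor
    · refine hQ'b (fun a b => C.RLe (y + 1) (a, y + 1) (b, y + 1)) ⟨?_, ?_, ?_⟩ ?_ ?_ a b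
      · intro a; exact Relation.ReflTransGen.refl
      · intro a b h; exact h.symm
      · intro a b c h1 h2; exact h1.trans h2
      · intro a b hab
        rcases hQb a b hab with rfl | ⟨ha, hb, hab'⟩
        · exact Relation.ReflTransGen.refl
        · have h1 := (hconn a b).1 hab'
          have h2 : C.Step (b, y) (b, y + 1) := ⟨2, hb, by simp⟩
          have h3 : C.Step (a, y) (a, y + 1) := ⟨2, ha, by simp⟩
          refine Relation.ReflTransGen.head ⟨h3.symm, by simp, by simp⟩ ?_
          exact (h1.mono (by omega)).tail ⟨h2, by simp, by simp⟩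
      · intro x hx
        exact Relation.ReflTransGen.single ⟨⟨1, hx, by simp⟩, by simp, by simp⟩
    · intro h
      have key : ∀ w : ℤ × ℤ, C.RLe (y + 1) (a, y + 1) w →
          (w.2 = y + 1 → Q'.SameCycle a w.1) ∧
          (w.2 ≤ y → ∃ x, C.o (x, y) 2 ∧ Q'.SameCycle a x ∧ C.RLe y (x, y) w) := by
        intro w hw
        induction hw with
        | refl => exact ⟨fun _ => Perm.SameCycle.refl _ _, fun h => by simp only at h; omega⟩
        | tail hw hstep ih =>
          rename_i u w
          obtain ⟨⟨c, hc, rfl⟩, hu, hw'⟩ := hstep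
          obtain ⟨ux, uy⟩ := u
          simp only at hu ih
          rcases (show uy = y + 1 ∨ uy ≤ y by omega) with h4 | h4
          · subst h4
            have hcyc := ih.1 rfl
            fin_cases c
            · -- down
              simp only [Fin.zero_eta, dir_zero, Prod.mk_add_mk, add_zero] at hc hw' ⊢
              refine ⟨fun h => by omega, fun _ => ⟨ux, (C.open20 ux y).1 hc, hcyc, ?_⟩⟩
              have : (ux, y + 1 + -1) = ((ux, y) : ℤ × ℤ) := by
                ext <;> simp
              rw [this]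
              exact Relation.ReflTransGen.refl
            · simp only [Fin.mk_one, dir_one, Prod.mk_add_mk, add_zero] at hc hw' ⊢
              exact ⟨fun _ => hcyc.trans (hQ'j ux hc), fun h => by omega⟩
            · simp only [Fin.reduceFinMk, dir_two, Prod.mk_add_mk, add_zero] at hc hw' ⊢
              omega
            · simp only [Fin.reduceFinMk, dir_three, Prod.mk_add_mk, add_zero] at hc hw' ⊢
              refine ⟨fun _ => ?_, fun h => by omega⟩
              have h5 : C.o (ux - 1, y + 1) 1 := by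
                have := (C.open31 (ux - 1) (y + 1)).1
                rw [sub_add_cancel] at this
                exact this hc
              have h6 := hQ'j (ux - 1) h5
              rw [sub_add_cancel] at h6
              have : ux + -1 = ux - 1 := by ring
              rw [this]
              exact hcyc.trans h6.symm
          · obtain ⟨x, hx1, hx2, hx3⟩ := ih.2 h4
            rcases (show ((ux, uy) + dir c).2 = y + 1 ∨ ((ux, uy) + dir c).2 ≤ y by omega)
              with h5 | h5
            · refine ⟨fun _ => ?_, fun h => by omega⟩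
              fin_cases c
              · simp at h5; omega
              · simp at h5; omega
              · simp at h5
                have h6 : uy = y := by omega
                subst h6
                simp only [Fin.reduceFinMk, dir_two, Prod.mk_add_mk, add_zero] at hc ⊢
                have h7 := (hconn x ux).2 hx3
                exact hx2.trans (hQ'f _ _ (hQf x ux hx1 hc h7))
              · simp at h5; omega
            · refine ⟨fun h => by omega, fun _ => ⟨x, hx1, hx2, ?_⟩⟩
              exact hx3.tail ⟨⟨c, hc, rfl⟩, h4, h5⟩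
      exact (key _ h).1 rfl

/-- the planarity theorem: amplitudes on the top row -/
theorem Conf.top (C : Conf) (α β : ℂ) (hα : α ≠ 0) (hβ : β ≠ 0) (hθ : (α * β) ^ 2 ≠ 1) (N B : ℤ)
    (hB : ∀ z c, C.o z c → -B ≤ z.1 ∧ z.1 ≤ B ∧ -B ≤ z.2) (hN : ∀ x, ¬ C.o (x, N) 2) (g : ℤ)
    (Λ : Dart → ℂ) (hΛ : C.IsAmp α β ((g, N), 2) Λ) (x : ℤ) :
    (C.Conn (g, N) (x, N) →
      Λ ((x, N), 2) = (if x < g then α⁻¹ else α * β ^ 2) * Λ ((g, N), 3)) ∧
    (¬ C.Conn (g, N) (x, N) → Λ ((x, N), 2) = 0) := by
  -- choose a larger window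
  set B' : ℤ := max B (max 0 (-N - 1)) with hB'
  have hB1 : B ≤ B' := le_max_left _ _
  have hB2 : 0 ≤ B' := le_trans (le_max_left _ _) (le_max_right _ _)
  have hB3 : -N - 1 ≤ B' := le_trans (le_max_right _ _) (le_max_right _ _)
  have hBB : ∀ z c, C.o z c → -B' ≤ z.1 ∧ z.1 ≤ B' ∧ -B' ≤ z.2 := by
    intro z c h
    have := hB z c h
    omega
  obtain ⟨P, hnc, hsup, hA, hconn⟩ := row_inv hα hβ hB2 hBB hΛ (N + B' + 1).toNat (by omega)
  have e : -B' - 1 + ((N + B' + 1).toNat : ℤ) = N := by omega
  rw [e] at hA hconn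
  have hθ0 : (α * β) ^ 2 ≠ 0 := pow_ne_zero _ (mul_ne_zero hα hβ)
  have hcl : ∀ x, x ≠ g → m3 β Λ N x = (α * β) ^ 2 * m2 α β Λ N x := by
    intro x hx
    have h1 := amp_closed hΛ (z := (x, N)) (c := 2)
      (by
        intro h
        exact hx (congrArg (fun d => d.1.1) h)) (hN x)
    have e5 : (2 : Fin 4) + 1 = 3 := rfl
    have k2 : kk α β 2 = α := rfl
    rw [e5, k2] at h1
    simp only [m2, m3]
    rw [h1]
    field_simp
  -- connection stays below the line N
  have hstay : ∀ w, C.Conn (g, N) w → w.2 ≤ N ∧ C.RLe N (g, N) w := by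
    intro w hw
    induction hw with
    | refl => exact ⟨le_rfl, Relation.ReflTransGen.refl⟩
    | tail hprev hstep ih =>
      rename_i u w
      obtain ⟨c, hc, rfl⟩ := hstep
      have h3 : (u + dir c).2 ≤ N := by
        by_contra hcon
        obtain ⟨ux, uy⟩ := u
        fin_cases c
        · simp at hcon ih; omega
        · simp at hcon ih; omega
        · simp at hcon ih
          have : uy = N := by omega
          subst this
          exact hN ux hc
        · simp at hcon ih; omega
      exact ⟨h3, ih.2.tail ⟨⟨c, hc, rfl⟩, ih.1, h3⟩⟩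
  have hiff : C.Conn (g, N) (x, N) ↔ P.SameCycle g x := by
    rw [hconn]
    constructor
    · intro h; exact (hstay _ h).2
    · intro h
      exact Relation.ReflTransGen.mono (p := C.Step) (fun _ _ h2 => h2.1) _ _ h
  constructor
  · intro h
    rw [hiff] at h
    obtain ⟨n, hn, hx⟩ := exists_pos_pow hsup h
    have := around hθ0 hnc hA g (fun _ => True) (fun _ => trivial) (fun x _ hx => hcl x hx) (n - 1)
    rw [Nat.sub_add_cancel hn, hx] at this
    simp only [m2, m3] at this
    have h2 : Λ ((x, N), 2) = (α * β) * ((α * β)⁻¹ * Λ ((x, N), 2)) := by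
      field_simp
    rw [h2, this]
    split_ifs
    · field_simp
    · ring
  · intro h
    rw [hiff] at h
    -- the cycle of x does not contain g
    have hgx : x ≠ g := by rintro rfl; exact h (Perm.SameCycle.refl _ _)
    obtain ⟨n, hn, hx⟩ := exists_period' hsup x
    have := around hθ0 hnc hA x (fun y => P.SameCycle x y) (fun n => ⟨n, by simp⟩)
      (fun y hy _ => hcl y (by rintro rfl; exact h hy.symm)) (n - 1)
    rw [Nat.sub_add_cancel hn, hx, if_neg (lt_irrefl x), one_mul, hcl x hgx] at this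
    have h3 : ((α * β) ^ 2 - 1) * m2 α β Λ N x = 0 := by
      linear_combination -this
    rcases mul_eq_zero.1 h3 with h4 | h4
    · exact absurd (sub_eq_zero.1 h4) hθ
    · simp only [m2] at h4
      rcases mul_eq_zero.1 h4 with h5 | h5
      · exact absurd h5 (inv_ne_zero (mul_ne_zero hα hβ))
      · exact h5

end rows

end H47Perc
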