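import Pool.Agent.Helper47.Perc.Gen4
import Pool.Agent.Helper47.Perc.Top

/-!
Planarity by counting, part 5: the exploration over a simply connected set `S` satisfies the
assumptions of the abstract theorems.
-/

namespace H47Perc
open Equiv Equiv.Perm Finset

section four
variable {X A : Type*} [Fintype X] [DecidableEq X] [AddCommGroup A]

lemma hol_four {σ : Perm X} {w : X → A} {d : X} (h1 : σ d ≠ d) (h2 : σ (σ d) ≠ d)
    (h3 : σ (σ (σ d)) ≠ d) (h4 : σ (σ (σ (σ d))) = d) :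
    hol σ w d = w d + w (σ d) + w (σ (σ d)) + w (σ (σ (σ d))) := by
  have h := hol_segment (σ := σ) (s := d) (t := σ (σ (σ d))) (d := σ (σ (σ d))) w h4 (n := 3) rfl
    (fun j hj => by
      interval_cases j
      · exact h3.symm
      · intro hh
        exact h2 (σ.injective hh).symm
      · intro hh
        exact h1 (σ.injective (σ.injective hh)).symm)
  rw [swap_self] at h
  have e : σ * (Equiv.refl X) = σ := mul_one σ
  rw [e, sum_range_succ, sum_range_succ, sum_range_succ, sum_range_one] at h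
  exact h

end four

/-- `S` is connected and its boundary is one closed walk: the walk along the boundary (keeping
`S` on the left) passes all exits. -/
structure Simply (S : Finset (ℤ × ℤ)) : Prop where
  conn : ∀ u ∈ S, ∀ v ∈ S, Joined (edgesIn S) u v
  walk : ∀ d d', IsExit S d → IsExit S d' → (confOf (edgesIn S)).perm.SameCycle d d'

variable {S : Finset (ℤ × ℤ)}

lemma fin4_cases (c c' : Fin 4) :
    c' = c ∨ c' = c + 1 ∨ c' = c + 1 + 1 ∨ c' = c + 1 + 1 + 1 := by
  revert c c'; decide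

lemma fin4_facts (c : Fin 4) : c + 1 ≠ c ∧ c + 1 + 1 ≠ c ∧ c + 1 + 1 + 1 ≠ c ∧
    c + 1 + 1 + 1 + 1 = c := by
  revert c; decide

lemma fin4_facts' (c : Fin 4) : c + 3 ≠ c ∧ c + 3 + 3 ≠ c ∧ c + 3 + 3 + 3 ≠ c ∧
    c + 3 + 3 + 3 + 3 = c := by
  revert c; decide

lemma wc_four (c : Fin 4) :
    wc c + wc (c + 1) + wc (c + 1 + 1) + wc (c + 1 + 1 + 1) = ((2, 2) : ℤ × ℤ) := by
  revert c; decide

lemma wc_four' (c : Fin 4) :
    -wc (c + 1) + -wc (c + 3 + 1) + -wc (c + 3 + 3 + 1) + -wc (c + 3 + 3 + 3 + 1)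
      = - ((2, 2) : ℤ × ℤ) := by
  revert c; decide

lemma dir_four (c : Fin 4) : dir c + dir (c + 3) + dir (c + 3 + 3) + dir (c + 3 + 3 + 3) = 0 := by
  fin_cases c <;> rfl

lemma pS_empty (d : ↥(DS S)) : ((pS S ∅ d : ↥(DS S)) : Dart) = (d.1.1, d.1.2 + 1) :=
  pS_closed (by rw [empty_inter]; exact notMem_empty _)

lemma wS_empty (d : ↥(DS S)) : wS S ∅ d = wc d.1.2 := by
  unfold wS
  rw [if_neg]
  rw [empty_inter]; exact notMem_empty _

lemma hol_empty (d : ↥(DS S)) : hol (pS S ∅) (wS S ∅) d = (2, 2) := by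
  have h := fin4_facts d.1.2
  have key : ∀ {e e' : ↥(DS S)}, e = e' → e.1.2 = e'.1.2 := fun h => by rw [h]
  rw [hol_four]
  · rw [wS_empty, wS_empty, wS_empty, wS_empty, pS_empty, pS_empty, pS_empty, pS_empty,
      pS_empty, pS_empty]
    exact wc_four _
  · intro hh
    have := key hh
    rw [pS_empty] at this
    exact h.1 this
  · intro hh
    have := key hh
    rw [pS_empty, pS_empty] at this
    exact h.2.1 this
  · intro hh
    have := key hh
    rw [pS_empty, pS_empty, pS_empty] at this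
    exact h.2.2.1 this
  · apply Subtype.ext
    rw [pS_empty, pS_empty, pS_empty, pS_empty]
    exact Prod.ext rfl h.2.2.2

lemma joined_empty {u v : ℤ × ℤ} (h : Joined ∅ u v) : u = v := by
  obtain ⟨p⟩ := h
  induction p with
  | nil => rfl
  | @cons a b c hab p ih =>
    rw [SimpleGraph.fromEdgeSet_adj] at hab
    exact absurd hab.1 (by simp)

lemma cnS_empty (d d' : ↥(DS S)) (h : cnS S ∅ d d') : cy (pS S ∅) d d' := by
  have h1 : Joined (∅ ∩ edgesIn S) d.1.1 d'.1.1 := h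
  rw [empty_inter] at h1
  have h2 := joined_empty h1
  have st : ∀ e : ↥(DS S), cy (pS S ∅) e (pS S ∅ e) := fun e => cy_apply _ e
  rcases fin4_cases d.1.2 d'.1.2 with h3 | h3 | h3 | h3
  · have : d' = d := Subtype.ext (Prod.ext h2.symm h3)
    rw [this]
  · have : d' = pS S ∅ d := Subtype.ext (by rw [pS_empty]; exact Prod.ext h2.symm h3)
    rw [this]; exact st d
  · have : d' = pS S ∅ (pS S ∅ d) :=
      Subtype.ext (by rw [pS_empty, pS_empty]; exact Prod.ext h2.symm h3)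
    rw [this]
    exact Setoid.trans' _ (st _) (st _)
  · have : d' = pS S ∅ (pS S ∅ (pS S ∅ d)) :=
      Subtype.ext (by rw [pS_empty, pS_empty, pS_empty]; exact Prod.ext h2.symm h3)
    rw [this]
    exact Setoid.trans' _ (Setoid.trans' _ (st _) (st _)) (st _)

/-- a cycle of the full configuration without exits is a unit square -/
lemma hol_square (d : ↥(DS S))
    (h : ∀ e : ↥(DS S), cy (pS S (edgesIn S)) d e → ¬ IsExit S e.1) :
    hol (pS S (edgesIn S)) (wS S (edgesIn S)) d = - (2, 2) := by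
  set σ := pS S (edgesIn S) with hσ
  have op : ∀ e : ↥(DS S), cy σ d e →
      s(e.1.1, e.1.1 + dir e.1.2) ∈ edgesIn S ∩ edgesIn S := by
    intro e he
    rw [inter_self, edge_mem_iff]
    have h1 : e.1.1 ∈ S := mem_DS.1 e.2
    refine ⟨h1, ?_⟩
    by_contra h2
    exact h e he ⟨h1, h2⟩
  have st : ∀ e : ↥(DS S), cy σ d e → cy σ d (σ e) := fun e he =>
    Setoid.trans' _ he (cy_apply _ e)
  have d0 : cy σ d d := Setoid.refl' _ _
  have d1 := st _ d0
  have d2 := st _ d1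
  have d3 := st _ d2
  have v1 : ((σ d : ↥(DS S)) : Dart) = (d.1.1 + dir d.1.2, d.1.2 + 3) := pS_open (op _ d0)
  have v2 : ((σ (σ d) : ↥(DS S)) : Dart) =
      (d.1.1 + dir d.1.2 + dir (d.1.2 + 3), d.1.2 + 3 + 3) := by
    rw [pS_open (op _ d1), v1]
  have v3 : ((σ (σ (σ d)) : ↥(DS S)) : Dart) =
      (d.1.1 + dir d.1.2 + dir (d.1.2 + 3) + dir (d.1.2 + 3 + 3), d.1.2 + 3 + 3 + 3) := by
    rw [pS_open (op _ d2), v2]
  have v4 : ((σ (σ (σ (σ d))) : ↥(DS S)) : Dart) = d.1 := by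
    rw [pS_open (op _ d3), v3]
    have h4 := fin4_facts' d.1.2
    have h5 := dir_four d.1.2
    refine Prod.ext ?_ h4.2.2.2
    simp only
    rw [add_assoc, add_assoc, add_assoc, ← add_assoc (dir d.1.2),
      ← add_assoc (dir d.1.2 + dir (d.1.2 + 3)), h5, add_zero]
  have hf := fin4_facts' d.1.2
  have key : ∀ {e e' : ↥(DS S)}, e = e' → e.1.2 = e'.1.2 := fun h => by rw [h]
  have wo : ∀ e : ↥(DS S), cy σ d e → wS S (edgesIn S) e = - wc (e.1.2 + 1) := by
    intro e he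
    unfold wS
    rw [if_pos (op e he)]
  rw [hol_four]
  · rw [wo _ d0, wo _ d1, wo _ d2, wo _ d3, v1, v2, v3]
    exact wc_four' _
  · intro hh
    have := key hh
    rw [v1] at this
    exact hf.1 this
  · intro hh
    have := key hh
    rw [v2] at this
    exact hf.2.1 this
  · intro hh
    have := key hh
    rw [v3] at this
    exact hf.2.2.1 this
  · exact Subtype.ext v4

/-! ### iterates -/

lemma pS_pow (ω : Finset (Sym2 (ℤ × ℤ))) (hω : ω ⊆ edgesIn S) (d : ↥(DS S)) (n : ℕ) :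
    (((pS S ω ^ n) d : ↥(DS S)) : Dart) = ((confOf ω).perm ^ n) d.1 := by
  induction n with
  | zero => rfl
  | succ n ih =>
    rw [pow_succ', pow_succ', Perm.mul_apply, Perm.mul_apply, ← ih]
    have key : ∀ e : ↥(DS S), ((pS S ω e : ↥(DS S)) : Dart) = (confOf ω).perm e.1 := by
      intro e
      unfold pS
      rw [subtypePerm_apply]
      simp only [inter_eq_left.2 hω]
    exact key _

lemma cy_pS {ω : Finset (Sym2 (ℤ × ℤ))} (hω : ω ⊆ edgesIn S) {d d' : ↥(DS S)} :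
    cy (pS S ω) d d' ↔ (confOf ω).perm.SameCycle d.1 d'.1 := by
  rw [cy_iff]
  unfold pS
  rw [sameCycle_subtypePerm, inter_eq_left.2 hω]

lemma kk_wc (α β : ℂ) (c : Fin 4) : kk α β c = α ^ (wc c).1 * β ^ (wc c).2 := by
  fin_cases c <;> simp [kk, wc]

lemma ph_eq (α β : ℂ) {ω : Finset (Sym2 (ℤ × ℤ))} (hω : ω ⊆ edgesIn S)
    (d : ↥(DS S)) : (confOf ω).ph α β d.1 = α ^ (wS S ω d).1 * β ^ (wS S ω d).2 := by
  unfold Conf.ph wS
  rw [inter_eq_left.2 hω]
  by_cases h : s(d.1.1, d.1.1 + dir d.1.2) ∈ ω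
  · have h' : (confOf ω).o d.1.1 d.1.2 := h
    rw [if_pos h, if_pos h', kk_wc]
    simp only [Prod.fst_neg, Prod.snd_neg, zpow_neg]
    rw [mul_inv]
  · have h' : ¬ (confOf ω).o d.1.1 d.1.2 := h
    rw [if_neg h, if_neg h', kk_wc]

lemma prod_ph {α β : ℂ} (hα : α ≠ 0) (hβ : β ≠ 0) {ω : Finset (Sym2 (ℤ × ℤ))}
    (hω : ω ⊆ edgesIn S) (d : ↥(DS S)) (n : ℕ) :
    ∏ i ∈ range n, (confOf ω).ph α β (((confOf ω).perm ^ i) d.1) =
      α ^ (∑ i ∈ range n, wS S ω ((pS S ω ^ i) d)).1 *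
        β ^ (∑ i ∈ range n, wS S ω ((pS S ω ^ i) d)).2 := by
  induction n with
  | zero => simp
  | succ n ih =>
    rw [prod_range_succ, sum_range_succ, ih, ← pS_pow ω hω, ph_eq α β hω, Prod.fst_add,
      Prod.snd_add, zpow_add₀ hα, zpow_add₀ hβ]
    ring

end H47Perc
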