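import Pool.Agent.Helper47.Perc.Gen5

/-!
Planarity by counting, part 6: the amplitudes at the exits of a simply connected set.
-/

namespace H47Perc
open Equiv Equiv.Perm Finset

variable {S : Finset (ℤ × ℤ)}

lemma exit_closed {ω : Finset (Sym2 (ℤ × ℤ))} {d : Dart} (hd : IsExit S d) :
    s(d.1, d.1 + dir d.2) ∉ ω ∩ edgesIn S := fun h =>
  hd.2 (edge_mem_iff.1 (mem_inter.1 h).2).2

lemma exit_step {ω : Finset (Sym2 (ℤ × ℤ))} {t : ↥(DS S)} (ht : IsExit S t.1) :
    ((pS S ω t : ↥(DS S)) : Dart) = (t.1.1, t.1.2 + 1) := pS_closed (exit_closed ht)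

lemma exit_w {ω : Finset (Sym2 (ℤ × ℤ))} {t : ↥(DS S)} (ht : IsExit S t.1) :
    wS S ω t = wc t.1.2 := by
  unfold wS
  rw [if_neg (exit_closed ht)]

lemma two_zpow {k : ℤ} {n : ℤ} (h : (2 : ℂ) ^ k = 2 ^ n) : k = n := by
  have h1 : ((2 : ℝ) ^ k : ℝ) = 2 ^ n := by
    have h2 : (((2 : ℝ) ^ k : ℝ) : ℂ) = (((2:ℝ) ^ n : ℝ) : ℂ) := by push_cast; exact h
    exact_mod_cast h2
  exact zpow_right_injective₀ (by norm_num) (by norm_num) h1

/-- the first visit of the exit -/
lemma first_visit {X : Type*} [Finite X] {σ : Perm X} {s t d : X} (hts : σ t = s)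
    (h : cy σ t d) : ∃ n, (σ ^ n) s = d ∧ (∀ j < n, (σ ^ j) s ≠ d) ∧ ∀ j < n, (σ ^ j) s ≠ t := by
  classical
  have h1 : cy σ s d := by
    have := cy_apply σ t
    rw [hts] at this
    exact Setoid.trans' _ (Setoid.symm' _ this) h
  have hex : ∃ n : ℕ, (σ ^ n) s = d := (h1 : σ.SameCycle s d).exists_nat_pow_eq
  refine ⟨Nat.find hex, Nat.find_spec hex, fun j hj => Nat.find_min hex hj, ?_⟩
  intro j hj hh
  have h2 : (σ ^ (j+1)) s = s := by rw [pow_succ', Perm.mul_apply, hh, hts]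
  have h3 : (σ ^ (Nat.find hex - (j+1))) s = d := by
    have h4 : (σ ^ (Nat.find hex)) s = (σ ^ (Nat.find hex - (j+1))) ((σ ^ (j+1)) s) := by
      rw [← Perm.mul_apply, ← pow_add]
      congr 2
      omega
    rw [h2] at h4
    rw [← h4]
    exact Nat.find_spec hex
  exact Nat.find_min hex (by omega) h3

/-- the amplitude at a point of the cycle -/
lemma pamp_eq {α β : ℂ} (hα : α ≠ 0) (hβ : β ≠ 0) {ω : Finset (Sym2 (ℤ × ℤ))}
    (hω : ω ⊆ edgesIn S) {s t d : ↥(DS S)} (hts : pS S ω t = s) (h : cy (pS S ω) t d) :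
    pamp (confOf ω).perm ((confOf ω).ph α β) s.1 d.1 =
      α ^ (hol (pS S ω * swap t d) (wS S ω) s - wS S ω d).1 *
        β ^ (hol (pS S ω * swap t d) (wS S ω) s - wS S ω d).2 := by
  obtain ⟨n, hn, hmin, hnt⟩ := first_visit hts h
  rw [hol_segment (wS S ω) hts hn hmin, sum_range_succ, hn, add_sub_cancel_right,
    ← prod_ph hα hβ hω]
  have hsymm : (confOf ω).perm.symm s.1 = t.1 := by
    rw [Equiv.symm_apply_eq]
    have := pS_pow ω hω t 1
    rw [pow_one, pow_one, hts] at this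
    exact this
  apply pamp_of_ch (n := n)
  refine ⟨?_, ?_, rfl⟩
  · rw [← pS_pow ω hω, hn]
  · intro i hi
    rw [hsymm, ← pS_pow ω hω]
    exact fun hh => hnt i hi (Subtype.ext hh)

/-- **Turning number**: the boundary walk of `S` turns once. -/
theorem hol_full (hS : Simply S) {t : ↥(DS S)} (ht : IsExit S t.1) :
    hol (pS S (edgesIn S)) (wS S (edgesIn S)) t = (2, 2) := by
  classical
  -- a highest vertex
  obtain ⟨z, hz, hmax⟩ := exists_max_image S (fun z => z.2) ⟨_, ht.1⟩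
  obtain ⟨g, N⟩ := z
  have hNS : ∀ x, ((x, N + 1) : ℤ × ℤ) ∉ S := fun x hx => by
    have := hmax _ hx
    simp only at this
    omega
  let t0 : ↥(DS S) := ⟨((g, N), 2), mem_DS.2 hz⟩
  let d0 : ↥(DS S) := ⟨((g, N), 3), mem_DS.2 hz⟩
  have ht0 : IsExit S t0.1 := ⟨hz, by
    have : ((g, N) : ℤ × ℤ) + dir 2 = (g, N + 1) := by simp
    change ((g, N) : ℤ × ℤ) + dir 2 ∉ S
    rw [this]
    exact hNS g⟩
  have hstep : pS S (edgesIn S) t0 = d0 := Subtype.ext (by rw [exit_step ht0]; rfl)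
  have hcyc : cy (pS S (edgesIn S)) t t0 := (cy_pS subset_rfl).2 (hS.walk _ _ ht ht0)
  rw [hol_same hcyc]
  have hcyc0 : cy (pS S (edgesIn S)) t0 d0 := by
    have := cy_apply (pS S (edgesIn S)) t0
    rwa [hstep] at this
  rw [hol_same hcyc0]
  -- the sum before the last step
  set M := hol (pS S (edgesIn S) * swap t0 t0) (wS S (edgesIn S)) d0 - wS S (edgesIn S) t0 with hM
  have hsw : pS S (edgesIn S) * swap t0 t0 = pS S (edgesIn S) := by
    rw [swap_self]; exact mul_one _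
  rw [hsw] at hM
  have hw0 : wS S (edgesIn S) t0 = (1, 0) := by
    rw [exit_w ht0]; rfl
  -- bounds
  obtain ⟨B, hB⟩ : ∃ B : ℤ, ∀ z ∈ S, -B ≤ z.1 ∧ z.1 ≤ B ∧ -B ≤ z.2 := by
    refine ⟨∑ z ∈ S, (|z.1| + |z.2|), fun z hz => ?_⟩
    have h1 : |z.1| + |z.2| ≤ ∑ z ∈ S, (|z.1| + |z.2|) :=
      single_le_sum (f := fun z : ℤ × ℤ => |z.1| + |z.2|) (fun _ _ => by positivity) hz
    have h2 := neg_abs_le z.1
    have h3 := le_abs_self z.1
    have h4 := neg_abs_le z.2
    have h5 := abs_nonneg z.1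
    have h6 := abs_nonneg z.2
    refine ⟨by linarith, by linarith, by linarith⟩
  have top : ∀ α β : ℂ, α ≠ 0 → β ≠ 0 → (α * β) ^ 2 ≠ 1 → α ^ M.1 * β ^ M.2 = α * β ^ 2 := by
    intro α β hα hβ hθ
    have hp := pamp_eq hα hβ (subset_refl (edgesIn S)) hstep
      (Setoid.refl' (cy (pS S (edgesIn S))) t0)
    rw [hsw, ← hM] at hp
    rw [← hp]
    have hsymm : (confOf (edgesIn S)).perm.symm d0.1 = t0.1 := by
      rw [Equiv.symm_apply_eq]
      have := pS_pow (edgesIn S) subset_rfl t0 1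
      rw [pow_one, pow_one, hstep] at this
      exact this
    have hA : (confOf (edgesIn S)).IsAmp α β ((g, N), 2)
        (pamp (confOf (edgesIn S)).perm ((confOf (edgesIn S)).ph α β) d0.1) := by
      intro d hd
      apply pamp_step
      rw [hsymm]
      exact hd
    have h1 := ((confOf (edgesIn S)).top α β hα hβ hθ N B
      (fun z c h => hB z (edge_mem_iff.1 (h : s(z, z + dir c) ∈ edgesIn S)).1)
      (fun x h => by
        have h2 := (edge_mem_iff.1 (h : s((x, N), (x, N) + dir 2) ∈ edgesIn S)).2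
        have h3 : ((x, N) : ℤ × ℤ) + dir 2 = (x, N + 1) := by simp
        rw [h3] at h2
        exact hNS x h2) g _ hA g).1 Relation.ReflTransGen.refl
    rw [if_neg (lt_irrefl g)] at h1
    have h2 : pamp (confOf (edgesIn S)).perm ((confOf (edgesIn S)).ph α β) d0.1 d0.1 = 1 :=
      pamp_self _ _ _
    change pamp (confOf (edgesIn S)).perm ((confOf (edgesIn S)).ph α β) d0.1 ((g, N), 2) = _
    rw [h1]
    change α * β ^ 2 * pamp (confOf (edgesIn S)).perm ((confOf (edgesIn S)).ph α β) d0.1 d0.1 = _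
    rw [h2, mul_one]
  have m1 : M.1 = 1 := by
    have := top 2 1 (by norm_num) (by norm_num) (by norm_num)
    rw [one_zpow, mul_one, one_pow, mul_one] at this
    exact two_zpow (by rw [this, zpow_one])
  have m2 : M.2 = 2 := by
    have := top 1 2 (by norm_num) (by norm_num) (by norm_num)
    rw [one_zpow, one_mul, one_mul] at this
    exact two_zpow (by rw [this]; norm_num)
  have h3 : hol (pS S (edgesIn S)) (wS S (edgesIn S)) d0 = M + wS S (edgesIn S) t0 := by
    rw [hM]; abel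
  rw [h3, hw0]
  exact Prod.ext (by rw [Prod.fst_add, m1]; rfl) (by rw [Prod.snd_add, m2]; rfl)

/-- the dart after an exit -/
def aft (t : ↥(DS S)) : ↥(DS S) :=
  ⟨(t.1.1, t.1.2 + 1), mem_DS.2 (show t.1.1 ∈ S from mem_DS.1 t.2)⟩

lemma aft_eq {ω : Finset (Sym2 (ℤ × ℤ))} {t : ↥(DS S)} (ht : IsExit S t.1) :
    pS S ω t = aft t := Subtype.ext (exit_step ht)

/-- the exploration over a simply connected set started at an exit -/
theorem good_dsys (hS : Simply S) {t : ↥(DS S)} (ht : IsExit S t.1) :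
    (dsys S t).Good (aft t) := by
  have hcyc : cy (pS S (edgesIn S)) t (aft t) := by
    have := cy_apply (pS S (edgesIn S)) t
    rwa [aft_eq ht] at this
  have hH : (dsys S t).HH (dsys S t).m (aft t) := by
    refine ⟨?_, ?_⟩
    · change hol (pS S (edgesIn S)) (wS S (edgesIn S)) (aft t) = (2, 2)
      rw [← hol_same hcyc]
      exact hol_full hS ht
    · intro d _ hsd
      change hol (pS S (edgesIn S)) (wS S (edgesIn S)) d = - (2, 2)
      apply hol_square
      intro e he hex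
      apply hsd
      have h1 : cy (pS S (edgesIn S)) t e := (cy_pS subset_rfl).2 (hS.walk _ _ ht hex)
      exact Setoid.trans' _ (Setoid.symm' _ hcyc) (Setoid.trans' _ h1 (Setoid.symm' _ he))
  have hc : ∀ d d', (dsys S t).cn (dsys S t).m d d' := by
    intro d d'
    change Joined (edgesIn S ∩ edgesIn S) d.1.1 d'.1.1
    rw [inter_self]
    exact hS.conn _ (mem_DS.1 d.2) _ (mem_DS.1 d'.2)
  refine ⟨?_, hH, fun e _ => hc _ _, fun d _ => hol_empty d⟩
  exact Sys.gen_of_weights hc hH (fun d => hol_empty d) (fun d d' h => cnS_empty d d' h)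
    (fun n hn => by
      have := congrArg Prod.fst hn
      change n • (2:ℤ) = 0 at this
      simpa using this)

lemma exit_ne {t d : ↥(DS S)} (hd : IsExit S d.1) : ∀ e ∈ (dsys S t).m,
    d ≠ (dsys S t).x e ∧ d ≠ (dsys S t).y e := by
  intro e he
  have hem : e ∈ edgesIn S := he
  have hxe : e = ed (xD e) := xD_spec hem
  have hnot : ed d.1 ∉ edgesIn S := fun h => hd.2 (edge_mem_iff.1 h).2
  constructor
  · intro h
    apply hnot
    rw [h]
    change ed (xS S t e).1 ∈ edgesIn S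
    rw [xS_val hem, ← hxe]
    exact hem
  · intro h
    apply hnot
    rw [h]
    change ed (yS S t e).1 ∈ edgesIn S
    rw [yS_val hem, ed_opp, ← hxe]
    exact hem

/-- **Amplitudes at the exits.** -/
theorem amp_exit (hS : Simply S) {t d : ↥(DS S)} (ht : IsExit S t.1) (hd : IsExit S d.1)
    {ω : Finset (Sym2 (ℤ × ℤ))} (hω : ω ⊆ edgesIn S) {α β : ℂ} (hα : α ≠ 0) (hβ : β ≠ 0) :
    (Joined ω t.1.1 d.1.1 →
      pamp (confOf ω).perm ((confOf ω).ph α β) (aft t).1 d.1 =
      pamp (confOf (edgesIn S)).perm ((confOf (edgesIn S)).ph α β) (aft t).1 d.1) ∧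
    (¬ Joined ω t.1.1 d.1.1 → pamp (confOf ω).perm ((confOf ω).ph α β) (aft t).1 d.1 = 0) := by
  have G := good_dsys hS ht
  have hm : cy (pS S (edgesIn S)) t d := (cy_pS subset_rfl).2 (hS.walk _ _ ht hd)
  constructor
  · intro hj
    have hc : cy (pS S ω) t d := by
      apply Sys.exit_cycle (S := dsys S t) G.hg (fun d d' h => cnS_empty d d' h) hm
        (exit_ne ht) (exit_ne hd) hω
      change Joined (ω ∩ edgesIn S) t.1.1 d.1.1
      rwa [inter_eq_left.2 hω]
    rw [pamp_eq hα hβ hω (aft_eq ht) hc, pamp_eq hα hβ subset_rfl (aft_eq ht) hm]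
    have key : hol (pS S ω * swap t d) (wS S ω) (aft t) - wS S ω d =
        hol (pS S (edgesIn S) * swap t d) (wS S (edgesIn S)) (aft t) - wS S (edgesIn S) d := by
      by_cases htd : t = d
      · subst htd
        have e1 : hol (pS S ω) (wS S ω) (aft t) = (2, 2) := G.hol_eq hω
        have e2 : hol (pS S (edgesIn S)) (wS S (edgesIn S)) (aft t) = (2, 2) :=
          G.hol_eq subset_rfl
        have s1 : pS S ω * swap t t = pS S ω := by rw [swap_self]; exact mul_one _
        have s2 : pS S (edgesIn S) * swap t t = pS S (edgesIn S) := by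
          rw [swap_self]; exact mul_one _
        rw [s1, s2, e1, e2, exit_w ht, exit_w ht]
      · exact Sys.exit_hol (S := dsys S t) G (fun d d' h => cnS_empty d d' h)
          (fun ω _ => aft_eq ht) hm htd (exit_ne ht) (exit_ne hd) hω hc
    rw [key]
  · intro hj
    apply pamp_off
    rintro ⟨c, n, hch⟩
    apply hj
    have h1 : (pS S ω ^ n) (aft t) = d := Subtype.ext (by rw [pS_pow ω hω]; exact hch.1)
    have h2 : cy (pS S ω) (aft t) d := ⟨(n:ℤ), by rw [zpow_natCast]; exact h1⟩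
    have h3 : Joined (ω ∩ edgesIn S) (aft t).1.1 d.1.1 := (dsys S t).hle ω hω _ _ h2
    rwa [inter_eq_left.2 hω] at h3

/-- amplitude at the last dart -/
theorem amp_last (hS : Simply S) {t : ↥(DS S)} (ht : IsExit S t.1)
    {ω : Finset (Sym2 (ℤ × ℤ))} (hω : ω ⊆ edgesIn S) {α β : ℂ} (hα : α ≠ 0) (hβ : β ≠ 0) :
    kk α β t.1.2 * pamp (confOf ω).perm ((confOf ω).ph α β) (aft t).1 t.1 = (α * β) ^ 2 := by
  have G := good_dsys hS ht
  have e1 : hol (pS S ω) (wS S ω) (aft t) = (2, 2) := G.hol_eq hω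
  have s1 : pS S ω * swap t t = pS S ω := by rw [swap_self]; exact mul_one _
  rw [pamp_eq hα hβ hω (aft_eq ht) (Setoid.refl' _ t), s1, e1, exit_w ht, kk_wc, Prod.fst_sub,
    Prod.snd_sub, zpow_sub₀ hα, zpow_sub₀ hβ]
  have h1 := zpow_ne_zero (wc t.1.2).1 hα
  have h2 := zpow_ne_zero (wc t.1.2).2 hβ
  field_simp
  norm_cast

end H47Perc
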