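import Pool.Agent.Helper47.Perc.Gen6

/-!
The contour identity for a simply connected set `S` and an arbitrary exit.
-/

namespace H47Perc
open Finset Equiv

section gamp
variable (α β : ℂ)

/-- the path amplitude of the configuration `ω` started after the exit `t` -/
noncomputable def gamp (t : Dart) (ω : Finset (Sym2 (ℤ × ℤ))) (d : Dart) : ℂ :=
  pamp (confOf ω).perm ((confOf ω).ph α β) (t.1, t.2 + 1) d

variable {α β}
variable {S : Finset (ℤ × ℤ)} {t : Dart} {ω : Finset (Sym2 (ℤ × ℤ))}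

lemma gamp_start : gamp α β t ω (t.1, t.2 + 1) = 1 := pamp_self _ _ _

lemma exit_perm (ht : IsExit S t) (hω : ω ⊆ edgesIn S) :
    (confOf ω).perm t = (t.1, t.2 + 1) := by
  obtain ⟨z, c⟩ := t
  rw [Conf.perm_apply]
  exact (confOf ω).nxt_closed fun h => ht.2 (confOf_mem hω z c h).2

lemma exit_symm (ht : IsExit S t) (hω : ω ⊆ edgesIn S) :
    (confOf ω).perm.symm (t.1, t.2 + 1) = t := by
  rw [Equiv.symm_apply_eq]
  exact (exit_perm ht hω).symm

lemma gamp_step (ht : IsExit S t) (hω : ω ⊆ edgesIn S) {d : Dart} (hd : d ≠ t) :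
    gamp α β t ω ((confOf ω).perm d) = (confOf ω).ph α β d * gamp α β t ω d := by
  apply pamp_step
  rw [exit_symm ht hω]
  exact hd

lemma gamp_last (hS : Simply S) (ht : IsExit S t) (hω : ω ⊆ edgesIn S) (hα : α ≠ 0)
    (hβ : β ≠ 0) : kk α β t.2 * gamp α β t ω t = (α * β) ^ 2 :=
  amp_last hS (t := ⟨t, mem_DS.2 ht.1⟩) ht hω hα hβ

lemma gamp_exit (hS : Simply S) {d : Dart} (ht : IsExit S t) (hd : IsExit S d)
    (hω : ω ⊆ edgesIn S) (hα : α ≠ 0) (hβ : β ≠ 0) :
    (Joined ω t.1 d.1 → gamp α β t ω d = gamp α β t (edgesIn S) d) ∧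
    (¬ Joined ω t.1 d.1 → gamp α β t ω d = 0) :=
  amp_exit hS (t := ⟨t, mem_DS.2 ht.1⟩) (d := ⟨d, mem_DS.2 hd.1⟩) ht hd hω hα hβ

/-- the sum over all darts of one configuration -/
lemma gen_dart_sum (hS : Simply S) (ht : IsExit S t) (hω : ω ⊆ edgesIn S) (hα : α ≠ 0)
    (hβ : β ≠ 0) :
    ∑ d ∈ (DS S).erase t, ((confOf ω).ph α β d - 1) * gamp α β t ω d =
      (α * β) ^ 2 * (kk α β t.2)⁻¹ - 1 := by
  have h1 : ∑ d ∈ DS S, gamp α β t ω ((confOf ω).perm d) = ∑ d ∈ DS S, gamp α β t ω d :=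
    sum_equiv (confOf ω).perm (fun d => nxt_mem_DS (confOf_mem hω) d) (fun _ _ => rfl)
  have ht' : t ∈ DS S := mem_DS.2 ht.1
  rw [← add_sum_erase _ _ ht', ← add_sum_erase _ _ ht', exit_perm ht hω, gamp_start] at h1
  have h3 : gamp α β t ω t = (α * β) ^ 2 * (kk α β t.2)⁻¹ := by
    have := gamp_last hS ht hω hα hβ (α := α) (β := β)
    have hk := kk_ne_zero' hα hβ t.2
    rw [← this]
    field_simp
  rw [h3] at h1
  have h4 : ∑ d ∈ (DS S).erase t, gamp α β t ω ((confOf ω).perm d) =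
      ∑ d ∈ (DS S).erase t, (confOf ω).ph α β d * gamp α β t ω d := by
    apply sum_congr rfl
    intro d hd
    exact gamp_step ht hω (ne_of_mem_erase hd)
  rw [h4] at h1
  simp only [sub_mul, one_mul, sum_sub_distrib]
  linear_combination h1

end gamp

/-- opening an edge: the splice identity for configurations -/
lemma gen_splice {α β w : ℂ} (hα : α ≠ 0) (hβ : β ≠ 0)
    (hw : w ^ 2 = w - 1) (hαβ : α * β = w ^ 2) {S : Finset (ℤ × ℤ)} (hS : Simply S)
    {t : Dart} (ht : IsExit S t)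
    {ω : Finset (Sym2 (ℤ × ℤ))} (hω : ω ⊆ edgesIn S) {z : ℤ × ℤ} {c : Fin 4} (hz : z ∈ S)
    (hz' : z + dir c ∈ S) (hcl : s(z, z + dir c) ∉ ω) :
    gamp α β t (insert s(z, z + dir c) ω) (z, c) +
      gamp α β t (insert s(z, z + dir c) ω) (z + dir c, c + 2) =
    w * (gamp α β t ω (z, c) + gamp α β t ω (z + dir c, c + 2)) := by
  classical
  set ω' := insert s(z, z + dir c) ω with hω'
  have he : s(z, z + dir c) ∈ edgesIn S := by
    rw [mem_edgesIn]; exact ⟨hz, hz', adj_dir z c⟩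
  have hω1 : ω' ⊆ edgesIn S := insert_subset he hω
  have hC := confOf_mem hω
  have hs := exit_symm ht hω
  have c1 : c + 2 + 1 = c + 3 := by rw [add_assoc]; rfl
  have c2 : c + 2 + 3 = c + 1 := by rw [add_assoc]; rfl
  have hrev : z + dir c + dir (c + 2) = z := by rw [dir_add_two]; abel
  have oA : ¬ (confOf ω).o z c := hcl
  have oA' : ¬ (confOf ω).o (z + dir c) (c + 2) := by
    rw [(confOf ω).symm]; exact hcl
  have oB : (confOf ω').o z c := mem_insert_self _ _
  have oB' : (confOf ω').o (z + dir c) (c + 2) := by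
    rw [(confOf ω').symm]; exact mem_insert_self _ _
  have oo : ∀ d : Dart, d ≠ (z, c) → d ≠ (z + dir c, c + 2) →
      ((confOf ω').o d.1 d.2 ↔ (confOf ω).o d.1 d.2) := by
    rintro ⟨z', c'⟩ h1 h2
    rw [confOf_o, confOf_o, hω', mem_insert]
    constructor
    · rintro (h | h)
      · rcases edge_eq h with h | h
        · exact absurd h h1
        · exact absurd h h2
      · exact h
    · exact Or.inr
  have hperm : (confOf ω').perm = (confOf ω).perm * swap (z, c) (z + dir c, c + 2) := by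
    ext1 d
    rw [Perm.mul_apply]
    by_cases h1 : d = (z, c)
    · subst h1
      rw [swap_apply_left, Conf.perm_apply, Conf.perm_apply, (confOf ω').nxt_open oB,
        (confOf ω).nxt_closed oA', c1]
    · by_cases h2 : d = (z + dir c, c + 2)
      · subst h2
        rw [swap_apply_right, Conf.perm_apply, Conf.perm_apply, (confOf ω').nxt_open oB',
          (confOf ω).nxt_closed oA, c2, hrev]
      · rw [swap_apply_of_ne_of_ne h1 h2, Conf.perm_apply, Conf.perm_apply]
        unfold Conf.nxt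
        simp only [oo d h1 h2]
  have phne : ∀ (C : Conf) d, C.ph α β d ≠ 0 := by
    intro C d
    unfold Conf.ph
    split_ifs
    · exact inv_ne_zero (kk_ne_zero' hα hβ _)
    · exact kk_ne_zero' hα hβ _
  have hAt : ((z, c) : Dart) ≠ t := by
    rintro rfl
    exact ht.2 hz'
  have hA't : ((z + dir c, c + 2) : Dart) ≠ t := by
    rintro rfl
    apply ht.2
    simp only
    rw [hrev]
    exact hz
  unfold gamp
  refine splice (confOf ω).perm (t.1, t.2 + 1) (z, c) (z + dir c, c + 2) ((confOf ω).ph α β)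
    ((confOf ω').ph α β) (kk α β c) ((kk α β (c + 1))⁻¹) w ?_ (phne _) (phne _) ?_ ?_ ?_ ?_ ?_ hw ?_
    (by rw [hs]; exact hAt) (by rw [hs]; exact hA't) (conf_periodic hC) _ hperm ?_
  · intro h
    rw [Prod.mk.injEq] at h
    have := h.2
    revert this
    fin_cases c <;> decide
  · intro d h1 h2
    unfold Conf.ph
    simp only [oo d h1 h2]
  · unfold Conf.ph
    exact if_neg oA
  · unfold Conf.ph
    rw [if_neg oA', kk_add_two]
  · unfold Conf.ph
    exact if_pos oB
  · unfold Conf.ph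
    rw [if_pos oB']
    simp only
    rw [show c + 2 + 1 = c + 1 + 2 by rw [add_right_comm], kk_add_two]
  · rw [← hαβ, ← kk_mul α β c]
    have := kk_ne_zero' hα hβ (c + 1)
    field_simp
  · rw [hs]
    have e1 := gamp_last hS ht hω hα hβ (α := α) (β := β)
    have e2 := gamp_last hS ht hω1 hα hβ (α := α) (β := β)
    have e3 := e1.trans e2.symm
    have := mul_left_cancel₀ (kk_ne_zero' hα hβ t.2) e3
    exact this

/-- the contribution of one dart -/
noncomputable def gcontr (p : Sym2 (ℤ × ℤ) → ℝ) (S : Finset (ℤ × ℤ)) (α β : ℂ) (t d : Dart) : ℂ :=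
  ∑ ω ∈ (edgesIn S).powerset, wt p S ω *
    (((confOf ω).ph α β d - 1) * gamp α β t ω d)

/-- interior edges do not contribute -/
lemma gcontr_interior {α β w : ℂ} (hα : α ≠ 0) (hβ : β ≠ 0)
    (hw : w ^ 2 = w - 1) (hαβ : α * β = w ^ 2) {S : Finset (ℤ × ℤ)} (hS : Simply S)
    {t : Dart} (ht : IsExit S t)
    (p : Sym2 (ℤ × ℤ) → ℝ) {z : ℤ × ℤ} {c : Fin 4} (hz : z ∈ S) (hz' : z + dir c ∈ S)
    (hp : (1 - (p s(z, z + dir c) : ℂ)) * (kk α β c - 1) +
      p s(z, z + dir c) * (((kk α β (c + 1))⁻¹ - 1) * w) = 0) :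
    gcontr p S α β t (z, c) + gcontr p S α β t (z + dir c, c + 2) = 0 := by
  classical
  have he : s(z, z + dir c) ∈ edgesIn S := by
    rw [mem_edgesIn]; exact ⟨hz, hz', adj_dir z c⟩
  unfold gcontr
  rw [← sum_add_distrib]
  simp only [← mul_add]
  rw [sum_wt_insert p S he (fun ω => ((confOf ω).ph α β (z, c) - 1) * gamp α β t ω (z, c) +
    ((confOf ω).ph α β (z + dir c, c + 2) - 1) * gamp α β t ω (z + dir c, c + 2))]
  apply sum_eq_zero
  intro ω hω
  rw [mem_powerset] at hω
  have hcl : s(z, z + dir c) ∉ ω := fun h => notMem_erase _ _ (hω h)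
  have hω' : ω ⊆ edgesIn S := hω.trans (erase_subset _ _)
  have hsp := gen_splice hα hβ hw hαβ hS ht hω' hz hz' hcl
  have oA' : ¬ (confOf ω).o (z + dir c) (c + 2) := by
    rw [(confOf ω).symm]; exact hcl
  have oB' : (confOf (insert s(z, z + dir c) ω)).o (z + dir c) (c + 2) := by
    rw [(confOf (insert s(z, z + dir c) ω)).symm]; exact mem_insert_self _ _
  have p1 : (confOf ω).ph α β (z, c) = kk α β c := by
    unfold Conf.ph; exact if_neg hcl
  have p2 : (confOf ω).ph α β (z + dir c, c + 2) = kk α β c := by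
    unfold Conf.ph; rw [if_neg oA', kk_add_two]
  have p3 : (confOf (insert s(z, z + dir c) ω)).ph α β (z, c) = (kk α β (c + 1))⁻¹ := by
    unfold Conf.ph; exact if_pos (mem_insert_self _ _)
  have p4 : (confOf (insert s(z, z + dir c) ω)).ph α β (z + dir c, c + 2) =
      (kk α β (c + 1))⁻¹ := by
    unfold Conf.ph
    rw [if_pos oB']
    simp only
    rw [show c + 2 + 1 = c + 1 + 2 by rw [add_right_comm], kk_add_two]
  simp only [p1, p2, p3, p4]
  have : (1 - (p s(z, z + dir c) : ℂ)) * ((kk α β c - 1) * gamp α β t ω (z, c) +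
      (kk α β c - 1) * gamp α β t ω (z + dir c, c + 2)) +
      p s(z, z + dir c) * (((kk α β (c + 1))⁻¹ - 1) *
        gamp α β t (insert s(z, z + dir c) ω) (z, c) +
      ((kk α β (c + 1))⁻¹ - 1) *
        gamp α β t (insert s(z, z + dir c) ω) (z + dir c, c + 2)) = 0 := by
    linear_combination (gamp α β t ω (z, c) + gamp α β t ω (z + dir c, c + 2)) * hp +
      p s(z, z + dir c) * ((kk α β (c + 1))⁻¹ - 1) * hsp
  rw [this, mul_zero]

/-- exits contribute the connection probability -/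
lemma gcontr_exit {α β : ℂ} (hα : α ≠ 0) (hβ : β ≠ 0) (p : Sym2 (ℤ × ℤ) → ℝ)
    {S : Finset (ℤ × ℤ)} (hS : Simply S) {t d : Dart} (ht : IsExit S t) (hd : IsExit S d) :
    gcontr p S α β t d = (kk α β d.2 - 1) * gamp α β t (edgesIn S) d *
      (perc p S (fun ω => Joined ω t.1 d.1) : ℝ) := by
  classical
  rw [perc_eq_sum, mul_sum]
  unfold gcontr
  apply sum_congr rfl
  intro ω hω
  rw [mem_powerset] at hω
  have hcl : ¬ (confOf ω).o d.1 d.2 := fun h => hd.2 (confOf_mem hω _ _ h).2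
  have p1 : (confOf ω).ph α β d = kk α β d.2 := by
    unfold Conf.ph; exact if_neg hcl
  rw [p1]
  have hk := gamp_exit hS ht hd hω hα hβ (α := α) (β := β)
  by_cases hj : Joined ω t.1 d.1
  · rw [if_pos hj, hk.1 hj]
    ring
  · rw [if_neg hj, hk.2 hj]
    ring

open Classical in
/-- **The contour identity** for all simply connected lattice domains: for an exit `t`, the
probabilities that `t` is joined to the other exits `d`, multiplied by the phase of the part of
the boundary from `t` to `d`, satisfy a linear relation. -/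
theorem gen_contour {α β w : ℂ} (hα : α ≠ 0) (hβ : β ≠ 0)
    (hw : w ^ 2 = w - 1) (hαβ : α * β = w ^ 2) {S : Finset (ℤ × ℤ)} (hS : Simply S)
    {t : Dart} (ht : IsExit S t) (p : Sym2 (ℤ × ℤ) → ℝ)
    (hp : ∀ z c, (1 - (p s(z, z + dir c) : ℂ)) * (kk α β c - 1) +
      p s(z, z + dir c) * (((kk α β (c + 1))⁻¹ - 1) * w) = 0) :
    ∑ d ∈ ((DS S).erase t).filter (fun d => d.1 + dir d.2 ∉ S),
      (kk α β d.2 - 1) * gamp α β t (edgesIn S) d *
        (perc p S (fun ω => Joined ω t.1 d.1) : ℝ) =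
      (α * β) ^ 2 * (kk α β t.2)⁻¹ - 1 := by
  -- all darts
  have h1 : ∑ d ∈ (DS S).erase t, gcontr p S α β t d = (α * β) ^ 2 * (kk α β t.2)⁻¹ - 1 := by
    unfold gcontr
    rw [sum_comm]
    simp only [← mul_sum]
    calc ∑ ω ∈ (edgesIn S).powerset, wt p S ω *
          ∑ d ∈ (DS S).erase t, ((confOf ω).ph α β d - 1) * gamp α β t ω d
        = ∑ ω ∈ (edgesIn S).powerset, wt p S ω * ((α * β) ^ 2 * (kk α β t.2)⁻¹ - 1) := by
          apply sum_congr rfl
          intro ω hω
          rw [mem_powerset] at hω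
          rw [gen_dart_sum hS ht hω hα hβ]
      _ = (α * β) ^ 2 * (kk α β t.2)⁻¹ - 1 := by rw [← sum_mul, wt_total, one_mul]
  rw [← sum_filter_add_sum_filter_not _ (fun d : Dart => d.1 + dir d.2 ∉ S)] at h1
  have h2 : ∑ d ∈ ((DS S).erase t).filter (fun d => ¬ d.1 + dir d.2 ∉ S),
      gcontr p S α β t d = 0 := by
    apply sum_involution (fun (d : Dart) _ => ((d.1 + dir d.2, d.2 + 2) : Dart))
    · rintro ⟨z, c⟩ hd
      rw [mem_filter, mem_erase, mem_DS, not_not] at hd
      exact gcontr_interior hα hβ hw hαβ hS ht p hd.1.2 hd.2 (hp z c)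
    · rintro ⟨z, c⟩ hd _ h
      rw [Prod.mk.injEq] at h
      have h5 : c + 2 = c := h.2
      clear h hd
      revert h5
      fin_cases c <;> decide
    · rintro ⟨z, c⟩ hd
      rw [mem_filter, mem_erase, mem_DS, not_not] at hd ⊢
      simp only at hd ⊢
      have hrev : z + dir c + dir (c + 2) = z := by rw [dir_add_two]; abel
      refine ⟨⟨?_, hd.2⟩, by rw [hrev]; exact hd.1.2⟩
      rintro rfl
      apply ht.2
      simp only
      rw [hrev]
      exact hd.1.2
    · rintro ⟨z, c⟩ hd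
      have hrev : z + dir c + dir (c + 2) = z := by rw [dir_add_two]; abel
      simp only [hrev, Prod.mk.injEq, true_and]
      fin_cases c <;> rfl
  rw [h2, add_zero] at h1
  rw [← h1]
  apply sum_congr rfl
  intro d hd
  rw [mem_filter, mem_erase, mem_DS] at hd
  exact (gcontr_exit hα hβ p hS ht ⟨hd.1.2, hd.2⟩).symm

end H47Perc
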