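import Pool.Agent.Helper47.Perc.Gen7

/-!
The walk along the exits of a set `S`, and the contour identity in terms of the winding of the
boundary.
-/

namespace H47Perc
open Finset Equiv

/-- the three cases -/
lemma nx_cases (S : Finset (ℤ × ℤ)) (z : ℤ × ℤ) (c : Fin 4) :
    (z + dir (c + 1) ∉ S ∧ nx S (z, c) = (z, c + 1) ∧ tn S (z, c) = 1) ∨
    (z + dir (c + 1) ∈ S ∧ z + dir (c + 1) + dir c ∉ S ∧ nx S (z, c) = (z + dir (c + 1), c) ∧
      tn S (z, c) = 0) ∨
    (z + dir (c + 1) ∈ S ∧ z + dir (c + 1) + dir c ∈ S ∧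
      nx S (z, c) = (z + dir (c + 1) + dir c, c + 3) ∧ tn S (z, c) = -1) := by
  unfold nx tn
  simp only
  by_cases h1 : z + dir (c + 1) ∈ S
  · by_cases h2 : z + dir (c + 1) + dir c ∈ S
    · right; right
      simp [h1, h2]
    · right; left
      simp [h1, h2]
  · left
    simp [h1]

lemma dir_add_three (c : Fin 4) : dir (c + 1) + dir (c + 3) = 0 := by
  fin_cases c <;> rfl

variable {S : Finset (ℤ × ℤ)}

lemma nx_exit {d : Dart} (hd : IsExit S d) : IsExit S (nx S d) := by
  obtain ⟨z, c⟩ := d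
  rcases nx_cases S z c with ⟨h1, h2, _⟩ | ⟨h1, h2, h3, _⟩ | ⟨h1, h2, h3, _⟩
  · rw [h2]; exact ⟨hd.1, h1⟩
  · rw [h3]; exact ⟨h1, h2⟩
  · rw [h3]
    refine ⟨h2, ?_⟩
    have e : z + dir (c + 1) + dir c + dir (c + 3) = z + dir c := by
      have := dir_add_three c
      calc z + dir (c + 1) + dir c + dir (c + 3) = z + (dir (c + 1) + dir (c + 3)) + dir c := by
            abel
        _ = z + dir c := by rw [this, add_zero]
    simp only
    rw [e]
    exact hd.2

/-- the intermediate darts between two exits -/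
lemma nx_perm {d : Dart} (hd : IsExit S d) :
    ∃ a : ℕ, 0 < a ∧ ((confOf (edgesIn S)).perm ^ a) d = nx S d ∧
      ∀ i, 0 < i → i < a → ¬ IsExit S (((confOf (edgesIn S)).perm ^ i) d) := by
  obtain ⟨z, c⟩ := d
  have p1 : (confOf (edgesIn S)).perm (z, c) = (z, c + 1) :=
    (confOf (edgesIn S)).nxt_closed fun h => hd.2 (edge_mem_iff.1 h).2
  have p2 : z + dir (c + 1) ∈ S →
      (confOf (edgesIn S)).perm (z, c + 1) = (z + dir (c + 1), c) := by
    intro h
    have := (confOf (edgesIn S)).nxt_open (z := z) (c := c + 1) (edge_mem_iff.2 ⟨hd.1, h⟩)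
    rw [Conf.perm_apply, this]
    have h4 : c + 1 + 3 = c := by rw [add_assoc]; exact add_zero c
    rw [h4]
  have p3 : z + dir (c + 1) ∈ S → z + dir (c + 1) + dir c ∈ S →
      (confOf (edgesIn S)).perm (z + dir (c + 1), c) = (z + dir (c + 1) + dir c, c + 3) := by
    intro h h'
    exact (confOf (edgesIn S)).nxt_open (edge_mem_iff.2 ⟨h, h'⟩)
  rcases nx_cases S z c with ⟨h1, h2, _⟩ | ⟨h1, h2, h3, _⟩ | ⟨h1, h2, h3, _⟩
  · refine ⟨1, by norm_num, by rw [pow_one, p1, h2], fun i hi hi' => by omega⟩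
  · refine ⟨2, by norm_num, by rw [pow_two, Perm.mul_apply, p1, p2 h1, h3], fun i hi hi' => ?_⟩
    have : i = 1 := by omega
    subst this
    rw [pow_one, p1]
    exact fun h => h.2 h1
  · refine ⟨3, by norm_num, ?_, fun i hi hi' => ?_⟩
    · rw [pow_succ', pow_two, Perm.mul_apply, Perm.mul_apply, p1, p2 h1, p3 h1 h2, h3]
    · have : i = 1 ∨ i = 2 := by omega
      rcases this with rfl | rfl
      · rw [pow_one, p1]
        exact fun h => h.2 h1
      · rw [pow_two, Perm.mul_apply, p1, p2 h1]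
        exact fun h => h.2 h2

lemma iter_exit {t : Dart} (ht : IsExit S t) (j : ℕ) : IsExit S ((nx S)^[j] t) := by
  induction j with
  | zero => exact ht
  | succ j ih => rw [Function.iterate_succ_apply']; exact nx_exit ih

lemma iter_same {t : Dart} (ht : IsExit S t) (j : ℕ) :
    (confOf (edgesIn S)).perm.SameCycle t ((nx S)^[j] t) := by
  induction j with
  | zero => exact Perm.SameCycle.refl _ _
  | succ j ih =>
    rw [Function.iterate_succ_apply']
    obtain ⟨a, _, h, _⟩ := nx_perm (iter_exit ht j)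
    exact ih.trans ⟨(a : ℤ), by rw [zpow_natCast]; exact h⟩

/-- `S` is simply connected once the exits form one cycle -/
lemma simply_of_iter (hconn : ∀ u ∈ S, ∀ v ∈ S, Joined (edgesIn S) u v) (r : Dart)
    (h : ∀ d, IsExit S d → ∃ j, (nx S)^[j] d = r) : Simply S := by
  refine ⟨hconn, fun d d' hd hd' => ?_⟩
  obtain ⟨j, hj⟩ := h d hd
  obtain ⟨j', hj'⟩ := h d' hd'
  have h1 := iter_same hd j
  have h2 := iter_same hd' j'
  rw [hj] at h1
  rw [hj'] at h2
  exact h1.trans h2.symm

/-- the exits of the cycle of the full configuration are visited by the walk -/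
lemma iter_of_pow (k : ℕ) : ∀ {t d : Dart}, IsExit S t → IsExit S d →
    ((confOf (edgesIn S)).perm ^ k) t = d → ∃ j, (nx S)^[j] t = d := by
  induction k using Nat.strong_induction_on with
  | _ k ih =>
    intro t d ht hd h
    rcases Nat.eq_zero_or_pos k with rfl | hk
    · exact ⟨0, by simpa using h⟩
    · obtain ⟨a, ha, hat, hint⟩ := nx_perm ht
      by_cases hka : k < a
      · exact absurd (h ▸ hd) (hint k hk hka)
      · rw [not_lt] at hka
        obtain ⟨j, hj⟩ := ih (k - a) (by omega) (nx_exit ht) hd (by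
          rw [← hat, ← Perm.mul_apply, ← pow_add, Nat.sub_add_cancel hka]
          exact h)
        exact ⟨j + 1, by rw [Function.iterate_succ_apply]; exact hj⟩

lemma periodic_pow {D : Type*} (p : Perm D) {t d : D} (hper : ∃ n, 0 < n ∧ (p ^ n) t = t)
    (h : p.SameCycle t d) : ∃ k : ℕ, (p ^ k) t = d := by
  obtain ⟨n, hn, hnt⟩ := hper
  obtain ⟨i, hi⟩ := h
  refine ⟨(i % (n : ℤ)).toNat, ?_⟩
  have h0 : (0 : ℤ) ≤ i % (n : ℤ) := Int.emod_nonneg _ (by omega)
  rw [← zpow_natCast, Int.toNat_of_nonneg h0]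
  have h1 : (p ^ ((n : ℤ) * (i / n))) t = t := by
    rw [zpow_mul, zpow_natCast]
    have : ∀ m : ℤ, ((p ^ n) ^ m) t = t := fun m => by
      have h2 : (p ^ n) t = t := hnt
      exact Equiv.Perm.zpow_apply_eq_self_of_apply_eq_self h2 m
    exact this _
  have h2 : i = i % (n : ℤ) + (n : ℤ) * (i / n) := (Int.emod_add_mul_ediv i n).symm
  rw [h2, zpow_add, Perm.mul_apply, h1] at hi
  exact hi

lemma iter_of_walk (hS : Simply S) {t d : Dart} (ht : IsExit S t) (hd : IsExit S d) :
    ∃ j, (nx S)^[j] t = d := by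
  obtain ⟨k, hk⟩ := periodic_pow _ (conf_periodic (confOf_mem (subset_refl (edgesIn S))) t)
    (hS.walk t d ht hd)
  exact iter_of_pow k ht hd hk

/-- the total turn of the boundary over `j` steps -/
noncomputable def wd (S : Finset (ℤ × ℤ)) (t : Dart) (j : ℕ) : ℤ :=
  ∑ i ∈ range j, tn S ((nx S)^[i] t)

/-- the amplitude as a function of the direction -/
noncomputable def Lam (α β : ℂ) (n : ℤ) : ℂ := α ^ ((n + 1) / 2) * β ^ (n / 2)

lemma Lam_succ {α β : ℂ} (hα : α ≠ 0) (hβ : β ≠ 0) (n : ℤ) (c : Fin 4)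
    (h : n % 2 = (c.val : ℤ) % 2) : Lam α β (n + 1) = kk α β c * Lam α β n := by
  unfold Lam
  rcases Int.even_or_odd' n with ⟨m, rfl | rfl⟩
  · have e1 : (2 * m + 1 + 1) / 2 = m + 1 := by omega
    have e2 : (2 * m + 1) / 2 = m := by omega
    have e3 : (2 * m) / 2 = m := by omega
    rw [e1, e2, e3, zpow_add_one₀ hα]
    have hk : kk α β c = α := by
      revert h
      fin_cases c
      · intro _; rfl
      · intro h; simp at h
      · intro _; rfl
      · intro h; simp at h
    rw [hk]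
    ring
  · have e1 : (2 * m + 1 + 1 + 1) / 2 = m + 1 := by omega
    have e2 : (2 * m + 1 + 1) / 2 = m + 1 := by omega
    have e3 : (2 * m + 1) / 2 = m := by omega
    rw [e1, e2, e3, zpow_add_one₀ hβ]
    have hk : kk α β c = β := by
      revert h
      fin_cases c
      · intro h; simp at h
      · intro _; rfl
      · intro h; simp at h
      · intro _; rfl
    rw [hk]
    ring

lemma Lam_ne_zero {α β : ℂ} (hα : α ≠ 0) (hβ : β ≠ 0) (n : ℤ) : Lam α β n ≠ 0 :=
  mul_ne_zero (zpow_ne_zero _ hα) (zpow_ne_zero _ hβ)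

lemma fin4_parity (c : Fin 4) : ((c + 1).val : ℤ) % 2 = ((c.val : ℤ) + 1) % 2 ∧
    ((c + 3).val : ℤ) % 2 = ((c.val : ℤ) + 1) % 2 := by
  revert c; decide

/-- directions along the walk -/
lemma wd_parity (t : Dart) (j : ℕ) :
    ((t.2.val : ℤ) + wd S t j) % 2 = (((nx S)^[j] t).2.val : ℤ) % 2 := by
  induction j with
  | zero => simp [wd]
  | succ j ih =>
    have h1 : wd S t (j + 1) = wd S t j + tn S ((nx S)^[j] t) := sum_range_succ _ _
    rw [h1, Function.iterate_succ_apply']
    generalize (nx S)^[j] t = d at ih h1 ⊢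
    obtain ⟨z, c⟩ := d
    have hp := fin4_parity c
    simp only at ih
    clear h1
    rcases nx_cases S z c with ⟨_, h2, h3⟩ | ⟨_, _, h2, h3⟩ | ⟨_, _, h2, h3⟩
    · rw [h2, h3]; simp only; omega
    · rw [h2, h3]; simp only; omega
    · rw [h2, h3]; simp only; omega

section amp
variable {α β : ℂ} {t : Dart}

/-- one step of the walk: the amplitude -/
lemma gamp_nx (hα : α ≠ 0) (hβ : β ≠ 0) (ht : IsExit S t) {d : Dart} (hd : IsExit S d) (n : ℤ)
    (hn : n % 2 = (d.2.val : ℤ) % 2) :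
    gamp α β t (edgesIn S) (nx S d) = gamp α β t (edgesIn S) (d.1, d.2 + 1) *
      (Lam α β (n + tn S d) / Lam α β (n + 1)) := by
  obtain ⟨z, c⟩ := d
  have l0 := Lam_ne_zero hα hβ n
  have l1 := Lam_ne_zero hα hβ (n + 1)
  have l2 := Lam_ne_zero hα hβ (n - 1)
  have p2 : z + dir (c + 1) ∈ S →
      (confOf (edgesIn S)).perm (z, c + 1) = (z + dir (c + 1), c) := by
    intro h
    have := (confOf (edgesIn S)).nxt_open (z := z) (c := c + 1) (edge_mem_iff.2 ⟨hd.1, h⟩)
    rw [Conf.perm_apply, this]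
    have h4 : c + 1 + 3 = c := by rw [add_assoc]; exact add_zero c
    rw [h4]
  have p3 : z + dir (c + 1) ∈ S → z + dir (c + 1) + dir c ∈ S →
      (confOf (edgesIn S)).perm (z + dir (c + 1), c) = (z + dir (c + 1) + dir c, c + 3) := by
    intro h h'
    exact (confOf (edgesIn S)).nxt_open (edge_mem_iff.2 ⟨h, h'⟩)
  have f2 : z + dir (c + 1) ∈ S → gamp α β t (edgesIn S) (z + dir (c + 1), c) =
      (kk α β c)⁻¹ * gamp α β t (edgesIn S) (z, c + 1) := by
    intro h
    have hne : ((z, c + 1) : Dart) ≠ t := by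
      rintro rfl
      exact ht.2 h
    have := gamp_step ht subset_rfl hne (α := α) (β := β)
    rw [p2 h] at this
    rw [this]
    congr 1
    unfold Conf.ph
    have ho : (confOf (edgesIn S)).o z (c + 1) := edge_mem_iff.2 ⟨hd.1, h⟩
    rw [if_pos ho]
    simp only
    rw [show c + 1 + 1 = c + 2 by rw [add_assoc]; rfl, kk_add_two]
  have f3 : z + dir (c + 1) ∈ S → z + dir (c + 1) + dir c ∈ S →
      gamp α β t (edgesIn S) (z + dir (c + 1) + dir c, c + 3) =
      (kk α β (c + 1))⁻¹ * gamp α β t (edgesIn S) (z + dir (c + 1), c) := by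
    intro h h'
    have hne : ((z + dir (c + 1), c) : Dart) ≠ t := by
      rintro rfl
      exact ht.2 h'
    have := gamp_step ht subset_rfl hne (α := α) (β := β)
    rw [p3 h h'] at this
    rw [this]
    congr 1
    unfold Conf.ph
    exact if_pos (edge_mem_iff.2 ⟨h, h'⟩)
  have k1 := kk_ne_zero' hα hβ c
  have k2 := kk_ne_zero' hα hβ (c + 1)
  have e1 : Lam α β (n + 1) = kk α β c * Lam α β n := Lam_succ hα hβ n c hn
  have e2 : Lam α β (n - 1 + 1) = kk α β (c + 1) * Lam α β (n - 1) :=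
    Lam_succ hα hβ (n - 1) (c + 1) (by
      have := (fin4_parity c).1
      simp only at hn
      omega)
  rw [sub_add_cancel] at e2
  rcases nx_cases S z c with ⟨h1, h2, h3⟩ | ⟨h1, h2, h3, h4⟩ | ⟨h1, h2, h3, h4⟩
  · rw [h2, h3, div_self l1, mul_one]
  · rw [h3, h4, f2 h1, add_zero, e1]
    field_simp
  · rw [h3, h4, f3 h1 h2, f2 h1, ← sub_eq_add_neg, e1, e2]
    field_simp

/-- the amplitude along the walk -/
lemma gamp_iter (hα : α ≠ 0) (hβ : β ≠ 0) (ht : IsExit S t) (j : ℕ)
    (hj : ∀ i, 0 < i → i ≤ j → (nx S)^[i] t ≠ t) :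
    gamp α β t (edgesIn S) ((nx S)^[j + 1] t) =
      Lam α β ((t.2.val : ℤ) + wd S t (j + 1)) / Lam α β ((t.2.val : ℤ) + 1) := by
  induction j with
  | zero =>
    have h1 : wd S t (0 + 1) = tn S t := by simp [wd]
    rw [h1, Function.iterate_succ_apply', Function.iterate_zero, id,
      gamp_nx hα hβ ht ht (t.2.val : ℤ) rfl, gamp_start, one_mul]
  | succ j ih =>
    have h0 := ih (fun i h h' => hj i h (by omega))
    have h1 : wd S t (j + 1 + 1) = wd S t (j + 1) + tn S ((nx S)^[j + 1] t) := sum_range_succ _ _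
    have h2 := iter_exit ht (j + 1)
    have h3 := wd_parity (S := S) t (j + 1)
    rw [h1, Function.iterate_succ_apply']
    have h4 := hj (j + 1) (by omega) le_rfl
    set d := (nx S)^[j + 1] t with hd
    rw [gamp_nx hα hβ ht h2 _ h3]
    have h5 : gamp α β t (edgesIn S) (d.1, d.2 + 1) = kk α β d.2 * gamp α β t (edgesIn S) d := by
      have := gamp_step ht subset_rfl h4 (α := α) (β := β)
      rw [exit_perm h2 subset_rfl] at this
      rw [this]
      congr 1
      unfold Conf.ph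
      exact if_neg fun h => h2.2 (edge_mem_iff.1 h).2
    rw [h5, h0, Lam_succ hα hβ _ _ h3, ← add_assoc]
    have l0 := Lam_ne_zero hα hβ ((t.2.val : ℤ) + wd S t (j + 1))
    have k := kk_ne_zero' hα hβ d.2
    field_simp

end amp

/-- a labelling of the exits by directions -/
lemma label_iter {N : Dart → ℤ} {t : Dart} (ht : IsExit S t)
    (hN : ∀ d, IsExit S d → nx S d ≠ t → N (nx S d) = N d + tn S d) (j : ℕ)
    (hj : ∀ i, 0 < i → i ≤ j → (nx S)^[i] t ≠ t) : N ((nx S)^[j] t) = N t + wd S t j := by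
  induction j with
  | zero => simp [wd]
  | succ j ih =>
    have h1 : wd S t (j + 1) = wd S t j + tn S ((nx S)^[j] t) := sum_range_succ _ _
    have h2 := ih (fun i h h' => hj i h (by omega))
    have h3 := hj (j + 1) (by omega) le_rfl
    rw [Function.iterate_succ_apply'] at h3 ⊢
    rw [hN _ (iter_exit ht j) h3, h2, h1]
    ring

/-- the amplitude at all exits, in terms of a labelling -/
theorem gamp_label {α β : ℂ} (hα : α ≠ 0) (hβ : β ≠ 0) (hS : Simply S) {t d : Dart}
    (ht : IsExit S t) (hd : IsExit S d) (hdt : d ≠ t) {N : Dart → ℤ}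
    (hN : ∀ d, IsExit S d → nx S d ≠ t → N (nx S d) = N d + tn S d) :
    gamp α β t (edgesIn S) d =
      Lam α β ((t.2.val : ℤ) + (N d - N t)) / Lam α β ((t.2.val : ℤ) + 1) ∧
    ((t.2.val : ℤ) + (N d - N t)) % 2 = (d.2.val : ℤ) % 2 := by
  classical
  have hex := iter_of_walk hS ht hd
  obtain ⟨m, hm, hmin⟩ : ∃ m, (nx S)^[m] t = d ∧ ∀ i < m, (nx S)^[i] t ≠ d :=
    ⟨Nat.find hex, Nat.find_spec hex, fun i hi => Nat.find_min hex hi⟩
  have hm0 : m ≠ 0 := by
    rintro rfl
    exact hdt hm.symm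
  obtain ⟨j, rfl⟩ : ∃ j, m = j + 1 := ⟨m - 1, by omega⟩
  have hret : ∀ i, 0 < i → i ≤ j + 1 → (nx S)^[i] t ≠ t := by
    intro i hi hij h
    apply hmin (j + 1 - i) (by omega)
    rw [← hm]
    conv_rhs => rw [show j + 1 = (j + 1 - i) + i by omega, Function.iterate_add_apply, h]
  have h1 := gamp_iter hα hβ ht j (fun i h h' => hret i h (by omega)) (S := S)
  have h2 := label_iter ht hN (j + 1) hret
  have h3 := wd_parity (S := S) t (j + 1)
  rw [hm] at h1 h2 h3
  have h4 : wd S t (j + 1) = N d - N t := by rw [h2]; ring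
  rw [h4] at h1 h3
  exact ⟨h1, h3⟩

end H47Perc
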