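import Pool.Agent.Helper47.Perc.Gen8

/-!
The rule for all simply connected sets: the probabilities that an exit `t` is joined to the other
exits, weighted by `ζ ^ (winding)`, sum up to `ζ ^ 2`.
-/

namespace H47Perc
open Finset Equiv

lemma ζ_ne_zero : ζ ≠ 0 := by
  intro h0
  have hζ := ζ_sq
  rw [h0] at hζ
  norm_num at hζ

lemma ζ_cube : ζ ^ 3 = -1 := by
  have := ζ_sq
  linear_combination (ζ + 1) * this

lemma phases' {h v : ℝ} (hv : h + v = 1) : ∃ α β K : ℂ, α ≠ 0 ∧ β ≠ 0 ∧ K ≠ 0 ∧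
    α * β = ζ ^ 2 ∧ α - 1 = v * K ∧ (β - 1) * α = ζ * h * K ∧ K = ζ * (α + ζ) ∧
    (1 - (v : ℂ)) * (α - 1) + v * ((β⁻¹ - 1) * ζ) = 0 ∧
    (1 - (h : ℂ)) * (β - 1) + h * ((α⁻¹ - 1) * ζ) = 0 := by
  obtain ⟨α, β, hα, hβ, hαβ, hD, p1, p2⟩ := phases hv
  have hζ := ζ_sq
  have n3 := lin_ne_zero' hv
  have hvc : (h : ℂ) + v = 1 := by exact_mod_cast hv
  have k0 : ζ * (α + ζ) * (h + v * (1 - ζ)) = 2 * ζ - 1 := by
    linear_combination ζ * hD + (ζ ^ 2 + ζ ^ 2 * (1 - ζ)) * hvc + (1 - ζ) * hζ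
  have k1 : (α - 1) * (h + v * (1 - ζ)) = v * (2 * ζ - 1) := by
    linear_combination hD - h * hζ
  have k2 : (β - 1) * α * (h + v * (1 - ζ)) = ζ * h * (2 * ζ - 1) := by
    linear_combination (h + v * (1 - ζ)) * hαβ - hD - ζ * v * hζ
  have hne : (2 * ζ - 1 : ℂ) ≠ 0 := by
    intro h0
    have h1 : ((-1 : ℝ) : ℂ) + ((2 : ℝ) : ℂ) * ζ = 0 := by push_cast; linear_combination h0
    have := (lin_eq_zero h1).1
    norm_num at this
  refine ⟨α, β, ζ * (α + ζ), hα, hβ, ?_, hαβ, ?_, ?_, rfl, p1, p2⟩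
  · intro h0
    rw [h0, zero_mul] at k0
    exact hne k0.symm
  · apply mul_right_cancel₀ n3
    rw [k1, mul_assoc, k0]
  · apply mul_right_cancel₀ n3
    rw [k2, mul_assoc (ζ * (h:ℂ)), k0]

lemma kk_even {α β : ℂ} {c : Fin 4} (h : (c.val : ℤ) % 2 = 0) : kk α β c = α := by
  revert h
  fin_cases c <;> simp [kk]

lemma kk_odd {α β : ℂ} {c : Fin 4} (h : (c.val : ℤ) % 2 = 1) : kk α β c = β := by
  revert h
  fin_cases c <;> simp [kk]

lemma Lam_even {α β : ℂ} (hαβ : α * β = ζ ^ 2) (m : ℤ) : Lam α β (2 * m) = ζ ^ (2 * m) := by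
  unfold Lam
  have e2 : (2 * m + 1) / 2 = m := by omega
  have e3 : (2 * m) / 2 = m := by omega
  rw [e2, e3, ← mul_zpow, hαβ, zpow_mul]
  norm_cast

lemma Lam_odd {α β : ℂ} (hα : α ≠ 0) (hαβ : α * β = ζ ^ 2) (m : ℤ) :
    Lam α β (2 * m + 1) = α * ζ ^ (2 * m) := by
  unfold Lam
  have e2 : (2 * m + 1 + 1) / 2 = m + 1 := by omega
  have e3 : (2 * m + 1) / 2 = m := by omega
  rw [e2, e3, zpow_add_one₀ hα]
  have : α ^ m * β ^ m = ζ ^ (2 * m) := by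
    rw [← mul_zpow, hαβ, zpow_mul]
    norm_cast
  rw [← this]
  ring

open Classical in
/-- **The contour rule.** For critical bond percolation (`p_horizontal = h`, `p_vertical = 1 - h`)
in a simply connected set `S` and an exit `t`. -/
theorem gen_rule (h : ℝ) {S : Finset (ℤ × ℤ)} (hS : Simply S) {t : Dart} (ht : IsExit S t)
    {N : Dart → ℤ} (hN : ∀ d, IsExit S d → nx S d ≠ t → N (nx S d) = N d + tn S d) :
    ∑ d ∈ ((DS S).erase t).filter (fun d => d.1 + dir d.2 ∉ S),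
      (aniso h s(d.1, d.1 + dir d.2) : ℝ) * ζ ^ (N d - N t) *
        (perc (aniso h) S (fun ω => Joined ω t.1 d.1) : ℝ) = ζ ^ 2 := by
  obtain ⟨v, hv⟩ : ∃ v, v = 1 - h := ⟨_, rfl⟩
  have hhv : h + v = 1 := by rw [hv]; ring
  obtain ⟨α, β, K, hα, hβ, hK, hαβ, k1, k2, k3, p1, p2⟩ := phases' hhv
  have hζ := ζ_sq
  have hζ0 := ζ_ne_zero
  have hζ3 := ζ_cube
  have hp : ∀ z c, (1 - (aniso h s(z, z + dir c) : ℂ)) * (kk α β c - 1) +
      aniso h s(z, z + dir c) * (((kk α β (c + 1))⁻¹ - 1) * ζ) = 0 := by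
    intro z c
    rw [aniso_edge, ← hv]
    fin_cases c
    · have : ¬ ((0 : Fin 4) = 1 ∨ (0 : Fin 4) = 3) := by decide
      simp only [Fin.zero_eta, if_neg this]
      exact p1
    · simp only [Fin.mk_one, true_or, if_true]
      exact p2
    · have : ¬ ((2 : Fin 4) = 1 ∨ (2 : Fin 4) = 3) := by decide
      simp only [Fin.reduceFinMk, if_neg this]
      exact p1
    · simp only [Fin.reduceFinMk, or_true, if_true]
      exact p2
  have hsum := gen_contour hα hβ hζ hαβ hS ht (aniso h) hp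
  -- the coefficient
  have key : ∀ (z : ℤ × ℤ) (c : Fin 4) (n : ℤ), n % 2 = (c.val : ℤ) % 2 →
      (kk α β c - 1) * Lam α β n = K * (aniso h s(z, z + dir c) * ζ ^ n) := by
    intro z c n hn
    rw [aniso_edge, ← hv]
    rcases Int.even_or_odd' n with ⟨m, rfl | rfl⟩
    · have hc : (c.val : ℤ) % 2 = 0 := by omega
      have hc' : ¬ (c = 1 ∨ c = 3) := by
        rintro (rfl | rfl) <;> simp at hc
      rw [kk_even hc, Lam_even hαβ, if_neg hc', k1]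
      ring
    · have hc : (c.val : ℤ) % 2 = 1 := by omega
      have hc' : c = 1 ∨ c = 3 := by
        revert hc
        fin_cases c <;> simp
      rw [kk_odd hc, Lam_odd hα hαβ, if_pos hc', ← mul_assoc, k2, zpow_add_one₀ hζ0]
      ring
  have key2 : Lam α β ((t.2.val : ℤ) + 1) * ((α * β) ^ 2 * (kk α β t.2)⁻¹ - 1) =
      K * ζ ^ ((t.2.val : ℤ) + 2) := by
    have hkk := kk_ne_zero' hα hβ t.2
    have e1 : Lam α β ((t.2.val : ℤ) + 1) * ((α * β) ^ 2 * (kk α β t.2)⁻¹ - 1) =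
        ζ ^ 4 * Lam α β (t.2.val : ℤ) - Lam α β ((t.2.val : ℤ) + 1) := by
      rw [Lam_succ hα hβ _ t.2 rfl, hαβ]
      field_simp
    rw [e1, k3]
    obtain ⟨z, c⟩ := t
    rcases Int.even_or_odd' ((c.val : ℤ)) with ⟨m, hm | hm⟩
    · simp only
      rw [hm, Lam_even hαβ, Lam_odd hα hαβ, zpow_add₀ hζ0]
      have : ζ ^ (2 : ℤ) = ζ ^ 2 := by norm_cast
      rw [this]
      linear_combination (-(ζ ^ (2 * m)) * α) * hζ3
    · simp only
      rw [hm, Lam_odd hα hαβ, show (2 * m + 1 + 1 : ℤ) = 2 * (m + 1) by ring, Lam_even hαβ,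
        show (2 * (m + 1) : ℤ) = 2 * m + 2 by ring, show (2 * m + 1 + 2 : ℤ) = 2 * m + 3 by ring,
        zpow_add₀ hζ0, zpow_add₀ hζ0]
      have e2 : ζ ^ (2 : ℤ) = ζ ^ 2 := by norm_cast
      have e3 : ζ ^ (3 : ℤ) = ζ ^ 3 := by norm_cast
      rw [e2, e3]
      linear_combination (-(ζ ^ (2 * m)) * ζ ^ 2) * hζ3
  -- rewrite the sum
  have hterm : ∀ d ∈ ((DS S).erase t).filter (fun d => d.1 + dir d.2 ∉ S),
      Lam α β ((t.2.val : ℤ) + 1) * ((kk α β d.2 - 1) * gamp α β t (edgesIn S) d *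
        (perc (aniso h) S (fun ω => Joined ω t.1 d.1) : ℝ)) =
      K * ζ ^ (t.2.val : ℤ) * ((aniso h s(d.1, d.1 + dir d.2) : ℝ) * ζ ^ (N d - N t) *
        (perc (aniso h) S (fun ω => Joined ω t.1 d.1) : ℝ)) := by
    intro d hd
    rw [mem_filter, mem_erase, mem_DS] at hd
    obtain ⟨h1, h2⟩ := gamp_label hα hβ hS ht ⟨hd.1.2, hd.2⟩ hd.1.1 hN
    have l1 := Lam_ne_zero hα hβ ((t.2.val : ℤ) + 1)
    have h3 := key d.1 d.2 _ h2
    rw [zpow_add₀ hζ0] at h3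
    rw [h1]
    calc Lam α β ((t.2.val : ℤ) + 1) * ((kk α β d.2 - 1) *
          (Lam α β ((t.2.val : ℤ) + (N d - N t)) / Lam α β ((t.2.val : ℤ) + 1)) *
        (perc (aniso h) S (fun ω => Joined ω t.1 d.1) : ℝ))
        = ((kk α β d.2 - 1) * Lam α β ((t.2.val : ℤ) + (N d - N t))) *
        (perc (aniso h) S (fun ω => Joined ω t.1 d.1) : ℝ) := by
          field_simp
      _ = _ := by rw [h3]; ring
  have h4 := congrArg (fun x => Lam α β ((t.2.val : ℤ) + 1) * x) hsum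
  rw [mul_sum, sum_congr rfl hterm, ← mul_sum, key2, zpow_add₀ hζ0] at h4
  have h5 : K * ζ ^ (t.2.val : ℤ) ≠ 0 := mul_ne_zero hK (zpow_ne_zero _ hζ0)
  apply mul_left_cancel₀ h5
  rw [h4]
  have e2 : ζ ^ (2 : ℤ) = ζ ^ 2 := by norm_cast
  rw [e2]
  ring

end H47Perc
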