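import Pool.Agent.Helper47.Perc.Defs

/-!
The boundary of a finite set of vertices of the square lattice: boundary edges, the walk along the
boundary and its winding; simply connected and row-convex sets.
-/

namespace H47Perc
open Finset

/-- the four directions: south, east, north, west -/
def dir : Fin 4 → ℤ × ℤ := ![(0, -1), (1, 0), (0, 1), (-1, 0)]

/-- `(z, c)` stands for the edge from the vertex `z` to its neighbour `z + dir c` -/
abbrev Dart := (ℤ × ℤ) × Fin 4

/-- `d` is a boundary edge of `S`: it leads from `S` out of `S` -/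
def IsExit (S : Finset (ℤ × ℤ)) (d : Dart) : Prop := d.1 ∈ S ∧ d.1 + dir d.2 ∉ S

open Classical in
/-- the boundary edge that follows `d` on the boundary of `S`, keeping `S` on the left: a left
turn at the vertex `d.1`, or straight on, or a right turn -/
noncomputable def nx (S : Finset (ℤ × ℤ)) (d : Dart) : Dart :=
  if d.1 + dir (d.2 + 1) ∉ S then (d.1, d.2 + 1)
  else if d.1 + dir (d.2 + 1) + dir d.2 ∉ S then (d.1 + dir (d.2 + 1), d.2)
  else (d.1 + dir (d.2 + 1) + dir d.2, d.2 + 3)

open Classical in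
/-- the turn between the boundary edge `d` and the next one: `1` for a left turn, `0` for straight
on, `-1` for a right turn -/
noncomputable def tn (S : Finset (ℤ × ℤ)) (d : Dart) : ℤ :=
  if d.1 + dir (d.2 + 1) ∉ S then 1
  else if d.1 + dir (d.2 + 1) + dir d.2 ∉ S then 0
  else -1

/-- The winding of the boundary of `S` from the boundary edge `t` to the boundary edge `d`, in
quarter turns: the sum of the turns along the boundary (keeping `S` on the left) until the first
visit of `d`. -/
noncomputable def wind (S : Finset (ℤ × ℤ)) (t d : Dart) : ℤ :=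
  ∑ i ∈ range (sInf {m : ℕ | (nx S)^[m] t = d}), tn S ((nx S)^[i] t)

/-- a king's step that ends outside `S` -/
def StarStep (S : Finset (ℤ × ℤ)) (u v : ℤ × ℤ) : Prop :=
  v ∉ S ∧ |u.1 - v.1| ≤ 1 ∧ |u.2 - v.2| ≤ 1

/-- the complement of `S` is connected by king's steps -/
def StarCo (S : Finset (ℤ × ℤ)) : Prop :=
  ∀ u v, u ∉ S → v ∉ S → Relation.ReflTransGen (StarStep S) u v

/-- `S` consists of the rows `a, …, b`; the row `y` is `{l y, …, r y}`, consecutive rows overlap -/
structure RowConvex (a b : ℤ) (l r : ℤ → ℤ) (S : Finset (ℤ × ℤ)) : Prop where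
  hab : a ≤ b
  mem : ∀ x y, (x, y) ∈ S ↔ a ≤ y ∧ y ≤ b ∧ l y ≤ x ∧ x ≤ r y
  lr : ∀ y, a ≤ y → y ≤ b → l y ≤ r y
  o1 : ∀ y, a ≤ y → y + 1 ≤ b → l y ≤ r (y + 1)
  o2 : ∀ y, a ≤ y → y + 1 ≤ b → l (y + 1) ≤ r y

/-- the vertex `z` with a boundary edge to the south lies after `(x₀, a)`: in the bottom row to
the right of `x₀`, or above the bottom row on the right side of `S` -/
def AftB (a : ℤ) (r : ℤ → ℤ) (x₀ : ℤ) (z : ℤ × ℤ) : Prop :=
  (z.2 = a ∧ x₀ < z.1) ∨ (z.2 ≠ a ∧ r (z.2 - 1) < z.1)

/-- the vertex `z` with a boundary edge to the south lies before `(x₀, a)`: in the bottom row to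
the left of `x₀`, or above the bottom row on the left side of `S` -/
def BefB (a : ℤ) (l : ℤ → ℤ) (x₀ : ℤ) (z : ℤ × ℤ) : Prop :=
  (z.2 = a ∧ z.1 < x₀) ∨ (z.2 ≠ a ∧ z.1 < l (z.2 - 1))

end H47Perc
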