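import Pool.Agent.Helper47.Perc.Gen11
import Pool.Agent.Helper69.RSW.HalfExp

/-!
The flat-side rule for the boxes `[-M,M] × [0,n]`.
-/

namespace H47Perc
open Finset Equiv

lemma box_row {M n : ℤ} (hM : 0 ≤ M) (hn : 0 ≤ n) :
    RowConvex 0 n (fun _ => -M) (fun _ => M) (box (-M) M 0 n) where
  hab := hn
  mem x y := by rw [mem_box]; simp only; omega
  lr := by intros; omega
  o1 := by intros; omega
  o2 := by intros; omega

lemma box_reflX (M n : ℤ) : (box (-M) M 0 n).map reflX.toEmbedding = box (-M) M 0 n := by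
  ext ⟨x, y⟩
  rw [mem_map_equiv, mem_box, mem_box]
  have : reflX.symm (x, y) = (-x, y) := rfl
  rw [this]
  simp only
  omega

lemma cn_reflX (M n x y : ℤ) : cn (box (-M) M 0 n) (-x, y) = cn (box (-M) M 0 n) (x, y) := by
  unfold cn
  conv_lhs => rw [← box_reflX M n, perc_half_map reflX_sym.1]
  congr 1
  funext ω
  have := joined_map (f := reflX) (ω := ω) (u := (0, 0)) (v := (x, y))
  exact propext this

/-- **The flat-side rule.** -/
theorem flat_rule : FlatRule := by
  classical
  intro M n hM hn
  have H := box_row hM hn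
  have h := (row_rule (1/2) H (x₀ := 0) (by omega) hM).1
  rw [aniso_half] at h
  have eR : ∑ z ∈ (box (-M) M 0 n).filter (fun z => z + (1, 0) ∉ box (-M) M 0 n),
      perc half (box (-M) M 0 n) (fun ω => Joined ω (0, 0) z) =
      ∑ y ∈ Icc 0 n, cn (box (-M) M 0 n) (M, y) := by
    symm
    apply sum_bij' (fun y _ => ((M, y) : ℤ × ℤ)) (fun z _ => z.2)
    · intro y hy
      rw [mem_Icc] at hy
      rw [mem_filter, mem_box, mem_box]
      simp only [Prod.fst_add, Prod.snd_add]
      omega
    · rintro ⟨x, y⟩ hz
      rw [mem_filter, mem_box, mem_box] at hz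
      simp only [Prod.fst_add, Prod.snd_add] at hz
      rw [mem_Icc]
      simp only
      omega
    · intro y _; rfl
    · rintro ⟨x, y⟩ hz
      rw [mem_filter, mem_box, mem_box] at hz
      simp only [Prod.fst_add, Prod.snd_add] at hz
      rw [Prod.mk.injEq]
      constructor <;> (try simp only) <;> omega
    · intro y _; rfl
  have eT : ∑ z ∈ (box (-M) M 0 n).filter (fun z => z + (0, 1) ∉ box (-M) M 0 n),
      perc half (box (-M) M 0 n) (fun ω => Joined ω (0, 0) z) =
      ∑ x ∈ Icc (-M) M, cn (box (-M) M 0 n) (x, n) := by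
    symm
    apply sum_bij' (fun x _ => ((x, n) : ℤ × ℤ)) (fun z _ => z.1)
    · intro y hy
      rw [mem_Icc] at hy
      rw [mem_filter, mem_box, mem_box]
      simp only [Prod.fst_add, Prod.snd_add]
      omega
    · rintro ⟨x, y⟩ hz
      rw [mem_filter, mem_box, mem_box] at hz
      simp only [Prod.fst_add, Prod.snd_add] at hz
      rw [mem_Icc]
      simp only
      omega
    · intro y _; rfl
    · rintro ⟨x, y⟩ hz
      rw [mem_filter, mem_box, mem_box] at hz
      simp only [Prod.fst_add, Prod.snd_add] at hz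
      rw [Prod.mk.injEq]
      constructor <;> (try simp only) <;> omega
    · intro y _; rfl
  have eB : ∑ z ∈ (box (-M) M 0 n).filter (fun z => z + (0, -1) ∉ box (-M) M 0 n ∧
        BefB 0 (fun _ => -M) 0 z),
      perc half (box (-M) M 0 n) (fun ω => Joined ω (0, 0) z) =
      ∑ x ∈ Icc 1 M, cn (box (-M) M 0 n) (x, 0) := by
    symm
    apply sum_bij' (fun x _ => ((-x, 0) : ℤ × ℤ)) (fun z _ => -z.1)
    · intro y hy
      rw [mem_Icc] at hy
      rw [mem_filter, mem_box, mem_box]
      unfold BefB
      simp only [Prod.fst_add, Prod.snd_add]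
      refine ⟨by omega, by omega, Or.inl ⟨trivial, by omega⟩⟩
    · rintro ⟨x, y⟩ hz
      rw [mem_filter, mem_box, mem_box] at hz
      unfold BefB at hz
      simp only [Prod.fst_add, Prod.snd_add] at hz
      rw [mem_Icc]
      simp only
      omega
    · intro y _; simp
    · rintro ⟨x, y⟩ hz
      rw [mem_filter, mem_box, mem_box] at hz
      unfold BefB at hz
      simp only [Prod.fst_add, Prod.snd_add] at hz
      rw [Prod.mk.injEq]
      constructor <;> (try simp only) <;> omega
    · intro y _
      exact (cn_reflX M n y 0).symm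
  rw [eR, eT, eB] at h
  linarith

end H47Perc
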