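import Pool.Agent.Helper47.Perc.Arms

/-!
Crossing lemmas for paths truncated at the boundary of a down-set.
-/

namespace H47Perc
open Finset SimpleGraph

/-- a horizontal segment -/
lemma hline (x y : ℤ) (n : ℕ) : ∃ p : lattice.Walk (x, y) (x + n, y),
    ∀ w ∈ p.support, w.2 = y ∧ x ≤ w.1 ∧ w.1 ≤ x + n := by
  induction n with
  | zero =>
    refine ⟨Walk.copy Walk.nil rfl (by simp), ?_⟩
    intro w hw
    rw [Walk.support_copy, Walk.support_nil, List.mem_singleton] at hw
    subst hw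
    simp
  | succ n ih =>
    obtain ⟨p, hp⟩ := ih
    have hadj : lattice.Adj (x + (n:ℤ), y) (x + ((n+1:ℕ):ℤ), y) := by
      right
      refine ⟨rfl, ?_⟩
      push_cast
      rw [show x + (n:ℤ) - (x + (n + 1)) = -1 by ring]
      simp
    refine ⟨p.append (Walk.cons hadj Walk.nil), ?_⟩
    intro w hw
    rw [Walk.mem_support_append_iff] at hw
    rcases hw with hw | hw
    · have := hp w hw
      push_cast
      omega
    · rw [Walk.support_cons, Walk.support_nil, List.mem_cons, List.mem_singleton] at hw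
      rcases hw with rfl | rfl
      · simp
      · simp; omega

/-- a vertical segment -/
lemma vline (x y : ℤ) (n : ℕ) : ∃ p : lattice.Walk (x, y) (x, y + n),
    ∀ w ∈ p.support, w.1 = x ∧ y ≤ w.2 ∧ w.2 ≤ y + n := by
  induction n with
  | zero =>
    refine ⟨Walk.copy Walk.nil rfl (by simp), ?_⟩
    intro w hw
    rw [Walk.support_copy, Walk.support_nil, List.mem_singleton] at hw
    subst hw
    simp
  | succ n ih =>
    obtain ⟨p, hp⟩ := ih
    have hadj : lattice.Adj (x, y + (n:ℤ)) (x, y + ((n+1:ℕ):ℤ)) := by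
      left
      refine ⟨rfl, ?_⟩
      push_cast
      rw [show y + (n:ℤ) - (y + (n + 1)) = -1 by ring]
      simp
    refine ⟨p.append (Walk.cons hadj Walk.nil), ?_⟩
    intro w hw
    rw [Walk.mem_support_append_iff] at hw
    rcases hw with hw | hw
    · have := hp w hw
      push_cast
      omega
    · rw [Walk.support_cons, Walk.support_nil, List.mem_cons, List.mem_singleton] at hw
      rcases hw with rfl | rfl
      · simp
      · simp; omega

/-- either the connection stays in `D` or it leaves `D` through an edge -/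
lemma joined_trunc {S D : Finset (ℤ × ℤ)} {ω : Finset (Sym2 (ℤ × ℤ))}
    {u v : ℤ × ℤ} (h : Joined (ω ∩ edgesIn S) u v) (hu : u ∈ D) :
    Joined (ω ∩ edgesIn (D ∩ S)) u v ∨ ∃ w w' : ℤ × ℤ, w' ∉ D ∧ w' ∈ S ∧ lattice.Adj w w' ∧
      Joined (ω ∩ edgesIn (D ∩ S)) u w := by
  obtain ⟨p⟩ := h
  induction p with
  | nil => exact Or.inl (joined_refl _ _)
  | @cons a b c hab p ih =>
    rw [SimpleGraph.fromEdgeSet_adj] at hab
    have hab1 : s(a, b) ∈ ω ∩ edgesIn S := by exact_mod_cast hab.1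
    rw [mem_inter, mem_edgesIn] at hab1
    by_cases hb : b ∈ D
    · have h1 : Joined (ω ∩ edgesIn (D ∩ S)) a b := by
        apply joined_edge
        rw [mem_inter, mem_edgesIn]
        exact ⟨hab1.1, mem_inter.2 ⟨hu, hab1.2.1⟩, mem_inter.2 ⟨hb, hab1.2.2.1⟩, hab1.2.2.2⟩
      rcases ih hb with h2 | ⟨w, w', h2, h3, h4, h5⟩
      · exact Or.inl (joined_trans h1 h2)
      · exact Or.inr ⟨w, w', h2, h3, h4, joined_trans h1 h5⟩
    · exact Or.inr ⟨a, b, hb, hab1.2.2.1, hab1.2.2.2, joined_refl _ _⟩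

/-- walk with all vertices joined to the starting point -/
lemma walk_in {S : Finset (ℤ × ℤ)} {ω : Finset (Sym2 (ℤ × ℤ))} {u v : ℤ × ℤ} (hu : u ∈ S)
    (h : Joined (ω ∩ edgesIn S) u v) : ∃ p : lattice.Walk u v,
      ∀ w ∈ p.support, w ∈ S ∧ Joined (ω ∩ edgesIn S) u w := by
  classical
  obtain ⟨p, hp, hp'⟩ := joined_walk_in inter_subset_right hu h
  refine ⟨p, fun w hw => ⟨hp' w hw, ?_⟩⟩
  exact walk_joined (p.takeUntil w hw) (fun e he => hp e (p.edges_takeUntil_subset_edges hw he))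

/-- A horizontal crossing of a box, truncated when it leaves `D`, still meets every vertical path
in `D`, if the complement of `D` is stable under moving to the right. -/
theorem hcross {D T : Finset (ℤ × ℤ)} {ω : Finset (Sym2 (ℤ × ℤ))} {x0 x1 y0 y1 ya yb : ℤ}
    {u v : ℤ × ℤ}
    (hD : ∀ w ∈ box x0 x1 y0 y1, w ∉ D → ∀ w' : ℤ × ℤ, w.1 ≤ w'.1 → w'.1 ≤ x1 → w'.2 = w.2 →
      w' ∉ D)
    (hj : Joined (ω ∩ edgesIn (box x0 x1 y0 y1)) (x0, ya) (x1, yb)) (ha : (x0, ya) ∈ D)
    (ha' : (x0, ya) ∈ box x0 x1 y0 y1)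
    (hTD : T ⊆ D) (hp : Joined (ω ∩ edgesIn T) u v) (hu : u ∈ T)
    (hT : ∀ w ∈ T, x0 ≤ w.1 ∧ w.1 ≤ x1)
    (hv : v.2 ≤ y0) (hu2 : y1 ≤ u.2) (hvu : v.2 < u.2) : Joined (ω ∩ edgesIn D) (x0, ya) u := by
  obtain ⟨p, hp1⟩ := walk_in hu hp
  have key : ∀ w ∈ p.support, Joined (ω ∩ edgesIn (D ∩ box x0 x1 y0 y1)) (x0, ya) w →
      Joined (ω ∩ edgesIn D) (x0, ya) u := by
    intro w hw hjw
    refine joined_trans (joined_mono (inter_subset_inter_left (edgesIn_mono inter_subset_left))
      hjw) (joined_symm ?_)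
    exact joined_mono (inter_subset_inter_left (edgesIn_mono hTD)) (hp1 w hw).2
  have haI : (x0, ya) ∈ D ∩ box x0 x1 y0 y1 := mem_inter.2 ⟨ha, ha'⟩
  rcases joined_trunc hj ha with h1 | ⟨w, w', h1, h2, h3, h4⟩
  · obtain ⟨q, hq⟩ := walk_in haI h1
    obtain ⟨z, hz1, hz2⟩ := crossing_walks p q hvu
      (fun w hw => by
        have := (mem_inter.1 (hq w hw).1).2
        rw [mem_box] at this
        omega)
      (fun w hw => (hT w (hp1 w hw).1).1) (fun w hw => (hT w (hp1 w hw).1).2)
    exact key z hz1 (hq z hz2).2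
  · obtain ⟨q1, hq1⟩ := walk_in haI h4
    have h2' := mem_box.1 h2
    obtain ⟨q3, hq3⟩ := hline w'.1 w'.2 (x1 - w'.1).toNat
    have e1 : w'.1 + ((x1 - w'.1).toNat : ℤ) = x1 := by omega
    have hq3' : ∀ z ∈ q3.support, z ∉ D := by
      intro z hz
      have := hq3 z hz
      exact hD w' h2 h1 z this.2.1 (by omega) this.1
    set q := (q1.append (Walk.cons h3 Walk.nil)).append (q3.copy rfl (by rw [e1])) with hqdef
    have hqs : ∀ z ∈ q.support, z ∈ q1.support ∨ z ∈ q3.support := by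
      intro z hz
      rw [hqdef, Walk.mem_support_append_iff, Walk.mem_support_append_iff, Walk.support_copy,
        Walk.support_cons, Walk.support_nil, List.mem_cons, List.mem_singleton] at hz
      rcases hz with (hz | rfl | rfl) | hz
      · exact Or.inl hz
      · exact Or.inl q1.end_mem_support
      · exact Or.inr q3.start_mem_support
      · exact Or.inr hz
    obtain ⟨z, hz1, hz2⟩ := crossing_walks p q hvu
      (fun w hw => by
        rcases hqs w hw with hw | hw
        · have := (mem_inter.1 (hq1 w hw).1).2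
          rw [mem_box] at this
          omega
        · have := hq3 w hw
          omega)
      (fun w hw => (hT w (hp1 w hw).1).1) (fun w hw => by
        exact (hT w (hp1 w hw).1).2)
    rcases hqs z hz2 with hz | hz
    · exact key z hz1 (hq1 z hz).2
    · exact absurd (hTD (hp1 z hz1).1) (hq3' z hz)

/-- A vertical crossing of a box, truncated when it leaves `D`, still meets every horizontal path
in `D`, if the complement of `D` is stable under moving up. -/
theorem vcross {D T : Finset (ℤ × ℤ)} {ω : Finset (Sym2 (ℤ × ℤ))} {x0 x1 y0 y1 xa xb : ℤ}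
    {a b : ℤ × ℤ}
    (hD : ∀ w ∈ box x0 x1 y0 y1, w ∉ D → ∀ w' : ℤ × ℤ, w.2 ≤ w'.2 → w'.2 ≤ y1 → w'.1 = w.1 →
      w' ∉ D)
    (hj : Joined (ω ∩ edgesIn (box x0 x1 y0 y1)) (xa, y0) (xb, y1)) (hb : (xa, y0) ∈ D)
    (hb' : (xa, y0) ∈ box x0 x1 y0 y1) (hy : y0 < y1)
    (hTD : T ⊆ D) (hq : Joined (ω ∩ edgesIn T) a b) (ha : a ∈ T)
    (hT : ∀ w ∈ T, y0 ≤ w.2 ∧ w.2 ≤ y1)
    (ha1 : a.1 ≤ x0) (hb1 : x1 ≤ b.1) : Joined (ω ∩ edgesIn D) (xa, y0) a := by
  obtain ⟨q, hq1⟩ := walk_in ha hq
  have key : ∀ w ∈ q.support, Joined (ω ∩ edgesIn (D ∩ box x0 x1 y0 y1)) (xa, y0) w →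
      Joined (ω ∩ edgesIn D) (xa, y0) a := by
    intro w hw hjw
    refine joined_trans (joined_mono (inter_subset_inter_left (edgesIn_mono inter_subset_left))
      hjw) (joined_symm ?_)
    exact joined_mono (inter_subset_inter_left (edgesIn_mono hTD)) (hq1 w hw).2
  have haI : (xa, y0) ∈ D ∩ box x0 x1 y0 y1 := mem_inter.2 ⟨hb, hb'⟩
  rcases joined_trunc hj hb with h1 | ⟨w, w', h1, h2, h3, h4⟩
  · obtain ⟨p, hp⟩ := walk_in haI h1
    have hsup : ∀ w ∈ p.reverse.support, w ∈ p.support := by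
      intro w hw
      rwa [Walk.support_reverse, List.mem_reverse] at hw
    have hbox : ∀ w ∈ p.reverse.support, x0 ≤ w.1 ∧ w.1 ≤ x1 := by
      intro w hw
      have := (mem_inter.1 (hp w (hsup w hw)).1).2
      rw [mem_box] at this
      omega
    obtain ⟨z, hz1, hz2⟩ := crossing_walks p.reverse q hy
      (fun w hw => hT w (hq1 w hw).1)
      (fun w hw => ha1.trans (hbox w hw).1) (fun w hw => (hbox w hw).2.trans hb1)
    exact key z hz2 (hp z (hsup z hz1)).2
  · obtain ⟨p1, hp1⟩ := walk_in haI h4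
    have h2' := mem_box.1 h2
    obtain ⟨p3, hp3⟩ := vline w'.1 w'.2 (y1 - w'.2).toNat
    have e1 : w'.2 + ((y1 - w'.2).toNat : ℤ) = y1 := by omega
    have hp3' : ∀ z ∈ p3.support, z ∉ D := by
      intro z hz
      have := hp3 z hz
      exact hD w' h2 h1 z this.2.1 (by omega) this.1
    set p := (p1.append (Walk.cons h3 Walk.nil)).append (p3.copy rfl (by rw [e1])) with hpdef
    have hps : ∀ z ∈ p.reverse.support, z ∈ p1.support ∨ z ∈ p3.support := by
      intro z hz
      rw [Walk.support_reverse, List.mem_reverse, hpdef, Walk.mem_support_append_iff,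
        Walk.mem_support_append_iff, Walk.support_copy,
        Walk.support_cons, Walk.support_nil, List.mem_cons, List.mem_singleton] at hz
      rcases hz with (hz | rfl | rfl) | hz
      · exact Or.inl hz
      · exact Or.inl p1.end_mem_support
      · exact Or.inr p3.start_mem_support
      · exact Or.inr hz
    have hbox : ∀ w ∈ p.reverse.support, x0 ≤ w.1 ∧ w.1 ≤ x1 := by
      intro w hw
      rcases hps w hw with hw | hw
      · have := (mem_inter.1 (hp1 w hw).1).2
        rw [mem_box] at this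
        omega
      · have := hp3 w hw
        omega
    obtain ⟨z, hz1, hz2⟩ := crossing_walks p.reverse q hy
      (fun w hw => hT w (hq1 w hw).1)
      (fun w hw => ha1.trans (hbox w hw).1) (fun w hw => (hbox w hw).2.trans hb1)
    rcases hps z hz1 with hz | hz
    · exact key z hz2 (hp1 z hz).2
    · exact absurd (hTD (hq1 z hz2).1) (hp3' z hz)

end H47Perc
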