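import Pool.Agent.Helper47.Perc.Arms

/-!
Lower bound: `n · piQ n · piH a b n ≥ 1/44` from the sum rule.
-/

namespace H47Perc
open Finset
open Pool.Agent.Helper69.RSW (P P_mono P_map P_restrict P_congr Dep Up harris P_nonneg P_indep
  P_or_le P_le_one P_insert P_true P_false)

/-- connection probability to the corner -/
noncomputable def cn (S : Finset (ℤ × ℤ)) (z : ℤ × ℤ) : ℝ :=
  perc half S (fun ω => Joined ω (0, 0) z)

open Classical in
/-- mass of the top exits -/
noncomputable def topS (S : Finset (ℤ × ℤ)) : ℝ :=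
  ∑ z ∈ S.filter (fun z => z + (0, 1) ∉ S), cn S z

open Classical in
/-- mass of the right exits -/
noncomputable def rightS (S : Finset (ℤ × ℤ)) : ℝ :=
  ∑ z ∈ S.filter (fun z => z + (1, 0) ∉ S), cn S z

/-- the sum rule at `p = 1/2` -/
def SumRule : Prop := ∀ S : Finset (ℤ × ℤ), IsYoung S → rightS S + topS S = 2

lemma cn_nonneg (S : Finset (ℤ × ℤ)) (z : ℤ × ℤ) : 0 ≤ cn S z := perc_half_nonneg _ _

lemma cn_mono {S T : Finset (ℤ × ℤ)} (h : S ⊆ T) (z : ℤ × ℤ) : cn S z ≤ cn T z := by
  unfold cn
  rw [← perc_restrict h]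
  exact perc_half_mono (fun ω _ hj => joined_mono inter_subset_left hj)

lemma box_young {m : ℤ} (hm : 0 ≤ m) : IsYoung (box 0 m 0 m) := by
  refine ⟨by rw [mem_box]; simp only; omega, fun z hz => ?_, fun z hz w h1 h2 h3 h4 => ?_⟩
  · rw [mem_box] at hz; omega
  · rw [mem_box] at hz ⊢; omega

lemma topS_box (m : ℤ) : topS (box 0 m 0 m) = ∑ z ∈ (box 0 m 0 m).filter (fun z => z.2 = m),
    cn (box 0 m 0 m) z := by
  unfold topS
  congr 1
  ext z
  rw [mem_filter, mem_filter, mem_box, mem_box]
  simp only [Prod.fst_add, Prod.snd_add]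
  omega

lemma rightS_box (m : ℤ) : rightS (box 0 m 0 m) = ∑ z ∈ (box 0 m 0 m).filter (fun z => z.1 = m),
    cn (box 0 m 0 m) z := by
  unfold rightS
  congr 1
  ext z
  rw [mem_filter, mem_filter, mem_box, mem_box]
  simp only [Prod.fst_add, Prod.snd_add]
  omega

lemma cn_transp (m : ℤ) (z : ℤ × ℤ) :
    cn (box 0 m 0 m) (transp z) = cn (box 0 m 0 m) z := by
  unfold cn
  conv_lhs => rw [← box_transp 0 m 0 m, perc_half_map transp_iso]
  congr 1
  funext ω
  have := joined_map (f := transp) (ω := ω) (u := (0, 0)) (v := z)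
  exact propext this

lemma topS_eq_rightS (m : ℤ) : topS (box 0 m 0 m) = rightS (box 0 m 0 m) := by
  rw [topS_box, rightS_box]
  apply sum_bij' (fun z _ => transp z) (fun z _ => transp z)
  · rintro ⟨x, y⟩ hz
    rw [mem_filter, mem_box] at hz ⊢
    simp only [transp, Equiv.prodComm_apply, Prod.swap_prod_mk] at hz ⊢
    omega
  · rintro ⟨x, y⟩ hz
    rw [mem_filter, mem_box] at hz ⊢
    simp only [transp, Equiv.prodComm_apply, Prod.swap_prod_mk] at hz ⊢
    omega
  · rintro ⟨x, y⟩ _; rfl
  · rintro ⟨x, y⟩ _; rfl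
  · intro z _
    exact (cn_transp m z).symm

lemma rightS_box_one (hR : SumRule) {m : ℤ} (hm : 0 ≤ m) : rightS (box 0 m 0 m) = 1 := by
  have h1 := hR _ (box_young hm)
  rw [topS_eq_rightS] at h1
  linarith

open Classical in
/-- the Young diagram below the line `a x + b y = b m` -/
noncomputable def DD (a b : ℝ) (m : ℤ) : Finset (ℤ × ℤ) :=
  (box 0 m 0 m).filter (fun z => a * z.1 + b * z.2 ≤ b * m)

lemma mem_DD {a b : ℝ} {m : ℤ} {z : ℤ × ℤ} :
    z ∈ DD a b m ↔ (0 ≤ z.1 ∧ z.1 ≤ m ∧ 0 ≤ z.2 ∧ z.2 ≤ m) ∧ a * z.1 + b * z.2 ≤ b * m := by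
  unfold DD
  rw [mem_filter, mem_box]

lemma DD_young {a b : ℝ} (ha : 0 ≤ a) (hb : 0 < b) {m : ℤ} (hm : 0 ≤ m) :
    IsYoung (DD a b m) := by
  have hm' : (0:ℝ) ≤ m := by exact_mod_cast hm
  refine ⟨?_, fun z hz => ?_, fun z hz w h1 h2 h3 h4 => ?_⟩
  · rw [mem_DD]
    refine ⟨by simp only; omega, ?_⟩
    simp only [Int.cast_zero, mul_zero, add_zero]
    positivity
  · rw [mem_DD] at hz; omega
  · rw [mem_DD] at hz ⊢
    refine ⟨by omega, ?_⟩
    have e1 : (w.1 : ℝ) ≤ z.1 := by exact_mod_cast h3
    have e2 : (w.2 : ℝ) ≤ z.2 := by exact_mod_cast h4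
    nlinarith [mul_le_mul_of_nonneg_left e1 ha, mul_le_mul_of_nonneg_left e2 hb.le, hz.2]

lemma DD_sub (a b : ℝ) (m : ℤ) : DD a b m ⊆ box 0 m 0 m := by
  unfold DD; exact filter_subset _ _

lemma perc_mem_edge {S : Finset (ℤ × ℤ)} {e : Sym2 (ℤ × ℤ)} (he : e ∈ edgesIn S) :
    perc half S (fun ω => e ∈ ω) = 1 / 2 := by
  rw [Pool.Agent.Helper69.RSW.perc_half_eq]
  have h1 : edgesIn S = insert e ((edgesIn S).erase e) := (insert_erase he).symm
  rw [h1, P_insert (notMem_erase e _)]
  have h2 : P ((edgesIn S).erase e) (fun ω => e ∈ ω) = 0 := by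
    rw [← P_false ((edgesIn S).erase e)]
    apply P_congr
    intro ω hω
    constructor
    · intro h
      exact notMem_erase e _ (hω h)
    · exact False.elim
  have h3 : P ((edgesIn S).erase e) (fun ω => e ∈ insert e ω) = 1 := by
    rw [← P_true ((edgesIn S).erase e)]
    apply P_congr
    intro ω hω
    simp
  rw [h2, h3]
  norm_num

/-- one step below the boundary of the half-plane -/
lemma armP_shift {a b : ℝ} (hb : 0 < b) {k : ℕ} (hk : 1 ≤ k) :
    armP (halfBox a b (k + 1 : ℕ)) (0, -1) k ≤ 2 * piH a b (k - 1) := by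
  set S := halfBox a b (k + 1 : ℕ) with hS
  have h0 : ((0, 0) : ℤ × ℤ) ∈ S := by
    rw [hS, mem_halfBox, mem_ball]
    simp
    omega
  have h1 : ((0, -1) : ℤ × ℤ) ∈ S := by
    rw [hS, mem_halfBox, mem_ball]
    simp
    refine ⟨by omega, by linarith⟩
  have hadj : lattice.Adj (0, 0) (0, -1) := Or.inl ⟨rfl, by simp⟩
  have he : s(((0, 0) : ℤ × ℤ), ((0, -1) : ℤ × ℤ)) ∈ edgesIn S := by
    rw [mem_edgesIn]
    exact ⟨h0, h1, hadj⟩
  have hup : Up (fun ω : Finset (Sym2 (ℤ × ℤ)) => s(((0, 0) : ℤ × ℤ), ((0, -1) : ℤ × ℤ)) ∈ ω) :=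
    fun _ _ h h' => h h'
  have h2 := perc_harris S (arm_up S (0, -1) k) hup
  rw [perc_mem_edge he] at h2
  have h3 : perc half S (fun ω => Arm S (0, -1) k ω ∧
      s(((0, 0) : ℤ × ℤ), ((0, -1) : ℤ × ℤ)) ∈ ω) ≤ armP S (0, 0) ((k - 1 : ℕ) : ℤ) := by
    apply perc_half_mono
    rintro ω hω ⟨⟨z, hz1, hz2⟩, hz3⟩
    have hj : Joined (ω ∩ edgesIn S) (0, 0) z := by
      rw [inter_eq_left.2 hω]
      exact joined_trans (joined_edge hz3) (joined_mono inter_subset_left hz2)
    apply arm_of_joined (by omega) hj
    rcases hz1 with hz1 | hz1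
    · left
      simp only [sub_zero] at hz1 ⊢
      omega
    · right
      simp only [sub_zero, sub_neg_eq_add] at hz1 ⊢
      rcases abs_cases (z.2 + 1) with h' | h' <;> rcases abs_cases z.2 with h'' | h'' <;> omega
  rw [← piH_eq (n := k - 1) S (halfBox_inter a b (by omega))] at h3
  unfold armP
  linarith

/-- the mass of the slanted exits of `DD` -/
lemma slanted {a b : ℝ} (hab : a ≤ b) (ha : 0 ≤ a) (hb : 0 < b) (hR : SumRule) {m : ℤ}
    (hm : 0 ≤ m) {q : ℝ} (hq : 0 ≤ q)
    (h : ∀ z ∈ DD a b m, b * m < a * z.1 + b * z.2 + b → cn (DD a b m) z ≤ q) :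
    1 ≤ 2 * (m + 1) * q := by
  classical
  have h1 := hR _ (DD_young ha hb hm)
  -- top exits
  have hcard : ∀ (s : Finset (ℤ × ℤ)) (f : ℤ × ℤ → ℤ), (∀ z ∈ s, 0 ≤ f z ∧ f z ≤ m) →
      (∀ z ∈ s, ∀ w ∈ s, f z = f w → z = w) → (#s : ℝ) ≤ m + 1 := by
    intro s f hf hinj
    have : #s ≤ #(Icc 0 m) := by
      apply card_le_card_of_injOn f
      · intro z hz
        rw [coe_Icc, Set.mem_Icc]
        exact hf z hz
      · intro z hz w hw hzw
        exact hinj z hz w hw hzw
    rw [Int.card_Icc, sub_zero] at this
    have h2 : ((m + 1).toNat : ℝ) = m + 1 := by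
      have : (((m + 1).toNat : ℤ) : ℝ) = ((m + 1 : ℤ) : ℝ) := by rw [Int.toNat_of_nonneg (by omega)]
      push_cast at this
      exact_mod_cast this
    rw [← h2]
    exact_mod_cast this
  have top : topS (DD a b m) ≤ (m + 1) * q := by
    unfold topS
    calc ∑ z ∈ (DD a b m).filter (fun z => z + (0, 1) ∉ DD a b m), cn (DD a b m) z
        ≤ ∑ z ∈ (DD a b m).filter (fun z => z + (0, 1) ∉ DD a b m), q := by
          apply sum_le_sum
          intro z hz
          rw [mem_filter] at hz
          apply h z hz.1
          by_contra hcon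
          push Not at hcon
          apply hz.2
          have hz1 := mem_DD.1 hz.1
          rw [mem_DD]
          simp only [Prod.fst_add, Prod.snd_add, add_zero]
          have hlt : z.2 + 1 ≤ m := by
            by_contra hc
            have : z.2 = m := by omega
            rw [this] at hcon
            have : (0:ℝ) ≤ a * z.1 := mul_nonneg ha (by exact_mod_cast hz1.1.1)
            linarith
          refine ⟨by omega, ?_⟩
          push_cast
          linarith
      _ = #((DD a b m).filter (fun z => z + (0, 1) ∉ DD a b m)) * q := by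
          rw [sum_const, nsmul_eq_mul]
      _ ≤ (m + 1) * q := by
          apply mul_le_mul_of_nonneg_right _ hq
          apply hcard _ (fun z => z.1)
          · intro z hz
            rw [mem_filter, mem_DD] at hz
            omega
          · intro z hz w hw hzw
            rw [mem_filter] at hz hw
            obtain ⟨z1, z2⟩ := z
            obtain ⟨w1, w2⟩ := w
            simp only at hzw
            subst hzw
            have hY := (DD_young ha hb hm).2.2
            congr 1
            by_contra hne
            rcases lt_or_gt_of_ne hne with hlt | hlt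
            · apply hz.2
              have := mem_DD.1 hz.1
              simp only at this
              apply hY _ hw.1 <;> simp <;> omega
            · apply hw.2
              have := mem_DD.1 hw.1
              simp only at this
              apply hY _ hz.1 <;> simp <;> omega
  have right : rightS (DD a b m) ≤ 1 + (m + 1) * q := by
    unfold rightS
    rw [← sum_filter_add_sum_filter_not _ (fun z : ℤ × ℤ => z.1 = m)]
    apply add_le_add
    · rw [← rightS_box_one hR hm, rightS_box]
      calc ∑ z ∈ ((DD a b m).filter (fun z => z + (1, 0) ∉ DD a b m)).filter (fun z => z.1 = m),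
            cn (DD a b m) z
          ≤ ∑ z ∈ ((DD a b m).filter (fun z => z + (1, 0) ∉ DD a b m)).filter (fun z => z.1 = m),
            cn (box 0 m 0 m) z := sum_le_sum (fun z _ => cn_mono (DD_sub a b m) z)
        _ ≤ ∑ z ∈ (box 0 m 0 m).filter (fun z => z.1 = m), cn (box 0 m 0 m) z := by
            apply sum_le_sum_of_subset_of_nonneg
            · intro z hz
              rw [mem_filter, mem_filter] at hz
              rw [mem_filter]
              exact ⟨DD_sub a b m hz.1.1, hz.2⟩
            · intro z _ _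
              exact cn_nonneg _ _
    · calc ∑ z ∈ ((DD a b m).filter (fun z => z + (1, 0) ∉ DD a b m)).filter (fun z => ¬ z.1 = m),
            cn (DD a b m) z
          ≤ ∑ z ∈ ((DD a b m).filter (fun z => z + (1, 0) ∉ DD a b m)).filter
              (fun z => ¬ z.1 = m), q := by
            apply sum_le_sum
            intro z hz
            rw [mem_filter, mem_filter] at hz
            apply h z hz.1.1
            by_contra hcon
            push Not at hcon
            apply hz.1.2
            have hz1 := mem_DD.1 hz.1.1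
            rw [mem_DD]
            simp only [Prod.fst_add, Prod.snd_add, add_zero]
            refine ⟨by omega, ?_⟩
            push_cast
            linarith
        _ = #(((DD a b m).filter (fun z => z + (1, 0) ∉ DD a b m)).filter
              (fun z => ¬ z.1 = m)) * q := by
            rw [sum_const, nsmul_eq_mul]
        _ ≤ (m + 1) * q := by
            apply mul_le_mul_of_nonneg_right _ hq
            apply hcard _ (fun z => z.2)
            · intro z hz
              rw [mem_filter, mem_filter, mem_DD] at hz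
              omega
            · intro z hz w hw hzw
              rw [mem_filter, mem_filter] at hz hw
              obtain ⟨z1, z2⟩ := z
              obtain ⟨w1, w2⟩ := w
              simp only at hzw
              subst hzw
              have hY := (DD_young ha hb hm).2.2
              congr 1
              by_contra hne
              rcases lt_or_gt_of_ne hne with hlt | hlt
              · apply hz.1.2
                have := mem_DD.1 hz.1.1
                simp only at this
                apply hY _ hw.1.1 <;> simp <;> omega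
              · apply hw.1.2
                have := mem_DD.1 hw.1.1
                simp only at this
                apply hY _ hz.1.1 <;> simp <;> omega
  linarith

/-- the lower bound for directions in the first octant -/
theorem lower {a b : ℝ} (hab : a ≤ b) (ha : 0 ≤ a) (hb : 0 < b) (hR : SumRule) {n : ℕ}
    (hn : 1 ≤ n) : 1 / 44 ≤ n * piQ n * piH a b n := by
  set k : ℕ := n + 1 with hk
  set m : ℤ := 4 * k + 2 with hm
  have hq : ∀ z ∈ DD a b m, b * m < a * z.1 + b * z.2 + b →
      cn (DD a b m) z ≤ piQ n * (2 * piH a b n) := by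
    intro z hz h1
    have hz1 := mem_DD.1 hz
    have h2 : m ≤ z.1 + z.2 := by
      have h3 : b * m < b * (z.1 + z.2 + 1) := by
        have : a * z.1 ≤ b * z.1 := mul_le_mul_of_nonneg_right hab (by exact_mod_cast hz1.1.1)
        linarith
      have h4 : (m : ℝ) < z.1 + z.2 + 1 := lt_of_mul_lt_mul_left h3 hb.le
      have h5 : m < z.1 + z.2 + 1 := by exact_mod_cast h4
      omega
    have h3 : cn (DD a b m) z ≤ armP (DD a b m) (0, 0) k * armP (DD a b m) z k := by
      apply perc_joined_le (by omega)
      simp only [sub_zero]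
      rw [abs_of_nonneg hz1.1.1, abs_of_nonneg hz1.1.2.2.1]
      omega
    have h4 : armP (DD a b m) (0, 0) k = piQ k := by
      symm
      apply piQ_eq
      ext w
      rw [mem_inter, mem_ball, mem_box, mem_DD, abs_le, abs_le]
      simp only [sub_zero]
      constructor
      · rintro ⟨⟨h5, h6⟩, h7, h8⟩
        omega
      · intro h5
        refine ⟨⟨by omega, ?_⟩, by omega, by omega⟩
        have e1 : (w.1 : ℝ) ≤ k := by exact_mod_cast h5.2.1
        have e2 : (w.2 : ℝ) ≤ k := by exact_mod_cast h5.2.2.2
        have e3 : (0 : ℝ) ≤ w.1 := by exact_mod_cast h5.1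
        have e4 : a * w.1 ≤ b * w.1 := mul_le_mul_of_nonneg_right hab e3
        have e5 : b * (w.1 + w.2) ≤ b * m := by
          apply mul_le_mul_of_nonneg_left _ hb.le
          have : ((m : ℤ) : ℝ) = 4 * k + 2 := by rw [hm]; push_cast; ring
          rw [this]
          have : (0:ℝ) ≤ k := by positivity
          linarith
        linarith
    have h5 : armP (DD a b m) z k ≤ armP (halfBox a b (k + 1 : ℕ)) (0, -1) k := by
      have e1 := armP_map (transl_sym (z + (0, 1))) (halfBox a b (k + 1 : ℕ)) (0, -1) k
      have e2 : transl (z + (0, 1)) (0, -1) = z := by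
        obtain ⟨z1, z2⟩ := z
        simp [transl]
      rw [e2] at e1
      rw [← e1]
      apply armP_mono
      intro w hw
      rw [mem_inter, mem_ball] at hw
      have hw1 := mem_DD.1 hw.1
      rw [mem_map_equiv, mem_halfBox, mem_ball]
      have e3 : (transl (z + (0, 1))).symm w = (w.1 - z.1, w.2 - z.2 - 1) := by
        obtain ⟨w1, w2⟩ := w
        obtain ⟨z1, z2⟩ := z
        simp only [transl, Equiv.addRight_symm, Equiv.coe_addRight, Prod.mk_add_mk, Prod.neg_mk,
          Prod.mk.injEq]
        omega
      rw [e3]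
      have e4 := abs_le.1 hw.2.1
      have e5 := abs_le.1 hw.2.2
      refine ⟨?_, ?_⟩
      · rw [abs_le, abs_le]
        push_cast
        simp only [sub_zero]
        omega
      · push_cast
        have := hw1.2
        linarith
    have h6 := armP_shift (a := a) hb (k := k) (by omega)
    have h7 : k - 1 = n := by omega
    rw [h7] at h6
    have h8 : piQ k ≤ piQ n := piQ_anti (by omega)
    calc cn (DD a b m) z ≤ armP (DD a b m) (0, 0) k * armP (DD a b m) z k := h3
      _ = piQ k * armP (DD a b m) z k := by rw [h4]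
      _ ≤ piQ n * (2 * piH a b n) := by
          apply mul_le_mul h8 (h5.trans h6) (armP_nonneg _ _ _) (piQ_nonneg n)
  have h1 := slanted hab ha hb hR (m := m) (by omega)
    (mul_nonneg (piQ_nonneg n) (mul_nonneg zero_le_two (piH_nonneg a b n))) hq
  have hm' : ((m : ℤ) : ℝ) = 4 * n + 6 := by rw [hm, hk]; push_cast; ring
  rw [hm'] at h1
  have hn' : (1 : ℝ) ≤ n := by exact_mod_cast hn
  have h2 : 0 ≤ piQ n * piH a b n := mul_nonneg (piQ_nonneg n) (piH_nonneg a b n)
  nlinarith [mul_le_mul_of_nonneg_right hn' h2]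

end H47Perc
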