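import Mathlib

/-!
Noncrossing permutations of the integers and the elementary operation used to follow the
boundary of percolation clusters from one horizontal line to the next.
-/

namespace H47Perc

open Equiv

/-- A permutation of the integers (the cyclic predecessor map of a partition of the columns into
clusters) is noncrossing if every arc is closed under the permutation. -/
def NC (P : Perm ℤ) : Prop :=
  ∀ a x, (a ≤ P a → a ≤ x → x ≤ P a → a ≤ P x ∧ P x ≤ P a) ∧
    (P a < a → P a < x → x < a → P a < P x ∧ P x < a)

/-- the inverse of a permutation preserving an interval preserves the interval -/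
lemma inv_Icc (P : Perm ℤ) (a b : ℤ) (h : ∀ x, a ≤ x → x ≤ b → a ≤ P x ∧ P x ≤ b)
    (y : ℤ) (h1 : a ≤ P y) (h2 : P y ≤ b) : a ≤ y ∧ y ≤ b := by
  have h0 : ∀ x ∈ Finset.Icc a b, P x ∈ Finset.Icc a b := by
    intro x hx
    rw [Finset.mem_Icc] at hx ⊢
    exact h x hx.1 hx.2
  have h3 := Equiv.Perm.perm_symm_on_of_perm_on_finset h0 (y := P y)
    (Finset.mem_Icc.2 ⟨h1, h2⟩)
  simpa using h3

lemma inv_Ioo (P : Perm ℤ) (a b : ℤ) (h : ∀ x, a < x → x < b → a < P x ∧ P x < b)
    (y : ℤ) (h1 : a < P y) (h2 : P y < b) : a < y ∧ y < b := by
  have := inv_Icc P (a+1) (b-1) (fun x hx1 hx2 => by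
    have := h x (by omega) (by omega)
    omega) y (by omega) (by omega)
  omega

/-- the arc `[a, P a]` of a noncrossing permutation is also closed under the inverse -/
lemma NC.up {P : Perm ℤ} (h : NC P) {a : ℤ} (ha : a ≤ P a) (y : ℤ) :
    (a ≤ y ∧ y ≤ P a) ↔ (a ≤ P y ∧ P y ≤ P a) :=
  ⟨fun hy => (h a y).1 ha hy.1 hy.2,
    fun hy => inv_Icc P a (P a) (fun x h1 h2 => (h a x).1 ha h1 h2) y hy.1 hy.2⟩

lemma NC.down {P : Perm ℤ} (h : NC P) {a : ℤ} (ha : P a < a) (y : ℤ) :
    (P a < y ∧ y < a) ↔ (P a < P y ∧ P y < a) :=
  ⟨fun hy => (h a y).2 ha hy.1 hy.2,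
    fun hy => inv_Ioo P (P a) a (fun x h1 h2 => (h a x).2 ha h1 h2) y hy.1 hy.2⟩

lemma NC.one : NC 1 := by
  intro a x
  simp only [Perm.coe_one, id_eq, lt_self_iff_false, false_imp_iff, and_true]
  intro _ h1 h2
  exact ⟨h1, h2⟩

/-- The elementary operation: the strands right of column `c` and left of column `d` (adjacent
strands, `d = c` or `d = c+1`) are joined below, and a new arc is created above. `u` is the column
with `P u = c`. -/
noncomputable def op (P : Perm ℤ) (c d : ℤ) : Perm ℤ := P * swap (P.symm c) d

lemma op_u (P : Perm ℤ) (u d : ℤ) : op P (P u) d u = P d := by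
  simp [op]

lemma op_d (P : Perm ℤ) (u d : ℤ) : op P (P u) d d = P u := by
  simp [op]

lemma op_ne (P : Perm ℤ) (u d x : ℤ) (h1 : x ≠ u) (h2 : x ≠ d) : op P (P u) d x = P x := by
  simp [op, swap_apply_of_ne_of_ne h1 h2]

lemma op_self (P : Perm ℤ) (u : ℤ) : op P (P u) u = P := by
  ext x
  simp [op]

lemma NC.op {P : Perm ℤ} (h : NC P) (c d : ℤ) (hd : d = c ∨ d = c + 1) : NC (op P c d) := by
  obtain ⟨u, rfl⟩ := P.surjective c
  by_cases hud : u = d
  · subst hud
    rwa [op_self]
  have hcu : ∀ x, P x = P u → x = u := fun x hx => P.injective hx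
  have hde : ∀ x, P x = P d → x = d := fun x hx => P.injective hx
  have hu1 := op_u P u d
  have hd1 := op_d P u d
  have hn := op_ne P u d
  -- facts about the arcs at u and d
  have Uu := fun (ha : u ≤ P u) => h.up ha
  have Du := fun (ha : P u < u) => h.down ha
  have Ud := fun (ha : d ≤ P d) => h.up ha
  have Dd := fun (ha : P d < d) => h.down ha
  have hne : P d ≠ P u := fun hh => hud (P.injective hh).symm
  intro a x
  by_cases hau : a = u
  · subst hau
    rw [hu1]
    constructor
    · intro h1 h2 h3
      by_cases hxa : x = a
      · subst hxa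
        rw [hu1]
        omega
      by_cases hxd : x = d
      · subst hxd
        rw [hd1]
        rcases hd with hd | hd
        · omega
        · rcases lt_or_ge (P a) a with h4 | h4
          · have h5 := (Du h4 x)
            omega
          · omega
      rw [hn x hxa hxd]
      have hx1 := hcu x
      have hx2 := hde x
      rcases lt_or_ge (P a) a with h4 | h4
      · have h5 := Du h4 x
        have h6 := Du h4 d
        rcases lt_or_ge (P d) d with h7 | h7
        · have h8 := Dd h7 x
          have h9 := Dd h7 a
          omega
        · have h8 := Ud h7 x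
          have h9 := Ud h7 a
          omega
      · have h5 := Uu h4 x
        have h6 := Uu h4 d
        rcases lt_or_ge (P d) d with h7 | h7
        · have h8 := Dd h7 x
          have h9 := Dd h7 a
          omega
        · have h8 := Ud h7 x
          have h9 := Ud h7 a
          omega
    · intro h1 h2 h3
      by_cases hxa : x = a
      · omega
      by_cases hxd : x = d
      · subst hxd
        rw [hd1]
        rcases lt_or_ge (P a) a with h4 | h4
        · have h5 := Du h4 x
          rcases lt_or_ge (P x) x with h7 | h7
          · have h9 := Dd h7 a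
            omega
          · have h9 := Ud h7 a
            omega
        · have h5 := Uu h4 x
          rcases lt_or_ge (P x) x with h7 | h7
          · have h9 := Dd h7 a
            omega
          · have h9 := Ud h7 a
            omega
      rw [hn x hxa hxd]
      have hx1 := hcu x
      have hx2 := hde x
      rcases lt_or_ge (P a) a with h4 | h4
      · have h5 := Du h4 x
        have h6 := Du h4 d
        rcases lt_or_ge (P d) d with h7 | h7
        · have h8 := Dd h7 x
          have h9 := Dd h7 a
          omega
        · have h8 := Ud h7 x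
          have h9 := Ud h7 a
          omega
      · have h5 := Uu h4 x
        have h6 := Uu h4 d
        rcases lt_or_ge (P d) d with h7 | h7
        · have h8 := Dd h7 x
          have h9 := Dd h7 a
          omega
        · have h8 := Ud h7 x
          have h9 := Ud h7 a
          omega
  by_cases had : a = d
  · subst had
    rw [hd1]
    constructor
    · intro h1 h2 h3
      have : x = a := by omega
      subst this
      rw [hd1]
      omega
    · intro h1 h2 h3
      omega
  -- other arcs
  rw [hn a hau had]
  have hac := hcu a
  constructor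
  · intro h1 h2 h3
    have h4 := h.up h1 x
    have h5 := h.up h1 u
    have h6 := h.up h1 d
    by_cases hxa : x = u
    · subst hxa
      rw [hu1]
      omega
    by_cases hxd : x = d
    · subst hxd
      rw [hd1]
      omega
    rw [hn x hxa hxd]
    omega
  · intro h1 h2 h3
    have h4 := h.down h1 x
    have h5 := h.down h1 u
    have h6 := h.down h1 d
    by_cases hxa : x = u
    · subst hxa
      rw [hu1]
      omega
    by_cases hxd : x = d
    · subst hxd
      rw [hd1]
      omega
    rw [hn x hxa hxd]
    omega

/-- the factor of an arc from the left strand of column `a` to the right strand of `b` -/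
noncomputable def kap (θ : ℂ) (a b : ℤ) : ℂ := if a ≤ b then 1 else θ⁻¹

lemma kap_le (θ : ℂ) {a b : ℤ} (h : a ≤ b) : kap θ a b = 1 := if_pos h

lemma kap_lt (θ : ℂ) {a b : ℤ} (h : b < a) : kap θ a b = θ⁻¹ := if_neg (not_le.2 h)

/-- amplitudes on the left and right strands compatible with the arcs -/
def Amp (θ : ℂ) (P : Perm ℤ) (L R : ℤ → ℂ) : Prop := ∀ a, R (P a) = kap θ a (P a) * L a

lemma Amp.op {θ : ℂ} (hθ : θ ≠ 0) {P : Perm ℤ} (h : NC P) {L R L' R' : ℤ → ℂ}
    (hA : Amp θ P L R) (c d : ℤ) (hd : d = c ∨ d = c + 1)
    (hL : ∀ x, x ≠ d → L' x = L x) (hR : ∀ x, x ≠ c → R' x = R x)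
    (h1 : L d = θ * kap θ d c * R c) (h2 : R' c = kap θ d c * L' d) :
    Amp θ (op P c d) L' R' := by
  obtain ⟨u, rfl⟩ := P.surjective c
  by_cases hud : u = d
  · subst hud
    rw [op_self]
    intro a
    by_cases hau : a = u
    · subst hau
      exact h2
    · rw [hL a hau, hR _ (fun hh => hau (P.injective hh))]
      exact hA a
  have hne : P d ≠ P u := fun hh => hud (P.injective hh).symm
  intro a
  by_cases hau : a = u
  · subst hau
    rw [op_u, hR _ hne, hL a hud, hA d, h1, hA a]
    have key : kap θ a (P d) = kap θ d (P d) * (θ * kap θ d (P a)) * kap θ a (P a) := by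
      have hi : θ * θ⁻¹ = 1 := mul_inv_cancel₀ hθ
      have hi2 : θ⁻¹ * θ = 1 := inv_mul_cancel₀ hθ
      rcases hd with hd | hd
      · -- d = c
        rw [kap_le θ (a := d) (b := P a) (by omega)]
        rcases lt_or_ge (P a) a with h4 | h4
        · rw [kap_lt θ h4]
          rcases lt_or_ge (P d) d with h7 | h7
          · rw [kap_lt θ h7, kap_lt θ (a := a) (b := P d) (by omega)]
            field_simp
          · have h8 := (h.up h7 a)
            rw [kap_le θ h7, kap_le θ (a := a) (b := P d) (by omega)]
            field_simp
        · rw [kap_le θ h4]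
          have h5 := h.up h4 d
          rcases lt_or_ge (P d) d with h7 | h7
          · rw [kap_lt θ h7, kap_le θ (a := a) (b := P d) (by omega)]
            field_simp
          · omega
      · rw [kap_lt θ (a := d) (b := P a) (by omega)]
        rcases lt_or_ge (P a) a with h4 | h4
        · rw [kap_lt θ h4]
          have h5 := h.down h4 d
          rcases lt_or_ge (P d) d with h7 | h7
          · omega
          · rw [kap_le θ h7, kap_lt θ (a := a) (b := P d) (by omega)]
            field_simp
        · rw [kap_le θ h4]
          rcases lt_or_ge (P d) d with h7 | h7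
          · have h8 := h.down h7 a
            rw [kap_lt θ h7, kap_lt θ (a := a) (b := P d) (by omega)]
            field_simp
          · rw [kap_le θ h7, kap_le θ (a := a) (b := P d) (by omega)]
            field_simp
    rw [key]
    ring
  by_cases had : a = d
  · subst had
    rw [op_d]
    exact h2
  · rw [op_ne P u d a hau had, hL a had, hR _ (fun hh => hau (P.injective hh))]
    exact hA a

end H47Perc
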