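import Pool.Agent.Helper47.Perc.Cyc

namespace H47Perc

open Equiv

lemma sc_rel {P : Perm ℤ} (E : ℤ → ℤ → Prop) (hE : Equivalence E)
    (hs : ∀ x, E x (P x)) {x y : ℤ} (h : P.SameCycle x y) : E x y := by
  obtain ⟨i, rfl⟩ := h
  induction i using Int.induction_on with
  | zero => exact hE.refl _
  | succ n ih =>
    refine hE.trans ih ?_
    have := hs ((P ^ (n : ℤ)) x)
    rwa [← Perm.mul_apply, ← zpow_one_add, add_comm] at this
  | pred n ih =>
    refine hE.trans ih ?_
    have := hs ((P ^ (-(n : ℤ) - 1)) x)
    rw [← Perm.mul_apply, ← zpow_one_add] at this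
    have e : (1 : ℤ) + (-(n:ℤ) - 1) = -n := by ring
    rw [e] at this
    exact hE.symm this

/-- partial processing of a row of vertical edges: columns `< m` are done -/
structure VInv (θ : ℂ) (B : ℤ) (P : Perm ℤ) (o : ℤ → Prop) (L R L' R' : ℤ → ℂ) (m : ℤ)
    (Q : Perm ℤ) : Prop where
  nc : NC Q
  sup : Sup B Q
  amp : Amp θ Q (fun x => if x < m then L' x else L x) (fun x => if x < m then R' x else R x)
  back : ∀ a b, Q.SameCycle a b → P.SameCycle a b
  fix : ∀ a, a < m → ¬ o a → Q a = a
  fwd : ∀ a b, (a < m → o a) → (b < m → o b) → P.SameCycle a b → Q.SameCycle a b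

lemma sc_op_back {Q : Perm ℤ} (c : ℤ) {a b : ℤ} (h : (op Q c c).SameCycle a b) :
    Q.SameCycle a b := by
  obtain ⟨u, rfl⟩ := Q.surjective c
  refine sc_of_step (f := fun z => z) ?_ h
  intro x
  by_cases hxu : x = u
  · subst hxu
    rw [op_u]
    exact (sc_one rfl).trans (sc_one rfl)
  by_cases hxd : x = Q u
  · subst hxd
    rw [op_d]
  rw [op_ne Q u (Q u) x hxu hxd]
  exact sc_one rfl

lemma vstep {θ : ℂ} (hθ : θ ≠ 0) {B : ℤ} {P : Perm ℤ} {o : ℤ → Prop} {L R L' R' : ℤ → ℂ}
    (h1 : ∀ x, o x → R' x = R x ∧ L' x = L x) (h2 : ∀ x, ¬ o x → L x = θ * R x ∧ R' x = L' x)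
    {m : ℤ} (hm : -B ≤ m ∧ m ≤ B) {Q : Perm ℤ} (h : VInv θ B P o L R L' R' m Q) :
    ∃ Q', VInv θ B P o L R L' R' (m + 1) Q' := by
  by_cases ho : o m
  · refine ⟨Q, h.nc, h.sup, ?_, h.back, ?_, ?_⟩
    · have e1 : (fun x => if x < m + 1 then L' x else L x) = fun x => if x < m then L' x else L x := by
        funext x
        by_cases hx : x = m
        · subst hx
          simp [(h1 x ho).2]
        · by_cases hxm : x < m
          · rw [if_pos (by omega), if_pos hxm]
          · rw [if_neg (by omega), if_neg hxm]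
      have e2 : (fun x => if x < m + 1 then R' x else R x) = fun x => if x < m then R' x else R x := by
        funext x
        by_cases hx : x = m
        · subst hx
          simp [(h1 x ho).1]
        · by_cases hxm : x < m
          · rw [if_pos (by omega), if_pos hxm]
          · rw [if_neg (by omega), if_neg hxm]
      rw [e1, e2]
      exact h.amp
    · intro a ha hoa
      have : a ≠ m := by rintro rfl; exact hoa ho
      exact h.fix a (by omega) hoa
    · intro a b ha hb
      exact h.fwd a b (fun h' => ha (by omega)) (fun h' => hb (by omega))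
  · refine ⟨op Q m m, h.nc.op m m (Or.inl rfl), h.sup.op hm hm, ?_, ?_, ?_, ?_⟩
    · refine h.amp.op hθ h.nc m m (Or.inl rfl) ?_ ?_ ?_ ?_
      · intro x hx
        by_cases hxm : x < m
        · rw [if_pos (by omega), if_pos hxm]
        · rw [if_neg (by omega), if_neg hxm]
      · intro x hx
        by_cases hxm : x < m
        · rw [if_pos (by omega), if_pos hxm]
        · rw [if_neg (by omega), if_neg hxm]
      · rw [if_neg (lt_irrefl m), if_neg (lt_irrefl m), kap_le θ le_rfl, (h2 m ho).1]
        ring
      · rw [if_pos (by omega), if_pos (by omega), kap_le θ le_rfl, (h2 m ho).2]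
        ring
    · intro a b hab
      exact h.back a b (sc_op_back m hab)
    · intro a ha hoa
      obtain ⟨u, hu⟩ := Q.surjective m
      by_cases ham : a = m
      · subst ham
        have := op_d Q u a
        rw [hu] at this
        exact this
      · have h3 := h.fix a (by omega) hoa
        have h4 : a ≠ u := by
          rintro rfl
          exact ham (h3.symm.trans hu)
        have := op_ne Q u m a h4 ham
        rw [hu] at this
        rw [this, h3]
    · intro a b ha hb hab
      have ham : a ≠ m := by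
        rintro rfl
        exact ho (ha (by omega))
      have hbm : b ≠ m := by
        rintro rfl
        exact ho (hb (by omega))
      exact sc_isolate m ham hbm
        (h.fwd a b (fun h' => ha (by omega)) (fun h' => hb (by omega)) hab)

lemma Sup.inv_mem {B : ℤ} {P : Perm ℤ} (h : Sup B P) {a : ℤ} (ha : -B ≤ a ∧ a ≤ B) :
    -B ≤ P a ∧ P a ≤ B := by
  by_contra hc
  have h1 : P (P a) = P a := h (P a) (by omega)
  have h2 : P a = a := P.injective h1
  omega

/-- a whole row of vertical edges -/
theorem vrow {θ : ℂ} (hθ : θ ≠ 0) {B : ℤ} (hB : 0 ≤ B) {P : Perm ℤ} (hnc : NC P) (hsup : Sup B P)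
    {o : ℤ → Prop} {L R L' R' : ℤ → ℂ} (hA : Amp θ P L R) (ho : ∀ x, o x → -B ≤ x ∧ x ≤ B)
    (h1 : ∀ x, o x → R' x = R x ∧ L' x = L x) (h2 : ∀ x, ¬ o x → L x = θ * R x ∧ R' x = L' x) :
    ∃ Q, NC Q ∧ Sup B Q ∧ Amp θ Q L' R' ∧
      (∀ a b, Q.SameCycle a b → a = b ∨ (o a ∧ o b ∧ P.SameCycle a b)) ∧
      (∀ a b, o a → o b → P.SameCycle a b → Q.SameCycle a b) := by
  have base : VInv θ B P o L R L' R' (-B) P := by
    refine ⟨hnc, hsup, ?_, fun a b h => h, ?_, fun a b _ _ h => h⟩
    · intro a
      by_cases ha : a < -B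
      · have h3 : P a = a := hsup a (Or.inl ha)
        have h4 : ¬ o a := fun h => by have := ho a h; omega
        simp only [h3, ha, if_true]
        rw [kap_le θ le_rfl, (h2 a h4).2]
        ring
      · have h3 : ¬ P a < -B := by
          intro h
          have h5 : P (P a) = P a := hsup (P a) (Or.inl h)
          have h6 : P a = a := P.injective h5
          omega
        simp only [h3, ha, if_false]
        exact hA a
    · intro a ha _
      exact hsup a (Or.inl ha)
  have step : ∀ k : ℕ, (k : ℤ) ≤ 2 * B + 1 → ∃ Q, VInv θ B P o L R L' R' (-B + k) Q := by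
    intro k
    induction k with
    | zero => intro _; exact ⟨P, by simpa using base⟩
    | succ k ih =>
      intro hk
      push_cast at hk
      obtain ⟨Q, hQ⟩ := ih (by omega)
      obtain ⟨Q', hQ'⟩ := vstep hθ h1 h2 (m := -B + k) (by omega) hQ
      refine ⟨Q', ?_⟩
      have : (-B + ((k + 1 : ℕ) : ℤ)) = -B + k + 1 := by push_cast; ring
      rw [this]
      exact hQ'
  obtain ⟨Q, hQ⟩ := step (2 * B + 1).toNat (by omega)
  have e : -B + ((2 * B + 1).toNat : ℤ) = B + 1 := by omega
  rw [e] at hQ
  refine ⟨Q, hQ.nc, hQ.sup, ?_, ?_, ?_⟩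
  · intro a
    have h3 := hQ.amp a
    by_cases ha : a < B + 1
    · have h4 : Q a < B + 1 := by
        by_contra hc
        have h5 : Q (Q a) = Q a := hQ.sup (Q a) (by omega)
        have h6 : Q a = a := Q.injective h5
        omega
      simp only [ha, h4, if_true] at h3
      exact h3
    · have h5 : Q a = a := hQ.sup a (by omega)
      have h4 : ¬ o a := fun h => by have := ho a h; omega
      rw [h5, kap_le θ le_rfl, (h2 a h4).2]
      ring
  · intro a b hab
    by_cases hab' : a = b
    · exact Or.inl hab'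
    right
    have key : ∀ x, ¬ o x → Q x = x := by
      intro x hx
      by_cases hxB : x < B + 1
      · exact hQ.fix x hxB hx
      · exact hQ.sup x (by omega)
    refine ⟨?_, ?_, hQ.back a b hab⟩
    · by_contra hoa
      exact hab' ((Perm.SameCycle.eq_of_left hab (key a hoa)))
    · by_contra hob
      exact hab' ((Perm.SameCycle.eq_of_right hab (key b hob)))
  · intro a b ha hb hab
    exact hQ.fwd a b (fun _ => ha) (fun _ => hb) hab

/-- partial processing of a row of horizontal edges: edges `(x, x+1)` with `x < m` are done -/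
structure HInv (θ : ℂ) (B : ℤ) (P : Perm ℤ) (o : ℤ → Prop) (L R L' R' : ℤ → ℂ) (m : ℤ)
    (Q : Perm ℤ) : Prop where
  nc : NC Q
  sup : Sup B Q
  amp : Amp θ Q (fun x => if x ≤ m then L' x else L x) (fun x => if x < m then R' x else R x)
  fwd : ∀ a b, P.SameCycle a b → Q.SameCycle a b
  join : ∀ x, x < m → o x → Q.SameCycle x (x + 1)
  back : ∀ E : ℤ → ℤ → Prop, Equivalence E → (∀ a b, P.SameCycle a b → E a b) →
    (∀ x, o x → E x (x + 1)) → ∀ a b, Q.SameCycle a b → E a b

lemma hstep {θ : ℂ} (hθ : θ ≠ 0) {B : ℤ} {P : Perm ℤ} {o : ℤ → Prop} {L R L' R' : ℤ → ℂ}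
    (h1 : ∀ x, o x → L (x + 1) = R x ∧ R' x = θ⁻¹ * L' (x + 1))
    (h2 : ∀ x, ¬ o x → R' x = R x ∧ L' (x + 1) = L (x + 1))
    {m : ℤ} (hm : -B ≤ m ∧ m < B) {Q : Perm ℤ} (h : HInv θ B P o L R L' R' m Q) :
    ∃ Q', HInv θ B P o L R L' R' (m + 1) Q' := by
  by_cases ho : o m
  · refine ⟨op Q m (m + 1), h.nc.op m (m + 1) (Or.inr rfl), h.sup.op (by omega) (by omega),
      ?_, ?_, ?_, ?_⟩
    · refine h.amp.op hθ h.nc m (m + 1) (Or.inr rfl) ?_ ?_ ?_ ?_
      · intro x hx
        by_cases hxm : x ≤ m
        · rw [if_pos (by omega), if_pos hxm]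
        · rw [if_neg (by omega), if_neg hxm]
      · intro x hx
        by_cases hxm : x < m
        · rw [if_pos (by omega), if_pos hxm]
        · rw [if_neg (by omega), if_neg hxm]
      · rw [if_neg (by omega), if_neg (by omega), kap_lt θ (by omega), (h1 m ho).1]
        field_simp
      · rw [if_pos (by omega), if_pos (by omega), kap_lt θ (by omega), (h1 m ho).2]
    · intro a b hab
      exact sc_merge h.nc m (m + 1) rfl (h.fwd a b hab)
    · intro x hx hox
      by_cases hxm : x = m
      · subst hxm
        exact sc_merge' x (x + 1)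
      · exact sc_merge h.nc m (m + 1) rfl (h.join x (by omega) hox)
    · intro E hE hP hoE a b hab
      have hQ := h.back E hE hP hoE
      refine sc_rel E hE ?_ hab
      intro x
      obtain ⟨u, hu⟩ := Q.surjective m
      have hum : E u m := hQ u m (sc_one hu)
      have hmd : E m (m + 1) := hoE m ho
      by_cases hxu : x = u
      · subst hxu
        have := op_u Q x (m + 1)
        rw [hu] at this
        rw [this]
        exact hE.trans hum (hE.trans hmd (hQ _ _ (sc_one rfl)))
      by_cases hxd : x = m + 1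
      · subst hxd
        have := op_d Q u (m + 1)
        rw [hu] at this
        rw [this]
        exact hE.symm hmd
      have := op_ne Q u (m + 1) x hxu hxd
      rw [hu] at this
      rw [this]
      exact hQ _ _ (sc_one rfl)
  · refine ⟨Q, h.nc, h.sup, ?_, h.fwd, ?_, h.back⟩
    · have e1 : (fun x => if x ≤ m + 1 then L' x else L x) = fun x => if x ≤ m then L' x else L x := by
        funext x
        by_cases hx : x = m + 1
        · subst hx
          rw [if_pos (by omega), if_neg (by omega), (h2 m ho).2]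
        · by_cases hxm : x ≤ m
          · rw [if_pos (by omega), if_pos hxm]
          · rw [if_neg (by omega), if_neg hxm]
      have e2 : (fun x => if x < m + 1 then R' x else R x) = fun x => if x < m then R' x else R x := by
        funext x
        by_cases hx : x = m
        · subst hx
          rw [if_pos (by omega), if_neg (by omega), (h2 x ho).1]
        · by_cases hxm : x < m
          · rw [if_pos (by omega), if_pos hxm]
          · rw [if_neg (by omega), if_neg hxm]
      rw [e1, e2]
      exact h.amp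
    · intro x hx hox
      have : x ≠ m := by rintro rfl; exact ho hox
      exact h.join x (by omega) hox

/-- a whole row of horizontal edges -/
theorem hrow {θ : ℂ} (hθ : θ ≠ 0) {B : ℤ} (hB : 0 ≤ B) {P : Perm ℤ} (hnc : NC P) (hsup : Sup B P)
    {o : ℤ → Prop} {L R L' R' : ℤ → ℂ} (hA : Amp θ P L R) (ho : ∀ x, o x → -B ≤ x ∧ x < B)
    (h1 : ∀ x, o x → L (x + 1) = R x ∧ R' x = θ⁻¹ * L' (x + 1))
    (h2 : ∀ x, ¬ o x → R' x = R x ∧ L' (x + 1) = L (x + 1)) :
    ∃ Q, NC Q ∧ Sup B Q ∧ Amp θ Q L' R' ∧
      (∀ a b, P.SameCycle a b → Q.SameCycle a b) ∧ (∀ x, o x → Q.SameCycle x (x + 1)) ∧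
      (∀ E : ℤ → ℤ → Prop, Equivalence E → (∀ a b, P.SameCycle a b → E a b) →
        (∀ x, o x → E x (x + 1)) → ∀ a b, Q.SameCycle a b → E a b) := by
  have hno : ∀ x, (x < -B ∨ B ≤ x) → ¬ o x := fun x hx h => by
    have := ho x h
    omega
  have base : HInv θ B P o L R L' R' (-B) P := by
    refine ⟨hnc, hsup, ?_, fun a b h => h, ?_, fun E hE hP _ a b h => hP a b h⟩
    · have e1 : (fun x => if x ≤ -B then L' x else L x) = L := by
        funext x
        by_cases hx : x ≤ -B
        · rw [if_pos hx]
          have := (h2 (x - 1) (hno _ (by omega))).2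
          rwa [sub_add_cancel] at this
        · rw [if_neg hx]
      have e2 : (fun x => if x < -B then R' x else R x) = R := by
        funext x
        by_cases hx : x < -B
        · rw [if_pos hx]
          exact (h2 x (hno _ (by omega))).1
        · rw [if_neg hx]
      rw [e1, e2]
      exact hA
    · intro x hx hox
      exact absurd hox (hno x (by omega))
  have step : ∀ k : ℕ, (k : ℤ) ≤ 2 * B → ∃ Q, HInv θ B P o L R L' R' (-B + k) Q := by
    intro k
    induction k with
    | zero => intro _; exact ⟨P, by simpa using base⟩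
    | succ k ih =>
      intro hk
      push_cast at hk
      obtain ⟨Q, hQ⟩ := ih (by omega)
      obtain ⟨Q', hQ'⟩ := hstep hθ h1 h2 (m := -B + k) (by omega) hQ
      refine ⟨Q', ?_⟩
      have : (-B + ((k + 1 : ℕ) : ℤ)) = -B + k + 1 := by push_cast; ring
      rw [this]
      exact hQ'
  obtain ⟨Q, hQ⟩ := step (2 * B).toNat (by omega)
  have e : -B + ((2 * B).toNat : ℤ) = B := by omega
  rw [e] at hQ
  refine ⟨Q, hQ.nc, hQ.sup, ?_, hQ.fwd, ?_, hQ.back⟩
  · have e1 : (fun x => if x ≤ B then L' x else L x) = L' := by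
      funext x
      by_cases hx : x ≤ B
      · rw [if_pos hx]
      · rw [if_neg hx]
        have := (h2 (x - 1) (hno _ (by omega))).2
        rw [sub_add_cancel] at this
        exact this.symm
    have e2 : (fun x => if x < B then R' x else R x) = R' := by
      funext x
      by_cases hx : x < B
      · rw [if_pos hx]
      · rw [if_neg hx]
        exact (h2 x (hno _ (by omega))).1.symm
    have := hQ.amp
    rwa [e1, e2] at this
  · intro x hox
    exact hQ.join x (ho x hox).2 hox

end H47Perc
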