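import Mathlib

/-!
Path amplitudes of a permutation cut at one point, and their change under a transposition.
-/

namespace H47Perc
open Equiv Finset

variable {D : Type*}

/-- chain of length `n` from `x` to `y` whose non-final points avoid `F` -/
def Ch (p : Perm D) (φ : D → ℂ) (F : D → Prop) (x : D) (n : ℕ) (y : D) (c : ℂ) : Prop :=
  (p ^ n) x = y ∧ (∀ i < n, ¬ F ((p ^ i) x)) ∧ ∏ i ∈ range n, φ ((p ^ i) x) = c

lemma Ch.refl (p : Perm D) (φ : D → ℂ) (F : D → Prop) (x : D) : Ch p φ F x 0 x 1 :=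
  ⟨rfl, fun i hi => absurd hi (Nat.not_lt_zero i), by simp⟩

lemma Ch.single (p : Perm D) (φ : D → ℂ) {F : D → Prop} {x : D} (h : ¬ F x) :
    Ch p φ F x 1 (p x) (φ x) := by
  refine ⟨by simp, fun i hi => ?_, by simp⟩
  have : i = 0 := by omega
  subst this
  exact h

lemma Ch.trans {p : Perm D} {φ : D → ℂ} {F : D → Prop} {x y z : D} {n m : ℕ} {c c' : ℂ}
    (h : Ch p φ F x n y c) (h' : Ch p φ F y m z c') : Ch p φ F x (n + m) z (c * c') := by
  obtain ⟨h1, h2, h3⟩ := h
  obtain ⟨g1, g2, g3⟩ := h'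
  have e : ∀ i, (p ^ (n + i)) x = (p ^ i) y := by
    intro i
    rw [add_comm, pow_add, Perm.mul_apply, h1]
  refine ⟨by rw [e]; exact g1, fun i hi => ?_, ?_⟩
  · rcases lt_or_ge i n with h | h
    · exact h2 i h
    · obtain ⟨j, rfl⟩ := Nat.exists_eq_add_of_le h
      rw [e]
      exact g2 j (by omega)
  · rw [prod_range_add, h3]
    congr 1
    rw [← g3]
    exact prod_congr rfl (fun i _ => by rw [e])

lemma Ch.weaken {p : Perm D} {φ : D → ℂ} {F G : D → Prop} {x y : D} {n : ℕ} {c : ℂ}
    (h : Ch p φ F x n y c) (hFG : ∀ z, G z → F z) : Ch p φ G x n y c :=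
  ⟨h.1, fun i hi hg => h.2.1 i hi (hFG _ hg), h.2.2⟩

/-- chains avoiding the modified points are chains of the modified permutation -/
lemma Ch.transfer {p p' : Perm D} {φ φ' : D → ℂ} {F : D → Prop} {x y : D} {n : ℕ} {c : ℂ}
    (h : Ch p φ F x n y c) (hp : ∀ z, ¬ F z → p' z = p z) (hφ : ∀ z, ¬ F z → φ' z = φ z) :
    Ch p' φ' F x n y c := by
  obtain ⟨h1, h2, h3⟩ := h
  have e : ∀ i ≤ n, (p' ^ i) x = (p ^ i) x := by
    intro i
    induction i with
    | zero => intro _; rfl
    | succ i ih =>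
      intro hi
      rw [pow_succ', pow_succ', Perm.mul_apply, Perm.mul_apply, ih (by omega),
        hp _ (h2 i (by omega))]
  refine ⟨by rw [e n le_rfl]; exact h1, fun i hi => by rw [e i hi.le]; exact h2 i hi, ?_⟩
  rw [← h3]
  apply prod_congr rfl
  intro i hi
  rw [mem_range] at hi
  rw [e i hi.le, hφ _ (h2 i hi)]

/-- first visit to `G` -/
lemma Ch.first_hit {p : Perm D} {φ : D → ℂ} {F : D → Prop} (G : D → Prop) {y : D} (n : ℕ) :
    ∀ {x : D} {c : ℂ}, Ch p φ F x n y c →
    Ch p φ (fun z => F z ∨ G z) x n y c ∨ ∃ g, G g ∧ ¬ F g ∧ ∃ n0 n1 c0 c1,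
      Ch p φ (fun z => F z ∨ G z) x n0 g c0 ∧ Ch p φ F (p g) n1 y c1 ∧ n = n0 + 1 + n1 := by
  induction n with
  | zero =>
    intro x c h
    left
    exact ⟨h.1, fun i hi => absurd hi (Nat.not_lt_zero i), h.2.2⟩
  | succ n ih =>
    intro x c h
    obtain ⟨h1, h2, h3⟩ := h
    have hF : ¬ F x := h2 0 (by omega)
    have hsh : Ch p φ F (p x) n y (∏ i ∈ range n, φ ((p ^ i) (p x))) := by
      refine ⟨?_, fun i hi => ?_, rfl⟩
      · rw [pow_succ, Perm.mul_apply] at h1; exact h1
      · have := h2 (i + 1) (by omega)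
        rwa [pow_succ, Perm.mul_apply] at this
    by_cases hG : G x
    · right
      exact ⟨x, hG, hF, 0, n, 1, _, Ch.refl _ _ _ _, hsh, by omega⟩
    · rcases ih hsh with h4 | ⟨g, g1, g2, n0, n1, c0, c1, g3, g4, g5⟩
      · left
        have h5 := (Ch.single p φ (F := fun z => F z ∨ G z) (x := x)
          (by rintro (h | h); exacts [hF h, hG h])).trans h4
        rw [add_comm 1 n] at h5
        refine ⟨h1, h5.2.1, h3⟩
      · right
        have h5 := (Ch.single p φ (F := fun z => F z ∨ G z) (x := x)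
          (by rintro (h | h); exacts [hF h, hG h])).trans g3
        exact ⟨g, g1, g2, 1 + n0, n1, _, c1, h5, g4, by omega⟩

section amp
variable (p : Perm D) (φ : D → ℂ) (s : D)

open Classical in
/-- path amplitude started at `s`: product of the phases along the orbit up to the point
`p.symm s`, zero off the orbit -/
noncomputable def pamp (d : D) : ℂ :=
  if h : ∃ c n, Ch p φ (fun z => z = p.symm s) s n d c then h.choose else 0

variable {p φ s}

lemma Ch.uniq {d : D} {n n' : ℕ} {c c' : ℂ} (h : Ch p φ (fun z => z = p.symm s) s n d c)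
    (h' : Ch p φ (fun z => z = p.symm s) s n' d c') : n = n' ∧ c = c' := by
  have key : ∀ {n n' : ℕ} {c c' : ℂ}, Ch p φ (fun z => z = p.symm s) s n d c →
      Ch p φ (fun z => z = p.symm s) s n' d c' → ¬ n < n' := by
    intro n n' c c' h h' hlt
    obtain ⟨k, rfl⟩ := Nat.exists_eq_add_of_lt hlt
    have h1 : (p ^ (k + 1)) s = s := by
      have h2 : (p ^ n) ((p ^ (k + 1)) s) = (p ^ n) s := by
        rw [← Perm.mul_apply, ← pow_add, h.1, ← h'.1, add_assoc]
      exact (p ^ n).injective h2
    have h3 : (p ^ k) s = p.symm s := by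
      rw [pow_succ', Perm.mul_apply] at h1
      rw [Equiv.eq_symm_apply]
      exact h1
    exact h'.2.1 k (by omega) h3
  have e : n = n' := le_antisymm (not_lt.1 (key h' h)) (not_lt.1 (key h h'))
  subst e
  exact ⟨rfl, h.2.2.symm.trans h'.2.2⟩

lemma pamp_of_ch {d : D} {n : ℕ} {c : ℂ} (h : Ch p φ (fun z => z = p.symm s) s n d c) :
    pamp p φ s d = c := by
  have hex : ∃ c n, Ch p φ (fun z => z = p.symm s) s n d c := ⟨c, n, h⟩
  unfold pamp
  rw [dif_pos hex]
  obtain ⟨n', hn'⟩ := hex.choose_spec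
  exact (Ch.uniq hn' h).2

lemma pamp_off {d : D} (h : ¬ ∃ c n, Ch p φ (fun z => z = p.symm s) s n d c) :
    pamp p φ s d = 0 := by
  unfold pamp
  rw [dif_neg h]

variable (p φ s) in
lemma pamp_self : pamp p φ s s = 1 := pamp_of_ch (Ch.refl _ _ _ _)

lemma pamp_step {d : D} (hd : d ≠ p.symm s) : pamp p φ s (p d) = φ d * pamp p φ s d := by
  by_cases h : ∃ c n, Ch p φ (fun z => z = p.symm s) s n d c
  · obtain ⟨c, n, h⟩ := h
    rw [pamp_of_ch h, pamp_of_ch (h.trans (Ch.single p φ hd)), mul_comm]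
  · rw [pamp_off h, mul_zero]
    apply pamp_off
    rintro ⟨c, n, hc⟩
    apply h
    rcases Nat.eq_zero_or_pos n with rfl | hn
    · exfalso
      have := hc.1
      simp only [pow_zero, Perm.coe_one, id_eq] at this
      apply hd
      rw [Equiv.eq_symm_apply]
      exact this.symm
    · obtain ⟨m, rfl⟩ : ∃ m, n = m + 1 := ⟨n - 1, by omega⟩
      refine ⟨_, m, ?_, fun i hi => hc.2.1 i (by omega), rfl⟩
      have := hc.1
      rw [pow_succ', Perm.mul_apply] at this
      exact p.injective this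

end amp

/-- the two points of the transposition: the key computation if `A` is visited first -/
lemma splice_aux (p p' : Perm D) (s t A A' : D) (φ φ' : D → ℂ) (a b w : ℂ) (hAA : A ≠ A')
    (hts : p t = s) (hφ : ∀ d, φ d ≠ 0) (hφ' : ∀ d, φ' d ≠ 0)
    (hpA : p' A = p A') (hpA' : p' A' = p A)
    (hpo : ∀ d, d ≠ A → d ≠ A' → p' d = p d)
    (hag : ∀ d, d ≠ A → d ≠ A' → φ' d = φ d)
    (h1 : φ A = a) (h2 : φ A' = a) (h3 : φ' A = b) (h4 : φ' A' = b)
    (hw : w ^ 2 = w - 1) (hab : a = w ^ 2 * b) (hA : A ≠ t) (hA' : A' ≠ t)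
    (hper : ∀ x, ∃ n, 0 < n ∧ (p ^ n) x = x)
    (ht : pamp p φ s t = pamp p' φ' s t)
    (n0 : ℕ) (c0 : ℂ) (hfree : Ch p φ (fun z => z = t ∨ (z = A ∨ z = A')) s n0 A c0) :
    pamp p' φ' s A + pamp p' φ' s A' = w * (pamp p φ s A + pamp p φ s A') := by
  have hsymm : p.symm s = t := by rw [Equiv.symm_apply_eq]; exact hts.symm
  have hsymm' : p'.symm s = t := by
    rw [Equiv.symm_apply_eq, hpo t hA.symm hA'.symm, hts]
  set FX : D → Prop := fun z => z = t ∨ (z = A ∨ z = A') with hFX
  set F : D → Prop := fun z => z = t with hF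
  have hb : b ≠ 0 := h3 ▸ hφ' A
  have ha : a ≠ 0 := h1 ▸ hφ A
  have hw0 : w ≠ 0 := by
    rintro rfl
    rw [hab] at ha
    simp at ha
  have tr : ∀ {x y : D} {n : ℕ} {c : ℂ}, Ch p φ FX x n y c → Ch p' φ' FX x n y c := by
    intro x y n c h
    apply h.transfer
    · intro z hz
      apply hpo
      · rintro rfl; exact hz (Or.inr (Or.inl rfl))
      · rintro rfl; exact hz (Or.inr (Or.inr rfl))
    · intro z hz
      apply hag
      · rintro rfl; exact hz (Or.inr (Or.inl rfl))
      · rintro rfl; exact hz (Or.inr (Or.inr rfl))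
  have wk : ∀ {q : Perm D} {ψ : D → ℂ} {x y : D} {n : ℕ} {c : ℂ}, Ch q ψ FX x n y c →
      Ch q ψ F x n y c := fun h => h.weaken (fun z hz => Or.inl hz)
  have prodne : ∀ {q : Perm D} {ψ : D → ℂ} {G : D → Prop} {x y : D} {n : ℕ} {c : ℂ},
      (∀ d, ψ d ≠ 0) → Ch q ψ G x n y c → c ≠ 0 := by
    intro q ψ G x y n c hψ h
    rw [← h.2.2]
    exact prod_ne_zero_iff.2 (fun i _ => hψ _)
  -- amplitudes for `p` and `p'`
  have amp1 : ∀ {n : ℕ} {c : ℂ} {d : D}, Ch p φ F s n d c → pamp p φ s d = c := by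
    intro n c d h
    apply pamp_of_ch (n := n)
    rw [hsymm]; exact h
  have amp2 : ∀ {n : ℕ} {c : ℂ} {d : D}, Ch p' φ' F s n d c → pamp p' φ' s d = c := by
    intro n c d h
    apply pamp_of_ch (n := n)
    rw [hsymm']; exact h
  have LA := amp1 (wk hfree)
  have LA' := amp2 (wk (tr hfree))
  -- no periodic chain avoiding `t` through a point of the orbit of `t`
  have nocyc : ∀ {x : D} {n m : ℕ} {c c' : ℂ}, Ch p φ F x n t c → Ch p φ F x m x c' →
      0 < m → False := by
    intro x n m c c' h h' hm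
    have e : ∀ k, (p ^ (m * k)) x = x := by
      intro k
      induction k with
      | zero => simp
      | succ k ih => rw [Nat.mul_succ, pow_add, Perm.mul_apply, h'.1, ih]
    have e2 : (p ^ n) x = (p ^ (n % m)) x := by
      conv_lhs => rw [← Nat.mod_add_div n m, pow_add, Perm.mul_apply, e]
    apply h'.2.1 (n % m) (Nat.mod_lt _ hm)
    rw [hF]
    simp only
    rw [← e2]
    exact h.1
  -- a chain from `p A` to `t`
  obtain ⟨N, hN0, hN⟩ := hper s
  -- the orbit of `s` reaches `t`
  have hst : ∃ n c, Ch p φ F s n t c := by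
    classical
    have hex : ∃ n, (p ^ n) s = t := ⟨N - 1, by
      have h5 : p ((p ^ (N - 1)) s) = s := by
        rw [← Perm.mul_apply, ← pow_succ', show N - 1 + 1 = N by omega, hN]
      rw [← hsymm, Equiv.eq_symm_apply]
      exact h5⟩
    refine ⟨Nat.find hex, _, Nat.find_spec hex, fun i hi => Nat.find_min hex hi, rfl⟩
  obtain ⟨M, cM, hM⟩ := hst
  -- split at `A`
  have hsplit : ∃ n c, Ch p φ F (p A) n t c := by
    rcases Ch.first_hit (fun z => z = A) M hM with h | ⟨g, rfl, _, m0, m1, d0, d1, g3, g4, _⟩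
    · exfalso
      -- `A` is visited
      have hle : n0 < M := by
        by_contra hcon
        push Not at hcon
        rcases hcon.eq_or_lt with he | hlt
        · rw [← he] at hfree
          exact hA (hfree.1.symm.trans hM.1)
        · exact hfree.2.1 M hlt (Or.inl hM.1)
      exact h.2.1 n0 hle (Or.inr hfree.1)
    · exact ⟨m1, d1, g4⟩
  obtain ⟨M1, cM1, hM1⟩ := hsplit
  have hAt : Ch p φ F A (1 + M1) t (φ A * cM1) := (Ch.single p φ (F := F) hA).trans hM1
  rcases Ch.first_hit (fun z => z = A ∨ z = A') M1 hM1 with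
    hc1 | ⟨g, hg | hg, hgF, m0, m1, d0, d1, g3, g4, _⟩
  · -- `A'` is not on the orbit
    have hc1' : Ch p φ FX (p A) M1 t cM1 := hc1
    have hst : Ch p φ F s (n0 + (1 + M1)) t (c0 * (φ A * cM1)) := (wk hfree).trans hAt
    have hnot : ¬ ∃ c n, Ch p φ F s n A' c := by
      rintro ⟨c, n, h⟩
      have hle : n ≤ n0 + (1 + M1) := by
        by_contra hcon
        push Not at hcon
        exact h.2.1 _ hcon hst.1
      rcases Nat.lt_or_ge n n0 with h5 | h5
      · exact hfree.2.1 n h5 (Or.inr (Or.inr h.1))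
      · obtain ⟨k, rfl⟩ := Nat.exists_eq_add_of_le h5
        have e1 : (p ^ k) A = A' := by
          rw [← h.1, ← hfree.1, ← Perm.mul_apply, ← pow_add, add_comm]
        rcases Nat.eq_zero_or_pos k with rfl | hk
        · exact hAA e1
        · obtain ⟨l, rfl⟩ : ∃ l, k = l + 1 := ⟨k - 1, by omega⟩
          rw [pow_succ, Perm.mul_apply] at e1
          rcases Nat.lt_or_ge l M1 with h6 | h6
          · exact hc1'.2.1 l h6 (Or.inr (Or.inr e1))
          · have : l = M1 := by omega
            subst this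
            exact hA' (e1.symm.trans hc1'.1)
    have L0 : pamp p φ s A' = 0 := by
      apply pamp_off
      rw [hsymm]
      exact hnot
    -- the cycle of `A'`
    obtain ⟨m, hm0, hm⟩ := hper A'
    have hcyc : ∃ n c, Ch p φ FX (p A') n A' c := by
      classical
      have hex : ∃ n, (p ^ n) (p A') = A' := ⟨m - 1, by
        rw [← Perm.mul_apply, ← pow_succ, show m - 1 + 1 = m by omega, hm]⟩
      refine ⟨Nat.find hex, _, Nat.find_spec hex, fun i hi => ?_, rfl⟩
      -- points of the cycle of `A'`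
      have hback : ∀ x, (p ^ i) (p A') = x → (∃ n c, Ch p φ F s n x c) → False := by
        rintro x hx ⟨n, c, hn⟩
        -- `A'` and `s` in the same cycle: the forward orbit of `x` hits `A'`
        have h7 : ∃ l, (p ^ l) x = A' := by
          refine ⟨Nat.find hex - i, ?_⟩
          rw [← hx, ← Perm.mul_apply, ← pow_add, Nat.sub_add_cancel hi.le]
          exact Nat.find_spec hex
        obtain ⟨l, hl⟩ := h7
        -- `A' = p^(n+l) s`, reduce modulo the period
        have h8 : (p ^ (n + l)) s = A' := by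
          rw [add_comm, pow_add, Perm.mul_apply, hn.1, hl]
        have per : ∀ k, (p ^ ((n0 + (1 + M1) + 1) * k)) s = s := by
          have h9 : (p ^ (n0 + (1 + M1) + 1)) s = s := by
            rw [pow_succ', Perm.mul_apply, hst.1, hts]
          intro k
          induction k with
          | zero => simp
          | succ k ih => rw [Nat.mul_succ, pow_add, Perm.mul_apply, h9, ih]
        have h10 : (p ^ ((n + l) % (n0 + (1 + M1) + 1))) s = A' := by
          rw [← h8]
          conv_rhs => rw [← Nat.mod_add_div (n + l) (n0 + (1 + M1) + 1), pow_add,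
            Perm.mul_apply, per]
        have h11 : (n + l) % (n0 + (1 + M1) + 1) < n0 + (1 + M1) + 1 := Nat.mod_lt _ (by omega)
        apply hnot
        refine ⟨_, (n + l) % (n0 + (1 + M1) + 1), h10, fun i hi => ?_, rfl⟩
        exact hst.2.1 i (by omega)
      rintro (h | h | h)
      · exact hback _ h ⟨_, _, hst⟩
      · exact hback _ h ⟨_, _, wk hfree⟩
      · exact Nat.find_min hex hi h
    obtain ⟨m2, c2, hm2⟩ := hcyc
    have s1 : Ch p' φ' F s (n0 + 1) (p A') (c0 * b) := by
      have := (wk (tr hfree)).trans (Ch.single p' φ' (F := F) hA)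
      rwa [hpA, h3] at this
    have s2 : Ch p' φ' F s (n0 + 1 + m2) A' (c0 * b * c2) := s1.trans (wk (tr hm2))
    have s3 : Ch p' φ' F s (n0 + 1 + m2 + 1) (p A) (c0 * b * c2 * b) := by
      have := s2.trans (Ch.single p' φ' (F := F) hA')
      rwa [hpA', h4] at this
    have s4 := s3.trans (wk (tr hc1'))
    have t1 := amp1 hst
    have t2 := amp2 s4
    have t3 := amp2 s2
    rw [t1, t2, h1] at ht
    have hc0 := prodne hφ hfree
    have hcM := prodne hφ hM1
    have e1 : a = b * c2 * b := by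
      have : c0 * cM1 * a = c0 * cM1 * (b * c2 * b) := by linear_combination ht
      exact mul_left_cancel₀ (mul_ne_zero hc0 hcM) this
    have e2 : w ^ 2 = b * c2 := by
      have : w ^ 2 * b = b * c2 * b := by rw [← hab]; exact e1
      exact mul_right_cancel₀ hb this
    rw [LA', t3, LA, L0]
    linear_combination c0 * (hw - e2)
  · -- hitting `A` again
    exfalso
    subst hg
    have h5 : Ch p φ F g (1 + m0) g (φ g * d0) :=
      (Ch.single p φ (F := F) hA).trans (g3.weaken (fun z hz => Or.inl hz))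
    exact nocyc hAt h5 (by omega)
  · -- `A'` comes after `A`
    subst hg
    have g3' : Ch p φ FX (p A) m0 g d0 := g3
    have hA't : Ch p φ F g (1 + m1) t (φ g * d1) := (Ch.single p φ (F := F) hA').trans g4
    -- from `p A'` to `t` freely
    have hfr : Ch p φ FX (p g) m1 t d1 := by
      rcases Ch.first_hit (fun z => z = A ∨ z = g) m1 g4 with
        h | ⟨x, hx | hx, hxF, k0, k1, e0, e1, f3, f4, _⟩
      · exact h
      · exfalso
        subst hx
        have h5 : Ch p φ F x (1 + m0 + (1 + k0)) x (φ x * d0 * (φ g * e0)) :=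
          ((Ch.single p φ (F := F) hA).trans (wk g3')).trans
            ((Ch.single p φ (F := F) hA').trans (f3.weaken (fun z hz => Or.inl hz)))
        exact nocyc hAt h5 (by omega)
      · exfalso
        subst hx
        have h5 : Ch p φ F x (1 + k0) x (φ x * e0) :=
          (Ch.single p φ (F := F) hA').trans (f3.weaken (fun z hz => Or.inl hz))
        exact nocyc hA't h5 (by omega)
    have q1 : Ch p φ F s (n0 + 1) (p A) (c0 * a) := by
      have := (wk hfree).trans (Ch.single p φ (F := F) hA)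
      rwa [h1] at this
    have q2 : Ch p φ F s (n0 + 1 + m0) g (c0 * a * d0) := q1.trans (wk g3')
    have q3 : Ch p φ F s (n0 + 1 + m0 + 1) (p g) (c0 * a * d0 * a) := by
      have := q2.trans (Ch.single p φ (F := F) hA')
      rwa [h2] at this
    have q4 := q3.trans (wk hfr)
    have r1 : Ch p' φ' F s (n0 + 1) (p g) (c0 * b) := by
      have := (wk (tr hfree)).trans (Ch.single p' φ' (F := F) hA)
      rwa [hpA, h3] at this
    have r2 := r1.trans (wk (tr hfr))
    have hnot : ¬ ∃ c n, Ch p' φ' F s n g c := by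
      rintro ⟨c, n, h⟩
      have hle : n ≤ n0 + 1 + m1 := by
        by_contra hcon
        push Not at hcon
        exact h.2.1 _ hcon r2.1
      rcases Nat.lt_or_ge n n0 with h5 | h5
      · exact (tr hfree).2.1 n h5 (Or.inr (Or.inr h.1))
      · obtain ⟨k, rfl⟩ := Nat.exists_eq_add_of_le h5
        have e1 : (p' ^ k) A = g := by
          rw [← h.1, ← (tr hfree).1, ← Perm.mul_apply, ← pow_add, add_comm]
        rcases Nat.eq_zero_or_pos k with rfl | hk
        · exact hAA e1
        · obtain ⟨l, rfl⟩ : ∃ l, k = l + 1 := ⟨k - 1, by omega⟩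
          rw [pow_succ, Perm.mul_apply, hpA] at e1
          rcases Nat.lt_or_ge l m1 with h6 | h6
          · exact (tr hfr).2.1 l h6 (Or.inr (Or.inr e1))
          · have : l = m1 := by omega
            subst this
            exact hA' (e1.symm.trans (tr hfr).1)
    have L0 : pamp p' φ' s g = 0 := by
      apply pamp_off
      rw [hsymm']
      exact hnot
    have t1 := amp1 q4
    have t2 := amp2 r2
    have t3 := amp1 q2
    rw [t1, t2] at ht
    have hc0 := prodne hφ hfree
    have hd1 := prodne hφ g4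
    have e1 : a * d0 * a = b := by
      have : c0 * d1 * (a * d0 * a) = c0 * d1 * b := by linear_combination ht
      exact mul_left_cancel₀ (mul_ne_zero hc0 hd1) this
    have e2 : w ^ 2 * (a * d0) = 1 := by
      have : b * (w ^ 2 * (a * d0)) = b * 1 := by
        rw [mul_one]
        calc b * (w ^ 2 * (a * d0)) = w ^ 2 * b * (a * d0) := by ring
          _ = a * (a * d0) := by rw [← hab]
          _ = b := by rw [← e1]; ring
      exact mul_left_cancel₀ hb this
    rw [LA', L0, LA, t3]
    have e3 : w * (c0 + c0 * a * d0) = c0 := by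
      have h5 : w * (w * (1 + a * d0) - 1) = 0 := by
        linear_combination e2 + hw
      rcases mul_eq_zero.1 h5 with h6 | h6
      · exact absurd h6 hw0
      · linear_combination c0 * h6
    rw [e3, add_zero]

theorem splice (p : Perm D) [DecidableEq D] (s A A' : D) (φ φ' : D → ℂ) (a b w : ℂ)
    (hAA : A ≠ A')
    (hφ : ∀ d, φ d ≠ 0) (hφ' : ∀ d, φ' d ≠ 0) (hag : ∀ d, d ≠ A → d ≠ A' → φ' d = φ d)
    (h1 : φ A = a) (h2 : φ A' = a) (h3 : φ' A = b) (h4 : φ' A' = b)
    (hw : w ^ 2 = w - 1) (hab : a = w ^ 2 * b) (hA : A ≠ p.symm s) (hA' : A' ≠ p.symm s)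
    (hper : ∀ x, ∃ n, 0 < n ∧ (p ^ n) x = x)
    (p' : Perm D) (hp' : p' = p * swap A A')
    (ht : pamp p φ s (p.symm s) = pamp p' φ' s (p.symm s)) :
    pamp p' φ' s A + pamp p' φ' s A' = w * (pamp p φ s A + pamp p φ s A') := by
  have hpA : p' A = p A' := by rw [hp', Perm.mul_apply, swap_apply_left]
  have hpA' : p' A' = p A := by rw [hp', Perm.mul_apply, swap_apply_right]
  have hpo : ∀ d, d ≠ A → d ≠ A' → p' d = p d := by
    intro d h5 h6
    rw [hp', Perm.mul_apply, swap_apply_of_ne_of_ne h5 h6]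
  have hts : p (p.symm s) = s := p.apply_symm_apply s
  have hsymm' : p'.symm s = p.symm s := by
    rw [Equiv.symm_apply_eq, hpo _ hA.symm hA'.symm, hts]
  -- the orbit of `s` reaches `t`
  obtain ⟨N, hN0, hN⟩ := hper s
  have hst : ∃ n c, Ch p φ (fun z => z = p.symm s) s n (p.symm s) c := by
    classical
    have hex : ∃ n, (p ^ n) s = p.symm s := ⟨N - 1, by
      have h5 : p ((p ^ (N - 1)) s) = s := by
        rw [← Perm.mul_apply, ← pow_succ', show N - 1 + 1 = N by omega, hN]
      rw [Equiv.eq_symm_apply]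
      exact h5⟩
    refine ⟨Nat.find hex, _, Nat.find_spec hex, fun i hi => Nat.find_min hex hi, rfl⟩
  obtain ⟨M, cM, hM⟩ := hst
  rcases Ch.first_hit (fun z => z = A ∨ z = A') M hM with
    h | ⟨g, rfl | rfl, hgF, m0, m1, d0, d1, g3, g4, _⟩
  · -- neither point is visited
    have tr : Ch p' φ' (fun z => z = p.symm s ∨ (z = A ∨ z = A')) s M (p.symm s) cM := by
      apply h.transfer
      · intro z hz
        apply hpo
        · rintro rfl; exact hz (Or.inr (Or.inl rfl))
        · rintro rfl; exact hz (Or.inr (Or.inr rfl))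
      · intro z hz
        apply hag
        · rintro rfl; exact hz (Or.inr (Or.inl rfl))
        · rintro rfl; exact hz (Or.inr (Or.inr rfl))
    have hz : ∀ {q : Perm D} {ψ : D → ℂ},
        Ch q ψ (fun z => z = p.symm s ∨ (z = A ∨ z = A')) s M (p.symm s) cM →
        ∀ x, (x = A ∨ x = A') → x ≠ p.symm s →
        ¬ ∃ c n, Ch q ψ (fun z => z = p.symm s) s n x c := by
      rintro q ψ hq x hx hxs ⟨c, n, hn⟩
      rcases Nat.lt_trichotomy n M with h5 | h5 | h5
      · apply hq.2.1 n h5
        rw [hn.1]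
        exact Or.inr hx
      · rw [h5] at hn
        exact hxs (hn.1.symm.trans hq.1)
      · exact hn.2.1 M h5 hq.1
    have z1 : pamp p φ s A = 0 := pamp_off (hz h A (Or.inl rfl) hA)
    have z2 : pamp p φ s A' = 0 := pamp_off (hz h A' (Or.inr rfl) hA')
    have z3 : pamp p' φ' s A = 0 := by
      apply pamp_off
      rw [hsymm']
      exact hz tr A (Or.inl rfl) hA
    have z4 : pamp p' φ' s A' = 0 := by
      apply pamp_off
      rw [hsymm']
      exact hz tr A' (Or.inr rfl) hA'
    rw [z1, z2, z3, z4]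
    ring
  · exact splice_aux p p' s (p.symm s) g A' φ φ' a b w hAA hts hφ hφ' hpA hpA' hpo hag h1 h2 h3 h4
      hw hab hA hA' hper ht m0 d0 g3
  · have := splice_aux p p' s (p.symm s) g A φ φ' a b w hAA.symm hts hφ hφ' hpA' hpA
      (fun d h5 h6 => hpo d h6 h5) (fun d h5 h6 => hag d h6 h5) h2 h1 h4 h3
      hw hab hA' hA hper ht m0 d0 (g3.weaken (by tauto))
    rw [add_comm, this, add_comm]

end H47Perc
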