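import Pool.Agent.Helper47.Perc.Lower
import Pool.Agent.Helper47.Perc.Glue

/-!
Upper bound: `n · piQ n · piH a b n ≤ C` from the sum rule and crossing estimates.
-/

namespace H47Perc
open Finset
open Pool.Agent.Helper69.RSW (P P_mono P_map P_restrict P_congr Dep Up harris P_nonneg P_indep
  P_or_le P_le_one)

/-- crossing estimates for all aspect ratios -/
def CrossBound : Prop := ∀ k : ℕ, ∃ c > 0, ∀ n : ℕ, 1 ≤ n → c ≤ pLR (k * n) n

lemma perc_or_le (S : Finset (ℤ × ℤ)) (A B : Finset (Sym2 (ℤ × ℤ)) → Prop) :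
    perc half S (fun ω => A ω ∨ B ω) ≤ perc half S A + perc half S B := by
  rw [Pool.Agent.Helper69.RSW.perc_half_eq, Pool.Agent.Helper69.RSW.perc_half_eq,
    Pool.Agent.Helper69.RSW.perc_half_eq]
  exact P_or_le _ _ _

/-- the corner is joined to the right side -/
lemma piQ_le_right (n : ℕ) : piQ n ≤ 2 * perc half (box 0 n 0 n)
    (fun ω => ∃ y : ℤ, Joined ω (0, 0) (n, y)) := by
  have h1 : perc half (box 0 n 0 n) (fun ω => ∃ y : ℤ, Joined ω (0, 0) (n, y))
      = perc half (box 0 n 0 n) (fun ω => ∃ x : ℤ, Joined ω (0, 0) (x, n)) := by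
    conv_lhs => rw [← box_transp 0 n 0 n, perc_half_map transp_iso]
    congr 1
    funext ω
    apply propext
    constructor
    · rintro ⟨y, hy⟩
      exact ⟨y, (joined_map (f := transp) (ω := ω) (u := (0, 0)) (v := (y, n))).1 hy⟩
    · rintro ⟨y, hy⟩
      exact ⟨y, (joined_map (f := transp) (ω := ω) (u := (0, 0)) (v := (y, n))).2 hy⟩
  have h2 : piQ n ≤ perc half (box 0 n 0 n) (fun ω => (∃ y : ℤ, Joined ω (0, 0) (n, y)) ∨
      (∃ x : ℤ, Joined ω (0, 0) (x, n))) := by
    apply perc_half_mono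
    rintro ω hω ⟨⟨z1, z2⟩, h | h, hj⟩
    · left
      simp only at h
      exact ⟨z2, h ▸ hj⟩
    · right
      simp only at h
      exact ⟨z1, h ▸ hj⟩
  have h3 := perc_or_le (box 0 n 0 n) (fun ω => ∃ y : ℤ, Joined ω (0, 0) (n, y))
    (fun ω => ∃ x : ℤ, Joined ω (0, 0) (x, n))
  rw [← h1] at h3
  linarith

section glue
variable {a b : ℝ} {j : ℕ} {z : ℤ × ℤ} {c : ℝ}

/-- the connection of `z` to the bottom line of the ball `ball z (2j)` inside `DD` -/
def Bot (a b : ℝ) (m : ℤ) (z : ℤ × ℤ) (k : ℤ) (ω : Finset (Sym2 (ℤ × ℤ))) : Prop :=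
  ∃ x : ℤ, Joined (ω ∩ edgesIn (DD a b m ∩ ball z k)) z (x, z.2 - k)

lemma up_Bot (m : ℤ) (k : ℤ) : Up (Bot a b m z k) := by
  rintro ω ω' h ⟨x, hx⟩
  exact ⟨x, joined_mono (inter_subset_inter_right h) hx⟩

lemma not_DD_right (ha : 0 ≤ a) {m : ℤ} (hb : 0 ≤ b) {w : ℤ × ℤ} (h1 : 0 ≤ w.1) (h2 : 0 ≤ w.2)
    (hw : w ∉ DD a b m) {w' : ℤ × ℤ} (h3 : w.1 ≤ w'.1) (h4 : w.2 ≤ w'.2) : w' ∉ DD a b m := by
  intro h
  apply hw
  rw [mem_DD] at h ⊢
  refine ⟨by omega, ?_⟩
  have e1 : (w.1 : ℝ) ≤ w'.1 := by exact_mod_cast h3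
  have e2 : (w.2 : ℝ) ≤ w'.2 := by exact_mod_cast h4
  linarith [mul_le_mul_of_nonneg_left e1 ha, mul_le_mul_of_nonneg_left e2 hb, h.2]

/-- half-plane arms can be turned into arms towards the bottom -/
lemma bot_lower (hab : a ≤ b) (ha : 0 ≤ a) (hb : 0 < b) (hj : 1 ≤ j)
    (hc : 0 < c) (hRSW : ∀ n : ℕ, 1 ≤ n → c ≤ pLR (16 * n) n)
    (hz : z ∈ DD a b (16 * j)) (hz1 : 4 * j ≤ z.1) (hz2 : z.1 ≤ 8 * j)
    (htop : b * (16 * j) < a * z.1 + b * z.2 + b) :
    c / 3 * piH a b (2 * j) ≤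
      perc half (box 0 (32 * j) 0 (32 * j)) (Bot a b (16 * j) z (2 * j)) := by
  set m : ℤ := 16 * j with hm
  set k : ℤ := 2 * j with hk
  set D := DD a b m with hD
  set B := box 0 (32 * j) 0 (32 * j) with hB
  have hzm := mem_DD.1 hz
  have hy : 8 * (j : ℤ) ≤ z.2 := by
    have h3 : b * m < b * (z.1 + z.2 + 1) := by
      have : a * z.1 ≤ b * z.1 := mul_le_mul_of_nonneg_right hab (by exact_mod_cast hzm.1.1)
      rw [hm]; push_cast
      linarith
    have h4 : (m : ℝ) < z.1 + z.2 + 1 := lt_of_mul_lt_mul_left h3 hb.le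
    have h5 : m < z.1 + z.2 + 1 := by exact_mod_cast h4
    omega
  have hDB : D ∩ ball z k ⊆ B := by
    intro w hw
    rw [mem_inter, mem_DD] at hw
    rw [mem_box]
    omega
  have hzI : z ∈ D ∩ ball z k := by
    rw [mem_inter, mem_ball]
    refine ⟨hz, ?_⟩
    simp
    omega
  -- the two sides
  set Lf : Finset (Sym2 (ℤ × ℤ)) → Prop :=
    fun ω => ∃ y : ℤ, Joined (ω ∩ edgesIn (D ∩ ball z k)) z (z.1 - k, y) with hLf
  set Rt : Finset (Sym2 (ℤ × ℤ)) → Prop :=
    fun ω => ∃ y : ℤ, Joined (ω ∩ edgesIn (D ∩ ball z k)) z (z.1 + k, y) with hRt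
  have upL : Up Lf := by
    rintro ω ω' h ⟨x, hx⟩
    exact ⟨x, joined_mono (inter_subset_inter_right h) hx⟩
  have upR : Up Rt := by
    rintro ω ω' h ⟨x, hx⟩
    exact ⟨x, joined_mono (inter_subset_inter_right h) hx⟩
  -- the arm event
  have h1 : piH a b (2 * j) ≤ perc half B (Arm D z k) := by
    rw [perc_arm z k hDB, piH_eq (n := 2 * j) _ (halfBox_inter a b le_rfl)]
    have e1 := armP_map (transl_sym z) (halfBox a b (2 * j : ℕ)) (0, 0) (2 * j : ℕ)
    have e2 : transl z (0, 0) = z := by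
      obtain ⟨z1, z2⟩ := z
      simp [transl]
    rw [e2] at e1
    rw [← e1]
    have e5 : ((2 * j : ℕ) : ℤ) = k := by push_cast; rfl
    rw [e5]
    apply armP_mono
    intro w hw
    rw [mem_inter, mem_map_equiv, mem_halfBox, mem_ball, mem_ball] at hw
    have e3 : (transl z).symm w = (w.1 - z.1, w.2 - z.2) := by
      obtain ⟨w1, w2⟩ := w
      obtain ⟨z1, z2⟩ := z
      simp only [transl, Equiv.addRight_symm, Equiv.coe_addRight, Prod.mk_add_mk, Prod.neg_mk,
        Prod.mk.injEq]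
      omega
    rw [e3] at hw
    obtain ⟨⟨h2, h3⟩, h4, h5⟩ := hw
    rw [abs_le] at h4 h5
    push_cast at h3
    have hw1 : (0:ℝ) ≤ w.1 := by
      have : 0 ≤ w.1 := by omega
      exact_mod_cast this
    have h6 : a * w.1 + b * w.2 ≤ b * m := by
      have := hzm.2
      nlinarith
    rw [mem_DD]
    refine ⟨⟨by omega, by omega, by omega, ?_⟩, h6⟩
    have h7 : b * (w.2 : ℝ) ≤ b * m := by
      have := mul_nonneg ha hw1
      linarith
    have h8 : (w.2 : ℝ) ≤ m := le_of_mul_le_mul_left h7 hb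
    exact_mod_cast h8
  have h2 : perc half B (Arm D z k) ≤ perc half B Lf + perc half B Rt +
      perc half B (Bot a b m z k) := by
    have e1 : perc half B (Arm D z k) ≤
        perc half B (fun ω => (Lf ω ∨ Rt ω) ∨ Bot a b m z k ω) := by
      apply perc_half_mono
      rintro ω hω ⟨⟨w1, w2⟩, hw1, hw2⟩
      have hwm := mem_of_joined inter_subset_right hw2 hzI
      rw [mem_inter, mem_ball, abs_le, abs_le] at hwm
      simp only at hwm
      rcases hw1 with hw1 | hw1
      · simp only at hw1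
        rcases (abs_eq (by omega)).1 hw1 with h | h
        · left; right
          exact ⟨w2, by rwa [show z.1 + k = w1 by omega]⟩
        · left; left
          exact ⟨w2, by rwa [show z.1 - k = w1 by omega]⟩
      · simp only at hw1
        rcases (abs_eq (by omega)).1 hw1 with h | h
        · -- top: only at the left corner
          left; left
          have e3 := (mem_DD.1 hwm.1).2
          simp only at e3
          have e4 : (w2 : ℝ) = z.2 + k := by
            have : w2 = z.2 + k := by omega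
            rw [this]; push_cast; ring
          have e5 : b * (k - 1) < a * (z.1 - w1) := by
            rw [e4] at e3
            have : b * (m : ℝ) = b * (16 * j) := by rw [hm]; push_cast; ring
            nlinarith
          have e6 : w1 ≤ z.1 - k := by
            by_contra hcon
            push Not at hcon
            have e7 : (z.1 : ℝ) - w1 ≤ k - 1 := by
              have : z.1 - w1 ≤ k - 1 := by omega
              exact_mod_cast this
            have e8 : (0:ℝ) ≤ k - 1 := by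
              have : 0 ≤ k - 1 := by omega
              exact_mod_cast this
            have e9 : a * ((z.1 : ℝ) - w1) ≤ a * (k - 1) := mul_le_mul_of_nonneg_left e7 ha
            have e10 : a * ((k:ℝ) - 1) ≤ b * (k - 1) := mul_le_mul_of_nonneg_right hab e8
            linarith
          exact ⟨w2, by rwa [show z.1 - k = w1 by omega]⟩
        · right
          exact ⟨w1, by rwa [show z.2 - k = w2 by omega]⟩
    have e2 := perc_or_le B (fun ω => Lf ω ∨ Rt ω) (Bot a b m z k)
    have e3 := perc_or_le B Lf Rt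
    linarith
  -- gluing with vertical crossings
  have hcross : ∀ x0 : ℤ, z.1 - k ≤ x0 → x0 + j ≤ z.1 + k →
      ∀ A : Finset (Sym2 (ℤ × ℤ)) → Prop, Up A →
      (∀ ω ⊆ edgesIn B, A ω → BT x0 (x0 + j) (z.2 - k) (z.2 + k)
        (ω ∩ edgesIn (box x0 (x0 + j) (z.2 - k) (z.2 + k))) → Bot a b m z k ω) →
      c * perc half B A ≤ perc half B (Bot a b m z k) := by
    intro x0 hx1 hx2 A hA himp
    have e1 : c ≤ perc half B (fun ω => BT x0 (x0 + j) (z.2 - k) (z.2 + k)
        (ω ∩ edgesIn (box x0 (x0 + j) (z.2 - k) (z.2 + k)))) := by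
      rw [perc_restrict (by rw [hB]; apply box_mono <;> omega), perc_BT]
      rw [show x0 + (j:ℤ) - x0 = j by ring, show z.2 + k - (z.2 - k) = 4 * j by rw [hk]; ring]
      exact (hRSW j hj).trans (pLR_anti (by omega) (by omega) _)
    have e2 := perc_harris B hA (up_inter (up_BT x0 (x0 + j) (z.2 - k) (z.2 + k))
      (edgesIn (box x0 (x0 + j) (z.2 - k) (z.2 + k))))
    have e3 : perc half B (fun ω => A ω ∧ BT x0 (x0 + j) (z.2 - k) (z.2 + k)
        (ω ∩ edgesIn (box x0 (x0 + j) (z.2 - k) (z.2 + k)))) ≤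
        perc half B (Bot a b m z k) :=
      perc_half_mono (fun ω hω h => himp ω hω h.1 h.2)
    have e4 : perc half B A * c ≤ perc half B A * perc half B
        (fun ω => BT x0 (x0 + j) (z.2 - k) (z.2 + k)
        (ω ∩ edgesIn (box x0 (x0 + j) (z.2 - k) (z.2 + k)))) :=
      mul_le_mul_of_nonneg_left e1 (perc_half_nonneg _ _)
    linarith
  -- the bottom line of the ball is in `D`
  have hbot : ∀ x : ℤ, z.1 - k ≤ x → x ≤ z.1 + k → (x, z.2 - k) ∈ D := by
    intro x h3 h4
    rw [mem_DD]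
    simp only
    refine ⟨by omega, ?_⟩
    push_cast
    have e1 : (x : ℝ) ≤ z.1 + k := by exact_mod_cast h4
    have e2 : a * x ≤ a * (z.1 + k) := mul_le_mul_of_nonneg_left e1 ha
    have e3 : (0:ℝ) ≤ k := by
      have : 0 ≤ k := by omega
      exact_mod_cast this
    have e4 : a * k ≤ b * k := mul_le_mul_of_nonneg_right hab e3
    linarith [hzm.2]
  have hline' : ∀ x0 : ℤ, z.1 - k ≤ x0 → x0 + j ≤ z.1 + k →
      ∀ w ∈ box x0 (x0 + j) (z.2 - k) (z.2 + k), w ∉ D ∩ ball z k →
      ∀ w' : ℤ × ℤ, w.2 ≤ w'.2 → w'.2 ≤ z.2 + k → w'.1 = w.1 → w' ∉ D ∩ ball z k := by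
    intro x0 hx1 hx2 w hw hw1 w' h3 h4 h5
    rw [mem_box] at hw
    have hwb : w ∈ ball z k := by
      rw [mem_ball, abs_le, abs_le]; omega
    have hwD : w ∉ D := fun h => hw1 (mem_inter.2 ⟨h, hwb⟩)
    intro hcon
    exact not_DD_right ha hb.le (by omega) (by omega) hwD (by omega) h3
      (mem_inter.1 hcon).1
  have hLeft : c * perc half B Lf ≤ perc half B (Bot a b m z k) := by
    apply hcross (z.1 - k) le_rfl (by omega) Lf upL
    rintro ω hω ⟨y, hy1⟩ ⟨xa, xb, g1, g2, g3, g4, g5⟩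
    have hyb := mem_of_joined inter_subset_right hy1 hzI
    refine ⟨xa, ?_⟩
    have := vcross (D := D ∩ ball z k) (T := D ∩ ball z k) (a := (z.1 - k, y)) (b := z)
      (hline' (z.1 - k) le_rfl (by omega)) g5
      (mem_inter.2 ⟨hbot xa (by omega) (by omega), by rw [mem_ball, abs_le, abs_le]; simp only; omega⟩)
      (by rw [mem_box]; simp only; omega) (by omega) (subset_refl _) (joined_symm hy1) hyb
      (fun w hw => by
        rw [mem_inter, mem_ball, abs_le, abs_le] at hw; omega)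
      (by simp) (by omega)
    exact joined_symm (joined_trans this (joined_symm hy1))
  have hRight : c * perc half B Rt ≤ perc half B (Bot a b m z k) := by
    apply hcross (z.1 + k - j) (by omega) (by omega) Rt upR
    rintro ω hω ⟨y, hy1⟩ ⟨xa, xb, g1, g2, g3, g4, g5⟩
    refine ⟨xa, ?_⟩
    have := vcross (D := D ∩ ball z k) (T := D ∩ ball z k) (a := z) (b := (z.1 + k, y))
      (hline' (z.1 + k - j) (by omega) (by omega)) g5
      (mem_inter.2 ⟨hbot xa (by omega) (by omega), by rw [mem_ball, abs_le, abs_le]; simp only; omega⟩)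
      (by rw [mem_box]; simp only; omega) (by omega) (subset_refl _) hy1 hzI
      (fun w hw => by
        rw [mem_inter, mem_ball, abs_le, abs_le] at hw; omega)
      (by omega) (by simp only; omega)
    exact joined_symm this
  have hc1 : c ≤ 1 := (hRSW j hj).trans (perc_half_le_one _ _)
  have hb0 : 0 ≤ perc half B (Bot a b m z k) := perc_half_nonneg _ _
  have hfin : c * piH a b (2 * j) ≤ 3 * perc half B (Bot a b m z k) := by
    have : c * piH a b (2 * j) ≤ c * (perc half B Lf + perc half B Rt +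
      perc half B (Bot a b m z k)) := mul_le_mul_of_nonneg_left (h1.trans h2) hc.le
    nlinarith
  linarith

/-- the deterministic part of the gluing -/
lemma det_glue (ha : 0 ≤ a) (hb : 0 < b) (hj : 1 ≤ j) {m k : ℤ}
    (hm : m = 16 * j) (hk : k = 2 * j)
    (hz : z ∈ DD a b m) (hz1 : 4 * j ≤ z.1) (hy : 8 * (j : ℤ) ≤ z.2)
    {ω : Finset (Sym2 (ℤ × ℤ))}
    (g1 : ∃ y : ℤ, Joined (ω ∩ edgesIn (box 0 k 0 k)) (0, 0) (k, y))
    (gV : BT 0 k 0 (z.2 - j) (ω ∩ edgesIn (box 0 k 0 (z.2 - j))))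
    (gH : LR 0 (z.1 + k) (z.2 - k) (z.2 - j)
      (ω ∩ edgesIn (box 0 (z.1 + k) (z.2 - k) (z.2 - j))))
    (gB : Bot a b m z k ω) : Joined (ω ∩ edgesIn (DD a b m)) (0, 0) z := by
  set D := DD a b m with hD
  have hzm := mem_DD.1 hz
  have hY : IsYoung D := DD_young ha hb (by omega)
  have hbelow : ∀ w : ℤ × ℤ, 0 ≤ w.1 → 0 ≤ w.2 → w.1 ≤ z.1 → w.2 ≤ z.2 → w ∈ D :=
    fun w h1 h2 h3 h4 => hY.2.2 z hz w h1 h2 h3 h4
  obtain ⟨y1, g1⟩ := g1
  obtain ⟨xa, xb, f1, f2, f3, f4, f5⟩ := gV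
  obtain ⟨ya, yb, e1, e2, e3, e4, e5⟩ := gH
  obtain ⟨x, g2⟩ := gB
  have hzI : z ∈ D ∩ ball z k := by
    rw [mem_inter, mem_ball]
    refine ⟨hz, ?_⟩
    simp
    omega
  have hlineH : ∀ w ∈ box 0 (z.1 + k) (z.2 - k) (z.2 - j), w ∉ D → ∀ w' : ℤ × ℤ,
      w.1 ≤ w'.1 → w'.1 ≤ z.1 + k → w'.2 = w.2 → w' ∉ D := by
    intro w hw hw1 w' h3 h4 h5
    rw [mem_box] at hw
    exact not_DD_right ha hb.le (by omega) (by omega) hw1 h3 (by omega)
  have hya : ((0, ya) : ℤ × ℤ) ∈ D := hbelow _ (by simp) (by simp only; omega)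
      (by simp only; omega) (by simp only; omega)
  have hya' : ((0, ya) : ℤ × ℤ) ∈ box 0 (z.1 + k) (z.2 - k) (z.2 - j) := by
    rw [mem_box]; simp only; omega
  have s1 : Joined (ω ∩ edgesIn D) (0, ya) z :=
    hcross (T := D ∩ ball z k) hlineH e5 hya hya'
      inter_subset_left g2 hzI
      (fun w hw => by rw [mem_inter, mem_ball, abs_le, abs_le] at hw; omega)
      (by simp) (by omega) (by simp only; omega)
  have hVD : box 0 k 0 (z.2 - j) ⊆ D := by
    intro w hw
    rw [mem_box] at hw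
    exact hbelow w (by omega) (by omega) (by omega) (by omega)
  have hbt : Joined (ω ∩ edgesIn (box 0 k 0 (z.2 - j))) (xb, z.2 - j) (xa, 0) := joined_symm f5
  have hbtm : ((xb, z.2 - j) : ℤ × ℤ) ∈ box 0 k 0 (z.2 - j) := by
    rw [mem_box]; simp only; omega
  have s2 : Joined (ω ∩ edgesIn D) (0, ya) (xb, z.2 - j) :=
    hcross (T := box 0 k 0 (z.2 - j)) hlineH e5 hya hya'
      hVD hbt hbtm
      (fun w hw => by rw [mem_box] at hw; omega)
      (by simp only; omega) (by simp) (by simp only; omega)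
  have s3 : Joined (ω ∩ edgesIn D) (0, 0) (xb, z.2 - j) :=
    hcross (x0 := 0) (x1 := k) (y0 := 0) (y1 := k) (T := box 0 k 0 (z.2 - j))
      (fun w hw hw1 => absurd (by
        rw [mem_box] at hw
        exact hbelow w (by omega) (by omega) (by omega) (by omega)) hw1) g1
      (hbelow _ (by simp) (by simp) (by simp only; omega) (by simp only; omega))
      (by rw [mem_box]; simp only; omega)
      hVD hbt hbtm
      (fun w hw => by rw [mem_box] at hw; omega)
      (by simp) (by simp only; omega) (by simp only; omega)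
  exact joined_trans s3 (joined_trans (joined_symm s2) s1)

/-- the connection probability between the corner and an exit is of the order of the product of
the two arm probabilities -/
lemma conn_lower (hab : a ≤ b) (ha : 0 ≤ a) (hb : 0 < b) (hj : 1 ≤ j)
    (hc : 0 < c) (hRSW : ∀ n : ℕ, 1 ≤ n → c ≤ pLR (16 * n) n)
    (hz : z ∈ DD a b (16 * j)) (hz1 : 4 * j ≤ z.1) (hz2 : z.1 ≤ 8 * j)
    (htop : b * (16 * j) < a * z.1 + b * z.2 + b) :
    c ^ 3 / 6 * (piQ (2 * j) * piH a b (2 * j)) ≤ cn (DD a b (16 * j)) z := by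
  have hbl := bot_lower hab ha hb hj hc hRSW hz hz1 hz2 htop
  obtain ⟨m, hm⟩ : ∃ m : ℤ, m = 16 * j := ⟨_, rfl⟩
  obtain ⟨k, hk⟩ : ∃ k : ℤ, k = 2 * j := ⟨_, rfl⟩
  rw [← hm] at hbl hz ⊢
  rw [← hk] at hbl
  have hzm := mem_DD.1 hz
  have hy : 8 * (j : ℤ) ≤ z.2 := by
    have h3 : b * m < b * (z.1 + z.2 + 1) := by
      have : a * z.1 ≤ b * z.1 := mul_le_mul_of_nonneg_right hab (by exact_mod_cast hzm.1.1)
      rw [hm]; push_cast
      linarith
    have h4 : (m : ℝ) < z.1 + z.2 + 1 := lt_of_mul_lt_mul_left h3 hb.le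
    have h5 : m < z.1 + z.2 + 1 := by exact_mod_cast h4
    omega
  obtain ⟨B, hB⟩ : ∃ B, B = box 0 (32 * j) 0 (32 * j) := ⟨_, rfl⟩
  rw [← hB] at hbl
  -- the four events
  let E1 : Finset (Sym2 (ℤ × ℤ)) → Prop :=
    fun ω => ∃ y : ℤ, Joined (ω ∩ edgesIn (box 0 k 0 k)) (0, 0) (k, y)
  let V : Finset (Sym2 (ℤ × ℤ)) → Prop :=
    fun ω => BT 0 k 0 (z.2 - j) (ω ∩ edgesIn (box 0 k 0 (z.2 - j)))
  let H : Finset (Sym2 (ℤ × ℤ)) → Prop :=
    fun ω => LR 0 (z.1 + k) (z.2 - k) (z.2 - j)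
      (ω ∩ edgesIn (box 0 (z.1 + k) (z.2 - k) (z.2 - j)))
  have up1 : Up E1 := by
    rintro ω ω' h ⟨x, hx⟩
    exact ⟨x, joined_mono (inter_subset_inter_right h) hx⟩
  have upV : Up V := up_inter (up_BT _ _ _ _) _
  have upH : Up H := up_inter (up_LR _ _ _ _) _
  have p1 : piQ (2 * j) / 2 ≤ perc half B E1 := by
    have e1 := piQ_le_right (2 * j)
    have e2 : perc half B E1 = perc half (box 0 k 0 k)
        (fun ω => ∃ y : ℤ, Joined ω (0, 0) (k, y)) :=
      perc_restrict (S := B) (T := box 0 k 0 k)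
        (by rw [hB]; apply box_mono <;> omega)
        (fun ω => ∃ y : ℤ, Joined ω (0, 0) (k, y))
    rw [e2]
    rw [show ((2 * j : ℕ) : ℤ) = k by rw [hk]; push_cast; rfl] at e1
    linarith
  have pV : c ≤ perc half B V := by
    have e2 : perc half B V = perc half (box 0 k 0 (z.2 - j)) (BT 0 k 0 (z.2 - j)) :=
      perc_restrict (by rw [hB]; apply box_mono <;> omega) _
    rw [e2, perc_BT, sub_zero, sub_zero]
    have := hRSW (2 * j) (by omega)
    refine this.trans ((pLR_anti (by omega) ?_ _).trans (pLR_height _ ?_))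
    · push_cast; omega
    · push_cast; omega
  have pH : c ≤ perc half B H := by
    have e2 : perc half B H = perc half (box 0 (z.1 + k) (z.2 - k) (z.2 - j))
        (LR 0 (z.1 + k) (z.2 - k) (z.2 - j)) :=
      perc_restrict (by rw [hB]; apply box_mono <;> omega) _
    rw [e2, perc_LR, sub_zero, show z.2 - (j:ℤ) - (z.2 - k) = j by rw [hk]; ring]
    exact (hRSW j hj).trans (pLR_anti (by omega) (by omega) _)
  have hDB : DD a b m ⊆ B := by
    intro w hw
    rw [mem_DD] at hw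
    rw [hB, mem_box]
    omega
  have hmain : perc half B (fun ω => ((E1 ω ∧ V ω) ∧ H ω) ∧ Bot a b m z k ω) ≤
      cn (DD a b m) z := by
    unfold cn
    rw [← perc_restrict hDB]
    apply perc_half_mono
    rintro ω _ ⟨⟨⟨h1, h2⟩, h3⟩, h4⟩
    exact det_glue ha hb hj hm hk hz hz1 hy h1 h2 h3 h4
  have q1 := perc_harris B up1 upV
  have q2 := perc_harris B (up1.and upV) upH
  have q3 := perc_harris B ((up1.and upV).and upH) (up_Bot (a := a) (b := b) (z := z) m k)
  have n1 : 0 ≤ piQ (2 * j) := piQ_nonneg _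
  have n2 : 0 ≤ piH a b (2 * j) := piH_nonneg _ _ _
  have b1 : 0 ≤ perc half B E1 := perc_half_nonneg _ _
  have b2 : 0 ≤ perc half B V := perc_half_nonneg _ _
  have b3 : 0 ≤ perc half B H := perc_half_nonneg _ _
  have b4 : 0 ≤ perc half B (Bot a b m z k) := perc_half_nonneg _ _
  generalize perc half B (fun ω => ((E1 ω ∧ V ω) ∧ H ω) ∧ Bot a b m z k ω) = t4 at hmain q3
  generalize perc half B (fun ω => (E1 ω ∧ V ω) ∧ H ω) = t3 at q2 q3
  generalize perc half B (fun ω => E1 ω ∧ V ω) = t2 at q1 q2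
  generalize perc half B E1 = r1 at *
  generalize perc half B V = r2 at *
  generalize perc half B H = r3 at *
  generalize perc half B (Bot a b m z k) = r4 at *
  have s1 : piQ (2 * j) / 2 * c ≤ r1 * r2 := mul_le_mul p1 pV hc.le b1
  have s2 : piQ (2 * j) / 2 * c * c ≤ r1 * r2 * r3 :=
    mul_le_mul s1 pH hc.le (mul_nonneg b1 b2)
  have s3 : piQ (2 * j) / 2 * c * c * (c / 3 * piH a b (2 * j)) ≤ r1 * r2 * r3 * r4 :=
    mul_le_mul s2 hbl (by positivity) (mul_nonneg (mul_nonneg b1 b2) b3)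
  have s4 : r1 * r2 * r3 * r4 ≤ t2 * r3 * r4 :=
    mul_le_mul_of_nonneg_right (mul_le_mul_of_nonneg_right q1 b3) b4
  have s5 : t2 * r3 * r4 ≤ t3 * r4 := mul_le_mul_of_nonneg_right q2 b4
  calc c ^ 3 / 6 * (piQ (2 * j) * piH a b (2 * j))
      = piQ (2 * j) / 2 * c * c * (c / 3 * piH a b (2 * j)) := by ring
    _ ≤ cn (DD a b m) z := by linarith

end glue

/-- the upper bound on even scales -/
theorem upper_even {a b : ℝ} (hab : a ≤ b) (ha : 0 ≤ a) (hb : 0 < b) (hR : SumRule) {c : ℝ}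
    (hc : 0 < c) (hRSW : ∀ n : ℕ, 1 ≤ n → c ≤ pLR (16 * n) n) {j : ℕ} (hj : 1 ≤ j) :
    (4 * j + 1) * (c ^ 3 / 6 * (piQ (2 * j) * piH a b (2 * j))) ≤ 2 := by
  classical
  have h1 := hR _ (DD_young ha hb (m := 16 * j) (by omega))
  have h2 : 0 ≤ rightS (DD a b (16 * j)) := sum_nonneg (fun z _ => cn_nonneg _ _)
  have h3 : (4 * j + 1) * (c ^ 3 / 6 * (piQ (2 * j) * piH a b (2 * j))) ≤
      topS (DD a b (16 * j)) := by
    set f : ℤ → ℤ × ℤ := fun x => (x, ⌊(b * (16 * j) - a * x) / b⌋) with hf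
    have hf1 : ∀ x : ℤ, 4 * (j:ℤ) ≤ x → x ≤ 8 * j → f x ∈ DD a b (16 * j) ∧
        b * (16 * j) < a * (f x).1 + b * (f x).2 + b := by
      intro x hx1 hx2
      have e1 := Int.floor_le ((b * (16 * j) - a * x) / b)
      have e2 := Int.lt_floor_add_one ((b * (16 * j) - a * x) / b)
      rw [le_div_iff₀ hb] at e1
      rw [div_lt_iff₀ hb] at e2
      have e3 : (0:ℝ) ≤ x := by
        have : 0 ≤ x := by omega
        exact_mod_cast this
      have e4 : (x:ℝ) ≤ 8 * j := by exact_mod_cast hx2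
      have e5 : a * x ≤ b * (8 * j) := by
        have i1 : a * x ≤ b * x := mul_le_mul_of_nonneg_right hab e3
        have i2 : b * x ≤ b * (8 * j) := mul_le_mul_of_nonneg_left e4 hb.le
        linarith
      have e6 : 0 ≤ a * x := mul_nonneg ha e3
      refine ⟨?_, ?_⟩
      · rw [mem_DD]
        refine ⟨⟨by simp only [hf]; omega, by simp only [hf]; omega, ?_, ?_⟩, ?_⟩
        · simp only [hf]
          apply Int.floor_nonneg.2
          apply div_nonneg _ hb.le
          have : 0 ≤ b * (8 * j) := by positivity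
          linarith
        · simp only [hf]
          have : (⌊(b * (16 * j) - a * x) / b⌋ : ℝ) ≤ 16 * j := by
            by_contra hcon
            push Not at hcon
            nlinarith
          exact_mod_cast this
        · simp only [hf]
          push_cast
          linarith
      · simp only [hf]
        linarith
    have hsub : (Icc (4 * (j:ℤ)) (8 * j)).image f ⊆
        (DD a b (16 * j)).filter (fun z => z + (0, 1) ∉ DD a b (16 * j)) := by
      intro z hz
      rw [mem_image] at hz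
      obtain ⟨x, hx, rfl⟩ := hz
      rw [mem_Icc] at hx
      have := hf1 x hx.1 hx.2
      rw [mem_filter]
      refine ⟨this.1, fun hcon => ?_⟩
      have h4 := (mem_DD.1 hcon).2
      simp only [Prod.fst_add, Prod.snd_add, add_zero] at h4
      push_cast at h4
      linarith [this.2]
    have hinj : Set.InjOn f (Icc (4 * (j:ℤ)) (8 * j)) := by
      intro x _ y _ hxy
      exact congrArg Prod.fst hxy
    calc (4 * j + 1) * (c ^ 3 / 6 * (piQ (2 * j) * piH a b (2 * j)))
        = ∑ x ∈ Icc (4 * (j:ℤ)) (8 * j), (c ^ 3 / 6 * (piQ (2 * j) * piH a b (2 * j))) := by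
          rw [sum_const, Int.card_Icc, nsmul_eq_mul]
          congr 1
          rw [show 8 * (j:ℤ) + 1 - 4 * j = ((4 * j + 1 : ℕ) : ℤ) by push_cast; ring, Int.toNat_natCast]
          push_cast
          ring
      _ ≤ ∑ x ∈ Icc (4 * (j:ℤ)) (8 * j), cn (DD a b (16 * j)) (f x) := by
          apply sum_le_sum
          intro x hx
          rw [mem_Icc] at hx
          have := hf1 x hx.1 hx.2
          exact conn_lower hab ha hb hj hc hRSW this.1 hx.1 hx.2 this.2
      _ = ∑ z ∈ (Icc (4 * (j:ℤ)) (8 * j)).image f, cn (DD a b (16 * j)) z := by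
          rw [sum_image hinj]
      _ ≤ topS (DD a b (16 * j)) := by
          unfold topS
          exact sum_le_sum_of_subset_of_nonneg hsub
            (fun z _ _ => cn_nonneg (DD a b (16 * j)) z)
  linarith

/-- the upper bound for directions in the first octant -/
theorem upper {a b : ℝ} (hab : a ≤ b) (ha : 0 ≤ a) (hb : 0 < b) (hR : SumRule) {c : ℝ}
    (hc : 0 < c) (hc1 : c ≤ 1) (hRSW : ∀ n : ℕ, 1 ≤ n → c ≤ pLR (16 * n) n) {n : ℕ} (hn : 1 ≤ n) :
    n * piQ n * piH a b n ≤ 12 / c ^ 3 := by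
  have hc3 : 0 < c ^ 3 := by positivity
  have hc31 : c ^ 3 ≤ 1 := pow_le_one₀ hc.le hc1
  have n1 := piQ_nonneg n
  have n2 := piH_nonneg a b n
  rcases Nat.lt_or_ge n 2 with h | h
  · have : n = 1 := by omega
    subst this
    have e1 := piQ_le_one 1
    have e2 := piH_le_one a b 1
    rw [le_div_iff₀ hc3]
    push_cast
    nlinarith [mul_le_one₀ e1 n2 e2]
  · obtain ⟨j, hj⟩ : ∃ j, j = n / 2 := ⟨_, rfl⟩
    have hj1 : 1 ≤ j := by omega
    have e1 := upper_even hab ha hb hR hc hRSW hj1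
    have e2 : piQ n ≤ piQ (2 * j) := piQ_anti (by omega)
    have e3 : piH a b n ≤ piH a b (2 * j) := piH_anti a b (by omega)
    have e4 : piQ n * piH a b n ≤ piQ (2 * j) * piH a b (2 * j) :=
      mul_le_mul e2 e3 n2 (piQ_nonneg _)
    have e5 : (n : ℝ) ≤ 4 * j + 1 := by
      have : n ≤ 4 * j + 1 := by omega
      exact_mod_cast this
    rw [le_div_iff₀ hc3]
    have e6 : (n : ℝ) * (piQ n * piH a b n) ≤
        (4 * j + 1) * (piQ (2 * j) * piH a b (2 * j)) :=
      mul_le_mul e5 e4 (mul_nonneg n1 n2) (by positivity)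
    nlinarith

end H47Perc
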